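import Pool.Agent.H3.FS.PRI
import Pool.Agent.H94.PC.PrCount
import Pool.Agent.H94.PC.Facs

set_option autoImplicit false

/-!
# [H74 FS PRA] Quadratic characters over the primes; the number of primes

* `rh`: `H3.FS.pri` with `ρ = 0`, `d = 0`, `a : Fin 0 → F[X]` the empty family, `Ξ = MvPolynomial.C f`, `h = deg f`.  `Ind a` is void (no nonempty subset of `Fin 0`), `Bd h 0 Ξ`: total degree `0`, the coefficients are `f` and `0`.
  `Rt m P a` = all functions `Fin 0 → F[X]`, one element, so the inner sum is `js f P` (`MvPolynomial.eval_C`; `finsum` over a subsingleton type).  `NRM'`: `y = y'` (`Subsingleton`).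
  `NS` for `C ν * f` over `E`: let `L`, `φ : E[X] → L` injective, `w` in the subfield generated by the range of `φ` (the range of `y : Fin 0 → L` is empty), so `w = φ p / φ q`, `q ≠ 0` (`Subfield.closure` of the range of a ring
  homomorphism: induction `Subfield.closure_induction` shows that every element is a quotient), and `w² = φ (ν f)` gives `p² = C ν * f_E * q²` in `E[X]`.  `f_E = f.map (algebraMap F E)` is squarefree: `f` is squarefree over the
  finite (perfect) field `F`, so separable (`PerfectField.separable_iff_squarefree`), `Separable.map`, `Separable.squarefree`; it is not a unit (degree).  Take an irreducible factor `π` of `f_E`: it divides `f_E` exactly once, so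
  `p² = ν f_E q²` has odd multiplicity of `π` on the right: contradiction.
  The constant: `K` from `pri F h2 0 0`; `h = deg f ≥ 1`.
* `prn`: `∑ d ∣ m, d * #(Pr F d) = q ^ m` (every `θ ∈ E`, `E` the extension of degree `m`, has a minimal polynomial of degree `d ∣ m`, and every `P ∈ Pr F d`, `d ∣ m`, has exactly `d` roots in `E`; or only `≤`: `q ^ m = #E ≤ ∑ d ∣ m, ∑ P ∈ Pr F d, #roots ≤ ∑ d ∣ m, d #(Pr F d)`),
  `d * #(Pr F d) ≤ q ^ d` (`H94.PC.card_Pr_mul_le`).  So `m #(Pr F m) ≥ q ^ m - ∑ d ≤ m / 2, q ^ d ≥ q ^ m / 2` (`∑ d ∈ Icc 1 k, q ^ d ≤ (3 / 2) q ^ k`, `q ≥ 3`; `m = 1`: the sum is empty; `m ≥ 2`, `k = m / 2`: `3 q ^ k ≤ q ^ (k + 1) ≤ q ^ m`).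
-/

namespace Pool.Agent.H74.FS

open Polynomial
open Pool.Agent.H94.PC (Pr js)

private theorem descent {E : Type} [Field E] {g : E[X]} (hg : Squarefree g) (hd : 1 ≤ g.natDegree)
    {ν : E} (hν : ν ≠ 0) : ∀ (n : ℕ) (p q : E[X]), q.natDegree = n → q ≠ 0 →
      C ν * g * q ^ 2 ≠ p ^ 2 := by
  intro n
  induction n using Nat.strong_induction_on with
  | _ n ih =>
    intro p q hn hq h
    have hg0 : g ≠ 0 := hg.ne_zero
    have h1 : g ∣ p ^ 2 := ⟨C ν * q ^ 2, by rw [← h]; ring⟩
    obtain ⟨p1, rfl⟩ := (hg.dvd_pow_iff_dvd two_ne_zero).1 h1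
    have h2 : C ν * q ^ 2 = g * p1 ^ 2 := by
      apply mul_left_cancel₀ hg0
      linear_combination h
    have h3 : g ∣ q ^ 2 := by
      refine ⟨C ν⁻¹ * p1 ^ 2, ?_⟩
      have h4 : C ν⁻¹ * C ν = (1 : E[X]) := by rw [← C_mul, inv_mul_cancel₀ hν, C_1]
      linear_combination (-(q ^ 2)) * h4 + C ν⁻¹ * h2
    obtain ⟨q1, rfl⟩ := (hg.dvd_pow_iff_dvd two_ne_zero).1 h3
    have hq1 : q1 ≠ 0 := right_ne_zero_of_mul hq
    rw [natDegree_mul hg0 hq1] at hn
    refine ih q1.natDegree (by omega) p1 q1 rfl hq1 ?_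
    apply mul_left_cancel₀ hg0
    linear_combination h2

private theorem clos {E L : Type} [Field E] [Field L] (f : E[X] →+* L) (hf : Function.Injective f)
    {y : Fin 0 → L} {w : L} (hw : w ∈ Subfield.closure (Set.range f ∪ Set.range y)) :
    ∃ p q : E[X], q ≠ 0 ∧ w * f q = f p := by
  have hf0 : ∀ q, q ≠ 0 → f q ≠ 0 := fun q hq h => hq (hf (by rw [h, map_zero]))
  induction hw using Subfield.closure_induction with
  | mem x hx =>
    rcases hx with ⟨p, rfl⟩ | ⟨i, _⟩
    · exact ⟨p, 1, one_ne_zero, by rw [map_one, mul_one]⟩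
    · exact i.elim0
  | one => exact ⟨1, 1, one_ne_zero, by rw [map_one, mul_one]⟩
  | add x y _ _ hx hy =>
    obtain ⟨p, q, hq, h⟩ := hx
    obtain ⟨p', q', hq', h'⟩ := hy
    refine ⟨p * q' + p' * q, q * q', mul_ne_zero hq hq', ?_⟩
    rw [map_add, map_mul, map_mul, map_mul, ← h, ← h']
    ring
  | neg x _ hx =>
    obtain ⟨p, q, hq, h⟩ := hx
    exact ⟨-p, q, hq, by rw [map_neg, ← h]; ring⟩
  | inv x _ hx =>
    obtain ⟨p, q, hq, h⟩ := hx
    by_cases hx0 : x = 0
    · refine ⟨0, 1, one_ne_zero, ?_⟩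
      rw [hx0, inv_zero, zero_mul, map_zero]
    · refine ⟨q, p, ?_, ?_⟩
      · rintro rfl
        rw [map_zero] at h
        exact mul_ne_zero hx0 (hf0 q hq) h
      · rw [← h, inv_mul_cancel_left₀ hx0]
  | mul x y _ _ hx hy =>
    obtain ⟨p, q, hq, h⟩ := hx
    obtain ⟨p', q', hq', h'⟩ := hy
    refine ⟨p * p', q * q', mul_ne_zero hq hq', ?_⟩
    rw [map_mul, map_mul, ← h, ← h']
    ring

/-- the bound for quadratic characters -/
theorem rh (F : Type) [Field F] [Finite F] (h2 : (2 : F) ≠ 0) : ∃ K : ℝ, 0 ≤ K ∧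
    ∀ (m : ℕ) (f : F[X]), 1 ≤ m → Squarefree f → 1 ≤ f.natDegree →
      |∑ P ∈ Pr F m, js f P| ≤ K * f.natDegree * √((Nat.card F : ℝ) ^ m) := by
  obtain ⟨K, hK, H⟩ := Pool.Agent.H3.FS.pri F h2 0 0
  refine ⟨K, hK, fun m f hm hf hd => ?_⟩
  have h1 := H m f.natDegree (fun i => i.elim0) (MvPolynomial.C f) hm hd (fun i => i.elim0)
    ⟨(MvPolynomial.totalDegree_C f).le, fun α => ?_⟩ ?_ ?_ ?_
  · have h3 : ∀ P : F[X], ∑ᶠ r ∈ Pool.Agent.H3.FS.Rt m P (fun i : Fin 0 => i.elim0),
        js (MvPolynomial.eval r (MvPolynomial.C f)) P = js f P := by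
      intro P
      have h4 : Pool.Agent.H3.FS.Rt m P (fun i : Fin 0 => i.elim0) = {fun i => i.elim0} := by
        ext r
        constructor
        · intro _
          exact Subsingleton.elim _ _
        · intro _
          exact ⟨fun i => i.elim0, fun i => i.elim0⟩
      rw [h4, finsum_mem_singleton, MvPolynomial.eval_C]
    rw [Finset.sum_congr rfl fun P _ => h3 P] at h1
    exact h1
  · rw [MvPolynomial.coeff_C]
    split_ifs
    · exact le_rfl
    · rw [natDegree_zero]
      exact Nat.zero_le _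
  · intro I hI
    obtain ⟨i, _⟩ := hI
    exact i.elim0
  · intro E _ _ _ ν hν L _ φ hφ y _ w hw h4
    obtain ⟨p, q, hq, h5⟩ := clos φ hφ hw
    have hsq : Squarefree (f.map (algebraMap F E)) :=
      ((PerfectField.separable_iff_squarefree.2 hf).map).squarefree
    have hdg : 1 ≤ (f.map (algebraMap F E)).natDegree := by
      rw [natDegree_map]
      exact hd
    refine descent hsq hdg hν q.natDegree p q rfl hq ?_
    apply hφ
    rw [map_pow, ← h5, mul_pow, h4, map_mul, map_mul, map_pow]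
    congr 1
    unfold Pool.Agent.H3.FS.mv Pool.Agent.H3.FS.mpE
    rw [MvPolynomial.eval₂_mul, MvPolynomial.map_C, MvPolynomial.eval₂_C, MvPolynomial.eval₂_C,
      coe_mapRingHom]
  · intro E _ _ _ t y y' _ _ _ _ h
    rw [Subsingleton.elim y' y]
    exact h

theorem prn {F : Type} [Field F] [Finite F] (h3 : 3 ≤ Nat.card F) {m : ℕ} (hm : 1 ≤ m) :
    Nat.card F ^ m ≤ 2 * m * (Pr F m).card := by
  classical
  obtain ⟨q, hq⟩ : ∃ q, q = Nat.card F := ⟨_, rfl⟩
  have hq1 : 1 < Nat.card F := by omega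
  obtain ⟨D, hD⟩ : ∃ D : F[X], D = X ^ (Nat.card F) ^ m - X := ⟨_, rfl⟩
  have hDn : D.natDegree = (Nat.card F) ^ m := by
    rw [hD]
    exact FiniteField.X_pow_card_pow_sub_X_natDegree_eq F (by omega) hq1
  have hqm : 1 < (Nat.card F) ^ m := Nat.one_lt_pow (by omega) hq1
  have hDm : D.Monic := by
    rw [hD]
    refine (monic_X_pow _).sub_of_left ?_
    rw [degree_X, degree_X_pow]
    exact_mod_cast hqm
  have hDs : Squarefree D := by
    rw [hD]
    have h4 : ringChar F ∣ (Nat.card F) ^ m := by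
      have h5 : ringChar F ∣ Nat.card F := by
        have _ : Fintype F := Fintype.ofFinite F
        rw [Nat.card_eq_fintype_card, ← ringChar.spec]
        exact FiniteField.cast_card_eq_zero F
      exact h5.trans (dvd_pow_self _ (by omega))
    have _ : CharP F (ringChar F) := ringChar.charP F
    exact (galois_poly_separable (ringChar F) _ h4).squarefree
  have h4 := Pool.Agent.H94.PC.natDegree_prod_pf hDm hDs
  have hmaps : ∀ P ∈ Pool.Agent.H94.PC.pf D, P.natDegree ∈ Finset.Icc 1 m := by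
    intro P hP
    obtain ⟨h5, h6, h7⟩ := Pool.Agent.H94.PC.mem_pf' hP
    rw [hD] at h7
    have h8 := h6.natDegree_dvd_iff_dvd_X_pow_card_pow_sub_X.2 h7
    rw [Finset.mem_Icc]
    exact ⟨h6.natDegree_pos, Nat.le_of_dvd (by omega) h8⟩
  rw [← Finset.sum_fiberwise_of_maps_to hmaps, hDn] at h4
  have h5 : ∀ d ∈ Finset.Icc 1 m, ∑ P ∈ Pool.Agent.H94.PC.pf D with P.natDegree = d, P.natDegree ≤
      d * (Pr F d).card := by
    intro d _
    have h6 : ∑ P ∈ Pool.Agent.H94.PC.pf D with P.natDegree = d, P.natDegree =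
        ∑ P ∈ Pool.Agent.H94.PC.pf D with P.natDegree = d, d :=
      Finset.sum_congr rfl fun P hP => (Finset.mem_filter.1 hP).2
    rw [h6, Finset.sum_const, smul_eq_mul, mul_comm]
    refine Nat.mul_le_mul_left _ (Finset.card_le_card ?_)
    intro P hP
    rw [Finset.mem_filter] at hP
    obtain ⟨h7, h8, -⟩ := Pool.Agent.H94.PC.mem_pf' hP.1
    exact Pool.Agent.H94.PC.mem_Pr.2 ⟨h7, hP.2, h8⟩
  have h6 := Finset.sum_le_sum h5
  rw [h4] at h6
  have h7 : ∀ k : ℕ, 2 * ∑ d ∈ Finset.Icc 1 k, d * (Pr F d).card ≤ (Nat.card F) ^ (k + 1) := by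
    intro k
    induction k with
    | zero => simp
    | succ k ih =>
      rw [Finset.sum_Icc_succ_top (by omega), mul_add]
      have h8 := Pool.Agent.H94.PC.card_Pr_mul_le (F := F) (k + 1) (by omega)
      have h9 : (Nat.card F) ^ (k + 1 + 1) = Nat.card F * (Nat.card F) ^ (k + 1) := by ring
      rw [h9]
      nlinarith [Nat.mul_le_mul_right ((Nat.card F) ^ (k + 1)) h3]
  obtain ⟨k, rfl⟩ : ∃ k, m = k + 1 := ⟨m - 1, by omega⟩
  rw [Finset.sum_Icc_succ_top (by omega)] at h6
  have h8 := h7 k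
  nlinarith

end Pool.Agent.H74.FS
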