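import Pool.Agent.H74.FS.CLA

set_option autoImplicit false

/-!
# [H74 FS CLB] At a prime `P` which divides the twist exactly once

`P` monic irreducible, `P ∣ D`, `¬ P ^ 2 ∣ D`, `P ∤ dl A`, `w = some P`.
* `ev_tr`: `ev` of `DK c D` is `1` (`D = P * D'`, `P ∤ D'`; `ev_self`, `ev_poly_zero`, `ev_mul`), `ev (AK A j - AK A k) = 0` for `j ≠ k` (`P ∤ A j - A k`, which divides `± dl A`: `H94.PM.wl2_dvd`-type argument: `H94.PL.sd_diff`).
* `exists_tr`: the product of the `δ k` is a square, so `∑ k, ev (δ k) = 0` in `ZMod 2` (`ev_prod`, `ev_sq`): all three are `0` (`t = none`), or exactly one is `0`, at `j` (`t = some j`).  Uniqueness from `ev_tr`.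
* `vw_sq_P`: (←) squares: `Vw_sq` of `isVln_one`.  (→) `Vw_iso` with the tuple `tr (some j)` (`sln_tr`, `sln_iff`): `0 = ∑ k, hs (δ k) (tr (some j) k)` and `hs (δ k) y = un (δ k) * ev y` as `ev (δ k) = 0`, so
  `∑ k ≠ j, un (δ k) = 0` for all `j`; the sum over all `k` is `0` (`Vw_prod`, `un_sq`, `LU.un_prod`), so `un (δ j) = 0` and `δ j` is a square (`sq_iff`).
-/

namespace Pool.Agent.H74.FS

open Polynomial
open Pool.Agent.H94.PL (LChar lm XX DK AK dl)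
open Pool.Agent.H94.PM (LU vl IsVln IsSln)

variable {F : Type} [Field F] [DecidableEq (RatFunc F)] {c : F} {A : Fin 3 → F[X]} {D : F[X]}

private theorem clb_DKne (hc : c ≠ 0) (hD : D ≠ 0) : DK c D ≠ 0 :=
  RatFunc.algebraMap_ne_zero (mul_ne_zero (C_ne_zero.2 hc) hD)

private theorem clb_tr_self (j : Fin 3) :
    tr c A D (some j) j = (AK A j - AK A (j + 1)) * (AK A j - AK A (j + 2)) := if_pos rfl

private theorem clb_tr_other {j k : Fin 3} (h : k ≠ j) :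
    tr c A D (some j) k = DK c D * (AK A j - AK A k) := if_neg h

omit [DecidableEq (RatFunc F)] in
private theorem clb_dvd0 {p : Fin 3 × Fin 3} (hp : p ∈ H94.PL.prs 3) : A p.1 - A p.2 ∣ dl A := by
  unfold dl
  rw [← Finset.mul_prod_erase _ _ hp]
  exact Dvd.intro _ rfl

omit [DecidableEq (RatFunc F)] in
private theorem clb_dvd {i k : Fin 3} (hik : i ≠ k) : A i - A k ∣ dl A := by
  rcases lt_or_gt_of_ne hik with h | h
  · exact clb_dvd0 (A := A) (p := (i, k)) (H94.PL.mem_prs.2 h)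
  · have h2 : A k - A i ∣ dl A := clb_dvd0 (A := A) (p := (k, i)) (H94.PL.mem_prs.2 h)
    rw [← neg_sub, neg_dvd]
    exact h2

private theorem clb_ak {P : F[X]} (hP : P.Monic ∧ Irreducible P) (h3 : ¬ P ∣ dl A)
    {i k : Fin 3} (hik : i ≠ k) : ev (some ⟨P, hP⟩ : Pl F) (iw _ (AK A i - AK A k)) = 0 := by
  rw [AK, AK, ← map_sub]
  exact ev_poly_zero hP.1 hP.2 fun h => h3 (h.trans (clb_dvd hik))

private theorem clb_ak_ne (hA : ∀ i k, i ≠ k → A i ≠ A k) {i k : Fin 3} (h : i ≠ k) :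
    AK A i - AK A k ≠ 0 := by
  rw [AK, AK, sub_ne_zero]
  intro h1
  exact hA i k h (RatFunc.algebraMap_injective F h1)

private theorem clb_D {P : F[X]} (h2 : ¬ P ^ 2 ∣ D) : D ≠ 0 := by
  rintro rfl
  exact h2 (dvd_zero _)

private theorem clb_DK (hc : c ≠ 0) {P : F[X]} (hP : P.Monic ∧ Irreducible P) (h1 : P ∣ D)
    (h2 : ¬ P ^ 2 ∣ D) : ev (some ⟨P, hP⟩ : Pl F) (iw _ (DK c D)) = 1 := by
  obtain ⟨D', rfl⟩ := h1
  have hD' : D' ≠ 0 := by
    rintro rfl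
    exact h2 (by rw [mul_zero]; exact dvd_zero _)
  have hd : ¬ P ∣ C c * D' := by
    intro h
    apply h2
    rw [pow_two]
    refine mul_dvd_mul_left P ?_
    rcases hP.2.prime.dvd_or_dvd h with h3 | h3
    · exact absurd (isUnit_of_dvd_unit h3 (isUnit_C.2 (isUnit_iff_ne_zero.2 hc))) hP.2.not_isUnit
    · exact h3
  have e : DK c (P * D') = algebraMap F[X] (RatFunc F) P * algebraMap F[X] (RatFunc F) (C c * D') := by
    rw [DK, ← map_mul]
    congr 1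
    ring
  rw [e, map_mul, ev_mul, ev_self hP.1 hP.2, ev_poly_zero hP.1 hP.2 hd, add_zero]
  · exact iw_ne (RatFunc.algebraMap_ne_zero hP.2.ne_zero)
  · exact iw_ne (RatFunc.algebraMap_ne_zero (mul_ne_zero (C_ne_zero.2 hc) hD'))

theorem ev_tr (hc : c ≠ 0) (hA : ∀ i k, i ≠ k → A i ≠ A k) {P : F[X]}
    (hP : P.Monic ∧ Irreducible P) (h1 : P ∣ D) (h2 : ¬ P ^ 2 ∣ D) (h3 : ¬ P ∣ dl A)
    (t : Option (Fin 3)) (k : Fin 3) :
    ev (some ⟨P, hP⟩ : Pl F) (iw _ (tr c A D t k)) = if t = none ∨ t = some k then 0 else 1 := by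
  have hj1 : ∀ j : Fin 3, j ≠ j + 1 ∧ j ≠ j + 2 := by decide
  cases t with
  | none =>
    rw [if_pos (Or.inl rfl)]
    show ev (some ⟨P, hP⟩ : Pl F) (iw _ 1) = 0
    have h := ev_sq (w := (some ⟨P, hP⟩ : Pl F)) 1
    rwa [one_pow, ← map_one (iw (some ⟨P, hP⟩ : Pl F))] at h
  | some j =>
    by_cases hk : k = j
    · subst hk
      rw [if_pos (Or.inr rfl), clb_tr_self, map_mul, ev_mul (iw_ne (clb_ak_ne hA (hj1 k).1))
        (iw_ne (clb_ak_ne hA (hj1 k).2)), clb_ak hP h3 (hj1 k).1, clb_ak hP h3 (hj1 k).2, add_zero]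
    · rw [if_neg, clb_tr_other hk, map_mul, ev_mul (iw_ne (clb_DKne hc (clb_D h2)))
        (iw_ne (clb_ak_ne hA (Ne.symm hk))), clb_DK hc hP h1 h2, clb_ak hP h3 (Ne.symm hk), add_zero]
      rintro (h | h)
      · exact Option.some_ne_none j h
      · exact hk (Option.some.inj h).symm

private theorem clb_dec : ∀ a b c : ZMod 2, a + b + c = 0 → ∃ t : Option (Fin 3),
    (∀ k : Fin 3, (![a, b, c] : Fin 3 → ZMod 2) k = if t = none ∨ t = some k then 0 else 1) ∧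
    ∀ t' : Option (Fin 3), (∀ k : Fin 3, (![a, b, c] : Fin 3 → ZMod 2) k =
      if t' = none ∨ t' = some k then 0 else 1) → t' = t := by
  decide

theorem exists_tr (hc : c ≠ 0) (hA : ∀ i k, i ≠ k → A i ≠ A k) {P : F[X]}
    (hP : P.Monic ∧ Irreducible P) (h1 : P ∣ D) (h2 : ¬ P ^ 2 ∣ D) (h3 : ¬ P ∣ dl A)
    {δ : Fin 3 → RatFunc F} (h0 : ∀ k, δ k ≠ 0) (hy : ∃ y : RatFunc F, ∏ k, δ k = y ^ 2) :
    ∃! t : Option (Fin 3), ∀ k, ev (some ⟨P, hP⟩ : Pl F) (iw _ (δ k)) =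
      ev (some ⟨P, hP⟩ : Pl F) (iw _ (tr c A D t k)) := by
  obtain ⟨y, hy⟩ := hy
  have hs : ∑ k, ev (some ⟨P, hP⟩ : Pl F) (iw _ (δ k)) = 0 := by
    rw [← ev_prod Finset.univ (fun k => iw _ (δ k)) fun k _ => iw_ne (h0 k), ← map_prod, hy, map_pow,
      ev_sq]
  rw [Fin.sum_univ_three] at hs
  obtain ⟨t, ht, ht'⟩ := clb_dec _ _ _ hs
  have he : ∀ k : Fin 3, (![ev (some ⟨P, hP⟩ : Pl F) (iw _ (δ 0)),
      ev (some ⟨P, hP⟩ : Pl F) (iw _ (δ 1)), ev (some ⟨P, hP⟩ : Pl F) (iw _ (δ 2))] :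
      Fin 3 → ZMod 2) k = ev (some ⟨P, hP⟩ : Pl F) (iw _ (δ k)) := by
    intro k
    match k with
    | 0 => rfl
    | 1 => rfl
    | 2 => rfl
  refine ⟨t, fun k => ?_, fun t' h => ht' t' fun k => ?_⟩
  · rw [ev_tr hc hA hP h1 h2 h3, ← ht k, he]
  · rw [he, h k, ev_tr hc hA hP h1 h2 h3]

variable [Finite F]

private theorem clb_hs (χ : LChar F 2) (w : Pl F) {x y : Kw F w} (hx : ev w x = 0) :
    (Uw χ w).hs x y = (Uw χ w).un x * ev w y := by
  have h : (Uw χ w).hs x y =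
    (Uw χ w).un x * ev w y - ev w x * (Uw χ w).un y + (Uw χ w).un (-1) * (ev w x * ev w y) := rfl
  rw [h, hx]
  ring

theorem vw_sq_P (hq : 2 ∣ Nat.card F - 1) (hc : c ≠ 0) (hA : ∀ i k, i ≠ k → A i ≠ A k)
    {P : F[X]} (hP : P.Monic ∧ Irreducible P) (h1 : P ∣ D) (h2 : ¬ P ^ 2 ∣ D) (h3 : ¬ P ∣ dl A)
    {δ : Fin 3 → Kw F (some ⟨P, hP⟩)} (h0 : ∀ k, δ k ≠ 0) (he : ∀ k, ev _ (δ k) = 0) :
    Vw c A D (some ⟨P, hP⟩) δ ↔ ∀ k, IsSquare (δ k) := by
  obtain ⟨χ⟩ := H94.PL.exists_LChar F Nat.prime_two hq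
  have hD : D ≠ 0 := clb_D h2
  constructor
  · intro h k
    rw [sq_iff χ hq (h0 k)]
    refine ⟨he k, ?_⟩
    obtain ⟨y, hy⟩ := Vw_prod (by norm_num) h
    have hy0 : y ≠ 0 := by
      rintro rfl
      rw [zero_pow two_ne_zero] at hy
      exact Finset.prod_ne_zero_iff.2 (fun k _ => h0 k) hy
    have hs : (Uw χ (some ⟨P, hP⟩)).un (δ 0) + (Uw χ (some ⟨P, hP⟩)).un (δ 1) +
        (Uw χ (some ⟨P, hP⟩)).un (δ 2) = 0 := by
      have h4 := (Uw χ (some ⟨P, hP⟩)).un_prod Finset.univ δ fun k _ => h0 k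
      rw [hy, un_sq χ hy0, Fin.sum_univ_three] at h4
      exact h4.symm
    have hj : ∀ j : Fin 3, ∑ k, (Uw χ (some ⟨P, hP⟩)).un (δ k) * (if k = j then (0 : ZMod 2) else 1) = 0 := by
      intro j
      have h5 := ((sln_iff.1 (sln_tr hc hA hD (some j))).2.2 (some ⟨P, hP⟩))
      have h6 := Vw_iso χ (by norm_num) hc hD h h5
      refine Eq.trans (Finset.sum_congr rfl fun k _ => ?_) h6
      rw [clb_hs χ _ (he k), ev_tr hc hA hP h1 h2 h3]
      by_cases hkj : k = j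
      · rw [if_pos hkj, if_pos (Or.inr (by rw [hkj]) : some j = none ∨ some j = some k)]
      · rw [if_neg hkj, if_neg]
        rintro (h | h)
        · exact Option.some_ne_none j h
        · exact hkj (Option.some.inj h).symm
    have hk := hj k
    rw [Fin.sum_univ_three] at hk
    have hdec : ∀ (u v w : ZMod 2) (k : Fin 3), u + v + w = 0 →
        u * (if (0 : Fin 3) = k then (0 : ZMod 2) else 1) +
        v * (if (1 : Fin 3) = k then (0 : ZMod 2) else 1) +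
        w * (if (2 : Fin 3) = k then (0 : ZMod 2) else 1) = 0 →
        (![u, v, w] : Fin 3 → ZMod 2) k = 0 := by decide
    have h7 := hdec _ _ _ k hs hk
    match k, h7 with
    | 0, h7 => exact h7
    | 1, h7 => exact h7
    | 2, h7 => exact h7
  · intro h
    choose r hr using h
    have hr0 : ∀ k, r k ≠ 0 := by
      intro k hk
      apply h0 k
      rw [hr, hk, mul_zero]
    have h4 : Vw c A D (some ⟨P, hP⟩) (fun _ : Fin 3 => 1) :=
      H94.PM.isVln_one (ℓ := 2) (α := 1) (iw (some ⟨P, hP⟩) (DK c D))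
        (fun k => iw (some ⟨P, hP⟩) (AK A k))
    have h5 := Vw_sq h4 hr0
    have h6 : δ = fun k => 1 * r k ^ 2 := by
      funext k
      rw [hr k, one_mul, pow_two]
    rw [h6]
    exact h5

end Pool.Agent.H74.FS
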