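import Pool.Agent.H74.FS.HEC

set_option autoImplicit false

/-!
# [H74 FS HAS] The Hasse principle for conics over `F(t)`

* `rat_poly`: `x = num / denom = (num * denom) / denom²`.
* `norm_hasse`: `N = a s²`, `x = b t²` with polynomials `a, b ≠ 0`, `s, t ≠ 0` in `F(t)` (`rat_poly`); `hw χ w b a = 0` (`hw_mul`, `hw_sq`, `hw_comm`), `hec` for `(a, b)`: `Z² = a X² + b W²`.  If `W ≠ 0`: `p = Z`, `q = X / s`, `m = W / t`.  If `W = 0`: `X ≠ 0`,
  `a = (Z / X)²`, `N = r²` with `r = s Z / X ≠ 0`; `p = (x + 1) / 2`, `q = (x - 1) / (2 r)`, `m = 1`: `p² - N q² = ((x + 1)² - (x - 1)²) / 4 = x` (`2 ≠ 0` in `F(t)`).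
* `conic_hasse`: multiply by `- a 2`: for a zero `z` at `w`: `(a₂ z₂)² = (- a₀ a₂) z₀² + (- a₁ a₂) z₁²`, so by `hs_norm` `hs (- a₀ a₂) (- a₁ a₂) = 0` for all `w` (`(z₀, z₁, a₂ z₂)` is not zero).  `norm_hasse` with `N = - a₀ a₂`, `x = - a₁ a₂`: `p² + a₀ a₂ q² = - a₁ a₂ m²`, `m ≠ 0`,
  so `z = (q, m, p / a₂)`: `a₀ q² + a₁ m² + p² / a₂ = 0`.
-/

namespace Pool.Agent.H74.FS

open Polynomial
open Pool.Agent.H94.PL (LChar lm)

variable {F : Type} [Field F]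

theorem rat_poly {x : RatFunc F} (hx : x ≠ 0) : ∃ (a : F[X]) (s : RatFunc F), a ≠ 0 ∧ s ≠ 0 ∧
    x = algebraMap F[X] (RatFunc F) a * s ^ 2 := by
  have hn : x.num ≠ 0 := RatFunc.num_ne_zero hx
  have hd : x.denom ≠ 0 := RatFunc.denom_ne_zero x
  have hd' : algebraMap F[X] (RatFunc F) x.denom ≠ 0 :=
    (map_ne_zero_iff _ (RatFunc.algebraMap_injective F)).2 hd
  refine ⟨x.num * x.denom, (algebraMap F[X] (RatFunc F) x.denom)⁻¹, mul_ne_zero hn hd,
    inv_ne_zero hd', ?_⟩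
  conv_lhs => rw [← RatFunc.num_div_denom x]
  rw [map_mul]
  field_simp

variable [DecidableEq (RatFunc F)] [Finite F] (χ : LChar F 2)

private theorem hw_red (w : Pl F) {x y s t : RatFunc F} (hx : x ≠ 0) (hs : s ≠ 0) (hy : y ≠ 0)
    (ht : t ≠ 0) : hw χ w (x * s ^ 2) (y * t ^ 2) = hw χ w x y := by
  unfold hw
  rw [map_mul, map_mul, map_pow, map_pow]
  exact (Uw χ w).hs_pow (iw_ne hx) (iw_ne hs) (iw_ne hy) (iw_ne ht)

theorem norm_hasse (hq : 2 ∣ Nat.card F - 1) {x N : RatFunc F} (hx : x ≠ 0) (hN : N ≠ 0)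
    (h : ∀ w : Pl F, hw χ w x N = 0) :
    ∃ p q m : RatFunc F, m ≠ 0 ∧ p ^ 2 - N * q ^ 2 = x * m ^ 2 := by
  obtain ⟨b, t, hb, ht, hxb⟩ := rat_poly hx
  obtain ⟨a, s, ha, hs, hNa⟩ := rat_poly hN
  have hinj : ∀ g : F[X], g ≠ 0 → algebraMap F[X] (RatFunc F) g ≠ 0 := fun g hg =>
    (map_ne_zero_iff _ (RatFunc.algebraMap_injective F)).2 hg
  obtain ⟨X, W, Z, hne, he, _, _, _⟩ := hec χ hq ha hb (fun w => by
    rw [hw_comm]
    have h1 := h w
    rw [hxb, hNa, hw_red χ w (hinj b hb) ht (hinj a ha) hs] at h1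
    exact h1)
  have he' : algebraMap F[X] (RatFunc F) Z ^ 2 = algebraMap F[X] (RatFunc F) a *
      algebraMap F[X] (RatFunc F) X ^ 2 + algebraMap F[X] (RatFunc F) b *
      algebraMap F[X] (RatFunc F) W ^ 2 := by
    rw [← map_pow, he, map_add, map_mul, map_mul, map_pow, map_pow]
  by_cases hW : W = 0
  · have hX : X ≠ 0 := fun hX => hne ⟨hX, hW⟩
    have hX' := hinj X hX
    rw [hW, map_zero, zero_pow two_ne_zero, mul_zero, add_zero] at he'
    set r : RatFunc F := s * (algebraMap F[X] (RatFunc F) Z / algebraMap F[X] (RatFunc F) X)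
      with hr
    have hrN : N = r ^ 2 := by
      rw [hr, hNa, mul_pow, div_pow, he', mul_div_assoc, div_self (pow_ne_zero 2 hX'), mul_one]
      ring
    have hr0 : r ≠ 0 := by
      intro h0
      rw [h0, zero_pow two_ne_zero] at hrN
      exact hN hrN
    have h2 : (2 : F) ≠ 0 := by
      have h := H94.PM.l_ne_zero (ℓ := 2) (F := F) hq
      exact_mod_cast h
    have h2' : (2 : RatFunc F) ≠ 0 := by
      have h3 : algebraMap F (RatFunc F) 2 ≠ 0 := (_root_.map_ne_zero _).2 h2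
      rwa [map_ofNat] at h3
    refine ⟨(x + 1) / 2, (x - 1) / (2 * r), 1, one_ne_zero, ?_⟩
    rw [hrN]
    field_simp
    ring
  · have hW' := hinj W hW
    refine ⟨algebraMap F[X] (RatFunc F) Z, algebraMap F[X] (RatFunc F) X / s,
      algebraMap F[X] (RatFunc F) W / t, div_ne_zero hW' ht, ?_⟩
    rw [he', hxb, hNa]
    field_simp
    ring

include χ in
theorem conic_hasse (hq : 2 ∣ Nat.card F - 1) {a : Fin 3 → RatFunc F} (ha : ∀ i, a i ≠ 0)
    (h : ∀ w : Pl F, ∃ z : Fin 3 → Kw F w, z ≠ 0 ∧ ∑ i, iw w (a i) * z i ^ 2 = 0) :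
    ∃ z : Fin 3 → RatFunc F, z ≠ 0 ∧ ∑ i, a i * z i ^ 2 = 0 := by
  have hA : -(a 0 * a 2) ≠ 0 := neg_ne_zero.2 (mul_ne_zero (ha 0) (ha 2))
  have hB : -(a 1 * a 2) ≠ 0 := neg_ne_zero.2 (mul_ne_zero (ha 1) (ha 2))
  obtain ⟨p, q, m, hm, he⟩ := norm_hasse χ hq hB hA (fun w => by
    obtain ⟨z, hz0, hz⟩ := h w
    rw [Fin.sum_univ_three] at hz
    refine (hs_norm χ hq (iw_ne hB) (iw_ne hA)).2 ⟨z 1, z 0, iw w (a 2) * z 2, ?_, ?_⟩
    · rintro ⟨e1, e0, e2⟩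
      apply hz0
      funext i
      fin_cases i
      · exact e0
      · exact e1
      · exact (mul_eq_zero.1 e2).resolve_left (iw_ne (ha 2))
    · rw [map_neg, map_neg, map_mul, map_mul]
      linear_combination (iw w (a 2)) * hz)
  refine ⟨![q, m, p / a 2], ?_, ?_⟩
  · intro h0
    exact hm (congrFun h0 1)
  · rw [Fin.sum_univ_three]
    show a 0 * q ^ 2 + a 1 * m ^ 2 + a 2 * (p / a 2) ^ 2 = 0
    have h2 := ha 2
    have h3 : a 2 * (p / a 2) ^ 2 = p ^ 2 / a 2 := by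
      field_simp
    rw [h3]
    have h4 : p ^ 2 = -(a 0 * a 2) * q ^ 2 + -(a 1 * a 2) * m ^ 2 := by linear_combination he
    rw [h4]
    field_simp
    ring

end Pool.Agent.H74.FS
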