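import Pool.Agent.H74.FS.SYM

set_option autoImplicit false

/-!
# [H74 FS REC] The product formula

`hw χ w x y = (Uw χ w).hs (iw w x) (iw w y)`.
* `hw_comm`, `hw_mul`, `hw_mul'`, `hw_sq`, `hw_even`: from the module `SYM` (`map_mul`, `map_pow`, `iw_ne`).
* `hw_sum`.  By `hw_even` (both valuations even outside `S`) the sum does not change if `S` is enlarged (`Finset.sum_subset`), so assume `none ∈ S` (replace `S` by `insert none S`).  Let `T` be the
  finset of the polynomials `P` with `some P ∈ S` (`S.eraseNone` and the values).  By `H94.PL.normal_form χ hx T ..` (`ℓ = 2`) `x = C a * ∏ Q ∈ T, Q ^ (ex 2 Q x).val * z²` in `RatFunc F` (for a monic irreducible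
  `Q ∉ T` `ex 2 Q x = 0` by `ev_some`), the same for `y`.  Both sides are bimultiplicative (`hw_mul`, `hw_sq`; finite products), so it is enough to show `∑ w ∈ S, hw χ w x y = 0` for
  `x, y ∈ {C a | a ≠ 0} ∪ T`:
  - `C a, C b`: all valuations are `0` (`ev_poly_zero`; `ev_none`: degree `0`), `hw_even`.
  - `C a, P`: only `w = none` and `w = some P` contribute (`hw_even` for the others: `ev_poly_zero`, `P` does not divide `Q`), by `un_some`, `ev_self`, `H94.PL.lm_C`, `ev_none`, `un_none`: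
    `deg P * lg a` twice: `0`.  `P, C a`: `hw_comm`.
  - `P ≠ Q`: at `P`: `hs P Q = un P * 0 - 1 * un Q + 0 = lm Q P`; at `Q`: `lm P Q`; at infinity: `lg 1 = 0`, `un (-1) * deg P * deg Q = lg (-1) * deg P * deg Q`.  The sum is `0` by the reciprocity law
    `H94.PL.lm_recip'` (`ZMod 2`: signs do not matter; `lm_recip'` needs that `P`, `Q` are coprime monic).
  - `P = Q`: at `P`: `un P * 1 - 1 * un P + un (-1) = lm (-1) P = deg P * lg (-1)` (`H94.PM.un_minus_one` or `un_some` with `g = C (-1)` and `lm_C`); at infinity: `lg (-1) * deg P * deg P`, and `n * n = n` in `ZMod 2`.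
-/

namespace Pool.Agent.H74.FS

open Polynomial WithZero IsDedekindDomain
open Pool.Agent.H94.PL (LChar lm XX DK AK dl)
open Pool.Agent.H94.PM (LU vl IsVln IsSln Gam lgs)

variable {F : Type} [Field F] [DecidableEq (RatFunc F)] [Finite F] (χ : LChar F 2)

theorem hw_comm (w : Pl F) (x y : RatFunc F) : hw χ w x y = hw χ w y x :=
  hs_comm χ _ _

theorem hw_mul (w : Pl F) {x y z : RatFunc F} (hx : x ≠ 0) (hy : y ≠ 0) (hz : z ≠ 0) :
    hw χ w (x * y) z = hw χ w x z + hw χ w y z := by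
  unfold hw
  rw [map_mul]
  exact hs_mul χ (iw_ne hx) (iw_ne hy) (iw_ne hz)

theorem hw_mul' (w : Pl F) {x y z : RatFunc F} (hx : x ≠ 0) (hy : y ≠ 0) (hz : z ≠ 0) :
    hw χ w x (y * z) = hw χ w x y + hw χ w x z := by
  unfold hw
  rw [map_mul]
  exact hs_mul' χ (iw_ne hx) (iw_ne hy) (iw_ne hz)

theorem hw_sq (w : Pl F) {x y : RatFunc F} (hx : x ≠ 0) (hy : y ≠ 0) : hw χ w x (y ^ 2) = 0 := by
  unfold hw
  rw [map_pow]
  exact hs_sq χ (iw_ne hx) (iw_ne hy)

theorem hw_even {w : Pl F} {x y : RatFunc F} (hx : ev w (iw w x) = 0) (hy : ev w (iw w y) = 0) :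
    hw χ w x y = 0 :=
  hs_even χ hx hy

/-- the formula of the symbol -/
private theorem hw_eq (w : Pl F) (x y : RatFunc F) : hw χ w x y =
    (Uw χ w).un (iw w x) * ev w (iw w y) - ev w (iw w x) * (Uw χ w).un (iw w y) +
      (Uw χ w).un (-1) * (ev w (iw w x) * ev w (iw w y)) := rfl

private theorem hw_supp {x y : RatFunc F} (hx : x ≠ 0) (hy : y ≠ 0) :
    (Function.support fun w => hw χ w x y).Finite := by
  refine ((ev_fin hx).union (ev_fin hy)).subset fun w hw' => ?_
  by_contra h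
  rw [Set.mem_union, not_or] at h
  obtain ⟨h1, h2⟩ := h
  exact hw' (hw_even χ (not_not.1 h1) (not_not.1 h2))

/-- the sum over all places -/
private noncomputable def hG (x y : RatFunc F) : ZMod 2 := ∑ᶠ w : Pl F, hw χ w x y

private theorem hG_comm (x y : RatFunc F) : hG χ x y = hG χ y x := by
  unfold hG
  exact finsum_congr fun w => hw_comm χ w x y

private theorem hG_mul {x y z : RatFunc F} (hx : x ≠ 0) (hy : y ≠ 0) (hz : z ≠ 0) :
    hG χ (x * y) z = hG χ x z + hG χ y z := by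
  unfold hG
  rw [← finsum_add_distrib (hw_supp χ hx hz) (hw_supp χ hy hz)]
  exact finsum_congr fun w => hw_mul χ w hx hy hz

private theorem hG_sq {x y : RatFunc F} (hx : x ≠ 0) (hy : y ≠ 0) : hG χ (y ^ 2) x = 0 := by
  unfold hG
  have h : ∀ w, hw χ w (y ^ 2) x = 0 := fun w => by rw [hw_comm, hw_sq χ w hx hy]
  simp [h]

omit [DecidableEq (RatFunc F)] [Finite F] in
/-- induction -/
private theorem gen_ind {Q : RatFunc F → Prop}
    (hmul : ∀ x y, x ≠ 0 → y ≠ 0 → Q x → Q y → Q (x * y)) (hsq : ∀ x, x ≠ 0 → Q (x ^ 2))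
    (hC : ∀ c : F, c ≠ 0 → Q (algebraMap F[X] (RatFunc F) (C c)))
    (hP : ∀ P : F[X], P.Monic → Irreducible P → Q (algebraMap F[X] (RatFunc F) P)) :
    ∀ x, x ≠ 0 → Q x := by
  have hpol : ∀ p : F[X], p ≠ 0 → Q (algebraMap F[X] (RatFunc F) p) := by
    intro p
    induction p using UniqueFactorizationMonoid.induction_on_prime with
    | h₁ => exact fun h => absurd rfl h
    | h₂ p hp =>
      intro _
      obtain ⟨c, hc, rfl⟩ := isUnit_iff.1 hp
      exact hC c hc.ne_zero
    | h₃ a p ha hp ih =>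
      intro _
      have hp0 := hp.ne_zero
      have hl : p.leadingCoeff ≠ 0 := leadingCoeff_ne_zero.2 hp0
      have hmon : (p * C (p.leadingCoeff)⁻¹).Monic := monic_mul_leadingCoeff_inv hp0
      have hirr : Irreducible (p * C (p.leadingCoeff)⁻¹) :=
        irreducible_mul_leadingCoeff_inv.2 hp.irreducible
      have e1 : p = C p.leadingCoeff * (p * C (p.leadingCoeff)⁻¹) := by
        rw [mul_left_comm, ← C_mul, mul_inv_cancel₀ hl, C_1, mul_one]
      have h1 : Q (algebraMap F[X] (RatFunc F) p) := by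
        rw [e1, map_mul]
        exact hmul _ _ (RatFunc.algebraMap_ne_zero (C_ne_zero.2 hl))
          (RatFunc.algebraMap_ne_zero hmon.ne_zero) (hC _ hl) (hP _ hmon hirr)
      rw [map_mul]
      exact hmul _ _ (RatFunc.algebraMap_ne_zero hp0) (RatFunc.algebraMap_ne_zero ha) h1 (ih ha)
  intro x hx
  have hn : x.num ≠ 0 := RatFunc.num_ne_zero hx
  have hd : x.denom ≠ 0 := x.denom_ne_zero
  have hd' : algebraMap F[X] (RatFunc F) x.denom ≠ 0 := RatFunc.algebraMap_ne_zero hd
  have e : x = algebraMap F[X] (RatFunc F) (x.num * x.denom) *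
      ((algebraMap F[X] (RatFunc F) x.denom)⁻¹) ^ 2 := by
    conv_lhs => rw [← RatFunc.num_div_denom x]
    rw [map_mul]
    field_simp
  rw [e]
  exact hmul _ _ (RatFunc.algebraMap_ne_zero (mul_ne_zero hn hd))
    (pow_ne_zero 2 (inv_ne_zero hd')) (hpol _ (mul_ne_zero hn hd)) (hsq _ (inv_ne_zero hd'))

omit [DecidableEq (RatFunc F)] [Finite F] in
private theorem ndvd_C {P : F[X]} (hi : Irreducible P) {c : F} (hc : c ≠ 0) : ¬ P ∣ C c :=
  fun h => hi.not_isUnit (isUnit_of_dvd_unit h (isUnit_C.2 (isUnit_iff_ne_zero.2 hc)))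

omit [DecidableEq (RatFunc F)] [Finite F] in
private theorem ndvd_irr {P Q : F[X]} (hP : P.Monic) (hi : Irreducible P) (hQ : Q.Monic)
    (hQi : Irreducible Q) (hne : P ≠ Q) : ¬ P ∣ Q :=
  fun h => hne (eq_of_monic_of_associated hP hQ (hi.associated_of_dvd hQi h))

omit [Finite F] in
private theorem ev_C (w : Pl F) {c : F} (hc : c ≠ 0) :
    ev w (iw w (algebraMap F[X] (RatFunc F) (C c))) = 0 := by
  rcases w with _ | ⟨P, hP, hi⟩
  · have h := ev_none (F := F) (g := C c) (C_ne_zero.2 hc)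
    rw [natDegree_C, Nat.cast_zero] at h
    exact h
  · exact ev_poly_zero hP hi (ndvd_C hi hc)

private theorem neg_one_iw (w : Pl F) :
    (-1 : Kw F w) = iw w (algebraMap F[X] (RatFunc F) (C (-1))) := by
  rw [map_neg, map_neg, map_neg, map_one, map_one, map_one]

private theorem un_neg_none : (Uw χ (none : Pl F)).un (-1) = χ.lg (-1) := by
  rw [neg_one_iw, un_none χ (C_ne_zero.2 (neg_ne_zero.2 one_ne_zero)), leadingCoeff_C]

private theorem un_neg_some {P : F[X]} (hP : P.Monic) (hi : Irreducible P) :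
    (Uw χ (some ⟨P, hP, hi⟩ : Pl F)).un (-1) = (P.natDegree : ZMod 2) * χ.lg (-1) := by
  have h0 : (-1 : F) ≠ 0 := neg_ne_zero.2 one_ne_zero
  rw [neg_one_iw, un_some χ hP hi (ndvd_C hi h0), H94.PL.lm_C χ hP h0]

private theorem two_z (x : ZMod 2) : x + x = 0 := by
  revert x
  decide

private theorem sq_z (x : ZMod 2) : x * x = x := by
  revert x
  decide

/-- two places -/
private theorem hG_pair {x y : RatFunc F} {w w' : Pl F} (hne : w ≠ w')
    (h : ∀ u, u ≠ w → u ≠ w' → hw χ u x y = 0) : hG χ x y = hw χ w x y + hw χ w' x y := by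
  classical
  unfold hG
  rw [finsum_eq_sum_of_support_subset (s := ({w, w'} : Finset (Pl F)))]
  · rw [Finset.sum_pair hne]
  · intro u hu
    by_contra h'
    rw [Finset.mem_coe, Finset.mem_insert, Finset.mem_singleton, not_or] at h'
    exact hu (h u h'.1 h'.2)

private theorem hG_triple {x y : RatFunc F} {w w' w'' : Pl F} (h1 : w ≠ w') (h2 : w ≠ w'')
    (h3 : w' ≠ w'') (h : ∀ u, u ≠ w → u ≠ w' → u ≠ w'' → hw χ u x y = 0) :
    hG χ x y = hw χ w x y + (hw χ w' x y + hw χ w'' x y) := by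
  classical
  unfold hG
  rw [finsum_eq_sum_of_support_subset (s := ({w, w', w''} : Finset (Pl F)))]
  · rw [Finset.sum_insert (by simp [h1, h2]), Finset.sum_pair h3]
  · intro u hu
    by_contra h'
    rw [Finset.mem_coe, Finset.mem_insert, Finset.mem_insert, Finset.mem_singleton, not_or,
      not_or] at h'
    exact hu (h u h'.1 h'.2.1 h'.2.2)

private theorem ev_poly_ne {P : F[X]} (hP : P.Monic) (hi : Irreducible P) {u : Pl F}
    (hu : u ≠ none) (hu' : u ≠ some ⟨P, hP, hi⟩) :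
    ev u (iw u (algebraMap F[X] (RatFunc F) P)) = 0 := by
  rcases u with _ | ⟨Q, hQ, hQi⟩
  · exact absurd rfl hu
  · refine ev_poly_zero hQ hQi (ndvd_irr hQ hQi hP hi ?_)
    rintro rfl
    exact hu' rfl

private theorem hG_CC {a b : F} (ha : a ≠ 0) (hb : b ≠ 0) :
    hG χ (algebraMap F[X] (RatFunc F) (C a)) (algebraMap F[X] (RatFunc F) (C b)) = 0 := by
  unfold hG
  have h : ∀ w, hw χ w (algebraMap F[X] (RatFunc F) (C a))
      (algebraMap F[X] (RatFunc F) (C b)) = 0 := fun w => hw_even χ (ev_C w ha) (ev_C w hb)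
  simp only [h, finsum_zero]

private theorem hG_CP {a : F} (ha : a ≠ 0) {P : F[X]} (hP : P.Monic) (hi : Irreducible P) :
    hG χ (algebraMap F[X] (RatFunc F) (C a)) (algebraMap F[X] (RatFunc F) P) = 0 := by
  rw [hG_pair χ (w := none) (w' := some ⟨P, hP, hi⟩) (by simp)
    (fun u h1 h2 => hw_even χ (ev_C u ha) (ev_poly_ne hP hi h1 h2))]
  rw [hw_eq, hw_eq, ev_C none ha, ev_C _ ha, ev_none hP.ne_zero, ev_self hP hi,
    un_none χ (C_ne_zero.2 ha), un_some χ hP hi (ndvd_C hi ha), H94.PL.lm_C χ hP ha,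
    leadingCoeff_C]
  have h := two_z ((P.natDegree : ZMod 2) * χ.lg a)
  linear_combination h

private theorem hG_PQ {P Q : F[X]} (hP : P.Monic) (hi : Irreducible P) (hQ : Q.Monic)
    (hQi : Irreducible Q) :
    hG χ (algebraMap F[X] (RatFunc F) P) (algebraMap F[X] (RatFunc F) Q) = 0 := by
  by_cases hPQ : P = Q
  · subst hPQ
    rw [hG_pair χ (w := none) (w' := some ⟨P, hP, hi⟩) (by simp)
      (fun u h1 h2 => hw_even χ (ev_poly_ne hP hi h1 h2) (ev_poly_ne hP hi h1 h2))]
    rw [hw_eq, hw_eq, ev_none hP.ne_zero, ev_self hP hi, un_neg_none,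
      un_neg_some χ hP hi, un_self χ hP hi]
    have h := two_z ((P.natDegree : ZMod 2) * χ.lg (-1))
    have h2 := sq_z (P.natDegree : ZMod 2)
    rw [h2]
    linear_combination h
  · have hc : IsCoprime P Q := (hi.coprime_iff_not_dvd).2 (ndvd_irr hP hi hQ hQi hPQ)
    rw [hG_triple χ (w := none) (w' := some ⟨P, hP, hi⟩) (w'' := some ⟨Q, hQ, hQi⟩) (by simp)
      (by simp) (by
        intro h
        exact hPQ (congrArg Subtype.val (Option.some_injective _ h)))
      (fun u h1 h2 h3 => hw_even χ (ev_poly_ne hP hi h1 h2) (ev_poly_ne hQ hQi h1 h3))]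
    have e1 : ¬ P ∣ Q := ndvd_irr hP hi hQ hQi hPQ
    have e2 : ¬ Q ∣ P := ndvd_irr hQ hQi hP hi (Ne.symm hPQ)
    rw [hw_eq, hw_eq, hw_eq, ev_none hP.ne_zero, ev_none hQ.ne_zero, ev_self hP hi,
      ev_self hQ hQi, ev_poly_zero hP hi e1, ev_poly_zero hQ hQi e2, un_neg_none,
      un_some χ hP hi e1, un_some χ hQ hQi e2, un_none χ hP.ne_zero, un_none χ hQ.ne_zero,
      hP.leadingCoeff, hQ.leadingCoeff, H94.PL.lg_one, H94.PM.lm_recip' χ hP hQ hc]
    have h := two_z ((P.natDegree : ZMod 2) * (Q.natDegree : ZMod 2) * χ.lg (-1))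
    linear_combination h

private theorem hG_zero {x y : RatFunc F} (hx : x ≠ 0) (hy : y ≠ 0) : hG χ x y = 0 := by
  revert y
  refine gen_ind (Q := fun x => ∀ {y : RatFunc F}, y ≠ 0 → hG χ x y = 0) ?_ ?_ ?_ ?_ x hx
  · intro x x' hx hx' h h' y hy
    rw [hG_mul χ hx hx' hy, h hy, h' hy, add_zero]
  · intro x hx y hy
    exact hG_sq χ hy hx
  · intro c hc y hy
    have hc' : algebraMap F[X] (RatFunc F) (C c) ≠ 0 :=
      RatFunc.algebraMap_ne_zero (C_ne_zero.2 hc)
    rw [hG_comm]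
    refine gen_ind (Q := fun y => hG χ y (algebraMap F[X] (RatFunc F) (C c)) = 0) ?_ ?_ ?_ ?_ y hy
    · intro x x' hx hx' h h'
      rw [hG_mul χ hx hx' hc', h, h', add_zero]
    · intro x hx
      exact hG_sq χ hc' hx
    · intro b hb
      exact hG_CC χ hb hc
    · intro P hP hi
      rw [hG_comm]
      exact hG_CP χ hc hP hi
  · intro P hP hi y hy
    have hP' : algebraMap F[X] (RatFunc F) P ≠ 0 := RatFunc.algebraMap_ne_zero hP.ne_zero
    rw [hG_comm]
    refine gen_ind (Q := fun y => hG χ y (algebraMap F[X] (RatFunc F) P) = 0) ?_ ?_ ?_ ?_ y hy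
    · intro x x' hx hx' h h'
      rw [hG_mul χ hx hx' hP', h, h', add_zero]
    · intro x hx
      exact hG_sq χ hP' hx
    · intro b hb
      exact hG_CP χ hb hP hi
    · intro Q hQ hQi
      exact hG_PQ χ hQ hQi hP hi

/-- the product formula -/
theorem hw_sum (S : Finset (Pl F)) {x y : RatFunc F} (hx : x ≠ 0) (hy : y ≠ 0)
    (hS : ∀ w, w ∉ S → ev w (iw w x) = 0 ∧ ev w (iw w y) = 0) : ∑ w ∈ S, hw χ w x y = 0 := by
  rw [← hG_zero χ hx hy]
  unfold hG
  refine (finsum_eq_sum_of_support_subset _ fun w hw' => ?_).symm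
  by_contra h
  exact hw' (hw_even χ (hS w h).1 (hS w h).2)

end Pool.Agent.H74.FS
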