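import Pool.Agent.H74.FS.PRM
import Pool.Agent.H74.FS.REC
import Pool.Agent.H94.PC.Facs
import Pool.Agent.H94.PC.JsA

set_option autoImplicit false

/-!
# [H74 FS SLO] The common slot

* `js_lm`: `js A B = sg (lm χ A B)` for `B` monic, `A` prime to `B`: both are given by the resultant, `ch c = sg (χ.lg c)` for `c ≠ 0`: `χ.lg c = 0` iff `c` is a square (`χ.ker`; `χ.mul`), `H94.PC.ch`, `sg`.
* `slot_loc`: `X1 = iw w x1` etc.  If `X1` is a square: `g = y1` (`hs X1 _ = 0` for all elements, `hs_sq` with `hs_comm`; in particular `hs X1 Y2 = 0`).  If `X2` is a square: `g = y2`.  If `X1 X2` is a square: `hs X1 g = hs X2 g` for all `g` (`hs_mul`), `g = y2`: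
  `hs X2 Y2 = hs X1 Y2 = hs X2 Y1` by the hypothesis (`ZMod 2`).  Otherwise `hs_exists`.
* `slot`.  `n` = sum of the degrees, `T = pf (x1 x2 y1 y2)`, `∑ v ∈ T, deg v ≤ n` (as in `HEA`), `C₀` from `prm`.  Choose `g v` by `slot_loc` for every place `v ∈ T` and `g∞` for infinity.  `e v = (ev (g v)).val`, `c₀ : F`, `c₀ ≠ 0`, with
  `χ.lg c₀ = un (g∞)` at infinity (`χ.surj`).  `m ∈ {C₀ (n + 1), C₀ (n + 1) + 1}` such that `m + ∑ v ∈ T, e v deg v` has the class `ev (g∞)` in `ZMod 2`.  Let `t v = un (g v) - (deg v lg c₀ + ∑ v' ∈ T, v' ≠ v, e v' lm χ v' v)` at the place `v`,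
  and by `prm` `P ∈ Pr F m` with `js v P = sg (t v + m deg v lg (-1))`.  Then `lm χ v P = t v + m deg v lg (-1)` (`js_lm`, `sg` injective; `P ∤ v` by the degrees), so `lm χ P v = t v` by the reciprocity law (`H94.PM` / `H94.PL`: `lm_recip'`).
  `c = C c₀ * ∏ v ∈ T, v ^ e v * P`.  At `v ∈ T`: `ev c = e v`, `un c = deg v lg c₀ + ∑ v' ≠ v, e v' lm χ v' v + lm χ P v = un (g v)` (`un_some`, `un_self`, `LU.mul`), so `hw x c = hw x (g v)` for all `x` (the symbol depends only on `ev`, `un`: by its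
  definition).  The same at infinity (`ev_none`, `un_none`: the leading coefficient is `c₀`).  So at these places `hw x1 (c y2) = hw x1 c + hw x1 y2 = 0`, `hw x2 (c y1) = 0`, `hw (x1 x2) c = hw x1 y2 + hw x2 y1 = 0`.
  At the places `w = some Q`, `Q ∉ T`, `Q ≠ P` all of `x1, x2, y1, y2, c` are even: `hw_even`.  At `P`: the product formula `hw_sum` for `(x1, c y2)`, `(x2, c y1)`, `(x1 x2, c)` with `S` = infinity, `T`, `P`.
  `deg c ≤ n + C₀ (n + 1) + 1`; `c` is squarefree: a constant times different monic primes (`P ∉ T` by its degree, which is larger than the degrees of the `v ∈ T`).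
-/

namespace Pool.Agent.H74.FS

open Polynomial
open Pool.Agent.H94.PC (Pr js sg pf mem_pf mem_pf' mem_Pr)
open Pool.Agent.H94.PL (LChar lm)

variable {F : Type} [Field F] [DecidableEq (RatFunc F)] [Finite F] (χ : LChar F 2)

omit [DecidableEq (RatFunc F)] [Finite F] in
theorem js_lm {A B : F[X]} (hB : B.Monic) (h : IsCoprime A B) : js A B = sg (lm χ A B) := by
  have hr : resultant B A ≠ 0 := H94.PL.res_ne_zero hB h
  show H94.PC.ch (resultant B A) = sg (χ.lg (resultant B A))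
  have h2 : ((2 : ℕ) : ZMod 2) = 0 := rfl
  by_cases hs : IsSquare (resultant B A)
  · rw [H94.PC.ch_of_sq hr hs]
    obtain ⟨s, hs⟩ := hs
    have hs0 : s ≠ 0 := by
      rintro rfl
      rw [mul_zero] at hs
      exact hr hs
    have h1 : χ.lg (resultant B A) = 0 := by
      rw [hs, ← sq, H94.PL.lg_pow χ hs0, h2, zero_mul]
    rw [h1, H94.PC.sg_zero]
  · rw [H94.PC.ch_of_not hs]
    have h1 : χ.lg (resultant B A) ≠ 0 := by
      intro h0
      obtain ⟨y, -, hy⟩ := χ.ker hr h0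
      exact hs ⟨y, by rw [hy, sq]⟩
    have h3 : χ.lg (resultant B A) = 1 := by
      revert h1
      generalize χ.lg (resultant B A) = z
      revert z
      decide
    rw [h3, H94.PC.sg_one]

/-- the symbols of two polynomials at a place -/
noncomputable def hp (w : Pl F) (x y : F[X]) : ZMod 2 :=
  hw χ w (algebraMap F[X] (RatFunc F) x) (algebraMap F[X] (RatFunc F) y)

omit [DecidableEq (RatFunc F)] [Finite F] in
private theorem alg_ne {x : F[X]} (hx : x ≠ 0) : algebraMap F[X] (RatFunc F) x ≠ 0 :=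
  RatFunc.algebraMap_ne_zero hx

omit [Finite F] in
private theorem ia_ne {w : Pl F} {x : F[X]} (hx : x ≠ 0) :
    iw w (algebraMap F[X] (RatFunc F) x) ≠ 0 := iw_ne (alg_ne hx)

private theorem zz_self (a : ZMod 2) : a + a = 0 := by
  revert a
  decide

private theorem zz_eq (a b : ZMod 2) (h : a + b = 0) : a = b := by
  revert a b
  decide

private theorem hp_mul (w : Pl F) {x y z : F[X]} (hx : x ≠ 0) (hy : y ≠ 0) (hz : z ≠ 0) :
    hp χ w (x * y) z = hp χ w x z + hp χ w y z := by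
  unfold hp
  rw [map_mul]
  exact hw_mul χ w (alg_ne hx) (alg_ne hy) (alg_ne hz)

private theorem hp_mul' (w : Pl F) {x y z : F[X]} (hx : x ≠ 0) (hy : y ≠ 0) (hz : z ≠ 0) :
    hp χ w x (y * z) = hp χ w x y + hp χ w x z := by
  unfold hp
  rw [map_mul]
  exact hw_mul' χ w (alg_ne hx) (alg_ne hy) (alg_ne hz)

private theorem hp_of_sq (w : Pl F) {x g : F[X]} (hx : x ≠ 0) (hg : g ≠ 0)
    (hs : IsSquare (iw w (algebraMap F[X] (RatFunc F) x))) : hp χ w x g = 0 := by
  obtain ⟨r, hr⟩ := hs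
  have hr0 : r ≠ 0 := by
    rintro rfl
    rw [mul_zero] at hr
    exact ia_ne hx hr
  show (Uw χ w).hs (iw w (algebraMap F[X] (RatFunc F) x)) (iw w (algebraMap F[X] (RatFunc F) g)) = 0
  rw [hr, ← sq, hs_comm]
  exact hs_sq χ (ia_ne hg) hr0

theorem slot_loc (hq : 2 ∣ Nat.card F - 1) (w : Pl F) {x1 x2 y1 y2 : F[X]} (h1 : x1 ≠ 0)
    (h2 : x2 ≠ 0) (h3 : y1 ≠ 0) (h4 : y2 ≠ 0) (h : hp χ w x1 y2 + hp χ w x2 y1 = 0) :
    ∃ g : F[X], g ≠ 0 ∧ hp χ w x1 g = hp χ w x1 y2 ∧ hp χ w x2 g = hp χ w x2 y1 := by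
  by_cases hs1 : IsSquare (iw w (algebraMap F[X] (RatFunc F) x1))
  · exact ⟨y1, h3, by rw [hp_of_sq χ w h1 h3 hs1, hp_of_sq χ w h1 h4 hs1], rfl⟩
  by_cases hs2 : IsSquare (iw w (algebraMap F[X] (RatFunc F) x2))
  · exact ⟨y2, h4, rfl, by rw [hp_of_sq χ w h2 h4 hs2, hp_of_sq χ w h2 h3 hs2]⟩
  by_cases hs3 : IsSquare (iw w (algebraMap F[X] (RatFunc F) (x1 * x2)))
  · refine ⟨y2, h4, rfl, ?_⟩
    have e1 := hp_of_sq χ w (mul_ne_zero h1 h2) h4 hs3
    rw [hp_mul χ w h1 h2 h4] at e1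
    rw [← zz_eq _ _ e1]
    exact zz_eq _ _ h
  · rw [map_mul, map_mul] at hs3
    obtain ⟨g, hg, e1, e2⟩ := hs_exists χ hq (ia_ne h1) (ia_ne h2) hs1 hs2 hs3
      (hp χ w x1 y2) (hp χ w x2 y1)
    exact ⟨g, hg, e1, e2⟩

/-- the symbol depends only on the class -/
private theorem hp_class (w : Pl F) (x c g : F[X])
    (h1 : ev w (iw w (algebraMap F[X] (RatFunc F) c)) = ev w (iw w (algebraMap F[X] (RatFunc F) g)))
    (h2 : (Uw χ w).un (iw w (algebraMap F[X] (RatFunc F) c)) =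
      (Uw χ w).un (iw w (algebraMap F[X] (RatFunc F) g))) : hp χ w x c = hp χ w x g := by
  have e : ∀ z : F[X], hp χ w x z =
      (Uw χ w).un (iw w (algebraMap F[X] (RatFunc F) x)) *
          ev w (iw w (algebraMap F[X] (RatFunc F) z)) -
        ev w (iw w (algebraMap F[X] (RatFunc F) x)) *
          (Uw χ w).un (iw w (algebraMap F[X] (RatFunc F) z)) +
      (Uw χ w).un (-1) * (ev w (iw w (algebraMap F[X] (RatFunc F) x)) *
        ev w (iw w (algebraMap F[X] (RatFunc F) z))) := fun z => rfl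
  rw [e, e, h1, h2]

/-- the local data -/
private theorem slot_loc' (hq : 2 ∣ Nat.card F - 1) (w : Pl F) {x1 x2 y1 y2 : F[X]} (h1 : x1 ≠ 0)
    (h2 : x2 ≠ 0) (h3 : y1 ≠ 0) (h4 : y2 ≠ 0) (h : hp χ w x1 y2 + hp χ w x2 y1 = 0) :
    ∃ (e : ℕ) (u : ZMod 2), e ≤ 1 ∧ ∀ c : F[X], c ≠ 0 →
      ev w (iw w (algebraMap F[X] (RatFunc F) c)) = (e : ZMod 2) →
      (Uw χ w).un (iw w (algebraMap F[X] (RatFunc F) c)) = u →
      hp χ w x1 (c * y2) = 0 ∧ hp χ w x2 (c * y1) = 0 ∧ hp χ w (x1 * x2) c = 0 := by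
  obtain ⟨g, hg, e1, e2⟩ := slot_loc χ hq w h1 h2 h3 h4 h
  refine ⟨(ev w (iw w (algebraMap F[X] (RatFunc F) g))).val,
    (Uw χ w).un (iw w (algebraMap F[X] (RatFunc F) g)), ?_, fun c hc h5 h6 => ?_⟩
  · have := ZMod.val_lt (ev w (iw w (algebraMap F[X] (RatFunc F) g)))
    omega
  · rw [ZMod.natCast_zmod_val] at h5
    have e3 := hp_class χ w x1 c g h5 h6
    have e4 := hp_class χ w x2 c g h5 h6
    rw [hp_mul' χ w h1 hc h4, hp_mul' χ w h2 hc h3, hp_mul χ w h1 h2 hc, e3, e4, e1, e2]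
    exact ⟨zz_self _, zz_self _, h⟩

/-- the symbol at the last place -/
private theorem hp_last {x y : F[X]} (hx : x ≠ 0) (hy : y ≠ 0) (w₀ : Pl F)
    (h : ∀ w, w ≠ w₀ → hp χ w x y = 0) : hp χ w₀ x y = 0 := by
  classical
  have e := hw_sum χ ((ev_fin (alg_ne hx)).toFinset ∪ (ev_fin (alg_ne hy)).toFinset ∪ {w₀})
    (alg_ne hx) (alg_ne hy) (fun w hw => by
      rw [Finset.mem_union, Finset.mem_union, not_or, not_or, Set.Finite.mem_toFinset,
        Set.Finite.mem_toFinset] at hw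
      exact ⟨not_not.1 hw.1.1, not_not.1 hw.1.2⟩)
  change ∑ w ∈ _, hp χ w x y = 0 at e
  rw [Finset.sum_eq_single w₀ (fun w _ hw => h w hw) (fun hn => absurd (by simp) hn)] at e
  exact e

omit [DecidableEq (RatFunc F)] in
private theorem slo_pf_le {M : F[X]} (hM : M ≠ 0) : ∑ P ∈ pf M, P.natDegree ≤ M.natDegree := by
  have h1 : ∏ P ∈ pf M, P ∣ M := by
    refine Finset.prod_dvd_of_coprime ?_ fun P hP => (mem_pf' hP).2.2
    intro P hP Q hQ hne
    have hP' := mem_pf' (Finset.mem_coe.1 hP)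
    have hQ' := mem_pf' (Finset.mem_coe.1 hQ)
    exact Pool.Agent.H94.PC.isCoprime_irr hP'.1 hP'.2.1 hQ'.1 hQ'.2.1 hne
  have h2 := natDegree_le_of_dvd h1 hM
  rw [natDegree_prod_of_monic _ _ (fun P hP => (mem_pf' hP).1)] at h2
  exact h2

omit [DecidableEq (RatFunc F)] [Finite F] in
private theorem ndvd_C' {P : F[X]} (hi : Irreducible P) {c : F} (hc : c ≠ 0) : ¬ P ∣ C c :=
  fun h => hi.not_isUnit (isUnit_of_dvd_unit h (isUnit_C.2 (isUnit_iff_ne_zero.2 hc)))

omit [DecidableEq (RatFunc F)] [Finite F] in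
private theorem ndvd_irr' {P Q : F[X]} (hP : P.Monic) (hi : Irreducible P) (hQ : Q.Monic)
    (hQi : Irreducible Q) (hne : P ≠ Q) : ¬ P ∣ Q :=
  fun h => hne (eq_of_monic_of_associated hP hQ (hi.associated_of_dvd hQi h))

theorem slot (hq : 2 ∣ Nat.card F - 1) : ∃ C : ℕ, ∀ x1 x2 y1 y2 : F[X], x1 ≠ 0 → x2 ≠ 0 →
    y1 ≠ 0 → y2 ≠ 0 → (∀ w : Pl F, hp χ w x1 y2 + hp χ w x2 y1 = 0) →
    ∃ c : F[X], c ≠ 0 ∧ Squarefree c ∧
      c.natDegree ≤ C * (x1.natDegree + x2.natDegree + y1.natDegree + y2.natDegree + 1) ∧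
      ∀ w : Pl F, hp χ w x1 (c * y2) = 0 ∧ hp χ w x2 (c * y1) = 0 ∧ hp χ w (x1 * x2) c = 0 := by
  classical
  have h2F : (2 : F) ≠ 0 := by
    intro h0
    apply two_ne_w hq (none : Pl F)
    have h1 := congrArg ((iw (none : Pl F)).comp (algebraMap F (RatFunc F))) h0
    rwa [map_ofNat, map_zero] at h1
  obtain ⟨C₀, hC₀⟩ := prm F h2F
  refine ⟨C₀ + 2, fun x1 x2 y1 y2 h1 h2 h3 h4 hh => ?_⟩
  set N := x1.natDegree + x2.natDegree + y1.natDegree + y2.natDegree with hN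
  have hM : x1 * x2 * y1 * y2 ≠ 0 := mul_ne_zero (mul_ne_zero (mul_ne_zero h1 h2) h3) h4
  set T := pf (x1 * x2 * y1 * y2) with hT
  have hTm : ∀ v ∈ T, v.Monic ∧ Irreducible v := fun v hv =>
    ⟨(mem_pf' hv).1, (mem_pf' hv).2.1⟩
  have hTd : ∑ v ∈ T, v.natDegree ≤ N := by
    refine (slo_pf_le hM).trans (le_of_eq ?_)
    rw [natDegree_mul (mul_ne_zero (mul_ne_zero h1 h2) h3) h4,
      natDegree_mul (mul_ne_zero h1 h2) h3, natDegree_mul h1 h2]
  -- the local data
  have hloc : ∀ v : F[X], ∃ (e : ℕ) (u : ZMod 2), e ≤ 1 ∧ ∀ (hv : v ∈ T) (c : F[X]), c ≠ 0 →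
      ev (some ⟨v, hTm v hv⟩ : Pl F) (iw _ (algebraMap F[X] (RatFunc F) c)) = (e : ZMod 2) →
      (Uw χ (some ⟨v, hTm v hv⟩ : Pl F)).un (iw _ (algebraMap F[X] (RatFunc F) c)) = u →
      hp χ (some ⟨v, hTm v hv⟩) x1 (c * y2) = 0 ∧ hp χ (some ⟨v, hTm v hv⟩) x2 (c * y1) = 0 ∧
        hp χ (some ⟨v, hTm v hv⟩) (x1 * x2) c = 0 := by
    intro v
    by_cases hv : v ∈ T
    · obtain ⟨e, u, he, h⟩ := slot_loc' χ hq (some ⟨v, hTm v hv⟩) h1 h2 h3 h4 (hh _)
      exact ⟨e, u, he, fun _ => h⟩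
    · exact ⟨0, 0, zero_le_one, fun hv' => absurd hv' hv⟩
  choose e u he hloc using hloc
  obtain ⟨ei, ui, -, hinf⟩ := slot_loc' χ hq (none : Pl F) h1 h2 h3 h4 (hh _)
  -- the constant
  obtain ⟨c₀, hc₀, hlc₀⟩ : ∃ c₀ : F, c₀ ≠ 0 ∧ χ.lg c₀ = ui := by
    obtain ⟨c, hc, hc1⟩ := χ.surj
    have hb : ui = 0 ∨ ui = 1 := by
      clear hinf
      revert ui
      decide
    rcases hb with rfl | rfl
    · exact ⟨1, one_ne_zero, H94.PL.lg_one χ⟩
    · exact ⟨c, hc, hc1⟩
  -- the degree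
  obtain ⟨m, hm1, hm2, hm3⟩ : ∃ m : ℕ, (C₀ + 1) * (N + 1) ≤ m ∧ m ≤ (C₀ + 1) * (N + 1) + 1 ∧
      ((∑ v ∈ T, e v * v.natDegree + m : ℕ) : ZMod 2) = (ei : ZMod 2) := by
    set δ : ZMod 2 := (ei : ZMod 2) - ((∑ v ∈ T, e v * v.natDegree + (C₀ + 1) * (N + 1) : ℕ) : ZMod 2)
      with hδ
    refine ⟨(C₀ + 1) * (N + 1) + δ.val, Nat.le_add_right _ _, ?_, ?_⟩
    · have := ZMod.val_lt δ
      omega
    · rw [← add_assoc, Nat.cast_add, ZMod.natCast_zmod_val, hδ]
      ring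
  -- the prime
  set t : F[X] → ZMod 2 := fun v => u v - ((v.natDegree : ZMod 2) * χ.lg c₀ +
    ∑ v' ∈ T.erase v, (e v' : ZMod 2) * lm χ v' v) with ht
  obtain ⟨P, hP, hPs⟩ := hC₀ T (fun v => sg (t v + ((v.natDegree : ZMod 2) * (m : ZMod 2)) * χ.lg (-1))) m
    hTm (fun v => H94.PC.sg_cases _) (by
      refine le_trans ?_ hm1
      exact Nat.mul_le_mul (Nat.le_succ _) (by omega))
  obtain ⟨hPm, hPd, hPi⟩ := mem_Pr.1 hP
  have hcop : ∀ v ∈ T, IsCoprime v P := by
    intro v hv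
    by_contra hn
    have h5 := (H94.PC.js_eq_zero hPm).2 hn
    rw [hPs v hv] at h5
    rcases H94.PC.sg_cases (t v + ((v.natDegree : ZMod 2) * (m : ZMod 2)) * χ.lg (-1)) with h6 | h6 <;>
      rw [h6] at h5 <;> norm_num at h5
  have hPT : P ∉ T := by
    intro hPT
    exact hPi.not_isUnit (isCoprime_self.1 (hcop P hPT))
  have hlm : ∀ v ∈ T, lm χ P v = t v := by
    intro v hv
    have h5 := hPs v hv
    rw [js_lm χ hPm (hcop v hv)] at h5
    have h6 := H94.PC.sg_inj h5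
    rw [H94.PM.lm_recip' χ hPm (hTm v hv).1 (hcop v hv).symm, h6, hPd]
    have h7 := zz_self ((v.natDegree : ZMod 2) * (m : ZMod 2) * χ.lg (-1))
    linear_combination h7
  -- the element
  have hv0 : ∀ v ∈ T, v ^ e v ≠ 0 := fun v hv => pow_ne_zero _ (hTm v hv).1.ne_zero
  have hpm : (∏ v ∈ T, v ^ e v).Monic := monic_prod_of_monic _ _ fun v hv => (hTm v hv).1.pow _
  have hcC : C c₀ ≠ 0 := C_ne_zero.2 hc₀
  set c := C c₀ * (∏ v ∈ T, v ^ e v) * P with hc
  have hc0 : c ≠ 0 := mul_ne_zero (mul_ne_zero hcC hpm.ne_zero) hPm.ne_zero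
  have hcd : c.natDegree = ∑ v ∈ T, e v * v.natDegree + m := by
    rw [hc, natDegree_mul (mul_ne_zero hcC hpm.ne_zero) hPm.ne_zero, natDegree_C_mul hc₀,
      natDegree_prod_of_monic _ _ (fun v hv => (hTm v hv).1.pow _), hPd]
    congr 1
    exact Finset.sum_congr rfl fun v hv => natDegree_pow _ _
  have hed : ∑ v ∈ T, e v * v.natDegree ≤ N :=
    (Finset.sum_le_sum fun v _ => (Nat.mul_le_mul_right _ (he v)).trans (by rw [one_mul])).trans hTd
  -- the places outside `P`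
  have key : ∀ w : Pl F, w ≠ some ⟨P, hPm, hPi⟩ →
      hp χ w x1 (c * y2) = 0 ∧ hp χ w x2 (c * y1) = 0 ∧ hp χ w (x1 * x2) c = 0 := by
    rintro (_ | ⟨Q, hQ, hQi⟩) hw
    · apply hinf c hc0
      · rw [ev_none hc0, hcd]
        exact hm3
      · rw [un_none χ hc0, hc, leadingCoeff_mul, leadingCoeff_mul, leadingCoeff_C,
          hpm.leadingCoeff, hPm.leadingCoeff, mul_one, mul_one, hlc₀]
    · have hQP : Q ≠ P := by
        rintro rfl
        exact hw rfl
      by_cases hQT : Q ∈ T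
      · apply hloc Q hQT c hc0
        · rw [hc, map_mul, map_mul, map_mul, map_mul, map_prod, map_prod,
            ev_mul (mul_ne_zero (ia_ne hcC) (Finset.prod_ne_zero_iff.2 fun v hv => ia_ne (hv0 v hv)))
              (ia_ne hPm.ne_zero),
            ev_mul (ia_ne hcC) (Finset.prod_ne_zero_iff.2 fun v hv => ia_ne (hv0 v hv)),
            ev_poly_zero hQ hQi (ndvd_C' hQi hc₀), ev_poly_zero hQ hQi (ndvd_irr' hQ hQi hPm hPi hQP),
            ev_prod _ _ (fun v hv => ia_ne (hv0 v hv)), zero_add, add_zero,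
            Finset.sum_eq_single Q]
          · have h8 := he Q
            interval_cases h9 : e Q
            · rw [pow_zero, Nat.cast_zero]
              exact ev_poly_zero hQ hQi fun hd => hQi.not_isUnit (isUnit_of_dvd_one hd)
            · rw [pow_one, Nat.cast_one]
              exact ev_self hQ hQi
          · intro v hv hvQ
            refine ev_poly_zero hQ hQi fun hd => ?_
            exact ndvd_irr' hQ hQi (hTm v hv).1 (hTm v hv).2 (Ne.symm hvQ)
              (hQi.prime.dvd_of_dvd_pow hd)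
          · exact fun hn => absurd hQT hn
        · rw [hc, map_mul, map_mul, map_mul, map_mul, map_prod, map_prod,
            (Uw χ _).mul _ _ (mul_ne_zero (ia_ne hcC) (Finset.prod_ne_zero_iff.2 fun v hv =>
              ia_ne (hv0 v hv))) (ia_ne hPm.ne_zero),
            (Uw χ _).mul _ _ (ia_ne hcC) (Finset.prod_ne_zero_iff.2 fun v hv => ia_ne (hv0 v hv)),
            un_some χ hQ hQi (ndvd_C' hQi hc₀), un_some χ hQ hQi (ndvd_irr' hQ hQi hPm hPi hQP),
            H94.PL.lm_C χ hQ hc₀, (Uw χ _).un_prod _ _ (fun v hv => ia_ne (hv0 v hv)),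
            hlm Q hQT, ← Finset.add_sum_erase _ _ hQT]
          have e1 : (Uw χ (some ⟨Q, hQ, hQi⟩ : Pl F)).un
              (iw _ (algebraMap F[X] (RatFunc F) (Q ^ e Q))) = 0 := by
            rw [map_pow, map_pow, (Uw χ _).un_pow (ia_ne hQ.ne_zero), un_self χ hQ hQi, mul_zero]
          have e2 : ∀ v ∈ T.erase Q, (Uw χ (some ⟨Q, hQ, hQi⟩ : Pl F)).un
              (iw _ (algebraMap F[X] (RatFunc F) (v ^ e v))) = (e v : ZMod 2) * lm χ v Q := by
            intro v hv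
            obtain ⟨hv1, hv2⟩ := Finset.mem_erase.1 hv
            rw [map_pow, map_pow, (Uw χ _).un_pow (ia_ne (hTm v hv2).1.ne_zero),
              un_some χ hQ hQi (ndvd_irr' hQ hQi (hTm v hv2).1 (hTm v hv2).2 (Ne.symm hv1))]
          rw [e1, Finset.sum_congr rfl e2, ht]
          ring
      · have hnd : ¬ Q ∣ x1 * x2 * y1 * y2 := fun hd => hQT ((mem_pf hM).2 ⟨hQ, hQi, hd⟩)
        have hp' := hQi.prime
        have n1 : ¬ Q ∣ x1 := fun hd => hnd (((hd.mul_right _).mul_right _).mul_right _)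
        have n2 : ¬ Q ∣ x2 := fun hd => hnd (((hd.mul_left _).mul_right _).mul_right _)
        have n3 : ¬ Q ∣ y1 := fun hd => hnd ((hd.mul_left _).mul_right _)
        have n4 : ¬ Q ∣ y2 := fun hd => hnd (hd.mul_left _)
        have nc : ¬ Q ∣ c := by
          intro hd
          rw [hc] at hd
          rcases hp'.dvd_or_dvd hd with hd | hd
          · rcases hp'.dvd_or_dvd hd with hd | hd
            · exact ndvd_C' hQi hc₀ hd
            · obtain ⟨v, hv, hd⟩ := (hp'.dvd_finsetProd_iff _).1 hd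
              have h9 := hp'.dvd_of_dvd_pow hd
              by_cases hQv : Q = v
              · rw [hQv] at hQT
                exact hQT hv
              · exact ndvd_irr' hQ hQi (hTm v hv).1 (hTm v hv).2 hQv h9
          · exact ndvd_irr' hQ hQi hPm hPi hQP hd
        have ne : ∀ {a b : F[X]}, ¬ Q ∣ a → ¬ Q ∣ b → ¬ Q ∣ a * b := fun ha hb hd =>
          (hp'.dvd_or_dvd hd).elim ha hb
        exact ⟨hw_even χ (ev_poly_zero hQ hQi n1) (ev_poly_zero hQ hQi (ne nc n4)),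
          hw_even χ (ev_poly_zero hQ hQi n2) (ev_poly_zero hQ hQi (ne nc n3)),
          hw_even χ (ev_poly_zero hQ hQi (ne n1 n2)) (ev_poly_zero hQ hQi nc)⟩
  refine ⟨c, hc0, ?_, ?_, fun w => ?_⟩
  · -- squarefree
    have hsq : Squarefree (∏ v ∈ insert P T, v ^ (if v = P then 1 else e v)) := by
      refine Finset.squarefree_prod_of_pairwise_isCoprime ?_ ?_
      · intro v hv v' hv' hne
        have a1 : v.Monic ∧ Irreducible v := by
          rcases Finset.mem_insert.1 (Finset.mem_coe.1 hv) with rfl | h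
          · exact ⟨hPm, hPi⟩
          · exact hTm v h
        have a2 : v'.Monic ∧ Irreducible v' := by
          rcases Finset.mem_insert.1 (Finset.mem_coe.1 hv') with rfl | h
          · exact ⟨hPm, hPi⟩
          · exact hTm v' h
        exact (H94.PC.isCoprime_irr a1.1 a1.2 a2.1 a2.2 hne).pow.isRelPrime
      · intro v hv
        have a1 : Irreducible v := by
          rcases Finset.mem_insert.1 hv with rfl | h
          · exact hPi
          · exact (hTm v h).2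
        have a2 : (if v = P then 1 else e v) ≤ 1 := by
          split_ifs
          · exact le_rfl
          · exact he v
        interval_cases h9 : (if v = P then 1 else e v)
        · rw [pow_zero]
          exact squarefree_one
        · rw [pow_one]
          exact a1.squarefree
    have e3 : ∏ v ∈ T, v ^ (if v = P then 1 else e v) = ∏ v ∈ T, v ^ e v := by
      refine Finset.prod_congr rfl fun v hv => ?_
      rw [if_neg]
      rintro rfl
      exact hPT hv
    rw [Finset.prod_insert hPT, if_pos rfl, pow_one, e3] at hsq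
    have h9 : Associated (P * ∏ v ∈ T, v ^ e v) c := by
      refine ⟨(isUnit_C.2 (isUnit_iff_ne_zero.2 hc₀)).unit, ?_⟩
      rw [IsUnit.unit_spec, hc]
      ring
    exact (h9.squarefree_iff).1 hsq
  · rw [hcd]
    have h9 : (C₀ + 2) * (N + 1) = (C₀ + 1) * (N + 1) + (N + 1) := by ring
    rw [h9]
    omega
  · by_cases hw : w = some ⟨P, hPm, hPi⟩
    · subst hw
      exact ⟨hp_last χ h1 (mul_ne_zero hc0 h4) _ fun w hw => (key w hw).1,
        hp_last χ h2 (mul_ne_zero hc0 h3) _ fun w hw => (key w hw).2.1,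
        hp_last χ (mul_ne_zero h1 h2) hc0 _ fun w hw => (key w hw).2.2⟩
    · exact key w hw

end Pool.Agent.H74.FS
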