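import Pool.Agent.H74.FS.CLB
import Pool.Agent.H74.FS.SLO
import Pool.Agent.H3.FS.FRD

set_option autoImplicit false

/-!
# [H74 FS CLC] Two primes of the same cell

`P, P₁ ∈ CellD Δ D' m τ`: monic irreducible of degree `m` with the same symbols `js v P = js v P₁` for all `v ∈ pf (D' Δ)`; `m > deg v` for these `v`.  `D' Δ ≠ 0`.
* `cell_lm`: `lm χ v P = lm χ v P₁` for `v ∈ pf (D' Δ)`: `js_lm` (`v` is prime to `P`: `P ∣ v` is impossible by the degree), `sg` injective (`H94.PC.sg_inj`).  `cell_lm'`: `lm χ P v = lm χ P₁ v`: the reciprocity law and `deg P = deg P₁`.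
* `cell_fin`: at `w = some v`: `DK c (D' P₁) = DK c (D' P) * (P₁ / P)`; `P₁ / P` has `ev = 0` and `un = lm χ P₁ v - lm χ P v = 0`, so it is a square (`sq_of`), `P ∤ v` as above.  `cell_inf`: the same at infinity: degrees and leading coefficients of `P`, `P₁` are
  equal (`ev_none`, `un_none`).
* `cell_un`: `z ≠ 0` in `F(t)`, even at all primes outside `pf (D' Δ)`.  `z` is a square in `Kw F (some P)` iff it is one in `Kw F (some P₁)`: by `H94.PM.un_toP` with `T = pf (D' Δ)` (`P, P₁ ∉ T` by the degrees)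
  `un z = deg P * kap χ z + ∑ Q ∈ T, ex Q z * lm χ Q P`, the same for `P₁` by `cell_lm`; `ev = 0` at both; `sq_iff`.
-/

namespace Pool.Agent.H74.FS

open Polynomial
open Pool.Agent.H94.PL (LChar lm XX DK AK dl)
open Pool.Agent.H94.PM (LU vl IsVln IsSln)
open Pool.Agent.H94.PC (pf mem_pf Pr js)
open Pool.Agent.H3.FS (CellD)

variable {F : Type} [Field F] [DecidableEq (RatFunc F)] [Finite F] (χ : LChar F 2) {c : F}
  {Δ D' : F[X]} {m : ℕ} {τ : F[X] → ℝ} {P P₁ : F[X]}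

omit [DecidableEq (RatFunc F)] in
theorem cell_mem (h : P ∈ CellD Δ D' m τ) : P.Monic ∧ Irreducible P :=
  ⟨(Pool.Agent.H94.PC.mem_Pr.1 h.1).1, (Pool.Agent.H94.PC.mem_Pr.1 h.1).2.2⟩

omit [DecidableEq (RatFunc F)] in
theorem cell_ndvd (hm : ∀ v ∈ pf (D' * Δ), v.natDegree < m) (h0 : D' * Δ ≠ 0)
    (h : P ∈ CellD Δ D' m τ) : ¬ P ∣ D' * Δ := by
  intro hd
  have h1 := cell_mem h
  have h2 := hm P ((mem_pf h0).2 ⟨h1.1, h1.2, hd⟩)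
  have h3 := (Pool.Agent.H94.PC.mem_Pr.1 h.1).2.1
  omega

omit [DecidableEq (RatFunc F)] in
private theorem cell_cop (hm : ∀ v ∈ pf (D' * Δ), v.natDegree < m)
    (h : P ∈ CellD Δ D' m τ) {v : F[X]} (hv : v ∈ pf (D' * Δ)) : IsCoprime v P := by
  have h1 := cell_mem h
  have h2 := Pool.Agent.H94.PC.mem_pf' hv
  have h3 := (Pool.Agent.H94.PC.mem_Pr.1 h.1).2.1
  refine (h1.2.coprime_iff_not_dvd.2 fun h4 => ?_).symm
  have h5 := natDegree_le_of_dvd h4 h2.1.ne_zero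
  have h6 := hm v hv
  omega

omit [DecidableEq (RatFunc F)] in
theorem cell_lm (hm : ∀ v ∈ pf (D' * Δ), v.natDegree < m) (h : P ∈ CellD Δ D' m τ)
    (h₁ : P₁ ∈ CellD Δ D' m τ) {v : F[X]} (hv : v ∈ pf (D' * Δ)) :
    lm χ v P = lm χ v P₁ ∧ lm χ P v = lm χ P₁ v := by
  have hv1 := Pool.Agent.H94.PC.mem_pf' hv
  have hc := cell_cop hm h hv
  have hc₁ := cell_cop hm h₁ hv
  have h1 : lm χ v P = lm χ v P₁ := by
    apply H94.PC.sg_inj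
    rw [← js_lm χ (cell_mem h).1 hc, ← js_lm χ (cell_mem h₁).1 hc₁, h.2 v hv, h₁.2 v hv]
  refine ⟨h1, ?_⟩
  rw [H94.PM.lm_recip' χ (cell_mem h).1 hv1.1 hc.symm,
    H94.PM.lm_recip' χ (cell_mem h₁).1 hv1.1 hc₁.symm, h1,
    (Pool.Agent.H94.PC.mem_Pr.1 h.1).2.1, (Pool.Agent.H94.PC.mem_Pr.1 h₁.1).2.1]

omit [DecidableEq (RatFunc F)] [Finite F] in
private theorem cell_DK (E Q : F[X]) : DK c (E * Q) =
    algebraMap F[X] (RatFunc F) (C c * E) * algebraMap F[X] (RatFunc F) Q := by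
  rw [DK, ← map_mul]
  congr 1
  ring

theorem cell_fin (hq : 2 ∣ Nat.card F - 1) (hc : c ≠ 0) (hm : ∀ v ∈ pf (D' * Δ), v.natDegree < m)
    (h0 : D' * Δ ≠ 0) (h : P ∈ CellD Δ D' m τ) (h₁ : P₁ ∈ CellD Δ D' m τ) {v : F[X]}
    (hv : v.Monic ∧ Irreducible v) (hv' : v ∣ D' * Δ) :
    ∃ y : Kw F (some ⟨v, hv⟩), y ≠ 0 ∧
      iw (some ⟨v, hv⟩ : Pl F) (DK c (D' * P₁)) = iw _ (DK c (D' * P)) * y ^ 2 := by
  obtain ⟨χ⟩ := H94.PL.exists_LChar F Nat.prime_two hq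
  have hvp : v ∈ pf (D' * Δ) := (mem_pf h0).2 ⟨hv.1, hv.2, hv'⟩
  have hD' : D' ≠ 0 := left_ne_zero_of_mul h0
  have hnd : ∀ {Q : F[X]}, Q ∈ CellD Δ D' m τ → ¬ v ∣ Q := by
    intro Q hQ hd
    exact hv.2.not_isUnit ((cell_cop hm hQ hvp).isUnit_of_dvd' dvd_rfl hd)
  have hP0 : ∀ {Q : F[X]}, Q ∈ CellD Δ D' m τ → algebraMap F[X] (RatFunc F) Q ≠ 0 :=
    fun hQ => RatFunc.algebraMap_ne_zero (cell_mem hQ).2.ne_zero
  have hE0 : algebraMap F[X] (RatFunc F) (C c * D') ≠ 0 :=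
    RatFunc.algebraMap_ne_zero (mul_ne_zero (C_ne_zero.2 hc) hD')
  rw [cell_DK, cell_DK]
  generalize algebraMap F[X] (RatFunc F) (C c * D') = E at hE0 ⊢
  apply same_class χ hq (iw_ne (mul_ne_zero hE0 (hP0 h₁))) (iw_ne (mul_ne_zero hE0 (hP0 h)))
  · rw [map_mul, map_mul, ev_mul (iw_ne hE0) (iw_ne (hP0 h₁)), ev_mul (iw_ne hE0) (iw_ne (hP0 h)),
      ev_poly_zero hv.1 hv.2 (hnd h₁), ev_poly_zero hv.1 hv.2 (hnd h)]
  · rw [map_mul, map_mul, (Uw χ _).mul _ _ (iw_ne hE0) (iw_ne (hP0 h₁)),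
      (Uw χ _).mul _ _ (iw_ne hE0) (iw_ne (hP0 h)), un_some χ hv.1 hv.2 (hnd h₁),
      un_some χ hv.1 hv.2 (hnd h), (cell_lm χ hm h h₁ hvp).2]

theorem cell_inf (hq : 2 ∣ Nat.card F - 1) (hc : c ≠ 0) (h0 : D' * Δ ≠ 0)
    (h : P ∈ CellD Δ D' m τ) (h₁ : P₁ ∈ CellD Δ D' m τ) :
    ∃ y : Kw F (none : Pl F), y ≠ 0 ∧
      iw (none : Pl F) (DK c (D' * P₁)) = iw _ (DK c (D' * P)) * y ^ 2 := by
  obtain ⟨χ⟩ := H94.PL.exists_LChar F Nat.prime_two hq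
  have hD' : D' ≠ 0 := left_ne_zero_of_mul h0
  have hne : ∀ {Q : F[X]}, Q ∈ CellD Δ D' m τ → C c * (D' * Q) ≠ 0 :=
    fun hQ => mul_ne_zero (C_ne_zero.2 hc) (mul_ne_zero hD' (cell_mem hQ).2.ne_zero)
  apply same_class χ hq (iw_ne (H94.PL.DK_ne hc (right_ne_zero_of_mul (hne h₁))))
    (iw_ne (H94.PL.DK_ne hc (right_ne_zero_of_mul (hne h))))
  · rw [DK, DK, ev_none (hne h₁), ev_none (hne h), natDegree_C_mul hc, natDegree_C_mul hc,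
      natDegree_mul hD' (cell_mem h₁).2.ne_zero, natDegree_mul hD' (cell_mem h).2.ne_zero,
      (Pool.Agent.H94.PC.mem_Pr.1 h.1).2.1, (Pool.Agent.H94.PC.mem_Pr.1 h₁.1).2.1]
  · rw [DK, DK, un_none χ (hne h₁), un_none χ (hne h), leadingCoeff_mul, leadingCoeff_mul,
      leadingCoeff_mul, leadingCoeff_mul, (cell_mem h₁).1.leadingCoeff, (cell_mem h).1.leadingCoeff]

theorem cell_un (hq : 2 ∣ Nat.card F - 1) (hm : ∀ v ∈ pf (D' * Δ), v.natDegree < m)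
    (h0 : D' * Δ ≠ 0) (h : P ∈ CellD Δ D' m τ) (h₁ : P₁ ∈ CellD Δ D' m τ) {z : RatFunc F}
    (hz : z ≠ 0) (he : ∀ Q : F[X], Q.Monic → Irreducible Q → ¬ Q ∣ D' * Δ →
      H94.PL.ex 2 Q z = 0) (hs : IsSquare (iw (some ⟨P, cell_mem h⟩ : Pl F) z)) :
    IsSquare (iw (some ⟨P₁, cell_mem h₁⟩ : Pl F) z) := by
  obtain ⟨χ⟩ := H94.PL.exists_LChar F Nat.prime_two hq
  have hun : ∀ {Q : F[X]} (hQ : Q ∈ CellD Δ D' m τ), (Uw χ (some ⟨Q, cell_mem hQ⟩ : Pl F)).un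
      (iw _ z) = (m : ZMod 2) * H94.PL.kap χ z +
        ∑ v ∈ pf (D' * Δ), H94.PL.ex 2 v z * lm χ v Q := by
    intro Q hQ
    have h2 := H94.PM.un_toP χ (cell_mem hQ).1 (cell_mem hQ).2 hz (pf (D' * Δ))
      (fun v hv => ⟨(Pool.Agent.H94.PC.mem_pf' hv).1, (Pool.Agent.H94.PC.mem_pf' hv).2.1⟩)
      (fun hQ' => cell_ndvd hm h0 hQ (Pool.Agent.H94.PC.mem_pf' hQ').2.2)
      (fun v hv1 hv2 hv3 _ => he v hv1 hv2 fun hv4 => hv3 ((mem_pf h0).2 ⟨hv1, hv2, hv4⟩))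
    rw [(Pool.Agent.H94.PC.mem_Pr.1 hQ.1).2.1] at h2
    exact h2
  rw [sq_iff χ hq (iw_ne hz)] at hs ⊢
  refine ⟨?_, ?_⟩
  · exact (ev_some (cell_mem h₁).1 (cell_mem h₁).2 hz).trans
      (he P₁ (cell_mem h₁).1 (cell_mem h₁).2 (cell_ndvd hm h0 h₁))
  · rw [hun h₁, ← hs.2, hun h]
    congr 1
    refine Finset.sum_congr rfl fun v hv => ?_
    rw [(cell_lm χ hm h h₁ hv).1]

end Pool.Agent.H74.FS
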