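import Mathlib

set_option autoImplicit false

/-!
# [H74 FS CLE] Bases of finite groups of exponent two

`G` a commutative group with `g * g = 1` for all `g`, `H` a subgroup with `2 ^ r` elements.  Then there are `b i ∈ H` (`i < r`) such that every element of `H` is `∏ i, b i ^ (e i).val` for exactly one `e : Fin r → ZMod 2`.
Proof.  `Additive H` is a `ZMod 2`-module (`AddCommGroup.zmodModule`, `2 • x = 0`), finite, so finite dimensional, of dimension `r` (`Module.natCard_eq_pow_finrank` or `card_eq_pow_finrank`).  `Module.finBasisOfFinrankEq`; the map `e ↦ ∑ i, e i • b i` is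
bijective (`Basis.equivFun`), and `e i • b i = (e i).val • b i` (`ZMod.natCast_zmod_val`, `Nat.cast_smul_eq_nsmul`), i.e. `b i ^ (e i).val` in multiplicative notation.
`prod_even`: `∏ i, b i ^ n i` depends only on the parities.
-/

namespace Pool.Agent.H74.FS

theorem exp2_basis {G : Type} [CommGroup G] (hG : ∀ g : G, g * g = 1) (H : Subgroup G) {r : ℕ}
    (hH : Nat.card H = 2 ^ r) : ∃ b : Fin r → G, (∀ i, b i ∈ H) ∧
      ∀ h ∈ H, ∃! e : Fin r → ZMod 2, ∏ i, b i ^ (e i).val = h := by
  classical
  have h2 : ∀ x : Additive H, 2 • x = 0 := by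
    intro x
    apply Additive.toMul.injective
    rw [two_nsmul, toMul_add, toMul_zero]
    exact Subtype.ext (hG _)
  letI : Module (ZMod 2) (Additive H) := AddCommGroup.zmodModule h2
  have hfin : Finite H := by
    apply Nat.finite_of_card_ne_zero
    rw [hH]
    positivity
  haveI : Finite (Additive H) := hfin
  haveI : Module.Finite (ZMod 2) (Additive H) := Module.Finite.of_finite
  have hcard : Nat.card (Additive H) = Nat.card (ZMod 2) ^ Module.finrank (ZMod 2) (Additive H) :=
    Module.natCard_eq_pow_finrank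
  have hr : Module.finrank (ZMod 2) (Additive H) = r := by
    have h3 : Nat.card (Additive H) = 2 ^ r := hH
    rw [h3, Nat.card_zmod] at hcard
    exact (Nat.pow_right_injective le_rfl hcard).symm
  let b0 := Module.finBasisOfFinrankEq (ZMod 2) (Additive H) hr
  have key : ∀ e : Fin r → ZMod 2, ∏ i, ((Additive.toMul (b0 i) : H) : G) ^ (e i).val =
      ((Additive.toMul (∑ i, e i • b0 i) : H) : G) := by
    intro e
    have h3 : ∀ i, e i • b0 i = (e i).val • b0 i := by
      intro i
      rw [← Nat.cast_smul_eq_nsmul (ZMod 2), ZMod.natCast_zmod_val]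
    simp only [h3, toMul_sum, toMul_nsmul, Subgroup.val_finsetProd, SubmonoidClass.coe_pow]
  refine ⟨fun i => ((Additive.toMul (b0 i) : H) : G), fun i => (Additive.toMul (b0 i) : H).2, ?_⟩
  intro h hh
  refine ⟨b0.equivFun (Additive.ofMul ⟨h, hh⟩), ?_, ?_⟩
  · show ∏ i, ((Additive.toMul (b0 i) : H) : G) ^ (b0.equivFun (Additive.ofMul ⟨h, hh⟩) i).val = h
    rw [key, b0.sum_equivFun]
    rfl
  · intro e he
    have h4 : ∏ i, ((Additive.toMul (b0 i) : H) : G) ^ (e i).val = h := he
    rw [key] at h4
    have h5 : (∑ i, e i • b0 i) = Additive.ofMul (⟨h, hh⟩ : H) := by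
      apply Additive.toMul.injective
      exact Subtype.ext h4
    rw [← h5]
    funext i
    have h6 := b0.equivFun.apply_symm_apply e
    rw [b0.equivFun_symm_apply] at h6
    rw [h6]

end Pool.Agent.H74.FS
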