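import Pool.Agent.H74.FS.CLD
import Pool.Agent.H74.FS.CLE

set_option autoImplicit false

/-!
# [H74 FS CLF] The subgroup of the `P`-free classes

`Q = K^*/K^{*2}` with `K = F(t)`, `G = Fin 3 → Q`, a commutative group with `g * g = 1` (`cg_sq`).  `cl δ h` is the class of a tuple with nonzero components.
* `cl_eq`: two tuples have the same class iff they differ by squares (`QuotientGroup.eq`; an element of the range of `powMonoidHom 2` is the square of a unit).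
* `frH`: the subgroup of the classes of the tuples with `Fr` (`D = D' P`; closed under products: `sln_mul`, `H94.PL.ex_mul`; inverses: `g⁻¹ = g`); `mem_frH` by definition; `frH_cl`: the class of `δ` is in `frH` iff `Fr δ`: `δ' k * γ k ^ 2 = δ k` with `Fr δ'`: `sln_sq`,
  `ex (γ ^ 2) = 0`.
* `frH_card`: `(h, t) ↦ h * cl (tr t)` is a bijection from `frH × Option (Fin 3)` to `SelC 2 1 c A D`: values: `sln_mul`, `sln_tr`; injective: `exists_tr` (uniqueness: the exponents at `P` of the tuple determine `t`), surjective: for `δ` a Selmer tuple take `t` from `exists_tr`, `δ * tr t` has even exponents at `P`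
  (`x + x = 0`), and `δ = (δ * tr t) * tr t * (tr t)⁻²`.  `P ∣ D' P`, `P² ∤ D' P`, `P ∤ dl A` by `cell_ndvd`.  So `card SelC = card frH * 4`.
-/

namespace Pool.Agent.H74.FS

open Polynomial
open Pool.Agent.H94.PL (LChar lm XX DK AK dl)
open Pool.Agent.H94.PM (LU vl IsVln IsSln)
open Pool.Agent.H94.PC (pf mem_pf Pr js)
open Pool.Agent.H3.FS (CellD)

variable {F : Type} [Field F]

/-- square classes -/
abbrev Qc (F : Type) [Field F] : Type :=
  (RatFunc F)ˣ ⧸ (powMonoidHom 2 : (RatFunc F)ˣ →* (RatFunc F)ˣ).range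

/-- the class of a tuple -/
noncomputable def cl (δ : Fin 3 → RatFunc F) (h : ∀ k, δ k ≠ 0) : Fin 3 → Qc F :=
  fun k => QuotientGroup.mk (Units.mk0 (δ k) (h k))

theorem cg_sq (g : Fin 3 → Qc F) : g * g = 1 := by
  funext k
  obtain ⟨u, hu⟩ := QuotientGroup.mk_surjective (g k)
  show g k * g k = 1
  rw [← hu, ← QuotientGroup.mk_mul, QuotientGroup.eq_one_iff]
  exact ⟨u, by rw [powMonoidHom_apply, pow_two]⟩

private theorem clf_inv (q : Qc F) : q⁻¹ = q := by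
  obtain ⟨u, rfl⟩ := QuotientGroup.mk_surjective q
  rw [← QuotientGroup.mk_inv, QuotientGroup.eq]
  exact ⟨u, by rw [powMonoidHom_apply, pow_two, inv_inv]⟩

private theorem clf_cancel (q q' a : Qc F) (h : q * a = q' * a) : q = q' := by
  obtain ⟨u, rfl⟩ := QuotientGroup.mk_surjective q
  obtain ⟨u', rfl⟩ := QuotientGroup.mk_surjective q'
  obtain ⟨v, rfl⟩ := QuotientGroup.mk_surjective a
  rw [← QuotientGroup.mk_mul, ← QuotientGroup.mk_mul, QuotientGroup.eq] at h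
  rw [QuotientGroup.eq]
  have h1 : (u * v)⁻¹ * (u' * v) = u⁻¹ * u' := by
    rw [mul_inv_rev, mul_comm u' v, mul_assoc, mul_left_comm u⁻¹, inv_mul_cancel_left]
  rw [h1] at h
  exact h

private theorem clf_twice (q a : Qc F) : q * a * a = q := by
  obtain ⟨u, rfl⟩ := QuotientGroup.mk_surjective q
  obtain ⟨v, rfl⟩ := QuotientGroup.mk_surjective a
  rw [← QuotientGroup.mk_mul, ← QuotientGroup.mk_mul, QuotientGroup.eq]
  refine ⟨v⁻¹, ?_⟩
  rw [powMonoidHom_apply, pow_two, mul_inv_rev, mul_inv_rev, mul_assoc, mul_assoc,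
    inv_mul_cancel, mul_one]

private theorem clf_mul {δ δ' : Fin 3 → RatFunc F} (h : ∀ k, δ k ≠ 0) (h' : ∀ k, δ' k ≠ 0) :
    cl δ h * cl δ' h' = cl (fun k => δ k * δ' k) (fun k => mul_ne_zero (h k) (h' k)) := by
  funext k
  show (QuotientGroup.mk (Units.mk0 (δ k) (h k)) : Qc F) *
    QuotientGroup.mk (Units.mk0 (δ' k) (h' k)) = QuotientGroup.mk _
  rw [← QuotientGroup.mk_mul]
  congr 1
  exact Units.ext rfl

theorem cl_eq {δ δ' : Fin 3 → RatFunc F} (h : ∀ k, δ k ≠ 0) (h' : ∀ k, δ' k ≠ 0) :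
    cl δ h = cl δ' h' ↔ ∃ γ : Fin 3 → RatFunc F, (∀ k, γ k ≠ 0) ∧ ∀ k, δ k * γ k ^ 2 = δ' k := by
  constructor
  · intro hc
    have h1 : ∀ k, ∃ u : (RatFunc F)ˣ, u ^ 2 = (Units.mk0 (δ k) (h k))⁻¹ *
        Units.mk0 (δ' k) (h' k) := by
      intro k
      have h2 : (QuotientGroup.mk (Units.mk0 (δ k) (h k)) : Qc F) =
        QuotientGroup.mk (Units.mk0 (δ' k) (h' k)) := congrFun hc k
      rw [QuotientGroup.eq] at h2
      obtain ⟨u, hu⟩ := h2
      exact ⟨u, hu⟩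
    choose u hu using h1
    refine ⟨fun k => u k, fun k => (u k).ne_zero, fun k => ?_⟩
    have h3 := congrArg (fun z : (RatFunc F)ˣ => (z : RatFunc F)) (hu k)
    simp only [Units.val_pow_eq_pow_val, Units.val_mul, Units.val_inv_eq_inv_val,
      Units.val_mk0] at h3
    rw [h3, mul_inv_cancel_left₀ (h k)]
  · rintro ⟨γ, hγ, hk⟩
    funext k
    show (QuotientGroup.mk (Units.mk0 (δ k) (h k)) : Qc F) =
      QuotientGroup.mk (Units.mk0 (δ' k) (h' k))
    rw [QuotientGroup.eq]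
    refine ⟨Units.mk0 (γ k) (hγ k), ?_⟩
    apply Units.ext
    rw [powMonoidHom_apply]
    simp only [Units.val_pow_eq_pow_val, Units.val_mul, Units.val_inv_eq_inv_val,
      Units.val_mk0]
    rw [← hk k, inv_mul_cancel_left₀ (h k)]

variable [DecidableEq (RatFunc F)] {c : F} {A : Fin 3 → F[X]} {D' : F[X]} {m : ℕ}
  {τ : F[X] → ℝ} {P : F[X]}

/-- the group of the classes of the `P`-free Selmer tuples -/
noncomputable def frH (c : F) (A : Fin 3 → F[X]) {D P : F[X]} (hP : Irreducible P) :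
    Subgroup (Fin 3 → Qc F) where
  carrier := {g | ∃ (δ : Fin 3 → RatFunc F) (h : ∀ k, δ k ≠ 0), Fr c A D P δ ∧ g = cl δ h}
  mul_mem' := by
    rintro _ _ ⟨δ, h, hf, rfl⟩ ⟨δ', h', hf', rfl⟩
    refine ⟨_, _, ⟨sln_mul hf.1 hf'.1, fun k => ?_⟩, clf_mul h h'⟩
    rw [H94.PL.ex_mul hP (h k) (h' k), hf.2 k, hf'.2 k, add_zero]
  one_mem' := by
    refine ⟨fun _ => 1, fun _ => one_ne_zero, ⟨sln_one, fun k => H94.PL.ex_one hP⟩, ?_⟩
    funext k
    show (1 : Qc F) = QuotientGroup.mk (Units.mk0 1 one_ne_zero)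
    rw [Units.mk0_one, QuotientGroup.mk_one]
  inv_mem' := by
    rintro g hg
    have h1 : g⁻¹ = g := by
      funext k
      exact clf_inv (g k)
    rw [h1]
    exact hg

theorem mem_frH {D : F[X]} (hP : Irreducible P) {g : Fin 3 → Qc F} :
    g ∈ frH c A (D := D) hP ↔
      ∃ (δ : Fin 3 → RatFunc F) (h : ∀ k, δ k ≠ 0), Fr c A D P δ ∧ g = cl δ h := Iff.rfl

theorem frH_cl {D : F[X]} (hP : Irreducible P) {δ : Fin 3 → RatFunc F} (h : ∀ k, δ k ≠ 0) :
    cl δ h ∈ frH c A (D := D) hP ↔ Fr c A D P δ := by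
  constructor
  · rintro ⟨δ', h', hf, hcl⟩
    obtain ⟨γ, hγ, hk⟩ := (cl_eq h' h).1 hcl.symm
    have e1 : δ = fun k => δ' k * γ k ^ 2 := funext fun k => (hk k).symm
    rw [e1]
    refine ⟨sln_sq hf.1 hγ, fun k => ?_⟩
    rw [H94.PL.ex_mul hP (h' k) (pow_ne_zero 2 (hγ k)), hf.2 k, H94.PL.ex_pow_l hP (hγ k),
      add_zero]
  · intro hf
    exact ⟨δ, h, hf, rfl⟩

private theorem clf_sel {D : F[X]} {x : Fin 3 → Qc F} : x ∈ H94.PN.SelC 2 1 c A D ↔
    ∃ (δ : Fin 3 → RatFunc F) (h : ∀ k, δ k ≠ 0), IsSln 2 1 c A D δ ∧ x = cl δ h := by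
  constructor
  · rintro ⟨δ, h1, h2⟩
    refine ⟨fun k => (δ k : RatFunc F), fun k => (δ k).ne_zero, h2, funext fun k => ?_⟩
    rw [h1 k]
    show _ = (QuotientGroup.mk (Units.mk0 ((δ k : (RatFunc F)ˣ) : RatFunc F) _) : Qc F)
    rw [Units.mk0_val]
  · rintro ⟨δ, h, h2, rfl⟩
    exact ⟨fun k => Units.mk0 (δ k) (h k), fun k => rfl, h2⟩

omit [DecidableEq (RatFunc F)] in
private theorem clf_dl (hA : ∀ i k, i ≠ k → A i ≠ A k) : dl A ≠ 0 := by
  unfold dl
  rw [Finset.prod_ne_zero_iff]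
  intro p hp
  exact sub_ne_zero.2 (hA _ _ (ne_of_lt (H94.PL.mem_prs.1 hp)))

variable [Finite F]

theorem frH_card (hc : c ≠ 0) (hA : ∀ i k, i ≠ k → A i ≠ A k) (hD : D' ≠ 0)
    (hm : ∀ v ∈ pf (D' * dl A), v.natDegree < m) (h : P ∈ CellD (dl A) D' m τ) :
    Nat.card (H94.PN.SelC 2 1 c A (D' * P)) =
      Nat.card (frH c A (D := D' * P) (cell_mem h).2) * 4 := by
  classical
  have hP := cell_mem h
  have hdl : dl A ≠ 0 := clf_dl hA
  have hnd := cell_ndvd hm (mul_ne_zero hD hdl) h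
  have h1 : P ∣ D' * P := dvd_mul_left _ _
  have h2 : ¬ P ^ 2 ∣ D' * P := by
    intro hd
    rw [pow_two] at hd
    exact hnd ((Dvd.dvd.mul_right ((mul_dvd_mul_iff_right hP.2.ne_zero).1 hd) _))
  have h3 : ¬ P ∣ dl A := fun hd => hnd (hd.mul_left _)
  have hDP : D' * P ≠ 0 := mul_ne_zero hD hP.2.ne_zero
  have hT := tr_ne (c := c) (A := A) (D := D' * P) hc hA hDP
  have hval : ∀ (g : Fin 3 → Qc F), g ∈ frH c A (D := D' * P) hP.2 → ∀ t : Option (Fin 3),
      g * cl (tr c A (D' * P) t) (hT t) ∈ H94.PN.SelC 2 1 c A (D' * P) := by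
    rintro g ⟨δ, hδ, hf, rfl⟩ t
    rw [clf_sel]
    exact ⟨_, _, sln_mul hf.1 (sln_tr hc hA hDP t), clf_mul hδ (hT t)⟩
  let φ : frH c A (D := D' * P) hP.2 × Option (Fin 3) → H94.PN.SelC 2 1 c A (D' * P) :=
    fun p => ⟨p.1.1 * cl (tr c A (D' * P) p.2) (hT p.2), hval p.1.1 p.1.2 p.2⟩
  have hinj : Function.Injective φ := by
    rintro ⟨⟨g, hg⟩, t⟩ ⟨⟨g', hg'⟩, t'⟩ heq
    have h4 : g * cl (tr c A (D' * P) t) (hT t) = g' * cl (tr c A (D' * P) t') (hT t') :=
      congrArg Subtype.val heq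
    have htt : t = t' := by
      obtain ⟨δ, hδ, hf, hgδ⟩ := hg
      obtain ⟨δ', hδ', hf', hgδ'⟩ := hg'
      rw [hgδ, hgδ', clf_mul, clf_mul, cl_eq] at h4
      obtain ⟨γ, hγ, hk⟩ := h4
      have h5 := exists_tr (D := D' * P) hc hA hP h1 h2 h3 (hT t) (tr_prod t)
      refine h5.unique (fun k => rfl) (fun k => ?_)
      have h6 : H94.PL.ex 2 P (tr c A (D' * P) t k) = H94.PL.ex 2 P (tr c A (D' * P) t' k) := by
        have h7 := congrArg (H94.PL.ex 2 P) (hk k)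
        rw [H94.PL.ex_mul hP.2 (mul_ne_zero (hδ k) (hT t k)) (pow_ne_zero 2 (hγ k)),
          H94.PL.ex_mul hP.2 (hδ k) (hT t k), H94.PL.ex_mul hP.2 (hδ' k) (hT t' k), hf.2 k,
          hf'.2 k, H94.PL.ex_pow_l hP.2 (hγ k), zero_add, zero_add, add_zero] at h7
        exact h7
      rw [ev_some hP.1 hP.2 (hT t k), ev_some hP.1 hP.2 (hT t' k)]
      exact h6
    subst htt
    have h8 : g = g' := by
      funext k
      have h9 : g k * cl (tr c A (D' * P) t) (hT t) k =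
        g' k * cl (tr c A (D' * P) t) (hT t) k := congrFun h4 k
      exact clf_cancel _ _ _ h9
    subst h8
    rfl
  have hsurj : Function.Surjective φ := by
    rintro ⟨x, hx⟩
    obtain ⟨δ, hδ, hs, hxδ⟩ := clf_sel.1 hx
    obtain ⟨t, ht, -⟩ := exists_tr (D := D' * P) hc hA hP h1 h2 h3 hδ hs.prod
    have hmem : x * cl (tr c A (D' * P) t) (hT t) ∈ frH c A (D := D' * P) hP.2 := by
      rw [hxδ, clf_mul, frH_cl]
      refine ⟨sln_mul hs (sln_tr hc hA hDP t), fun k => ?_⟩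
      have h4 := ht k
      rw [ev_some hP.1 hP.2 (hδ k), ev_some hP.1 hP.2 (hT t k)] at h4
      rw [H94.PL.ex_mul hP.2 (hδ k) (hT t k), h4]
      exact CharTwo.add_self_eq_zero _
    refine ⟨(⟨_, hmem⟩, t), Subtype.ext ?_⟩
    show x * cl (tr c A (D' * P) t) (hT t) * cl (tr c A (D' * P) t) (hT t) = x
    funext k
    exact clf_twice (x k) _
  rw [← Nat.card_congr (Equiv.ofBijective φ ⟨hinj, hsurj⟩), Nat.card_prod,
    Nat.card_eq_fintype_card (α := Option (Fin 3))]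
  rfl

end Pool.Agent.H74.FS
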