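import Pool.Agent.H74.FS.HEB
import Pool.Agent.H74.FS.REC

set_option autoImplicit false

/-!
# [H74 FS HEC] The Hasse principle for conics over `F(t)`, with a bound

* `sqf_part`: induction on the degree: if `a` is not squarefree, `a = p * p * a'`, `p` not a unit, `a' ≠ 0` of smaller degree, `a' = s² g`, `a = (p s)² g`.
* `lm_sq`: `P ∤ g`, `lm χ g P = 0`: `H94.PM.ker_lm`.
* `hec`.  `a = s² a₁`, `b = t² b₁`, `a₁, b₁` squarefree; `g = gcd a₁ b₁` (`EuclideanDomain.gcd` or `gcd`), `a₁ = g a'`, `b₁ = g b'`.  `a'`, `b'`, `g` are pairwise coprime and the product `a' b' g` is squarefree (`a₁`, `b₁` squarefree).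
  Apply `heb` to `(a', b', -g)`.  Local conditions at a prime `P`, `w = some P`; `hw χ w a b = hw χ w a₁ b₁ = 0` (`hw_mul`, `hw_sq`):
  - `P ∣ a'`: `ev a₁ = 1` (`P² ∤ a₁`), `ev b₁ = 0`: `hs = un b₁ = lm χ b₁ P = 0` (`un_some`), so `P ∣ b₁ - u²` (`lm_sq`), and `u² + b' (-g) = u² - b₁`.
  - `P ∣ b'`: `un a₁ = 0`, `P ∣ a₁ - u²`, `u² + (-g) a' = u² - a₁`.
  - `P ∣ g`: `a₁ = g a'`, `b₁ = g b'`, `ev = 1` for both: `un (g a') + un (g b') + un (-1) = un a' + un b' + un (-1) = lm χ (-(a' b')) P = 0`, so `P ∣ -(a' b') - u²`.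
  The solution `x` of `a' x₀² + b' x₁² = g x₂²`, all degrees `≤ deg a' + deg b' + deg g`, gives `X = t x₀`, `W = s x₁`, `Z = s t g x₂`: `a X² + b W² = s² t² g (a' x₀² + b' x₁²) = s² t² g² x₂²`.  `X = W = 0` would give
  `x₀ = x₁ = 0`, `x₂ = 0`.  Degrees: `2 deg s + deg g + deg a' = deg a`, `2 deg t + deg g + deg b' = deg b`, so everything is `≤ 2 (deg a + deg b)`.
* `hed`.  Solution of `hec`.  If `W = 0` then `Z² = a X²`, `X ≠ 0`, `X ∣ Z` (`pow_dvd_pow_iff`), so `a` is a square.  If `X ≠ 0` finished.  If `X = 0`: `Z² = b W²`, so `W ∣ Z`, `b = β²`, `2 deg β = deg b`, `β ≠ 0`; take `X = 2 β`, `W = a - 1`,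
  `Z = β (1 + a)`: `Z² - a X² = β² ((1 + a)² - 4 a) = b (a - 1)²`; `a ≠ 1` as `a` is not a square, `2 ≠ 0`.
-/

namespace Pool.Agent.H74.FS

open Polynomial
open Pool.Agent.H94.PL (LChar lm)

variable {F : Type} [Field F]

theorem sqf_part {a : F[X]} (ha : a ≠ 0) : ∃ s g : F[X], s ≠ 0 ∧ Squarefree g ∧ a = s ^ 2 * g := by
  induction hn : a.natDegree using Nat.strong_induction_on generalizing a with
  | _ n ih =>
    by_cases hs : Squarefree a
    · exact ⟨1, a, one_ne_zero, hs, by ring⟩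
    · unfold Squarefree at hs
      push Not at hs
      obtain ⟨p, ⟨c, hc⟩, hp⟩ := hs
      have hp0 : p ≠ 0 := by
        rintro rfl
        exact ha (by rw [hc]; ring)
      have hc0 : c ≠ 0 := by
        rintro rfl
        exact ha (by rw [hc, mul_zero])
      have hpd : 0 < p.natDegree := by
        rw [Nat.pos_iff_ne_zero]
        intro h
        exact hp (isUnit_iff_degree_eq_zero.2 (by rw [degree_eq_natDegree hp0, h]; rfl))
      have hdeg : c.natDegree < n := by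
        rw [← hn, hc, natDegree_mul (mul_ne_zero hp0 hp0) hc0, natDegree_mul hp0 hp0]
        omega
      obtain ⟨s, g, hs0, hg, hcs⟩ := ih c.natDegree hdeg hc0 rfl
      exact ⟨p * s, g, mul_ne_zero hp0 hs0, hg, by rw [hc, hcs]; ring⟩

private theorem gcd_split {a b : F[X]} (ha : a ≠ 0) : ∃ g a' b' : F[X], g ≠ 0 ∧ a = g * a' ∧
    b = g * b' ∧ IsCoprime a' b' := by
  classical
  have hg : EuclideanDomain.gcd a b ≠ 0 := by
    intro h
    rw [EuclideanDomain.gcd_eq_zero_iff] at h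
    exact ha h.1
  obtain ⟨a', ha'⟩ := EuclideanDomain.gcd_dvd_left a b
  obtain ⟨b', hb'⟩ := EuclideanDomain.gcd_dvd_right a b
  refine ⟨EuclideanDomain.gcd a b, a', b', hg, ha', hb', ?_⟩
  have h := EuclideanDomain.gcd_eq_gcd_ab a b
  set g := EuclideanDomain.gcd a b with hgd
  set u := EuclideanDomain.gcdA a b
  set v := EuclideanDomain.gcdB a b
  refine ⟨u, v, mul_left_cancel₀ hg ?_⟩
  calc g * (u * a' + v * b') = (g * a') * u + (g * b') * v := by ring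
    _ = a * u + b * v := by rw [← ha', ← hb']
    _ = g := h.symm
    _ = g * 1 := (mul_one g).symm

variable [DecidableEq (RatFunc F)] [Finite F] (χ : LChar F 2)

private theorem hs_eq (w : Pl F) (x y : Kw F w) : (Uw χ w).hs x y =
    (Uw χ w).un x * ev w y - ev w x * (Uw χ w).un y + (Uw χ w).un (-1) * (ev w x * ev w y) := rfl

private theorem a_ne {g : F[X]} (hg : g ≠ 0) : algebraMap F[X] (RatFunc F) g ≠ 0 :=
  (map_ne_zero_iff _ (RatFunc.algebraMap_injective F)).2 hg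

/-- `P` divides exactly the first polynomial -/
private theorem loc_one {P : F[X]} (hP : P.Monic) (hi : Irreducible P) {a b : F[X]}
    (ha : Squarefree a) (hd : P ∣ a) (hb : ¬ P ∣ b)
    (h : hw χ (some ⟨P, hP, hi⟩ : Pl F) (algebraMap F[X] (RatFunc F) a)
      (algebraMap F[X] (RatFunc F) b) = 0) : ∃ u : F[X], P ∣ b - u ^ 2 := by
  obtain ⟨c, hc⟩ := hd
  have hc0 : c ≠ 0 := by
    rintro rfl
    exact ha.ne_zero (by rw [hc, mul_zero])
  have hPc : ¬ P ∣ c := by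
    rintro ⟨c', hc'⟩
    exact hi.not_isUnit (ha P ⟨c', by rw [hc, hc', mul_assoc]⟩)
  have h1 : ev (some ⟨P, hP, hi⟩ : Pl F) (iw _ (algebraMap F[X] (RatFunc F) a)) = 1 := by
    rw [hc, map_mul, map_mul, ev_mul (iw_ne (a_ne hi.ne_zero)) (iw_ne (a_ne hc0)),
      ev_self hP hi, ev_poly_zero hP hi hPc, add_zero]
  have h2 : ev (some ⟨P, hP, hi⟩ : Pl F) (iw _ (algebraMap F[X] (RatFunc F) b)) = 0 :=
    ev_poly_zero hP hi hb
  unfold hw at h
  rw [hs_eq, h1, h2, mul_zero, one_mul, mul_zero, mul_zero, add_zero, zero_sub, neg_eq_zero,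
    un_some χ hP hi hb] at h
  obtain ⟨u, _, hu⟩ := H94.PM.ker_lm χ hP hi hb h
  exact ⟨u, hu⟩

private theorem hw_red {w : Pl F} {s a t b : F[X]} (hs : s ≠ 0) (ha : a ≠ 0) (ht : t ≠ 0)
    (hb : b ≠ 0) : hw χ w (algebraMap F[X] (RatFunc F) (s ^ 2 * a))
      (algebraMap F[X] (RatFunc F) (t ^ 2 * b)) =
      hw χ w (algebraMap F[X] (RatFunc F) a) (algebraMap F[X] (RatFunc F) b) := by
  unfold hw
  rw [map_mul, map_mul, map_mul, map_mul, map_pow, map_pow, map_pow, map_pow, mul_comm (_ ^ 2),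
    mul_comm (_ ^ 2)]
  exact (Uw χ w).hs_pow (iw_ne (a_ne ha)) (iw_ne (a_ne hs)) (iw_ne (a_ne hb)) (iw_ne (a_ne ht))

/-- `P` divides both polynomials -/
private theorem loc_two {P : F[X]} (hP : P.Monic) (hi : Irreducible P) {g a b : F[X]}
    (hg : Squarefree g) (hd : P ∣ g) (ha : ¬ P ∣ a) (hb : ¬ P ∣ b)
    (h : hw χ (some ⟨P, hP, hi⟩ : Pl F) (algebraMap F[X] (RatFunc F) (g * a))
      (algebraMap F[X] (RatFunc F) (g * b)) = 0) : ∃ u : F[X], P ∣ -(a * b) - u ^ 2 := by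
  obtain ⟨c, hc⟩ := hd
  have hc0 : c ≠ 0 := by
    rintro rfl
    exact hg.ne_zero (by rw [hc, mul_zero])
  have ha0 : a ≠ 0 := by
    rintro rfl
    exact ha (dvd_zero P)
  have hb0 : b ≠ 0 := by
    rintro rfl
    exact hb (dvd_zero P)
  have hPc : ¬ P ∣ c := by
    rintro ⟨c', hc'⟩
    exact hi.not_isUnit (hg P ⟨c', by rw [hc, hc', mul_assoc]⟩)
  have key : ∀ x : F[X], x ≠ 0 → ¬ P ∣ x →
      ev (some ⟨P, hP, hi⟩ : Pl F) (iw _ (algebraMap F[X] (RatFunc F) (g * x))) = 1 ∧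
      (Uw χ (some ⟨P, hP, hi⟩ : Pl F)).un (iw _ (algebraMap F[X] (RatFunc F) (g * x))) =
        lm χ c P + lm χ x P := by
    intro x hx hPx
    have hcx : ¬ P ∣ c * x := fun h => (hi.prime.dvd_or_dvd h).elim hPc hPx
    have e : g * x = P * (c * x) := by rw [hc, mul_assoc]
    constructor
    · rw [e, map_mul, map_mul, ev_mul (iw_ne (a_ne hi.ne_zero)) (iw_ne (a_ne (mul_ne_zero hc0 hx))),
        ev_self hP hi, ev_poly_zero hP hi hcx, add_zero]
    · rw [e, map_mul, map_mul, (Uw χ _).mul _ _ (iw_ne (a_ne hi.ne_zero))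
        (iw_ne (a_ne (mul_ne_zero hc0 hx))), un_self χ hP hi, zero_add, un_some χ hP hi hcx,
        H94.PL.lm_mul_left χ hP ((hi.coprime_iff_not_dvd.2 hPc).symm)
          ((hi.coprime_iff_not_dvd.2 hPx).symm)]
  obtain ⟨h1, h2⟩ := key a ha0 ha
  obtain ⟨h3, h4⟩ := key b hb0 hb
  have hm1 : ¬ P ∣ (-1 : F[X]) := fun h => hi.not_isUnit (isUnit_of_dvd_unit h isUnit_one.neg)
  have h5 : (Uw χ (some ⟨P, hP, hi⟩ : Pl F)).un (-1) = lm χ (-1) P := by
    have := un_some χ hP hi hm1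
    rw [map_neg, map_one, map_neg, map_one] at this
    exact this
  unfold hw at h
  rw [hs_eq, h1, h2, h3, h4, h5, mul_one, one_mul, mul_one, mul_one] at h
  have hab : ¬ P ∣ a * b := fun h => (hi.prime.dvd_or_dvd h).elim ha hb
  have hnab : ¬ P ∣ -(a * b) := fun h => hab ((dvd_neg).1 h)
  have h6 : lm χ (-(a * b)) P = lm χ (-1) P + (lm χ a P + lm χ b P) := by
    rw [show -(a * b) = (-1) * (a * b) by ring,
      H94.PL.lm_mul_left χ hP ((hi.coprime_iff_not_dvd.2 hm1).symm)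
        ((hi.coprime_iff_not_dvd.2 hab).symm),
      H94.PL.lm_mul_left χ hP ((hi.coprime_iff_not_dvd.2 ha).symm)
        ((hi.coprime_iff_not_dvd.2 hb).symm)]
  have h7 : lm χ (-(a * b)) P = 0 := by
    rw [h6]
    have h8 : ∀ x y z t : ZMod 2, x + y - (x + z) + t = 0 → t + (y + z) = 0 := by decide
    exact h8 _ _ _ _ h
  obtain ⟨u, _, hu⟩ := H94.PM.ker_lm χ hP hi hnab h7
  exact ⟨u, hu⟩

theorem hec (hq : 2 ∣ Nat.card F - 1) {a b : F[X]} (ha : a ≠ 0) (hb : b ≠ 0)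
    (h : ∀ w : Pl F, hw χ w (algebraMap F[X] (RatFunc F) a) (algebraMap F[X] (RatFunc F) b) = 0) :
    ∃ X W Z : F[X], ¬ (X = 0 ∧ W = 0) ∧ Z ^ 2 = a * X ^ 2 + b * W ^ 2 ∧
      X.natDegree ≤ 2 * (a.natDegree + b.natDegree) ∧
      W.natDegree ≤ 2 * (a.natDegree + b.natDegree) ∧
      Z.natDegree ≤ 2 * (a.natDegree + b.natDegree) := by
  obtain ⟨s, a₁, hs0, hsa, rfl⟩ := sqf_part ha
  obtain ⟨t, b₁, ht0, hsb, rfl⟩ := sqf_part hb
  have hred : ∀ w : Pl F, hw χ w (algebraMap F[X] (RatFunc F) a₁)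
      (algebraMap F[X] (RatFunc F) b₁) = 0 := fun w => by
    rw [← hw_red χ hs0 hsa.ne_zero ht0 hsb.ne_zero]
    exact h w
  obtain ⟨g, a', b', hg0, rfl, rfl, hcop⟩ := gcd_split (b := b₁) hsa.ne_zero
  obtain ⟨r1, sg, sa⟩ := squarefree_mul_iff.1 hsa
  obtain ⟨r2, _, sb⟩ := squarefree_mul_iff.1 hsb
  have ha0 : a' ≠ 0 := sa.ne_zero
  have hb0 : b' ≠ 0 := sb.ne_zero
  have hass : Associated g (-g) := ⟨-1, by simp⟩
  have hsq : Squarefree (∏ i, (![a', b', -g] : Fin 3 → F[X]) i) := by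
    rw [Fin.prod_univ_three]
    show Squarefree (a' * b' * -g)
    rw [squarefree_mul_iff, squarefree_mul_iff]
    refine ⟨?_, ⟨hcop.isRelPrime, sa, sb⟩, hass.squarefree_iff.1 sg⟩
    exact (IsRelPrime.mul_left r1.symm r2.symm).neg_right
  have hnd : ∀ P : F[X], Irreducible P → (P ∣ a' → ¬ P ∣ b' ∧ ¬ P ∣ g) ∧
      (P ∣ b' → ¬ P ∣ a' ∧ ¬ P ∣ g) ∧ (P ∣ g → ¬ P ∣ a' ∧ ¬ P ∣ b') := by
    intro P hi
    have c1 : P ∣ a' → P ∣ b' → False := fun h1 h2 =>
      hi.not_isUnit (hcop.isUnit_of_dvd' h1 h2)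
    have c2 : P ∣ g → P ∣ a' → False := fun h1 h2 => hi.not_isUnit (r1 h1 h2)
    have c3 : P ∣ g → P ∣ b' → False := fun h1 h2 => hi.not_isUnit (r2 h1 h2)
    exact ⟨fun h1 => ⟨fun h2 => c1 h1 h2, fun h2 => c2 h2 h1⟩,
      fun h1 => ⟨fun h2 => c1 h2 h1, fun h2 => c3 h2 h1⟩,
      fun h1 => ⟨fun h2 => c2 h1 h2, fun h2 => c3 h1 h2⟩⟩
  obtain ⟨x, hx0, hx, hdx⟩ := heb hq (![a', b', -g] : Fin 3 → F[X]) hsq (by
    intro i P hP hi hd
    obtain ⟨n1, n2, n3⟩ := hnd P hi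
    have hh := hred (some ⟨P, hP, hi⟩)
    fin_cases i
    · -- `P ∣ a'`
      replace hd : P ∣ a' := hd
      obtain ⟨m1, m2⟩ := n1 hd
      have hnb : ¬ P ∣ g * b' := fun h => (hi.prime.dvd_or_dvd h).elim m2 m1
      obtain ⟨u, hu⟩ := loc_one χ hP hi hsa (hd.mul_left g) hnb hh
      refine ⟨u, ?_⟩
      show P ∣ u ^ 2 + b' * -g
      rw [show u ^ 2 + b' * -g = -(g * b' - u ^ 2) by ring]
      exact (dvd_neg).2 hu
    · -- `P ∣ b'`
      replace hd : P ∣ b' := hd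
      obtain ⟨m1, m2⟩ := n2 hd
      have hna : ¬ P ∣ g * a' := fun h => (hi.prime.dvd_or_dvd h).elim m2 m1
      rw [hw_comm] at hh
      obtain ⟨u, hu⟩ := loc_one χ hP hi hsb (hd.mul_left g) hna hh
      refine ⟨u, ?_⟩
      show P ∣ u ^ 2 + -g * a'
      rw [show u ^ 2 + -g * a' = -(g * a' - u ^ 2) by ring]
      exact (dvd_neg).2 hu
    · -- `P ∣ g`
      replace hd : P ∣ g := (dvd_neg).1 hd
      obtain ⟨m1, m2⟩ := n3 hd
      obtain ⟨u, hu⟩ := loc_two χ hP hi sg hd m1 m2 hh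
      refine ⟨u, ?_⟩
      show P ∣ u ^ 2 + a' * b'
      rw [show u ^ 2 + a' * b' = -(-(a' * b') - u ^ 2) by ring]
      exact (dvd_neg).2 hu)
  rw [Fin.sum_univ_three] at hx
  replace hx : a' * x 0 ^ 2 + b' * x 1 ^ 2 + -g * x 2 ^ 2 = 0 := hx
  have hN : (∏ i, (![a', b', -g] : Fin 3 → F[X]) i).natDegree =
      a'.natDegree + b'.natDegree + g.natDegree := by
    rw [Fin.prod_univ_three]
    show (a' * b' * -g).natDegree = _
    rw [natDegree_mul (mul_ne_zero ha0 hb0) (neg_ne_zero.2 hg0), natDegree_mul ha0 hb0,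
      natDegree_neg]
  rw [hN] at hdx
  have d0 := hdx 0
  have d1 := hdx 1
  have d2 := hdx 2
  have da : (s ^ 2 * (g * a')).natDegree = 2 * s.natDegree + (g.natDegree + a'.natDegree) := by
    rw [natDegree_mul (pow_ne_zero 2 hs0) (mul_ne_zero hg0 ha0), natDegree_pow,
      natDegree_mul hg0 ha0]
  have db : (t ^ 2 * (g * b')).natDegree = 2 * t.natDegree + (g.natDegree + b'.natDegree) := by
    rw [natDegree_mul (pow_ne_zero 2 ht0) (mul_ne_zero hg0 hb0), natDegree_pow,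
      natDegree_mul hg0 hb0]
  refine ⟨t * x 0, s * x 1, s * t * g * x 2, ?_, ?_, ?_, ?_, ?_⟩
  · rintro ⟨h1, h2⟩
    have h3 : x 0 = 0 := (mul_eq_zero.1 h1).resolve_left ht0
    have h4 : x 1 = 0 := (mul_eq_zero.1 h2).resolve_left hs0
    have h5 : x 2 = 0 := by
      rw [h3, h4] at hx
      have h6 : g * x 2 ^ 2 = 0 := by linear_combination -hx
      exact pow_eq_zero_iff two_ne_zero |>.1 ((mul_eq_zero.1 h6).resolve_left hg0)
    apply hx0
    funext i
    fin_cases i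
    · exact h3
    · exact h4
    · exact h5
  · linear_combination (-(s ^ 2 * t ^ 2 * g)) * hx
  · refine natDegree_mul_le.trans ?_
    rw [da, db]
    omega
  · refine natDegree_mul_le.trans ?_
    rw [da, db]
    omega
  · refine natDegree_mul_le.trans ?_
    have e1 : (s * t * g).natDegree ≤ s.natDegree + t.natDegree + g.natDegree := by
      refine natDegree_mul_le.trans ?_
      have := natDegree_mul_le (p := s) (q := t)
      omega
    rw [da, db]
    omega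

/-- with nonzero coordinates -/
theorem hed (hq : 2 ∣ Nat.card F - 1) {a b : F[X]} (ha : a ≠ 0) (hb : b ≠ 0)
    (hns : ¬ IsSquare a)
    (h : ∀ w : Pl F, hw χ w (algebraMap F[X] (RatFunc F) a) (algebraMap F[X] (RatFunc F) b) = 0) :
    ∃ X W Z : F[X], X ≠ 0 ∧ W ≠ 0 ∧ Z ^ 2 - a * X ^ 2 = b * W ^ 2 ∧
      X.natDegree ≤ 2 * (a.natDegree + b.natDegree) ∧
      W.natDegree ≤ 2 * (a.natDegree + b.natDegree) ∧
      Z.natDegree ≤ 2 * (a.natDegree + b.natDegree) := by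
  obtain ⟨X, W, Z, hne, heq, dX, dW, dZ⟩ := hec χ hq ha hb h
  have hdvd : ∀ {x y : F[X]}, x ^ 2 ∣ y ^ 2 → x ∣ y := fun h =>
    (IsIntegrallyClosed.pow_dvd_pow_iff two_ne_zero).1 h
  by_cases hW : W = 0
  · exfalso
    have hX : X ≠ 0 := fun hX => hne ⟨hX, hW⟩
    rw [hW, zero_pow two_ne_zero, mul_zero, add_zero] at heq
    obtain ⟨c, hc⟩ := hdvd (x := X) (y := Z) ⟨a, by rw [heq]; ring⟩
    apply hns
    refine ⟨c, ?_⟩
    refine mul_left_cancel₀ (pow_ne_zero 2 hX) ?_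
    rw [hc] at heq
    linear_combination -heq
  by_cases hX : X = 0
  swap
  · exact ⟨X, W, Z, hX, hW, by linear_combination heq, dX, dW, dZ⟩
  rw [hX, zero_pow two_ne_zero, mul_zero, zero_add] at heq
  obtain ⟨β, hβ⟩ := hdvd (x := W) (y := Z) ⟨b, by rw [heq]; ring⟩
  have hb2 : b = β ^ 2 := by
    refine mul_left_cancel₀ (pow_ne_zero 2 hW) ?_
    rw [hβ] at heq
    linear_combination -heq
  have hβ0 : β ≠ 0 := by
    rintro rfl
    exact hb (by rw [hb2]; ring)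
  have h2 : (2 : F) ≠ 0 := by
    have h := H94.PM.l_ne_zero (ℓ := 2) (F := F) hq
    exact_mod_cast h
  have h2' : (2 : F[X]) ≠ 0 := by
    rw [show (2 : F[X]) = C 2 from (map_ofNat C 2).symm]
    exact C_ne_zero.2 h2
  have ha1 : a ≠ 1 := by
    rintro rfl
    exact hns ⟨1, (mul_one 1).symm⟩
  have dβ : β.natDegree ≤ b.natDegree := by
    rw [hb2, natDegree_pow]
    omega
  have d1 : (a - 1).natDegree ≤ a.natDegree := by
    refine (natDegree_sub_le _ _).trans ?_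
    rw [natDegree_one, max_eq_left (Nat.zero_le _)]
  have d2 : (1 + a).natDegree ≤ a.natDegree := by
    refine (natDegree_add_le _ _).trans ?_
    rw [natDegree_one, max_eq_right (Nat.zero_le _)]
  have d3 : (2 * β).natDegree ≤ β.natDegree := by
    rw [show (2 : F[X]) = C 2 from (map_ofNat C 2).symm]
    exact natDegree_C_mul_le _ _
  refine ⟨2 * β, a - 1, β * (1 + a), mul_ne_zero h2' hβ0, sub_ne_zero.2 ha1, ?_, ?_, ?_, ?_⟩
  · rw [hb2]
    ring
  · omega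
  · omega
  · refine natDegree_mul_le.trans ?_
    omega

end Pool.Agent.H74.FS
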