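import Pool.Agent.H74.FS.SLO
import Pool.Agent.H74.FS.HEC

set_option autoImplicit false

/-!
# [H74 FS GDX] The data of the governing element, with bounds

`hede`: `hed`, and among the solutions with these bounds take one with `deg X` minimal (or divide by the gcd): if an irreducible `π` divides `X`, `Z` and `W` then `(X / π, Z / π, W / π)` is again a solution with `X, W ≠ 0` and smaller degrees.
`gdx`: `slot` gives `c`; `hede` for `(x1, c y2)`, `(x2, c y1)`, `(x1 x2, c)`.  With `n` the sum of the degrees, `deg c ≤ C₀ (n + 1)`, everything is at most `2 (n + n + C₀ (n + 1)) ≤ (4 + 2 C₀)(n + 1)`.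
-/

namespace Pool.Agent.H74.FS

open Polynomial
open Pool.Agent.H94.PL (LChar lm)

variable {F : Type} [Field F] [DecidableEq (RatFunc F)] [Finite F] (χ : LChar F 2)

private theorem prim {a b : F[X]} {B : ℕ} (n : ℕ) : ∀ X W Z : F[X], X.natDegree = n → X ≠ 0 →
    W ≠ 0 → Z ^ 2 - a * X ^ 2 = b * W ^ 2 → X.natDegree ≤ B → W.natDegree ≤ B → Z.natDegree ≤ B →
    ∃ X W Z : F[X], X ≠ 0 ∧ W ≠ 0 ∧ Z ^ 2 - a * X ^ 2 = b * W ^ 2 ∧
      (∀ π : F[X], Irreducible π → ¬ (π ∣ X ∧ π ∣ Z ∧ π ∣ W)) ∧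
      X.natDegree ≤ B ∧ W.natDegree ≤ B ∧ Z.natDegree ≤ B := by
  induction n using Nat.strong_induction_on with
  | _ n ih =>
    intro X W Z hn hX hW he dX dW dZ
    by_cases hp : ∀ π : F[X], Irreducible π → ¬ (π ∣ X ∧ π ∣ Z ∧ π ∣ W)
    · exact ⟨X, W, Z, hX, hW, he, hp, dX, dW, dZ⟩
    push Not at hp
    obtain ⟨π, hπ, ⟨X', hX'⟩, ⟨Z', hZ'⟩, ⟨W', hW'⟩⟩ := hp
    have hπ0 : π ≠ 0 := hπ.ne_zero
    have hX0 : X' ≠ 0 := by
      rintro rfl
      exact hX (by rw [hX', mul_zero])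
    have hW0 : W' ≠ 0 := by
      rintro rfl
      exact hW (by rw [hW', mul_zero])
    have hle : ∀ y : F[X], y.natDegree ≤ (π * y).natDegree := by
      intro y
      by_cases hy : y = 0
      · rw [hy, mul_zero]
      · rw [natDegree_mul hπ0 hy]
        exact Nat.le_add_left _ _
    have hlt : X'.natDegree < n := by
      rw [← hn, hX', natDegree_mul hπ0 hX0]
      have := hπ.natDegree_pos
      omega
    refine ih X'.natDegree hlt X' W' Z' rfl hX0 hW0 ?_ ?_ ?_ ?_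
    · refine mul_left_cancel₀ (pow_ne_zero 2 hπ0) ?_
      rw [hX', hZ', hW'] at he
      linear_combination he
    · exact (hle X').trans (by rw [← hX']; exact dX)
    · exact (hle W').trans (by rw [← hW']; exact dW)
    · exact (hle Z').trans (by rw [← hZ']; exact dZ)

/-- a primitive solution -/
theorem hede (hq : 2 ∣ Nat.card F - 1) {a b : F[X]} (ha : a ≠ 0) (hb : b ≠ 0)
    (hns : ¬ IsSquare a) (h : ∀ w : Pl F, hp χ w a b = 0) :
    ∃ X W Z : F[X], X ≠ 0 ∧ W ≠ 0 ∧ Z ^ 2 - a * X ^ 2 = b * W ^ 2 ∧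
      (∀ π : F[X], Irreducible π → ¬ (π ∣ X ∧ π ∣ Z ∧ π ∣ W)) ∧
      X.natDegree ≤ 2 * (a.natDegree + b.natDegree) ∧
      W.natDegree ≤ 2 * (a.natDegree + b.natDegree) ∧
      Z.natDegree ≤ 2 * (a.natDegree + b.natDegree) := by
  obtain ⟨X, W, Z, hX, hW, he, dX, dW, dZ⟩ := hed χ hq ha hb hns h
  exact prim X.natDegree X W Z rfl hX hW he dX dW dZ

theorem gdx (hq : 2 ∣ Nat.card F - 1) : ∃ C : ℕ, ∀ x1 x2 y1 y2 : F[X], x1 ≠ 0 → x2 ≠ 0 →
    y1 ≠ 0 → y2 ≠ 0 → ¬ IsSquare x1 → ¬ IsSquare x2 → ¬ IsSquare (x1 * x2) →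
    (∀ w : Pl F, hp χ w x1 y2 + hp χ w x2 y1 = 0) →
    ∃ (c : F[X]) (X Z W : Fin 3 → F[X]), c ≠ 0 ∧ Squarefree c ∧ (∀ l, X l ≠ 0) ∧
      (∀ l, W l ≠ 0) ∧ (∀ l, ∀ π : F[X], Irreducible π → ¬ (π ∣ X l ∧ π ∣ Z l ∧ π ∣ W l)) ∧
      Z 0 ^ 2 - x1 * X 0 ^ 2 = c * y2 * W 0 ^ 2 ∧ Z 1 ^ 2 - x2 * X 1 ^ 2 = c * y1 * W 1 ^ 2 ∧
      Z 2 ^ 2 - x1 * x2 * X 2 ^ 2 = c * W 2 ^ 2 ∧
      c.natDegree ≤ C * (x1.natDegree + x2.natDegree + y1.natDegree + y2.natDegree + 1) ∧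
      ∀ l, (X l).natDegree ≤ C * (x1.natDegree + x2.natDegree + y1.natDegree + y2.natDegree + 1) ∧
        (Z l).natDegree ≤ C * (x1.natDegree + x2.natDegree + y1.natDegree + y2.natDegree + 1) ∧
        (W l).natDegree ≤ C * (x1.natDegree + x2.natDegree + y1.natDegree + y2.natDegree + 1) := by
  obtain ⟨C₀, hC⟩ := slot χ hq
  refine ⟨2 + 2 * C₀, fun x1 x2 y1 y2 h1 h2 h3 h4 n1 n2 n3 h => ?_⟩
  obtain ⟨c, hc0, hcs, hcd, hcw⟩ := hC x1 x2 y1 y2 h1 h2 h3 h4 h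
  obtain ⟨X0, W0, Z0, hX0, hW0, he0, hp0, dX0, dW0, dZ0⟩ := hede χ hq h1 (mul_ne_zero hc0 h4) n1
    (fun w => (hcw w).1)
  obtain ⟨X1, W1, Z1, hX1, hW1, he1, hp1, dX1, dW1, dZ1⟩ := hede χ hq h2 (mul_ne_zero hc0 h3) n2
    (fun w => (hcw w).2.1)
  obtain ⟨X2, W2, Z2, hX2, hW2, he2, hp2, dX2, dW2, dZ2⟩ := hede χ hq (mul_ne_zero h1 h2) hc0 n3
    (fun w => (hcw w).2.2)
  have e1 : (c * y2).natDegree ≤ c.natDegree + y2.natDegree := natDegree_mul_le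
  have e2 : (c * y1).natDegree ≤ c.natDegree + y1.natDegree := natDegree_mul_le
  have e3 : (x1 * x2).natDegree ≤ x1.natDegree + x2.natDegree := natDegree_mul_le
  set n : ℕ := x1.natDegree + x2.natDegree + y1.natDegree + y2.natDegree + 1 with hn
  have hCn : (2 + 2 * C₀) * n = 2 * n + 2 * (C₀ * n) := by ring
  rw [hCn]
  refine ⟨c, ![X0, X1, X2], ![Z0, Z1, Z2], ![W0, W1, W2], hc0, hcs, ?_, ?_, ?_, he0, he1, he2,
    by omega, ?_⟩
  · intro l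
    fin_cases l
    · exact hX0
    · exact hX1
    · exact hX2
  · intro l
    fin_cases l
    · exact hW0
    · exact hW1
    · exact hW2
  · intro l
    fin_cases l
    · exact hp0
    · exact hp1
    · exact hp2
  · intro l
    fin_cases l
    · show X0.natDegree ≤ _ ∧ Z0.natDegree ≤ _ ∧ W0.natDegree ≤ _
      omega
    · show X1.natDegree ≤ _ ∧ Z1.natDegree ≤ _ ∧ W1.natDegree ≤ _
      omega
    · show X2.natDegree ≤ _ ∧ Z2.natDegree ≤ _ ∧ W2.natDegree ≤ _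
      omega

end Pool.Agent.H74.FS
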