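import Pool.Agent.H74.FS.CLG

set_option autoImplicit false

/-!
# [H74 FS CLH] The cell theorem

`bas x (ix i 0) = x i 0`, `bas x (ix i 1) = x i 1` (`H3.FS.ix i e = finProdFinEquiv (i, e)`).
* `bss_cell`: `Bss` for `D' P₀, P₀` gives it for `D' P, P`: `fr_cell` in both directions.
* `ind_bas`.  Suppose `∏ j ∈ I, bas x j = C a * g ^ 2`, `I` not empty.  The left side is not `0` (the components of a Selmer tuple are not zero), so `a ≠ 0`.  `e i = 1` if `ix i 0 ∈ I` and `0` otherwise, `f i = 1` if `ix i 1 ∈ I`; `δ k = ∏ i, up3 (x i) k ^ (e i).val`, `δ' k = ∏ i, up3 (x i) k ^ (f i).val`: both satisfy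
  `Fr` (`sln_mul`, finite products; exponents), and `δ 0 * δ' 1 = algebraMap (∏ j ∈ I, bas x j)` (reindex by `finProdFinEquiv`), so `a * δ 0 * δ' 1 = (a g)²` is a square, and by `Idp` all components of `δ` and `δ'` are squares.  Then both `e` and `0` represent `δ` (`Bss.ex`; `δ k * (y k)⁻¹ ^ 2 = 1`), so
  `e = 0`, also `f = 0`, so `I` is empty.
* `hp_bas`: `Vw_iso` for the tuples `x i`, `x j` at `w` (`sln_iff`): `∑ k, hp (x i k) (x j k) = 0`; the components `2` are the products of the others, so this is `2 hp (x i 0) (x j 0) + 2 hp (x i 1) (x j 1) + hp (x i 0) (x j 1) + hp (x i 1) (x j 0)`.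
* `sq_P`: `fr_sq`; `x i k` is prime to `P` (all its prime factors divide `D' dl A`; or: it is squarefree of even exponent at `P`...: use `fr_sq` and the fact that `up3 (x i) k` is a square at `P`: for `k = 0, 1` `x i k` is squarefree and has even exponent at `P`, so `P ∤ x i k`; `k = 2`: the product) and `un = lm χ (x i k) P = 0`,
  so `H94.PM.ker_lm` gives `ρ`.
* `cell`: `free_basis` for `P₀`, then `bss_cell`, `cell_card`, `cell_sel`, `idp_cell`.
-/

namespace Pool.Agent.H74.FS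

open Polynomial
open Pool.Agent.H94.PL (LChar lm XX DK AK dl)
open Pool.Agent.H94.PM (LU vl IsVln IsSln)
open Pool.Agent.H94.PC (pf mem_pf Pr js)
open Pool.Agent.H3.FS (CellD Ind)

variable {F : Type} [Field F]

/-- the components `0` and `1` of the basis -/
def bas {r : ℕ} (x : Fin r → Fin 3 → F[X]) (j : Fin (r * 2)) : F[X] :=
  x (finProdFinEquiv.symm j).1 (finProdFinEquiv.symm j).2.castSucc

theorem bas_0 {r : ℕ} (x : Fin r → Fin 3 → F[X]) (i : Fin r) : bas x (H3.FS.ix i 0) = x i 0 := by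
  unfold bas H3.FS.ix
  rw [Equiv.symm_apply_apply]
  rfl

theorem bas_1 {r : ℕ} (x : Fin r → Fin 3 → F[X]) (i : Fin r) : bas x (H3.FS.ix i 1) = x i 1 := by
  unfold bas H3.FS.ix
  rw [Equiv.symm_apply_apply]
  rfl

variable [DecidableEq (RatFunc F)] [Finite F] (χ : LChar F 2) {c : F} {A : Fin 3 → F[X]}
  {D' : F[X]} {m : ℕ} {τ : F[X] → ℝ} {P P₀ : F[X]} {r : ℕ}

include χ in
theorem bss_cell (hq : 2 ∣ Nat.card F - 1) (hc : c ≠ 0) (hA : ∀ i k, i ≠ k → A i ≠ A k)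
    (hD : D' ≠ 0) (hm : ∀ v ∈ pf (D' * dl A), v.natDegree < m) (h₀ : P₀ ∈ CellD (dl A) D' m τ)
    (h : P ∈ CellD (dl A) D' m τ) {x : Fin r → Fin 3 → F[X]} (hx : Bss c A (D' * P₀) P₀ x) :
    Bss c A (D' * P) P x :=
  ⟨fun i => fr_cell χ hq hc hA hD hm h₀ h (hx.fr i),
    fun _ hδ => hx.ex _ (fr_cell χ hq hc hA hD hm h h₀ hδ)⟩

omit [Finite F] in
private theorem fr_one {D : F[X]} (hP : Irreducible P) : Fr c A D P (fun _ => 1) :=
  ⟨sln_one, fun _ => H94.PL.ex_one hP⟩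

omit [Finite F] in
private theorem fr_mul {D : F[X]} (hP : Irreducible P) {δ δ' : Fin 3 → RatFunc F}
    (h : Fr c A D P δ) (h' : Fr c A D P δ') : Fr c A D P (fun k => δ k * δ' k) := by
  refine ⟨sln_mul h.1 h'.1, fun k => ?_⟩
  rw [H94.PL.ex_mul hP ((sln_iff.1 h.1).1 k) ((sln_iff.1 h'.1).1 k), h.2 k, h'.2 k, add_zero]

omit [Finite F] in
private theorem fr_pow {D : F[X]} (hP : Irreducible P) {δ : Fin 3 → RatFunc F}
    (h : Fr c A D P δ) (n : ℕ) : Fr c A D P (fun k => δ k ^ n) := by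
  induction n with
  | zero =>
    simp only [pow_zero]
    exact fr_one hP
  | succ n ih =>
    simp only [pow_succ]
    exact fr_mul hP ih h

omit [Finite F] in
private theorem fr_prod {D : F[X]} (hP : Irreducible P) {x : Fin r → Fin 3 → RatFunc F}
    (h : ∀ i, Fr c A D P (x i)) (e : Fin r → ZMod 2) :
    Fr c A D P (fun k => ∏ i, x i k ^ (e i).val) := by
  classical
  have h1 : ∀ s : Finset (Fin r), Fr c A D P (fun k => ∏ i ∈ s, x i k ^ (e i).val) := by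
    intro s
    induction s using Finset.induction_on with
    | empty =>
      simp only [Finset.prod_empty]
      exact fr_one hP
    | insert a s ha ih =>
      simp only [Finset.prod_insert ha]
      exact fr_mul hP (fr_pow hP (h a) _) ih
  exact h1 Finset.univ

omit [Finite F] in
/-- the exponents of a tuple of squares are zero -/
private theorem ex_zero {D : F[X]} (hP : Irreducible P) {x : Fin r → Fin 3 → F[X]}
    (hx : Bss c A D P x) (e : Fin r → ZMod 2)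
    (hs : ∀ k, IsSquare (∏ i, up3 (x i) k ^ (e i).val)) : e = 0 := by
  have hF := fr_prod hP hx.fr e
  have hne : ∀ k, ∏ i, up3 (x i) k ^ (e i).val ≠ 0 := fun k => (sln_iff.1 hF.1).1 k
  obtain ⟨e', -, hu⟩ := hx.ex _ hF
  have h1 : e = e' := hu e ⟨fun _ => 1, fun _ => one_ne_zero, fun k => by
    rw [one_pow, mul_one]⟩
  have h2 : (0 : Fin r → ZMod 2) = e' := by
    choose y hy using hs
    have hy0 : ∀ k, y k ≠ 0 := by
      intro k h
      apply hne k
      rw [hy k, h, mul_zero]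
    refine hu 0 ⟨fun k => (y k)⁻¹, fun k => inv_ne_zero (hy0 k), fun k => ?_⟩
    have h3 : ∏ i, up3 (x i) k ^ ((0 : Fin r → ZMod 2) i).val = 1 :=
      Finset.prod_eq_one fun i _ => by rw [Pi.zero_apply, ZMod.val_zero, pow_zero]
    rw [h3]
    show (∏ i, up3 (x i) k ^ (e i).val) * (y k)⁻¹ ^ 2 = 1
    rw [hy k, sq, mul_mul_mul_comm, mul_inv_cancel₀ (hy0 k), mul_one]
  rw [h1, ← h2]

omit [DecidableEq (RatFunc F)] [Finite F] in
private theorem prod_split {M : Type} [CommMonoid M] (f : Fin (r * 2) → M) :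
    ∏ j, f j = (∏ i, f (H3.FS.ix i 0)) * ∏ i, f (H3.FS.ix i 1) := by
  rw [← Equiv.prod_comp finProdFinEquiv, Fintype.prod_prod_type, ← Finset.prod_mul_distrib]
  refine Finset.prod_congr rfl fun i _ => ?_
  rw [Fin.prod_univ_two]
  rfl

omit [Finite F] in
theorem ind_bas {D : F[X]} (hP : Irreducible P) {x : Fin r → Fin 3 → F[X]} (hx : Bss c A D P x)
    (hI : H94.FS.Idp 1 c A D P) : Ind (bas x) := by
  classical
  intro I hne a g heq
  have hx0 : ∀ i k, x i k ≠ 0 := by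
    intro i k h
    have h1 := (sln_iff.1 (hx.fr i).1).1 k
    apply h1
    show algebraMap F[X] (RatFunc F) (x i k) = 0
    rw [h, map_zero]
  have ha : a ≠ 0 := by
    rintro rfl
    rw [C_0, zero_mul] at heq
    exact (Finset.prod_ne_zero_iff.2 fun j _ => hx0 _ _) heq
  obtain ⟨e, he⟩ : ∃ e : Fin r → ZMod 2, e = fun i => if H3.FS.ix i 0 ∈ I then 1 else 0 :=
    ⟨_, rfl⟩
  obtain ⟨f, hf⟩ : ∃ f : Fin r → ZMod 2, f = fun i => if H3.FS.ix i 1 ∈ I then 1 else 0 :=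
    ⟨_, rfl⟩
  have h01 : (∏ i, up3 (x i) 0 ^ (e i).val) * ∏ i, up3 (x i) 1 ^ (f i).val =
      algebraMap F[X] (RatFunc F) (∏ j ∈ I, bas x j) := by
    have h1 : ∏ j ∈ I, bas x j = ∏ j, if j ∈ I then bas x j else 1 := by
      rw [Finset.prod_ite_mem, Finset.univ_inter]
    rw [h1, prod_split, map_mul, map_prod, map_prod]
    congr 1
    · refine Finset.prod_congr rfl fun i _ => ?_
      rw [he]
      show up3 (x i) 0 ^ (if H3.FS.ix i 0 ∈ I then (1 : ZMod 2) else 0).val = _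
      by_cases h : H3.FS.ix i 0 ∈ I
      · rw [if_pos h, if_pos h, bas_0, ZMod.val_one, pow_one]
        rfl
      · rw [if_neg h, if_neg h, ZMod.val_zero, pow_zero, map_one]
    · refine Finset.prod_congr rfl fun i _ => ?_
      rw [hf]
      show up3 (x i) 1 ^ (if H3.FS.ix i 1 ∈ I then (1 : ZMod 2) else 0).val = _
      by_cases h : H3.FS.ix i 1 ∈ I
      · rw [if_pos h, if_pos h, bas_1, ZMod.val_one, pow_one]
        rfl
      · rw [if_neg h, if_neg h, ZMod.val_zero, pow_zero, map_one]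
  have hFe := fr_prod hP hx.fr e
  have hFf := fr_prod hP hx.fr f
  have hsq := hI _ _ hFe.1 hFf.1 (fun k => ⟨hFe.2 k, hFf.2 k⟩) ⟨a, ha, by
    show IsSquare (algebraMap F (RatFunc F) a * (∏ i, up3 (x i) 0 ^ (e i).val) *
      ∏ i, up3 (x i) 1 ^ (f i).val)
    rw [mul_assoc, h01, heq]
    have h2 : algebraMap F (RatFunc F) a = algebraMap F[X] (RatFunc F) (C a) := by
      rw [← Polynomial.algebraMap_eq, ← IsScalarTower.algebraMap_apply]
    rw [h2, ← map_mul]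
    refine ⟨algebraMap F[X] (RatFunc F) (C a * g), ?_⟩
    rw [← map_mul]
    congr 1
    ring⟩
  have he0 : e = 0 := ex_zero hP hx e fun k => (hsq k).1
  have hf0 : f = 0 := ex_zero hP hx f fun k => (hsq k).2
  obtain ⟨j, hj⟩ := hne
  obtain ⟨⟨i, b⟩, hib⟩ := finProdFinEquiv.surjective j
  have hb : b = 0 ∨ b = 1 := by
    revert b
    intro b _
    fin_cases b
    · exact Or.inl rfl
    · exact Or.inr rfl
  rcases hb with rfl | rfl
  · have h3 := congrFun he0 i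
    rw [he] at h3
    have h4 : H3.FS.ix i 0 ∈ I := by
      show finProdFinEquiv (i, 0) ∈ I
      rw [hib]
      exact hj
    simp only [if_pos h4, Pi.zero_apply] at h3
    exact one_ne_zero h3
  · have h3 := congrFun hf0 i
    rw [hf] at h3
    have h4 : H3.FS.ix i 1 ∈ I := by
      show finProdFinEquiv (i, 1) ∈ I
      rw [hib]
      exact hj
    simp only [if_pos h4, Pi.zero_apply] at h3
    exact one_ne_zero h3

theorem hp_bas (hc : c ≠ 0) {D : F[X]} (hD : D ≠ 0) {x : Fin r → Fin 3 → F[X]}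
    (hx : Bss c A D P x) (h2 : ∀ i, x i 2 = x i 0 * x i 1) (i j : Fin r) (w : Pl F) :
    hp χ w (x i 0) (x j 1) + hp χ w (x i 1) (x j 0) = 0 := by
  have hx0 : ∀ i k, algebraMap F[X] (RatFunc F) (x i k) ≠ 0 := fun i k =>
    (sln_iff.1 (hx.fr i).1).1 k
  have h := Vw_iso χ (by norm_num) hc hD ((sln_iff.1 (hx.fr i).1).2.2 w)
    ((sln_iff.1 (hx.fr j).1).2.2 w)
  rw [Fin.sum_univ_three] at h
  change hp χ w (x i 0) (x j 0) + hp χ w (x i 1) (x j 1) + hp χ w (x i 2) (x j 2) = 0 at h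
  have h3 : hp χ w (x i 2) (x j 2) = hp χ w (x i 0) (x j 0) + hp χ w (x i 0) (x j 1) +
      (hp χ w (x i 1) (x j 0) + hp χ w (x i 1) (x j 1)) := by
    rw [h2 i, h2 j]
    unfold hp
    rw [map_mul, map_mul, hw_mul χ w (hx0 i 0) (hx0 i 1) (mul_ne_zero (hx0 j 0) (hx0 j 1)),
      hw_mul' χ w (hx0 i 0) (hx0 j 0) (hx0 j 1), hw_mul' χ w (hx0 i 1) (hx0 j 0) (hx0 j 1)]
  rw [h3] at h
  generalize hp χ w (x i 0) (x j 0) = a1 at *
  generalize hp χ w (x i 1) (x j 1) = a2 at *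
  generalize hp χ w (x i 0) (x j 1) = a3 at *
  generalize hp χ w (x i 1) (x j 0) = a4 at *
  clear h3
  revert a1 a2 a3 a4
  decide

include χ in
theorem sq_P (hq : 2 ∣ Nat.card F - 1) (hc : c ≠ 0) (hA : ∀ i k, i ≠ k → A i ≠ A k)
    (hD : D' ≠ 0) (hm : ∀ v ∈ pf (D' * dl A), v.natDegree < m) (h : P ∈ CellD (dl A) D' m τ)
    {x : Fin r → Fin 3 → F[X]} (hx : Bss c A (D' * P) P x)
    (hs : ∀ i, Squarefree (x i 0) ∧ Squarefree (x i 1) ∧ x i 2 = x i 0 * x i 1) (i : Fin r)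
    (k : Fin 3) : ∃ ρ : F[X], P ∣ ρ ^ 2 - x i k := by
  have hP := cell_mem h
  have h1 : ∀ k, Squarefree (x i k) → ¬ P ∣ x i k := by
    intro k hk hd
    have h2 := (hx.fr i).2 k
    have h3 : H94.PL.ex 2 P (algebraMap F[X] (RatFunc F) (x i k)) = 1 :=
      H94.PL.ex_of_dvd_sqf hP.2 hd hk
    rw [show up3 (x i) k = algebraMap F[X] (RatFunc F) (x i k) from rfl, h3] at h2
    exact one_ne_zero h2
  have h4 : ¬ P ∣ x i k := by
    fin_cases k
    · exact h1 0 (hs i).1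
    · exact h1 1 (hs i).2.1
    · show ¬ P ∣ x i 2
      rw [(hs i).2.2]
      intro hd
      rcases hP.2.prime.dvd_or_dvd hd with hd | hd
      · exact h1 0 (hs i).1 hd
      · exact h1 1 (hs i).2.1 hd
  have h5 := fr_sq hq hc hA hD hm h (hx.fr i) k
  have h6 : x i k ≠ 0 := fun h0 => h4 (h0 ▸ dvd_zero P)
  have h7 : (Uw χ (some ⟨P, hP⟩ : Pl F)).un (iw _ (algebraMap F[X] (RatFunc F) (x i k))) = 0 :=
    ((sq_iff χ hq (iw_ne (RatFunc.algebraMap_ne_zero h6))).1 h5).2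
  rw [un_some χ hP.1 hP.2 h4] at h7
  obtain ⟨u, -, hu⟩ := H94.PM.ker_lm χ hP.1 hP.2 h4 h7
  refine ⟨u, ?_⟩
  rw [← neg_sub, dvd_neg]
  exact hu

theorem cell (hq : 2 ∣ Nat.card F - 1) (hc : c ≠ 0) (hA : ∀ i k, i ≠ k → A i ≠ A k)
    (hD : D' ≠ 0) (hm : ∀ v ∈ pf (D' * dl A), v.natDegree < m) (h₀ : P₀ ∈ CellD (dl A) D' m τ)
    (hR : Nat.card (H94.PN.SelC 2 1 c A (D' * P₀)) = 2 ^ (2 + r))
    (hI : H94.FS.Idp 1 c A (D' * P₀) P₀) :
    ∃ x : Fin r → Fin 3 → F[X],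
      (∀ i, Squarefree (x i 0) ∧ Squarefree (x i 1) ∧ x i 2 = x i 0 * x i 1) ∧
      (∀ i k, (x i k).natDegree ≤ 2 * (D' * dl A).natDegree) ∧ Ind (bas x) ∧
      (∀ i j (w : Pl F), hp χ w (x i 0) (x j 1) + hp χ w (x i 1) (x j 0) = 0) ∧
      ∀ (P : F[X]) (h : P ∈ CellD (dl A) D' m τ),
        Nat.card (H94.PN.SelC 2 1 c A (D' * P)) = 2 ^ (2 + r) ∧ H94.FS.Idp 1 c A (D' * P) P ∧
        (∀ i, IsSln 2 1 c A (D' * P) (up3 (x i))) ∧
        (∀ i k, IsSquare (iw (some ⟨P, cell_mem h⟩ : Pl F) (up3 (x i) k))) ∧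
        (∀ i k, ∃ ρ : F[X], P ∣ ρ ^ 2 - x i k) ∧
        ∀ δ : Fin 3 → RatFunc F, IsSln 2 1 c A (D' * P) δ →
          ∃! p : (Fin r → ZMod 2) × Option (Fin 3), ∃ γ : Fin 3 → RatFunc F, (∀ k, γ k ≠ 0) ∧
            ∀ k, δ k * γ k ^ 2 = tr c A (D' * P) p.2 k * ∏ i, up3 (x i) k ^ (p.1 i).val := by
  obtain ⟨x, hs, hdg, hx⟩ := free_basis hq hc hA hD hm h₀ hR
  refine ⟨x, hs, hdg, ind_bas (cell_mem h₀).2 hx hI, fun i j w => hp_bas χ hc
    (mul_ne_zero hD (cell_mem h₀).2.ne_zero) hx (fun i => (hs i).2.2) i j w, fun P h => ?_⟩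
  have hx' := bss_cell χ hq hc hA hD hm h₀ h hx
  exact ⟨cell_card hq hc hA hD hm h hx', idp_cell χ hq hc hA hD hm h₀ h hI,
    fun i => (hx'.fr i).1, fun i k => fr_sq hq hc hA hD hm h (hx'.fr i) k,
    fun i k => sq_P χ hq hc hA hD hm h hx' hs i k, fun δ hδ => cell_sel hq hc hA hD hm h hx' hδ⟩

end Pool.Agent.H74.FS
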