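import Pool.Agent.H74.FS.Pl

set_option autoImplicit false

/-!
# [H74 FS PlB] Basic facts about the completions

Everything by cases `w = none`, `w = some P` (`rcases w with _ | P` or `cases w`; then `Kw F w` is definitionally one of the two completions, `iw w` is `toI F` or `toP P.1 P.2.2`,
`Uw χ w` is `UI χ` or `UP χ P.2.1 P.2.2`; use `exact` with the library lemma, `change` if needed).
* `unif_w`: `H94.PM.unif_inf`, `H94.PL.wP_self`.  `val_two_w`: `val_l_inf`, `val_l_P` with `ℓ = 2`.  `two_ne_w`: from it (`map_zero`).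
* `sq_near`: `H94.PM.hen` (`ℓ = 2`, `val_two_w`).  `sq_of`: `H94.PM.pow_of_lu` with `ev w x = 0`: `2 ∣ vl x` (`ZMod.intCast_zmod_eq_zero_iff_dvd`).
* `ev_mul`, `un_mul`, `ev_sq`, `un_sq`: `vl_mul`, `vl_pow`, `U.mul`, `U.un_pow`, `2 = 0` in `ZMod 2`.
* `sq_iff`: `sq_of` and `ev_sq`, `un_sq`.  `same_class`: `sq_of` for `x / y`.
* `ev_some`: `H94.PM.vl_toP`.  `ev_poly_zero`: `P ∤ g`: `wP_eq_one`.  `ev_self`: `wP_self`.  `un_some`: `UP_poly`; `un_self`: `UP_self`; `ev_none`: `vl_inf_poly` (the sign does not matter in `ZMod 2`);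
  `un_none`: `UI_poly`.
* `ev_fin`: `x = num / denom`; for `w = some P` with `P ∤ num`, `P ∤ denom` (all but finitely many monic irreducible `P`) `ev = 0`; the set is contained in the union of `{none}` and the image of
  `pf (num * denom)` (`H94.PC.mem_pf`).
* `exists_cls`: `none`: `g = C c * X ^ a.val` with `χ.lg c = b` (`b = 0`: `c = 1`, otherwise `χ.surj`).  `some P`: `g = P ^ a.val * G ^ b.val` with `lm χ G P = 1`
  (`H94.PL.exists_cs_prime`, as in `H94.PM.ker_lm`).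
-/

namespace Pool.Agent.H74.FS

open Polynomial WithZero IsDedekindDomain
open Pool.Agent.H94 (LT.place)
open Pool.Agent.H94.PL (toP wP LChar lm XX IsMum DK AK dl)
open Pool.Agent.H94.PM (LU vl UP UI wI toI IsVln IsSln Gam lgs)

variable {F : Type} [Field F] [DecidableEq (RatFunc F)] [Finite F] (χ : LChar F 2)

omit [Finite F] in
theorem unif_w (w : Pl F) : ∃ ϖ : Kw F w, vw w ϖ = exp (-1 : ℤ) := by
  rcases w with _ | ⟨P, hP, hi⟩
  · exact ⟨_, H94.PM.unif_inf⟩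
  · exact ⟨_, H94.PL.wP_self P hi⟩

theorem val_two_w (hq : 2 ∣ Nat.card F - 1) (w : Pl F) : vw w ((2 : ℕ) : Kw F w) = 1 := by
  rcases w with _ | ⟨P, hP, hi⟩
  · exact H94.PM.val_l_inf hq
  · exact H94.PM.val_l_P hq hi

theorem two_ne_w (hq : 2 ∣ Nat.card F - 1) (w : Pl F) : (2 : Kw F w) ≠ 0 := by
  intro h
  have h1 := val_two_w hq w
  rw [Nat.cast_ofNat, h, map_zero] at h1
  exact zero_ne_one h1

/-- an element near `1` is a square -/
theorem sq_near (hq : 2 ∣ Nat.card F - 1) {w : Pl F} {x : Kw F w} (h : vw w (x - 1) < 1) :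
    ∃ y : Kw F w, y ≠ 0 ∧ x = y ^ 2 := by
  obtain ⟨y, hy, hyx⟩ := H94.PM.hen (val_two_w hq w) h
  exact ⟨y, H94.PM.ne_of_near hy, hyx.symm⟩

theorem sq_of (hq : 2 ∣ Nat.card F - 1) {w : Pl F} {x : Kw F w} (hx : x ≠ 0) (h1 : ev w x = 0)
    (h2 : (Uw χ w).un x = 0) : ∃ y : Kw F w, y ≠ 0 ∧ x = y ^ 2 := by
  obtain ⟨ϖ, hϖ⟩ := unif_w w
  exact H94.PM.pow_of_lu (val_two_w hq w) hϖ (Uw χ w) hx
    ((ZMod.intCast_zmod_eq_zero_iff_dvd _ 2).1 h1) h2

omit [Finite F] in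
theorem ev_mul {w : Pl F} {x y : Kw F w} (hx : x ≠ 0) (hy : y ≠ 0) :
    ev w (x * y) = ev w x + ev w y := by
  rw [ev, H94.PM.vl_mul hx hy, Int.cast_add]
  rfl

omit [Finite F] in
private theorem ev_pow {w : Pl F} (x : Kw F w) (n : ℕ) : ev w (x ^ n) = n * ev w x := by
  rw [ev, H94.PM.vl_pow, Int.cast_mul, Int.cast_natCast]
  rfl

omit [Finite F] in
theorem ev_sq {w : Pl F} (x : Kw F w) : ev w (x ^ 2) = 0 := by
  have h : ((2 : ℕ) : ZMod 2) = 0 := rfl
  rw [ev_pow, h, zero_mul]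

omit [Finite F] in
theorem ev_prod {w : Pl F} {ι : Type*} (s : Finset ι) (f : ι → Kw F w) (h : ∀ i ∈ s, f i ≠ 0) :
    ev w (∏ i ∈ s, f i) = ∑ i ∈ s, ev w (f i) := by
  rw [ev, H94.PM.vl_prod s f h, Int.cast_sum]
  rfl

theorem un_sq {w : Pl F} {x : Kw F w} (hx : x ≠ 0) : (Uw χ w).un (x ^ 2) = 0 := by
  have h : ((2 : ℕ) : ZMod 2) = 0 := rfl
  rw [(Uw χ w).un_pow hx, h, zero_mul]

theorem sq_iff (hq : 2 ∣ Nat.card F - 1) {w : Pl F} {x : Kw F w} (hx : x ≠ 0) :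
    IsSquare x ↔ ev w x = 0 ∧ (Uw χ w).un x = 0 := by
  constructor
  · rintro ⟨r, rfl⟩
    have hr : r ≠ 0 := left_ne_zero_of_mul hx
    rw [← sq]
    exact ⟨ev_sq r, un_sq χ hr⟩
  · rintro ⟨h1, h2⟩
    obtain ⟨y, _, hy⟩ := sq_of χ hq hx h1 h2
    exact ⟨y, by rw [hy, sq]⟩

theorem same_class (hq : 2 ∣ Nat.card F - 1) {w : Pl F} {x y : Kw F w} (hx : x ≠ 0) (hy : y ≠ 0)
    (h1 : ev w x = ev w y) (h2 : (Uw χ w).un x = (Uw χ w).un y) :
    ∃ z : Kw F w, z ≠ 0 ∧ x = y * z ^ 2 := by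
  have hxy : x / y ≠ 0 := div_ne_zero hx hy
  have h3 : ev w (x / y) = 0 := by
    have h4 := ev_mul hxy hy
    rw [div_mul_cancel₀ x hy, h1] at h4
    exact right_eq_add.1 h4
  have h5 : (Uw χ w).un (x / y) = 0 := by
    rw [(Uw χ w).un_div hx hy, h2, sub_self]
  obtain ⟨z, hz, hz2⟩ := sq_of χ hq hxy h3 h5
  refine ⟨z, hz, ?_⟩
  rw [← hz2, mul_div_cancel₀ x hy]

omit [Finite F] [DecidableEq (RatFunc F)] in
private theorem vl_toP' {P : F[X]} (hP : Irreducible P) {x : RatFunc F} (hx : x ≠ 0) :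
    (vl (wP P hP) (toP P hP x) : ZMod 2) = H94.PL.ex 2 P x := by
  have hn : x.num ≠ 0 := RatFunc.num_ne_zero hx
  have hd : x.denom ≠ 0 := RatFunc.denom_ne_zero x
  have hx' : toP P hP x ≠ 0 := by
    rw [Ne, map_eq_zero]
    exact hx
  have h1 : wP P hP (toP P hP x) =
      exp (-(((multiplicity P x.num : ℕ) : ℤ) - ((multiplicity P x.denom : ℕ) : ℤ))) := by
    conv_lhs => rw [← RatFunc.num_div_denom x]
    rw [map_div₀, map_div₀, H94.PL.tr_pow hP hn, H94.PL.tr_pow hP hd, ← exp_sub]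
    congr 1
    ring
  rw [(H94.PM.vl_eq_iff hx' _).2 h1, H94.PL.ex]
  push_cast
  rfl

omit [Finite F] in
theorem ev_some {P : F[X]} (hP : P.Monic) (hi : Irreducible P) {x : RatFunc F} (hx : x ≠ 0) :
    ev (some ⟨P, hP, hi⟩ : Pl F) (iw _ x) = H94.PL.ex 2 P x :=
  vl_toP' hi hx

omit [Finite F] in
theorem ev_poly_zero {P : F[X]} (hP : P.Monic) (hi : Irreducible P) {g : F[X]} (h : ¬ P ∣ g) :
    ev (some ⟨P, hP, hi⟩ : Pl F) (iw _ (algebraMap F[X] (RatFunc F) g)) = 0 := by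
  show ((vl (wP P hi) (toP P hi (algebraMap F[X] (RatFunc F) g)) : ℤ) : ZMod 2) = 0
  rw [vl, H94.PL.wP_eq_one hi h, log_one, neg_zero, Int.cast_zero]

omit [Finite F] in
theorem ev_self {P : F[X]} (hP : P.Monic) (hi : Irreducible P) :
    ev (some ⟨P, hP, hi⟩ : Pl F) (iw _ (algebraMap F[X] (RatFunc F) P)) = 1 := by
  show ((vl (wP P hi) (toP P hi (algebraMap F[X] (RatFunc F) P)) : ℤ) : ZMod 2) = 1
  rw [vl, H94.PL.wP_self P hi, log_exp, neg_neg, Int.cast_one]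

theorem un_some {P : F[X]} (hP : P.Monic) (hi : Irreducible P) {g : F[X]} (h : ¬ P ∣ g) :
    (Uw χ (some ⟨P, hP, hi⟩ : Pl F)).un (iw _ (algebraMap F[X] (RatFunc F) g)) = lm χ g P :=
  H94.PM.UP_poly χ hP hi h

theorem un_self {P : F[X]} (hP : P.Monic) (hi : Irreducible P) :
    (Uw χ (some ⟨P, hP, hi⟩ : Pl F)).un (iw _ (algebraMap F[X] (RatFunc F) P)) = 0 :=
  H94.PM.UP_self χ hP hi

omit [Finite F] in
private theorem vl_inf_poly' {g : F[X]} (hg : g ≠ 0) :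
    vl (wI F) (toI F (algebraMap F[X] (RatFunc F) g)) = -(g.natDegree : ℤ) := by
  have hgM : toI F (algebraMap F[X] (RatFunc F) g) ≠ 0 := by
    rw [Ne, map_eq_zero]
    exact RatFunc.algebraMap_ne_zero hg
  rw [H94.PM.vl_eq_iff hgM, neg_neg]
  exact H94.LT.val_inf_poly hg

omit [Finite F] in
theorem ev_none {g : F[X]} (hg : g ≠ 0) :
    ev (none : Pl F) (iw _ (algebraMap F[X] (RatFunc F) g)) = (g.natDegree : ZMod 2) := by
  show ((vl (wI F) (toI F (algebraMap F[X] (RatFunc F) g)) : ℤ) : ZMod 2) = _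
  rw [vl_inf_poly' hg, Int.cast_neg, Int.cast_natCast]
  exact ZMod.neg_eq_self_mod_two _

theorem un_none {g : F[X]} (hg : g ≠ 0) :
    (Uw χ (none : Pl F)).un (iw _ (algebraMap F[X] (RatFunc F) g)) = χ.lg g.leadingCoeff :=
  H94.PM.UI_poly χ hg

omit [Finite F] in
/-- an element of `F(t)` has odd valuation only at finitely many places -/
theorem ev_fin {x : RatFunc F} (hx : x ≠ 0) : {w : Pl F | ev w (iw w x) ≠ 0}.Finite := by
  classical
  have hn : x.num ≠ 0 := RatFunc.num_ne_zero hx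
  have hd : x.denom ≠ 0 := RatFunc.denom_ne_zero x
  have hnd : x.num * x.denom ≠ 0 := mul_ne_zero hn hd
  have hfin : ((fun P : {P : F[X] // P.Monic ∧ Irreducible P} => P.1) ⁻¹'
      ((UniqueFactorizationMonoid.normalizedFactors (x.num * x.denom)).toFinset :
        Set F[X])).Finite :=
    Set.Finite.preimage (Subtype.val_injective.injOn) (Finset.finite_toSet _)
  refine ((Set.finite_singleton (none : Pl F)).union (hfin.image some)).subset ?_
  rintro (_ | ⟨P, hP, hi⟩) hw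
  · exact Or.inl rfl
  · refine Or.inr ⟨⟨P, hP, hi⟩, ?_, rfl⟩
    rw [Set.mem_preimage, Finset.mem_coe, Multiset.mem_toFinset,
      UniqueFactorizationMonoid.mem_normalizedFactors_iff' hnd]
    refine ⟨hi, hP.normalize_eq_self, ?_⟩
    by_contra hndv
    apply hw
    rw [ev_some hP hi hx, H94.PL.ex,
      multiplicity_eq_zero.2 (fun h => hndv (h.mul_right _)),
      multiplicity_eq_zero.2 (fun h => hndv (h.mul_left _)), sub_self]

omit [DecidableEq (RatFunc F)] in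
/-- a polynomial with logarithm one -/
private theorem exists_lm {P : F[X]} (hP : P.Monic) (hi : Irreducible P) :
    ∃ G : F[X], ¬ P ∣ G ∧ lm χ G P = 1 := by
  obtain ⟨A, hA⟩ := H94.PL.exists_cs_prime χ hP hi
  have hAc : IsCoprime A P := by
    by_contra hn
    have h1 : H94.PL.cs χ A P = 0 := by
      rw [H94.PL.cs, H94.PL.res_eq_zero hP hn, H94.PL.chc_zero]
    rw [h1] at hA
    exact H94.PL.ps_ne_zero _ hA.symm
  refine ⟨A, fun hd => ?_, ?_⟩
  · obtain ⟨a, b, hab⟩ := hAc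
    exact hi.not_isUnit (isUnit_of_dvd_one (by
      rw [← hab]
      exact dvd_add (hd.mul_left _) (dvd_mul_left _ _)))
  · rw [H94.PL.cs_of_coprime χ hP hAc] at hA
    exact H94.PL.ps_inj hA

/-- every square class of a completion contains a polynomial -/
theorem exists_cls (w : Pl F) (a b : ZMod 2) : ∃ g : F[X], g ≠ 0 ∧
    ev w (iw w (algebraMap F[X] (RatFunc F) g)) = a ∧
      (Uw χ w).un (iw w (algebraMap F[X] (RatFunc F) g)) = b := by
  rcases w with _ | ⟨P, hP, hi⟩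
  · obtain ⟨c, hc, hc1⟩ : ∃ c : F, c ≠ 0 ∧ χ.lg c = b := by
      obtain ⟨c, hc, hc1⟩ := χ.surj
      have hb : b = 0 ∨ b = 1 := by
        revert b
        decide
      rcases hb with rfl | rfl
      · exact ⟨1, one_ne_zero, H94.PL.lg_one χ⟩
      · exact ⟨c, hc, hc1⟩
    have hg : C c * X ^ a.val ≠ 0 := mul_ne_zero (C_ne_zero.2 hc) (pow_ne_zero _ X_ne_zero)
    refine ⟨C c * X ^ a.val, hg, ?_, ?_⟩
    · rw [ev_none hg, natDegree_C_mul hc, natDegree_X_pow, ZMod.natCast_zmod_val]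
    · rw [un_none χ hg, leadingCoeff_C_mul_X_pow, hc1]
  · obtain ⟨G, hG, hG1⟩ := exists_lm χ hP hi
    have hG0 : G ≠ 0 := fun h => hG (by rw [h]; exact dvd_zero P)
    refine ⟨P ^ a.val * G ^ b.val, mul_ne_zero (pow_ne_zero _ hP.ne_zero) (pow_ne_zero _ hG0), ?_, ?_⟩
    · rw [map_mul, map_mul, map_pow, map_pow, map_pow, map_pow, ev_mul, ev_pow, ev_pow,
        ev_self hP hi, ev_poly_zero hP hi hG, mul_zero, add_zero, mul_one, ZMod.natCast_zmod_val]
      · exact pow_ne_zero _ (iw_ne (RatFunc.algebraMap_ne_zero hP.ne_zero))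
      · exact pow_ne_zero _ (iw_ne (RatFunc.algebraMap_ne_zero hG0))
    · rw [map_mul, map_mul, map_pow, map_pow, map_pow, map_pow, (Uw χ _).mul, (Uw χ _).un_pow,
        (Uw χ _).un_pow, un_self χ hP hi, un_some χ hP hi hG, hG1, mul_zero, zero_add, mul_one,
        ZMod.natCast_zmod_val]
      · exact iw_ne (RatFunc.algebraMap_ne_zero hG0)
      · exact iw_ne (RatFunc.algebraMap_ne_zero hP.ne_zero)
      · exact pow_ne_zero _ (iw_ne (RatFunc.algebraMap_ne_zero hP.ne_zero))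
      · exact pow_ne_zero _ (iw_ne (RatFunc.algebraMap_ne_zero hG0))

end Pool.Agent.H74.FS
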