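import Pool.Agent.H74.FS.CLF

set_option autoImplicit false

/-!
# [H74 FS CLG] The basis of the `P`-free Selmer classes of a cell

* `free_basis`: `frH_card` and `hR` give `card frH = 2 ^ r`; `exp2_basis` gives `b i ∈ frH`, `b i = cl (δ i)`, `Fr (δ i)`.  `fr_even` (and `ex 2 P = 0`; `P ∤ D' dl A`) and `H94.PL.normal_form` with `T = pf (D' * dl A)`: `δ i k = algebraMap (C a * ∏ Q ∈ T, Q ^ (ex 2 Q (δ i k)).val) * y ^ 2`, `a ≠ 0`; let
  `x i k` be this polynomial for `k = 0, 1`, squarefree (a constant times different monic irreducible polynomials) of degree at most `∑ Q ∈ T, deg Q ≤ deg (D' dl A)`, and `x i 2 = x i 0 * x i 1`.  `δ i 2` is `δ i 0 * δ i 1` times a square as the product of the three is a square (`IsSln.prod`).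
  So `cl (x i) = cl (δ i) = b i` (`cl_eq`), and `Fr (x i)` (`frH_cl`).  For `δ` with `Fr`: `cl δ ∈ frH`, there is exactly one `e` with `∏ i, b i ^ (e i).val = cl δ`, and `∏ i, b i ^ (e i).val = cl (fun k => ∏ i, x i k ^ (e i).val)`; `cl_eq`.
* `cell_sel`: `D = D' P`; `δ` a Selmer tuple: `t` from `exists_tr`, `δ * tr t` is `P`-free, `e` from the basis: `δ k * tr t k * γ k ^ 2 = ∏ i, x i k ^ (e i).val`, so `δ k * (tr t k * γ k) ^ 2 = tr t k * ∏ ..`.  Uniqueness: the exponents at `P` determine `t` (`exists_tr`: those of `x i k` are even), then `e`.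
* `cell_card`: `(e, t) ↦` the class of `tr t k * ∏ i, x i k ^ (e i).val` is a bijection to `SelC` (`cell_sel`), so `card SelC = 2 ^ r * 4`.
-/

namespace Pool.Agent.H74.FS

open Polynomial
open Pool.Agent.H94.PL (LChar lm XX DK AK dl)
open Pool.Agent.H94.PM (LU vl IsVln IsSln)
open Pool.Agent.H94.PC (pf mem_pf Pr js)
open Pool.Agent.H3.FS (CellD)

variable {F : Type} [Field F] [DecidableEq (RatFunc F)] [Finite F] {c : F} {A : Fin 3 → F[X]}
  {D' : F[X]} {m : ℕ} {τ : F[X] → ℝ} {P : F[X]} {r : ℕ}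

/-- the tuple of the polynomials `x k` in `F(t)` -/
noncomputable def up3 (x : Fin 3 → F[X]) : Fin 3 → RatFunc F :=
  fun k => algebraMap F[X] (RatFunc F) (x k)

/-- `x` represents a basis of the `P`-free Selmer classes -/
structure Bss (c : F) (A : Fin 3 → F[X]) (D P : F[X]) (x : Fin r → Fin 3 → F[X]) : Prop where
  fr : ∀ i, Fr c A D P (up3 (x i))
  ex : ∀ δ : Fin 3 → RatFunc F, Fr c A D P δ → ∃! e : Fin r → ZMod 2,
    ∃ γ : Fin 3 → RatFunc F, (∀ k, γ k ≠ 0) ∧ ∀ k, δ k * γ k ^ 2 = ∏ i, up3 (x i) k ^ (e i).val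

omit [DecidableEq (RatFunc F)] [Finite F] in
private theorem clg_dl {A : Fin 3 → F[X]} (hA : ∀ i k, i ≠ k → A i ≠ A k) : dl A ≠ 0 := by
  unfold dl
  rw [Finset.prod_ne_zero_iff]
  intro p hp
  exact sub_ne_zero.2 (hA _ _ (ne_of_lt (H94.PL.mem_prs.1 hp)))

private theorem clg_val (e : ZMod 2) : e.val = 0 ∨ e.val = 1 := by
  have h := ZMod.val_lt e
  omega

omit [DecidableEq (RatFunc F)] [Finite F] in
private theorem clg_cop {T : Finset F[X]} (hT : ∀ Q ∈ T, Q.Monic ∧ Irreducible Q) (e : F[X] → ZMod 2) :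
    Set.Pairwise (T : Set F[X]) (Function.onFun IsCoprime fun Q => Q ^ (e Q).val) := by
  intro Q hQ R hR hne
  have hQ' := hT Q hQ
  have hR' := hT R hR
  show IsCoprime (Q ^ (e Q).val) (R ^ (e R).val)
  refine IsCoprime.pow ?_
  refine hQ'.2.coprime_iff_not_dvd.2 fun hd => hne ?_
  exact eq_of_monic_of_associated hQ'.1 hR'.1 (hQ'.2.associated_of_dvd hR'.2 hd)

omit [DecidableEq (RatFunc F)] [Finite F] in
private theorem clg_sqf {T : Finset F[X]} (hT : ∀ Q ∈ T, Q.Monic ∧ Irreducible Q) (e : F[X] → ZMod 2)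
    {a : F} (ha : a ≠ 0) : Squarefree (C a * ∏ Q ∈ T, Q ^ (e Q).val) := by
  have h1 : Squarefree (∏ Q ∈ T, Q ^ (e Q).val) := by
    refine Finset.squarefree_prod_of_pairwise_isCoprime
      (fun Q hQ R hR hne => (clg_cop hT e hQ hR hne).isRelPrime) fun Q hQ => ?_
    rcases clg_val (e Q) with h | h
    · rw [h, pow_zero]
      exact squarefree_one
    · rw [h, pow_one]
      exact (hT Q hQ).2.squarefree
  have hu : IsUnit (C a) := isUnit_C.2 (isUnit_iff_ne_zero.2 ha)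
  exact (squarefree_mul_iff.2 ⟨hu.isRelPrime_left, hu.squarefree, h1⟩)

omit [DecidableEq (RatFunc F)] in
private theorem clg_deg {E : F[X]} (hE : E ≠ 0) (e : F[X] → ZMod 2)
    {a : F} (ha : a ≠ 0) : (C a * ∏ Q ∈ pf E, Q ^ (e Q).val).natDegree ≤ E.natDegree := by
  rw [natDegree_C_mul ha]
  refine natDegree_le_of_dvd ?_ hE
  refine Finset.prod_dvd_of_coprime (clg_cop (fun Q hQ => ⟨(H94.PC.mem_pf' hQ).1, (H94.PC.mem_pf' hQ).2.1⟩) e) fun Q hQ => ?_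
  rcases clg_val (e Q) with h | h
  · rw [h, pow_zero]
    exact one_dvd _
  · rw [h, pow_one]
    exact (H94.PC.mem_pf' hQ).2.2

private theorem clg_rep (hq : 2 ∣ Nat.card F - 1) (hc : c ≠ 0) (hA : ∀ i k, i ≠ k → A i ≠ A k)
    (hD : D' ≠ 0) (h : P ∈ CellD (dl A) D' m τ) {δ : Fin 3 → RatFunc F}
    (hf : Fr c A (D' * P) P δ) : ∃ x : Fin 3 → F[X],
      (Squarefree (x 0) ∧ Squarefree (x 1) ∧ x 2 = x 0 * x 1) ∧
      (∀ k, (x k).natDegree ≤ 2 * (D' * dl A).natDegree) ∧ (∀ k, up3 x k ≠ 0) ∧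
      ∃ γ : Fin 3 → RatFunc F, (∀ k, γ k ≠ 0) ∧ ∀ k, up3 x k * γ k ^ 2 = δ k := by
  obtain ⟨χ⟩ := H94.PL.exists_LChar F Nat.prime_two hq
  have hE : D' * dl A ≠ 0 := mul_ne_zero hD (clg_dl hA)
  have hT : ∀ Q ∈ pf (D' * dl A), Q.Monic ∧ Irreducible Q :=
    fun Q hQ => ⟨(H94.PC.mem_pf' hQ).1, (H94.PC.mem_pf' hQ).2.1⟩
  have hnf : ∀ k, ∃ (u : F[X]) (y : RatFunc F), Squarefree u ∧ u.natDegree ≤ (D' * dl A).natDegree ∧
      y ≠ 0 ∧ δ k = algebraMap F[X] (RatFunc F) u * y ^ 2 := by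
    intro k
    obtain ⟨a, ha, y, hy, -, hk⟩ := H94.PL.normal_form χ (hf.1.ne k) (pf (D' * dl A)) hT
      fun Q hQ hi hQT => fr_even hq hc hA hD h hf hQ hi
        (fun hd => hQT ((mem_pf hE).2 ⟨hQ, hi, hd⟩)) k
    exact ⟨_, y, clg_sqf hT _ ha, clg_deg hE _ ha, hy, hk⟩
  choose u y hu1 hu2 hy hk using hnf
  obtain ⟨Y, hY⟩ := hf.1.prod
  have hY0 : Y ≠ 0 := by
    rintro rfl
    rw [zero_pow two_ne_zero] at hY
    exact Finset.prod_ne_zero_iff.2 (fun k _ => hf.1.ne k) hY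
  rw [Fin.prod_univ_three] at hY
  have hu0 : ∀ k, algebraMap F[X] (RatFunc F) (u k) ≠ 0 := fun k =>
    RatFunc.algebraMap_ne_zero (hu1 k).ne_zero
  refine ⟨![u 0, u 1, u 0 * u 1], ⟨hu1 0, hu1 1, rfl⟩, fun k => ?_, fun k => ?_,
    ![y 0, y 1, y 0 * y 1 * Y / (δ 0 * δ 1)], fun k => ?_, fun k => ?_⟩
  · match k with
    | 0 => show (u 0).natDegree ≤ _; have := hu2 0; omega
    | 1 => show (u 1).natDegree ≤ _; have := hu2 1; omega
    | 2 =>
      show (u 0 * u 1).natDegree ≤ _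
      have h1 := hu2 0
      have h2 := hu2 1
      have h3 := natDegree_mul_le (p := u 0) (q := u 1)
      omega
  · match k with
    | 0 => exact hu0 0
    | 1 => exact hu0 1
    | 2 =>
      show algebraMap F[X] (RatFunc F) (u 0 * u 1) ≠ 0
      rw [map_mul]
      exact mul_ne_zero (hu0 0) (hu0 1)
  · match k with
    | 0 => exact hy 0
    | 1 => exact hy 1
    | 2 =>
      show y 0 * y 1 * Y / (δ 0 * δ 1) ≠ 0
      exact div_ne_zero (mul_ne_zero (mul_ne_zero (hy 0) (hy 1)) hY0) (mul_ne_zero (hf.1.ne 0) (hf.1.ne 1))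
  · match k with
    | 0 => exact (hk 0).symm
    | 1 => exact (hk 1).symm
    | 2 =>
      show algebraMap F[X] (RatFunc F) (u 0 * u 1) * (y 0 * y 1 * Y / (δ 0 * δ 1)) ^ 2 = δ 2
      have h1 : algebraMap F[X] (RatFunc F) (u 0 * u 1) * (y 0 * y 1 * Y / (δ 0 * δ 1)) ^ 2 =
          (algebraMap F[X] (RatFunc F) (u 0) * y 0 ^ 2) * (algebraMap F[X] (RatFunc F) (u 1) * y 1 ^ 2) *
            Y ^ 2 / (δ 0 * δ 1) ^ 2 := by
        rw [map_mul]
        ring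
      have h2 := hf.1.ne 0
      have h3 := hf.1.ne 1
      rw [h1, ← hk 0, ← hk 1, ← hY]
      field_simp

omit [DecidableEq (RatFunc F)] [Finite F] in
private theorem clg_prod {r : ℕ} (z : Fin r → Fin 3 → RatFunc F) (hz : ∀ i k, z i k ≠ 0)
    (e : Fin r → ℕ) : ∏ i, cl (z i) (hz i) ^ e i =
      cl (fun k => ∏ i, z i k ^ e i) (fun k => Finset.prod_ne_zero_iff.2 fun i _ => pow_ne_zero _ (hz i k)) := by
  funext k
  rw [Finset.prod_apply]
  show ∏ i, (QuotientGroup.mk (Units.mk0 (z i k) (hz i k)) : Qc F) ^ e i =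
    (QuotientGroup.mk (Units.mk0 (∏ i, z i k ^ e i) _) : Qc F)
  have h1 : Units.mk0 (∏ i, z i k ^ e i) (Finset.prod_ne_zero_iff.2 fun i _ => pow_ne_zero _ (hz i k)) =
      ∏ i, Units.mk0 (z i k) (hz i k) ^ e i := by
    apply Units.ext
    rw [Units.val_mk0, Units.coe_prod]
    refine Finset.prod_congr rfl fun i _ => ?_
    rw [Units.val_pow_eq_pow_val, Units.val_mk0]
  rw [h1, QuotientGroup.mk_prod]
  rfl

omit [DecidableEq (RatFunc F)] [Finite F] in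
private theorem clg_b (H : Subgroup (Fin 3 → Qc F)) {r : ℕ} (hH : Nat.card H = 2 ^ r) :
    ∃ b : Fin r → (Fin 3 → Qc F), (∀ i, b i ∈ H) ∧
      ∀ h ∈ H, ∃! e : Fin r → ZMod 2, ∏ i, b i ^ (e i).val = h :=
  exp2_basis (G := Fin 3 → Qc F) cg_sq H hH

omit [DecidableEq (RatFunc F)] [Finite F] in
private theorem clg_pm (H : Subgroup (Fin 3 → Qc F)) {r : ℕ} (b : Fin r → (Fin 3 → Qc F))
    (hb : ∀ i, b i ∈ H) (e : Fin r → ℕ) : ∏ i, b i ^ e i ∈ H := by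
  refine Finset.prod_induction _ (fun g => g ∈ H) (fun _ _ h1 h2 => H.mul_mem h1 h2) H.one_mem
    fun i _ => H.pow_mem (hb i) (e i)

omit [DecidableEq (RatFunc F)] [Finite F] in
private theorem clg_iff {r : ℕ} (z : Fin r → Fin 3 → RatFunc F) (hz : ∀ i k, z i k ≠ 0)
    (e : Fin r → ZMod 2) {δ : Fin 3 → RatFunc F} (hδ : ∀ k, δ k ≠ 0) :
    ∏ i, cl (z i) (hz i) ^ (e i).val = cl δ hδ ↔
      ∃ γ : Fin 3 → RatFunc F, (∀ k, γ k ≠ 0) ∧ ∀ k, δ k * γ k ^ 2 = ∏ i, z i k ^ (e i).val := by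
  rw [clg_prod z hz fun i => (e i).val, eq_comm, cl_eq]

theorem free_basis (hq : 2 ∣ Nat.card F - 1) (hc : c ≠ 0) (hA : ∀ i k, i ≠ k → A i ≠ A k)
    (hD : D' ≠ 0) (hm : ∀ v ∈ pf (D' * dl A), v.natDegree < m) (h : P ∈ CellD (dl A) D' m τ)
    (hR : Nat.card (H94.PN.SelC 2 1 c A (D' * P)) = 2 ^ (2 + r)) :
    ∃ x : Fin r → Fin 3 → F[X],
      (∀ i, Squarefree (x i 0) ∧ Squarefree (x i 1) ∧ x i 2 = x i 0 * x i 1) ∧
      (∀ i k, (x i k).natDegree ≤ 2 * (D' * dl A).natDegree) ∧ Bss c A (D' * P) P x := by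
  classical
  have hP := cell_mem h
  have hcard := frH_card hc hA hD hm h
  rw [hR] at hcard
  have hH : Nat.card (frH c A (D := D' * P) hP.2) = 2 ^ r := by
    have h1 : 2 ^ (2 + r) = 2 ^ r * 4 := by ring
    omega
  obtain ⟨b, hb, hex⟩ := clg_b (frH c A (D := D' * P) hP.2) hH
  have hrep : ∀ i, ∃ x : Fin 3 → F[X], (Squarefree (x 0) ∧ Squarefree (x 1) ∧ x 2 = x 0 * x 1) ∧
      (∀ k, (x k).natDegree ≤ 2 * (D' * dl A).natDegree) ∧ ∃ h0 : ∀ k, up3 x k ≠ 0,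
        cl (up3 x) h0 = b i := by
    intro i
    obtain ⟨δ, hδ, hf, hbi⟩ := (mem_frH hP.2).1 (hb i)
    obtain ⟨x, hx1, hx2, hx3, γ, hγ, hk⟩ := clg_rep hq hc hA hD h hf
    exact ⟨x, hx1, hx2, hx3, ((cl_eq hx3 hδ).2 ⟨γ, hγ, hk⟩).trans hbi.symm⟩
  choose x hx1 hx2 hx3 hx4 using hrep
  refine ⟨x, hx1, hx2, fun i => ?_, fun δ hf => ?_⟩
  · rw [← frH_cl hP.2 (hx3 i), hx4 i]
    exact hb i
  · have h1 : cl δ hf.1.ne ∈ frH c A (D := D' * P) hP.2 := (frH_cl hP.2 hf.1.ne).2 hf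
    have h2 := hex _ h1
    have h3 : ∀ e : Fin r → ZMod 2, ∏ i, b i ^ (e i).val = cl δ hf.1.ne ↔
        ∃ γ : Fin 3 → RatFunc F, (∀ k, γ k ≠ 0) ∧
          ∀ k, δ k * γ k ^ 2 = ∏ i, up3 (x i) k ^ (e i).val := by
      intro e
      have h4 := clg_iff (fun i => up3 (x i)) hx3 e hf.1.ne
      have h5 : ∏ i, cl (up3 (x i)) (hx3 i) ^ (e i).val = ∏ i, b i ^ (e i).val :=
        Finset.prod_congr rfl fun i _ => by rw [hx4 i]
      rw [← h5]
      exact h4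
    exact (existsUnique_congr h3).1 h2

theorem cell_sel (hq : 2 ∣ Nat.card F - 1) (hc : c ≠ 0) (hA : ∀ i k, i ≠ k → A i ≠ A k)
    (hD : D' ≠ 0) (hm : ∀ v ∈ pf (D' * dl A), v.natDegree < m) (h : P ∈ CellD (dl A) D' m τ)
    {x : Fin r → Fin 3 → F[X]} (hx : Bss c A (D' * P) P x) {δ : Fin 3 → RatFunc F}
    (hδ : IsSln 2 1 c A (D' * P) δ) :
    ∃! p : (Fin r → ZMod 2) × Option (Fin 3), ∃ γ : Fin 3 → RatFunc F, (∀ k, γ k ≠ 0) ∧
      ∀ k, δ k * γ k ^ 2 = tr c A (D' * P) p.2 k * ∏ i, up3 (x i) k ^ (p.1 i).val := by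
  have hP := cell_mem h
  have hdl := clg_dl hA
  have hnd := cell_ndvd hm (mul_ne_zero hD hdl) h
  have h1 : P ∣ D' * P := dvd_mul_left _ _
  have h2 : ¬ P ^ 2 ∣ D' * P := by
    intro hd
    rw [pow_two] at hd
    exact hnd ((Dvd.dvd.mul_right ((mul_dvd_mul_iff_right hP.2.ne_zero).1 hd) _))
  have h3 : ¬ P ∣ dl A := fun hd => hnd (hd.mul_left _)
  have hDP : D' * P ≠ 0 := mul_ne_zero hD hP.2.ne_zero
  have hT := tr_ne (c := c) (A := A) (D := D' * P) hc hA hDP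
  obtain ⟨t, ht, htu⟩ := exists_tr (D := D' * P) hc hA hP h1 h2 h3 hδ.ne hδ.prod
  have hex : ∀ k, H94.PL.ex 2 P (δ k) = H94.PL.ex 2 P (tr c A (D' * P) t k) := by
    intro k
    have h4 := ht k
    rwa [ev_some hP.1 hP.2 (hδ.ne k), ev_some hP.1 hP.2 (hT t k)] at h4
  have hfr : Fr c A (D' * P) P (fun k => δ k * tr c A (D' * P) t k) := by
    refine ⟨sln_mul hδ (sln_tr hc hA hDP t), fun k => ?_⟩
    rw [H94.PL.ex_mul hP.2 (hδ.ne k) (hT t k), hex k]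
    exact CharTwo.add_self_eq_zero _
  obtain ⟨e, ⟨γ, hγ, hk⟩, heu⟩ := hx.ex _ hfr
  refine ⟨(e, t), ⟨fun k => tr c A (D' * P) t k * γ k, fun k => mul_ne_zero (hT t k) (hγ k),
    fun k => ?_⟩, ?_⟩
  · show δ k * (tr c A (D' * P) t k * γ k) ^ 2 = tr c A (D' * P) t k * ∏ i, up3 (x i) k ^ (e i).val
    rw [← hk k]
    ring
  · rintro ⟨e', t'⟩ ⟨γ', hγ', hk'⟩
    have hk'' : ∀ k, δ k * γ' k ^ 2 = tr c A (D' * P) t' k * ∏ i, up3 (x i) k ^ (e' i).val := hk'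
    have hx0 : ∀ i k, up3 (x i) k ≠ 0 := fun i k => (hx.fr i).1.ne k
    have htt : t' = t := by
      refine htu t' fun k => ?_
      rw [ev_some hP.1 hP.2 (hδ.ne k), ev_some hP.1 hP.2 (hT t' k)]
      have h7 := congrArg (H94.PL.ex 2 P) (hk'' k)
      rw [H94.PL.ex_mul hP.2 (hδ.ne k) (pow_ne_zero 2 (hγ' k)), H94.PL.ex_pow_l hP.2 (hγ' k),
        H94.PL.ex_mul hP.2 (hT t' k) (Finset.prod_ne_zero_iff.2 fun i _ => pow_ne_zero _ (hx0 i k)),
        H94.PL.ex_prod hP.2 _ _ (fun i _ => pow_ne_zero _ (hx0 i k)), Finset.sum_eq_zero, add_zero,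
        add_zero] at h7
      · exact h7
      · intro i _
        rw [H94.PL.ex_pow hP.2 (hx0 i k), (hx.fr i).2 k, mul_zero]
    subst htt
    have hee : e' = e := by
      refine heu e' ⟨fun k => γ' k / tr c A (D' * P) t' k, fun k => div_ne_zero (hγ' k) (hT t' k),
        fun k => ?_⟩
      show δ k * tr c A (D' * P) t' k * (γ' k / tr c A (D' * P) t' k) ^ 2 = _
      have h8 := hT t' k
      rw [div_pow]
      have h9 : δ k * tr c A (D' * P) t' k * (γ' k ^ 2 / tr c A (D' * P) t' k ^ 2) =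
          (δ k * γ' k ^ 2) / tr c A (D' * P) t' k := by
        field_simp
      rw [h9, hk'' k, mul_div_cancel_left₀ _ h8]
    rw [hee]

theorem cell_card (hq : 2 ∣ Nat.card F - 1) (hc : c ≠ 0) (hA : ∀ i k, i ≠ k → A i ≠ A k)
    (hD : D' ≠ 0) (hm : ∀ v ∈ pf (D' * dl A), v.natDegree < m) (h : P ∈ CellD (dl A) D' m τ)
    {x : Fin r → Fin 3 → F[X]} (hx : Bss c A (D' * P) P x) :
    Nat.card (H94.PN.SelC 2 1 c A (D' * P)) = 2 ^ (2 + r) := by
  classical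
  have hP := cell_mem h
  have hx0 : ∀ i k, up3 (x i) k ≠ 0 := fun i k => (hx.fr i).1.ne k
  have hmem : ∀ e : Fin r → ZMod 2, ∏ i, cl (up3 (x i)) (hx0 i) ^ (e i).val ∈
      frH c A (D := D' * P) hP.2 := by
    intro e
    exact clg_pm _ (fun i => cl (up3 (x i)) (hx0 i))
      (fun i => (frH_cl hP.2 (hx0 i)).2 (hx.fr i)) fun i => (e i).val
  let φ : (Fin r → ZMod 2) → frH c A (D := D' * P) hP.2 := fun e => ⟨_, hmem e⟩
  have hφ : Function.Bijective φ := by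
    rw [Function.bijective_iff_existsUnique]
    rintro ⟨g, hg⟩
    obtain ⟨δ, hδ, hf, rfl⟩ := (mem_frH hP.2).1 hg
    have h1 : ∀ e : Fin r → ZMod 2, φ e = ⟨cl δ hδ, hg⟩ ↔
        ∃ γ : Fin 3 → RatFunc F, (∀ k, γ k ≠ 0) ∧
          ∀ k, δ k * γ k ^ 2 = ∏ i, up3 (x i) k ^ (e i).val := by
      intro e
      have h4 := clg_iff (fun i => up3 (x i)) hx0 e hδ
      rw [← h4]
      exact Subtype.ext_iff
    exact (existsUnique_congr h1).2 (hx.ex δ hf)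
  rw [frH_card hc hA hD hm h, ← Nat.card_congr (Equiv.ofBijective φ hφ), Nat.card_pi]
  simp only [Nat.card_zmod, Finset.prod_const, Finset.card_univ, Fintype.card_fin]
  ring

end Pool.Agent.H74.FS
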