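import Pool.Agent.H40.FS.FRK
import Pool.Agent.H74.FS.CLG

set_option autoImplicit false

/-!
# [H74 FS ASA] The form on the Selmer tuples is symmetric; the classes of the points of order two lift

`ExA`: lifts exist and the form is alternating (chapter H40/FS).  `S4C`: the set of the lifting classes.
* `lifts_tr`: `tr none = 1`: `lifts_pt` with `kum_sq` (`1 = 1 ^ 2`); `tr (some j)`: `kt (eD c A D) j k` is `tr c A D (some j) k` for `k ≠ j`, and `DK c D ^ 2 * tr ..` for `k = j`: `kum_tor`, `lifts_pt`, `lifts_sq`.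
* `fr_sym`: `fr_add`, `fr_mul`, `ExA` for `x y`.  `fr_tr`: `fr_sym` and `fr_lift`.
-/

namespace Pool.Agent.H74.FS

open Polynomial WithZero
open Pool.Agent.H94.PL (LChar lm XX DK AK dl)
open Pool.Agent.H94.PM (LU vl IsVln IsSln)
open Pool.Agent.H40.FS (Oc Ow GF eD GLf Lifts LC fr Pt fr_add fr_mul fr_sqr fr_lift lifts_mul
  lifts_sq lifts_pt IsKum kum_tor kum_sq kt two_rf eD_inj)

variable {F : Type} [Field F] [DecidableEq (RatFunc F)] [DecidableEq (Oc F)]
  [∀ w : Pl F, DecidableEq (Ow F w)]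

/-- the classes of the Selmer tuples which lift -/
def S4C (c : F) (A : Fin 3 → F[X]) (D : F[X]) :
    Set (Fin 3 → (RatFunc F)ˣ ⧸ (powMonoidHom 2 : (RatFunc F)ˣ →* (RatFunc F)ˣ).range) :=
  {x | ∃ δ : Fin 3 → (RatFunc F)ˣ, (∀ k, x k = QuotientGroup.mk (δ k)) ∧
    IsSln 2 1 c A D (fun k => (δ k : RatFunc F)) ∧ Lifts c A D fun k => (δ k : RatFunc F)}

variable [Finite F] (χ : LChar F 2) {c : F} {A : Fin 3 → F[X]} {D : F[X]} {S : Finset (Pl F)}
  {x y : Fin 3 → RatFunc F} {a b : GF F → Pt (eD c A D) (Oc F)}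

/-- lifts exist and the form is alternating -/
def ExA (c : F) (A : Fin 3 → F[X]) (D : F[X]) : Prop :=
  ∀ S : Finset (Pl F), Bad A D S → ∀ x : Fin 3 → RatFunc F, IsSln 2 1 c A D x →
    (∃ a : GF F → Pt (eD c A D) (Oc F), GLf S c A D x a) ∧
    ∀ a : GF F → Pt (eD c A D) (Oc F), GLf S c A D x a → fr χ S a x = 0

theorem lifts_tr (hq : 2 ∣ Nat.card F - 1) (hc : c ≠ 0) (hA : ∀ i k, i ≠ k → A i ≠ A k)
    (hD : D ≠ 0) (t : Option (Fin 3)) : Lifts c A D (tr c A D t) := by
  have h2 := two_rf (F := F) hq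
  have he := eD_inj hc hA hD
  have hone : Lifts c A D fun _ => 1 := by
    refine lifts_pt hq hc hA hD (fun _ => one_ne_zero) ⟨1, by simp⟩ ?_
    have h3 := kum_sq (M := RatFunc F) (e := eD c A D) (Ω := Oc F) h2 (fun _ => 1)
    simpa using h3
  rcases t with _ | j
  · exact hone
  · have h4 := kum_tor (M := RatFunc F) (Ω := Oc F) h2 he j
    have hk0 : ∀ k, kt (eD c A D) j k ≠ 0 := by
      intro k
      unfold kt
      split_ifs with hk
      · refine Finset.prod_ne_zero_iff.2 fun i hi => ?_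
        exact sub_ne_zero.2 (he.ne (Finset.ne_of_mem_erase hi).symm)
      · exact sub_ne_zero.2 (he.ne (Ne.symm hk))
    have h5 : Lifts c A D fun k => kt (eD c A D) j k := by
      refine lifts_pt hq hc hA hD hk0 ⟨∏ i ∈ Finset.univ.erase j, (eD c A D j - eD c A D i), ?_⟩ h4
      rw [← Finset.mul_prod_erase Finset.univ _ (Finset.mem_univ j), sq]
      congr 1
      · simp [kt]
      · refine Finset.prod_congr rfl fun k hk => ?_
        simp [kt, Finset.ne_of_mem_erase hk]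
    have h6 := lifts_sq hq hk0 (z := fun k => if k = j then (DK c D)⁻¹ else 1) (fun k => by
      split_ifs
      · exact inv_ne_zero (H94.PL.DK_ne hc hD)
      · exact one_ne_zero) h5
    convert h6 using 1
    have hD' := H94.PL.DK_ne hc hD
    funext k
    by_cases hk : k = j
    · subst hk
      have h7 : ∏ i ∈ Finset.univ.erase k, (eD c A D k - eD c A D i) =
          (eD c A D k - eD c A D (k + 1)) * (eD c A D k - eD c A D (k + 2)) := by
        have h8 : ∀ k : Fin 3, Finset.univ.erase k = {k + 1, k + 2} ∧ k + 1 ≠ k + 2 := by decide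
        rw [(h8 k).1, Finset.prod_pair (h8 k).2]
      simp only [tr, kt, if_true, h7]
      simp only [eD]
      field_simp
    · simp only [tr, kt, if_neg hk]
      simp only [eD]
      ring

include χ in
theorem fr_sym (hq : 2 ∣ Nat.card F - 1) (hc : c ≠ 0) (hA : ∀ i k, i ≠ k → A i ≠ A k)
    (hD : D ≠ 0) (hS : Bad A D S) (hE : ExA χ c A D) (hx : IsSln 2 1 c A D x)
    (hy : IsSln 2 1 c A D y) (ha : GLf S c A D x a) (hb : GLf S c A D y b) :
    fr χ S a y = fr χ S b x := by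
  have hxy := sln_mul hx hy
  obtain ⟨h1, h2⟩ := fr_add χ hq hc hA hD ha hb hx hy hx
  obtain ⟨-, h3⟩ := fr_add χ hq hc hA hD ha hb hx hy hy
  have h4 := (hE S hS _ hxy).2 _ h1
  have hx0 := (sln_iff.1 hx).1
  have hy0 := (sln_iff.1 hy).1
  rw [fr_mul χ hx0 hy0, h2, h3, (hE S hS _ hx).2 _ ha, (hE S hS _ hy).2 _ hb, zero_add,
    add_zero] at h4
  have h5 : ∀ u v : ZMod 2, v + u = 0 → u = v := by decide
  exact h5 _ _ h4

theorem fr_tr (hq : 2 ∣ Nat.card F - 1) (hc : c ≠ 0) (hA : ∀ i k, i ≠ k → A i ≠ A k)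
    (hD : D ≠ 0) (hS : Bad A D S) (hE : ExA χ c A D) (hx : IsSln 2 1 c A D x)
    (ha : GLf S c A D x a) (t : Option (Fin 3)) : fr χ S a (tr c A D t) = 0 := by
  have ht := sln_tr hc hA hD t
  obtain ⟨b, hb⟩ := (hE S hS _ ht).1
  rw [fr_sym χ hq hc hA hD hS hE hx ht ha hb]
  exact (fr_lift χ hq hc hA hD hS hb ht).1 (lifts_tr hq hc hA hD t) x hx

end Pool.Agent.H74.FS
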