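import Pool.Agent.H74.FS.ASA
import Pool.Agent.H3.FS.FRD

set_option autoImplicit false

/-!
# [H74 FS ASB] The number of the lifting classes

`x i` a basis of the Selmer tuples modulo the classes of the points of order two, `B i j` the value of the form at `x i`, `x j`.  A tuple `tr t * ∏ x i ^ f i` lifts iff `∑ i, f i * B i j = 0` for all `j`.  So the number of the lifting classes is `4 kc e`, `e` the values `B i j`, `i < j`.
-/

namespace Pool.Agent.H74.FS

open Polynomial WithZero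
open Pool.Agent.H94.PL (LChar lm XX DK AK dl)
open Pool.Agent.H94.PM (LU vl IsVln IsSln)
open Pool.Agent.H40.FS (Oc Ow GF eD GLf Lifts LC fr Pt fr_add fr_mul fr_sqr fr_lift lifts_mul
  lifts_sq lifts_pt IsKum kum_tor kum_sq kt two_rf eD_inj)
open Pool.Agent.H3.FS (altm kc prs)

variable {F : Type} [Field F] {r : ℕ}

/-- the products of the elements of a basis -/
noncomputable def bpr (x : Fin r → Fin 3 → RatFunc F) (f : Fin r → ZMod 2) (k : Fin 3) : RatFunc F :=
  ∏ i, x i k ^ (f i).val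

theorem z2_cases (u : ZMod 2) : u = 0 ∨ u = 1 := by
  revert u
  decide

variable [DecidableEq (RatFunc F)] {c : F} {A : Fin 3 → F[X]} {D : F[X]}
  {x : Fin r → Fin 3 → RatFunc F}

private theorem val1 : ZMod.val (1 : ZMod 2) = 1 := rfl

private theorem sln_pw {y : Fin 3 → RatFunc F} (hy : IsSln 2 1 c A D y) (u : ZMod 2) :
    IsSln 2 1 c A D fun k => y k ^ u.val := by
  rcases z2_cases u with rfl | rfl
  · simpa using sln_one (c := c) (A := A) (D := D)
  · simpa only [val1, pow_one] using hy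

theorem sln_fp (hx : ∀ i, IsSln 2 1 c A D (x i)) (f : Fin r → ZMod 2) (T : Finset (Fin r)) :
    IsSln 2 1 c A D fun k => ∏ i ∈ T, x i k ^ (f i).val := by
  induction T using Finset.induction_on with
  | empty => simpa using sln_one (c := c) (A := A) (D := D)
  | insert i T hi ih =>
    have h := sln_mul (sln_pw (hx i) (f i)) ih
    simpa [Finset.prod_insert hi] using h

theorem sln_bpr (hx : ∀ i, IsSln 2 1 c A D (x i)) (f : Fin r → ZMod 2) :
    IsSln 2 1 c A D (bpr x f) := sln_fp hx f Finset.univ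

variable [DecidableEq (Oc F)] [∀ w : Pl F, DecidableEq (Ow F w)] [Finite F] (χ : LChar F 2)
  {S : Finset (Pl F)} {a : Fin r → GF F → Pt (eD c A D) (Oc F)}
  {b : GF F → Pt (eD c A D) (Oc F)}

theorem fr_fp (hx : ∀ i k, x i k ≠ 0) (f : Fin r → ZMod 2) (T : Finset (Fin r)) :
    fr χ S b (fun k => ∏ i ∈ T, x i k ^ (f i).val) = ∑ i ∈ T, f i * fr χ S b (x i) := by
  have h1 : fr χ S b (fun _ => 1) = 0 := by
    have h := fr_mul χ (S := S) (a := b) (y := fun _ => 1) (y' := fun _ => 1)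
      (fun _ => one_ne_zero) (fun _ => one_ne_zero)
    simp only [mul_one] at h
    exact left_eq_add.1 h
  induction T using Finset.induction_on with
  | empty => simpa using h1
  | insert i T hi ih =>
    have h0 : ∀ k, ∏ i ∈ T, x i k ^ (f i).val ≠ 0 := fun k =>
      Finset.prod_ne_zero_iff.2 fun i _ => pow_ne_zero _ (hx i k)
    rw [Finset.sum_insert hi, ← ih]
    simp only [Finset.prod_insert hi]
    rw [fr_mul χ (fun k => pow_ne_zero _ (hx i k)) h0]
    congr 1
    rcases z2_cases (f i) with h | h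
    · rw [h, zero_mul]
      simpa using h1
    · rw [h, one_mul]
      simp only [val1, pow_one]

theorem fr_bpr (hx : ∀ i k, x i k ≠ 0) (f : Fin r → ZMod 2) :
    fr χ S b (bpr x f) = ∑ i, f i * fr χ S b (x i) := fr_fp χ hx f Finset.univ

theorem lift_fp (hq : 2 ∣ Nat.card F - 1) (hc : c ≠ 0) (hA : ∀ i k, i ≠ k → A i ≠ A k)
    (hD : D ≠ 0) (hS : Bad A D S) (hE : ExA χ c A D) (hx : ∀ i, IsSln 2 1 c A D (x i))
    (ha : ∀ i, GLf S c A D (x i) (a i)) (f : Fin r → ZMod 2) (T : Finset (Fin r)) :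
    ∃ b : GF F → Pt (eD c A D) (Oc F), GLf S c A D (fun k => ∏ i ∈ T, x i k ^ (f i).val) b ∧
      ∀ y, IsSln 2 1 c A D y → fr χ S b y = ∑ i ∈ T, f i * fr χ S (a i) y := by
  induction T using Finset.induction_on with
  | empty =>
    have h1 := sln_one (c := c) (A := A) (D := D)
    obtain ⟨b, hb⟩ := (hE S hS _ h1).1
    refine ⟨b, by simpa using hb, fun y hy => ?_⟩
    rw [Finset.sum_empty]
    exact (fr_lift χ hq hc hA hD hS hb h1).1 (lifts_tr hq hc hA hD none) y hy
  | insert i T hi ih =>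
    obtain ⟨b, hb, hb2⟩ := ih
    rcases z2_cases (f i) with h | h
    · refine ⟨b, ?_, fun y hy => ?_⟩
      · simpa [Finset.prod_insert hi, h] using hb
      · rw [Finset.sum_insert hi, h, zero_mul, zero_add, hb2 y hy]
    · refine ⟨fun σ => a i σ + b σ, ?_, fun y hy => ?_⟩
      · have h2 := (fr_add χ hq hc hA hD (ha i) hb (hx i) (sln_fp hx f T) (hx i)).1
        simpa only [Finset.prod_insert hi, h, val1, pow_one] using h2
      · rw [Finset.sum_insert hi, h, one_mul, ← hb2 y hy]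
        exact (fr_add χ hq hc hA hD (ha i) hb (hx i) (sln_fp hx f T) hy).2

/-- the basis property -/
def BsP (c : F) (A : Fin 3 → F[X]) (D : F[X]) (x : Fin r → Fin 3 → RatFunc F) : Prop :=
  ∀ δ : Fin 3 → RatFunc F, IsSln 2 1 c A D δ →
    ∃! p : (Fin r → ZMod 2) × Option (Fin 3), ∃ γ : Fin 3 → RatFunc F, (∀ k, γ k ≠ 0) ∧
      ∀ k, δ k * γ k ^ 2 = tr c A D p.2 k * bpr x p.1 k

theorem lifts_bpr (hq : 2 ∣ Nat.card F - 1) (hc : c ≠ 0) (hA : ∀ i k, i ≠ k → A i ≠ A k)
    (hD : D ≠ 0) (hS : Bad A D S) (hE : ExA χ c A D) (hx : ∀ i, IsSln 2 1 c A D (x i))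
    (ha : ∀ i, GLf S c A D (x i) (a i)) (hB : BsP c A D x) (f : Fin r → ZMod 2)
    (t : Option (Fin 3)) : (Lifts c A D fun k => tr c A D t k * bpr x f k) ↔
      ∀ j, ∑ i, f i * fr χ S (a i) (x j) = 0 := by
  have hx0 : ∀ i k, x i k ≠ 0 := fun i => (sln_iff.1 (hx i)).1
  have hs := sln_bpr hx f
  have ht := sln_tr hc hA hD t
  have ht0 := (sln_iff.1 ht).1
  have htp := (sln_iff.1 ht).2.1
  have hs0 := (sln_iff.1 hs).1
  have hsp := (sln_iff.1 hs).2.1
  have hts := sln_mul ht hs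
  have hts0 := (sln_iff.1 hts).1
  have htsp := (sln_iff.1 hts).2.1
  have htl := lifts_tr hq hc hA hD t
  obtain ⟨b, hb, hb2⟩ := lift_fp χ hq hc hA hD hS hE hx ha f Finset.univ
  constructor
  · intro h j
    have h1 := lifts_mul hq hc hA hD ht0 htp hts0 htsp htl h
    have h2 := lifts_sq hq (x := fun k => tr c A D t k * (tr c A D t k * bpr x f k))
      (fun k => mul_ne_zero (ht0 k) (hts0 k)) (z := fun k => (tr c A D t k)⁻¹)
      (fun k => inv_ne_zero (ht0 k)) h1
    have h3 : (fun k => tr c A D t k * (tr c A D t k * bpr x f k) * (tr c A D t k)⁻¹ ^ 2) =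
        bpr x f := by
      funext k
      have := ht0 k
      field_simp
    rw [h3] at h2
    rw [← hb2 _ (hx j)]
    exact (fr_lift χ hq hc hA hD hS hb hs).1 h2 _ (hx j)
  · intro h
    refine lifts_mul hq hc hA hD ht0 htp hs0 hsp htl ?_
    refine (fr_lift χ hq hc hA hD hS hb hs).2 fun y hy => ?_
    obtain ⟨p, ⟨γ, hγ, h1⟩, -⟩ := hB y hy
    have hy0 := (sln_iff.1 hy).1
    have hg := sln_bpr hx p.1
    rw [← fr_sqr χ hy0 hγ, funext h1, fr_mul χ (sln_iff.1 (sln_tr hc hA hD p.2)).1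
      (sln_iff.1 hg).1, fr_tr χ hq hc hA hD hS hE hs hb, zero_add, fr_bpr χ hx0]
    refine Finset.sum_eq_zero fun j _ => ?_
    rw [hb2 _ (hx j), h j, mul_zero]

theorem altm_mul {B : Fin r → Fin r → ZMod 2} (h0 : ∀ i, B i i = 0)
    (hs : ∀ i j, B i j = B j i) {e : Fin r × Fin r → ZMod 2}
    (he : ∀ p ∈ prs r, e p = B p.1 p.2) (f : Fin r → ZMod 2) :
    (altm e).mulVec f = 0 ↔ ∀ j, ∑ i, f i * B i j = 0 := by
  have h1 : ∀ i j, altm e i j = B i j := by
    intro i j
    unfold altm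
    split_ifs with h2 h3
    · exact he (i, j) (by simpa [prs] using h2)
    · rw [he (j, i) (by simpa [prs] using h3)]
      exact hs _ _
    · have h4 : i = j := le_antisymm (not_lt.1 h3) (not_lt.1 h2)
      rw [h4, h0]
  constructor
  · intro h j
    have h2 := congrFun h j
    rw [Matrix.mulVec, dotProduct, Pi.zero_apply] at h2
    rw [← h2]
    refine Finset.sum_congr rfl fun i _ => ?_
    rw [h1, hs, mul_comm]
  · intro h
    funext j
    rw [Matrix.mulVec, dotProduct, Pi.zero_apply, ← h j]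
    refine Finset.sum_congr rfl fun i _ => ?_
    rw [h1, hs, mul_comm]

theorem s4_card (hq : 2 ∣ Nat.card F - 1) (hc : c ≠ 0) (hA : ∀ i k, i ≠ k → A i ≠ A k)
    (hD : D ≠ 0) (hS : Bad A D S) (hE : ExA χ c A D) (hx : ∀ i, IsSln 2 1 c A D (x i))
    (ha : ∀ i, GLf S c A D (x i) (a i)) (hB : BsP c A D x) {e : Fin r × Fin r → ZMod 2}
    (he : ∀ p ∈ prs r, e p = fr χ S (a p.1) (x p.2)) : Nat.card (S4C c A D) = 4 * kc e := by
  have h1 : ∀ f : Fin r → ZMod 2, (altm e).mulVec f = 0 ↔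
      ∀ j, ∑ i, f i * fr χ S (a i) (x j) = 0 := altm_mul (B := fun i j => fr χ S (a i) (x j))
    (fun i => (hE S hS _ (hx i)).2 _ (ha i))
    (fun i j => fr_sym χ hq hc hA hD hS hE (hx i) (hx j) (ha i) (ha j)) he
  have h2 : ∀ p : (Fin r → ZMod 2) × Option (Fin 3),
      IsSln 2 1 c A D fun k => tr c A D p.2 k * bpr x p.1 k := fun p =>
    sln_mul (sln_tr hc hA hD p.2) (sln_bpr hx p.1)
  have h3 : ∀ (p : (Fin r → ZMod 2) × Option (Fin 3)) (k : Fin 3),
      tr c A D p.2 k * bpr x p.1 k ≠ 0 := fun p => (sln_iff.1 (h2 p)).1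
  let Φ : (Fin r → ZMod 2) × Option (Fin 3) → (Fin 3 → Qc F) := fun p =>
    cl (fun k => tr c A D p.2 k * bpr x p.1 k) (h3 p)
  have hinj : Function.Injective Φ := by
    intro p p' h
    obtain ⟨γ, hγ, h4⟩ := (cl_eq (h3 p) (h3 p')).1 h
    obtain ⟨p₀, -, h5⟩ := hB _ (h2 p)
    rw [h5 p ⟨fun _ => 1, fun _ => one_ne_zero, fun k => by ring⟩, h5 p' ⟨γ, hγ, h4⟩]
  have himg : S4C c A D = Φ '' {p | (altm e).mulVec p.1 = 0} := by
    ext g
    constructor
    · rintro ⟨δ, hδ, h4, h5⟩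
      obtain ⟨p, ⟨γ, hγ, h6⟩, -⟩ := hB _ h4
      refine ⟨p, ?_, ?_⟩
      · rw [Set.mem_ofPred_eq, h1, ← lifts_bpr χ hq hc hA hD hS hE hx ha hB p.1 p.2,
          ← funext h6]
        exact lifts_sq hq (fun k => (δ k).ne_zero) hγ h5
      · have h7 := (cl_eq (fun k => (δ k).ne_zero) (h3 p)).2 ⟨γ, hγ, h6⟩
        rw [show Φ p = _ from h7.symm]
        funext k
        rw [hδ k]
        unfold cl
        congr 1
        exact Units.ext rfl
    · rintro ⟨p, hp, rfl⟩
      refine ⟨fun k => Units.mk0 _ (h3 p k), fun k => rfl, h2 p, ?_⟩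
      exact (lifts_bpr χ hq hc hA hD hS hE hx ha hB p.1 p.2).2 ((h1 _).1 hp)
  rw [himg, Nat.card_image_of_injective hinj]
  have h8 : {p : (Fin r → ZMod 2) × Option (Fin 3) | (altm e).mulVec p.1 = 0} =
      {f | (altm e).mulVec f = 0} ×ˢ Set.univ := by
    ext p
    simp
  rw [h8, Nat.card_congr (Equiv.Set.prod _ _), Nat.card_prod]
  rw [Nat.card_univ, Nat.card_eq_fintype_card (α := Option (Fin 3)), mul_comm]
  rfl

end Pool.Agent.H74.FS
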