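import Pool.Agent.H74.FS.ASB
import Pool.Agent.H74.FS.CLH
import Pool.Agent.H74.FS.GDX
import Pool.Agent.H3.FS.FIN

set_option autoImplicit false

/-!
# [H74 FS ASC] The hypothesis on the cells from the comparison

`Cmp`: the comparison of the forms for two primes of a cell (chapter H40/FS).  `hcell`: data of the governing elements from `gdx`, the signs from one prime of the cell, `s4_card`.
-/

namespace Pool.Agent.H74.FS

open Polynomial WithZero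
open Pool.Agent.H94.PL (LChar lm XX DK AK dl)
open Pool.Agent.H94.PM (LU vl IsVln IsSln)
open Pool.Agent.H40.FS (Oc Ow GF eD GLf Lifts LC fr Pt)
open Pool.Agent.H94.PC (pf mem_pf Pr js sg sg_add sg_cases sg_inj mem_Pr js_eq_zero js_cases')
open Pool.Agent.H3.FS (altm kc prs CellD HCell Hyp Gd gel ix Rt Ind)

variable {F : Type} [Field F]

/-- the data of the governing element of `x`, `y` -/
structure GdX (x y : Fin 3 → F[X]) (c₀ : F[X]) (X Z W : Fin 3 → F[X]) : Prop where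
  c0 : c₀ ≠ 0
  sqf : Squarefree c₀
  X0 : ∀ l, X l ≠ 0
  W0 : ∀ l, W l ≠ 0
  prm : ∀ l, ∀ π : F[X], Irreducible π → ¬ (π ∣ X l ∧ π ∣ Z l ∧ π ∣ W l)
  e0 : Z 0 ^ 2 - x 0 * X 0 ^ 2 = c₀ * y 1 * W 0 ^ 2
  e1 : Z 1 ^ 2 - x 1 * X 1 ^ 2 = c₀ * y 0 * W 1 ^ 2
  e2 : Z 2 ^ 2 - x 0 * x 1 * X 2 ^ 2 = c₀ * W 2 ^ 2

/-- normalized tuples of polynomials -/
def Nrm (x : Fin 3 → F[X]) : Prop := Squarefree (x 0) ∧ Squarefree (x 1) ∧ x 2 = x 0 * x 1

variable [DecidableEq (RatFunc F)] [DecidableEq (Oc F)] [∀ w : Pl F, DecidableEq (Ow F w)]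

/-- `x` is a Selmer tuple for `D` and its components are squares at `P` -/
structure Fre (c : F) (A : Fin 3 → F[X]) (D : F[X]) {P : F[X]} (hP : P.Monic ∧ Irreducible P)
    (x : Fin 3 → F[X]) : Prop where
  sel : IsSln 2 1 c A D (up3 x)
  sq : ∀ k, IsSquare (iw (some ⟨P, hP⟩ : Pl F) (up3 x k))

/-- `S` is the set of the bad places -/
structure Exb (A : Fin 3 → F[X]) (D : F[X]) (S : Finset (Pl F)) : Prop where
  bad : Bad A D S
  dvd : ∀ (P : F[X]) (hP : P.Monic ∧ Irreducible P), some ⟨P, hP⟩ ∈ S → P ∣ D * dl A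

/-- a set of bad places, a lift of `x`, the value of the form at `y` -/
def Frv [Finite F] (χ : LChar F 2) (c : F) (A : Fin 3 → F[X]) (D : F[X]) (x y : Fin 3 → F[X])
    (u : ZMod 2) : Prop :=
  ∃ (S : Finset (Pl F)) (a : GF F → Pt (eD c A D) (Oc F)), Exb A D S ∧ GLf S c A D (up3 x) a ∧
    fr χ S a (up3 y) = u

/-- the comparison -/
def Cmp [Finite F] (χ : LChar F 2) (c : F) (A : Fin 3 → F[X]) : Prop :=
  ∀ (D' : F[X]) (m : ℕ) (τ : F[X] → ℝ), D'.Monic → Squarefree D' →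
    (∀ v ∈ pf (D' * dl A), v.natDegree < m) →
  ∀ (x y : Fin 3 → F[X]) (c₀ : F[X]) (X Z W : Fin 3 → F[X]), Nrm x → Nrm y → GdX x y c₀ X Z W →
  ∃ g : F[X], g ≠ 0 ∧ g.natDegree ≤ c₀.natDegree + ∑ l, (X l).natDegree ∧
    ∀ (P P₁ : F[X]) (h : P ∈ CellD (dl A) D' m τ) (h₁ : P₁ ∈ CellD (dl A) D' m τ),
      Fre c A (D' * P) (cell_mem h) x → Fre c A (D' * P) (cell_mem h) y →
      Fre c A (D' * P₁) (cell_mem h₁) x → Fre c A (D' * P₁) (cell_mem h₁) y →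
      ∀ ρ ρ₁ : Fin 2 → F[X], (∀ i, P ∣ ρ i ^ 2 - x i.castSucc) →
        (∀ i, P₁ ∣ ρ₁ i ^ 2 - x i.castSucc) → ¬ P ∣ gel g X Z (ρ 0) (ρ 1) →
        ¬ P₁ ∣ gel g X Z (ρ₁ 0) (ρ₁ 1) → ∀ u u₁ : ZMod 2, Frv χ c A (D' * P) x y u →
        Frv χ c A (D' * P₁) x y u₁ →
        sg (u + u₁) = js (gel g X Z (ρ 0) (ρ 1)) P * js (gel g X Z (ρ₁ 0) (ρ₁ 1)) P₁

omit [DecidableEq (RatFunc F)] [DecidableEq (Oc F)] [∀ w : Pl F, DecidableEq (Ow F w)] in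
theorem rt_ex [Finite F] {m n : ℕ} {P : F[X]} (hP : P ∈ Pr F m) {a : Fin n → F[X]}
    (h : ∀ i, ∃ ρ, P ∣ ρ ^ 2 - a i) : ∃ ρ, ρ ∈ Rt m P a := by
  choose ρ hρ using h
  obtain ⟨h1, h2, h3⟩ := mem_Pr.1 hP
  refine ⟨fun i => ρ i %ₘ P, fun i => ?_, fun i => ?_⟩
  · rw [← h2]
    exact natDegree_modByMonic_lt _ h1 (fun h => h3.not_isUnit (by rw [h]; exact isUnit_one))
  · have h4 : P ∣ ρ i - ρ i %ₘ P := by
      rw [sub_eq_of_eq_add' (modByMonic_add_div (ρ i) P).symm]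
      exact dvd_mul_right _ _
    have h5 : (ρ i %ₘ P) ^ 2 - a i = (ρ i ^ 2 - a i) - (ρ i - ρ i %ₘ P) * (ρ i + ρ i %ₘ P) := by
      ring
    rw [h5]
    exact dvd_sub (hρ i) (h4.mul_right _)

omit [DecidableEq (RatFunc F)] [DecidableEq (Oc F)] [∀ w : Pl F, DecidableEq (Ow F w)] in
theorem el_eval {r : ℕ} {a : Fin (r * 2) → F[X]} {i j : Fin r} (G : Gd a i j)
    (ρ : Fin (r * 2) → F[X]) :
    MvPolynomial.eval ρ G.el = gel G.g G.X G.Z (ρ (ix i 0)) (ρ (ix i 1)) := by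
  simp [Gd.el, gel]

omit [DecidableEq (RatFunc F)] [DecidableEq (Oc F)] [∀ w : Pl F, DecidableEq (Ow F w)] in
theorem js_ndvd [Finite F] {P u : F[X]} (hP : P.Monic) (hi : Irreducible P) : js u P ≠ 0 ↔ ¬ P ∣ u := by
  rw [ne_eq, js_eq_zero hP, not_not, isCoprime_comm, hi.coprime_iff_not_dvd]

omit [DecidableEq (RatFunc F)] [DecidableEq (Oc F)] [∀ w : Pl F, DecidableEq (Ow F w)] in
theorem cell_sqf [Finite F] {A : Fin 3 → F[X]} (hA : ∀ i k, i ≠ k → A i ≠ A k) {D' : F[X]}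
    {m : ℕ} {τ : F[X] → ℝ} (hs : Squarefree D') (hm : ∀ v ∈ pf (D' * dl A), v.natDegree < m)
    {P : F[X]} (hP : P ∈ CellD (dl A) D' m τ) : Squarefree (D' * P) := by
  classical
  have h1 : ¬ P ∣ D' * dl A := cell_ndvd hm (mul_ne_zero hs.ne_zero (H94.PM.wl2_dl0 hA)) hP
  have hi := (cell_mem hP).2
  rw [squarefree_mul_iff]
  refine ⟨?_, hs, hi.squarefree⟩
  exact (hi.coprime_iff_not_dvd.2 fun h => h1 (h.mul_right _)).isRelPrime.symm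

variable [Finite F] (χ : LChar F 2) {c : F} {A : Fin 3 → F[X]}

theorem frv_ex (hA : ∀ i k, i ≠ k → A i ≠ A k) {D : F[X]} (hD : D ≠ 0) (hE : ExA χ c A D)
    {x y : Fin 3 → F[X]} (hx : IsSln 2 1 c A D (up3 x)) : ∃ u, Frv χ c A D x y u := by
  obtain ⟨S, hS, hS'⟩ := exists_bad hA hD
  obtain ⟨a, ha⟩ := (hE S hS _ hx).1
  exact ⟨_, S, a, ⟨hS, hS'⟩, ha, rfl⟩

/-- the signs -/
theorem cmp_sign (hA : ∀ i k, i ≠ k → A i ≠ A k)
    (hE : ∀ D : F[X], D.Monic → Squarefree D → ExA χ c A D) (hC : Cmp χ c A) {D' : F[X]} {m : ℕ}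
    {τ : F[X] → ℝ} (hD : D'.Monic) (hs : Squarefree D')
    (hm : ∀ v ∈ pf (D' * dl A), v.natDegree < m) {x y : Fin 3 → F[X]} {c₀ : F[X]}
    {X Z W : Fin 3 → F[X]} (hx : Nrm x) (hy : Nrm y) (hG : GdX x y c₀ X Z W)
    (hF : ∀ (P : F[X]) (h : P ∈ CellD (dl A) D' m τ), Fre c A (D' * P) (cell_mem h) x ∧
      Fre c A (D' * P) (cell_mem h) y) :
    ∃ (g : F[X]) (w : ℝ), g ≠ 0 ∧ g.natDegree ≤ c₀.natDegree + ∑ l, (X l).natDegree ∧
      (w = 1 ∨ w = -1) ∧ ∀ (P : F[X]), P ∈ CellD (dl A) D' m τ →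
      ∀ ρ : Fin 2 → F[X], (∀ i, P ∣ ρ i ^ 2 - x i.castSucc) →
        js (gel g X Z (ρ 0) (ρ 1)) P ≠ 0 → ∀ u : ZMod 2, Frv χ c A (D' * P) x y u →
        sg u = w * js (gel g X Z (ρ 0) (ρ 1)) P := by
  obtain ⟨g, hg, hgd, h1⟩ := hC D' m τ hD hs hm x y c₀ X Z W hx hy hG
  by_cases h2 : ∃ (P₁ : F[X]) (_ : P₁ ∈ CellD (dl A) D' m τ) (ρ₁ : Fin 2 → F[X]),
      (∀ i, P₁ ∣ ρ₁ i ^ 2 - x i.castSucc) ∧ js (gel g X Z (ρ₁ 0) (ρ₁ 1)) P₁ ≠ 0
  · obtain ⟨P₁, hP₁, ρ₁, h3, h4⟩ := h2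
    have hm₁ := cell_mem hP₁
    have hsq := cell_sqf hA hs hm hP₁
    obtain ⟨u₁, hu₁⟩ := frv_ex χ hA (hD.mul hm₁.1).ne_zero (hE _ (hD.mul hm₁.1) hsq) (y := y)
      (hF P₁ hP₁).1.sel
    have h5 := js_cases' hm₁.1 ((hm₁.2.coprime_iff_not_dvd.2
      ((js_ndvd hm₁.1 hm₁.2).1 h4)).symm : IsCoprime (gel g X Z (ρ₁ 0) (ρ₁ 1)) P₁)
    refine ⟨g, sg u₁ * js (gel g X Z (ρ₁ 0) (ρ₁ 1)) P₁, hg, hgd, ?_, fun P hP ρ h6 h7 u hu => ?_⟩
    · rcases sg_cases u₁ with h | h <;> rcases h5 with h' | h' <;> rw [h, h'] <;> norm_num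
    · have hmP := cell_mem hP
      have h8 := h1 P P₁ hP hP₁ (hF P hP).1 (hF P hP).2 (hF P₁ hP₁).1 (hF P₁ hP₁).2 ρ ρ₁ h6 h3
        ((js_ndvd hmP.1 hmP.2).1 h7) ((js_ndvd hm₁.1 hm₁.2).1 h4) u u₁ hu hu₁
      rw [sg_add] at h8
      have h9 : sg u₁ * sg u₁ = 1 := by
        rcases sg_cases u₁ with h | h <;> rw [h] <;> norm_num
      calc sg u = sg u * sg u₁ * sg u₁ := by rw [mul_assoc, h9, mul_one]
        _ = _ := by rw [h8]; ring
  · exact ⟨g, 1, hg, hgd, Or.inl rfl, fun P hP ρ h6 h7 => absurd ⟨P, hP, ρ, h6, h7⟩ h2⟩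

private theorem bnd {n d m C₁ C B : ℕ} (hC : C = 4 * C₁ * (8 * d + 9) + 2 * d + 2)
    (hB : B ≤ 4 * (C₁ * (8 * (n + d) + 1)) ∨ B ≤ 2 * (n + d)) : B ≤ C * (n + m + 1) ^ C := by
  have h1 : n + 1 ≤ (n + m + 1) ^ C := by
    calc n + 1 ≤ n + m + 1 := by omega
      _ = (n + m + 1) ^ 1 := (pow_one _).symm
      _ ≤ _ := Nat.pow_le_pow_right (by omega) (by omega)
  refine le_trans ?_ (Nat.mul_le_mul_left C h1)
  have h2 : 8 * (n + d) + 1 ≤ (8 * d + 9) * (n + 1) := by nlinarith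
  have h3 : 4 * (C₁ * (8 * (n + d) + 1)) ≤ 4 * C₁ * (8 * d + 9) * (n + 1) := by
    calc 4 * (C₁ * (8 * (n + d) + 1)) ≤ 4 * (C₁ * ((8 * d + 9) * (n + 1))) := by gcongr
      _ = _ := by ring
  have h4 : 2 * (n + d) ≤ (2 * d + 2) * (n + 1) := by nlinarith
  have h5 : C * (n + 1) = 4 * C₁ * (8 * d + 9) * (n + 1) + (2 * d + 2) * (n + 1) := by
    rw [hC]
    ring
  rw [h5]
  rcases hB with h | h
  · exact h.trans (h3.trans (Nat.le_add_right _ _))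
  · exact h.trans (h4.trans (Nat.le_add_left _ _))

theorem hcell (hq : 2 ∣ Nat.card F - 1) (hc : c ≠ 0) (hA : ∀ i k, i ≠ k → A i ≠ A k)
    (hE : ∀ D : F[X], D.Monic → Squarefree D → ExA χ c A D) (hC : Cmp χ c A) (r : ℕ) :
    ∃ C : ℕ, ∀ (D' : F[X]) (m : ℕ) (τ : F[X] → ℝ), D'.Monic → Squarefree D' →
      (∀ v ∈ pf (D' * dl A), v.natDegree < m) → ∀ P₀ ∈ CellD (dl A) D' m τ,
      Nat.card (H94.PN.SelC 2 1 c A (D' * P₀)) = 2 ^ (2 + r) →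
      H94.FS.Idp 1 c A (D' * P₀) P₀ →
      HCell (dl A) (fun D => Nat.card (H94.PN.SelC 2 1 c A D)) (fun D => Nat.card (S4C c A D))
        (fun D P => H94.FS.Idp 1 c A D P) r (C * (D'.natDegree + m + 1) ^ C) D' m τ := by
  obtain ⟨C₁, hC₁⟩ := gdx χ hq
  have hdl : dl A ≠ 0 := H94.PM.wl2_dl0 hA
  refine ⟨4 * C₁ * (8 * (dl A).natDegree + 9) + 2 * (dl A).natDegree + 2,
    fun D' m τ hD hs hm P₀ hP₀ hR hI => ?_⟩
  obtain ⟨x, hx, hxd, hind, hhp, hcell⟩ := cell χ hq hc hA hD.ne_zero hm hP₀ hR hI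
  have hdeg : (D' * dl A).natDegree = D'.natDegree + (dl A).natDegree :=
    natDegree_mul hD.ne_zero hdl
  have hF : ∀ i (P : F[X]) (h : P ∈ CellD (dl A) D' m τ), Fre c A (D' * P) (cell_mem h) (x i) :=
    fun i P h => ⟨(hcell P h).2.2.1 i, (hcell P h).2.2.2.1 i⟩
  have hns : ∀ i, ¬ IsSquare (x i 0) ∧ ¬ IsSquare (x i 1) ∧ ¬ IsSquare (x i 0 * x i 1) := by
    intro i
    refine ⟨?_, ?_, ?_⟩
    · rintro ⟨g, hg⟩
      refine hind {ix i 0} (Finset.singleton_nonempty _) 1 g ?_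
      rw [Finset.prod_singleton, bas_0, hg, map_one, one_mul, sq]
    · rintro ⟨g, hg⟩
      refine hind {ix i 1} (Finset.singleton_nonempty _) 1 g ?_
      rw [Finset.prod_singleton, bas_1, hg, map_one, one_mul, sq]
    · rintro ⟨g, hg⟩
      have hne : ix i 0 ≠ ix i 1 := by
        intro h
        have := finProdFinEquiv.injective h
        simp at this
      refine hind {ix i 0, ix i 1} (Finset.insert_nonempty _ _) 1 g ?_
      rw [Finset.prod_pair hne, bas_0, bas_1, hg, map_one, one_mul, sq]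
  have hx0 : ∀ i, x i 0 ≠ 0 ∧ x i 1 ≠ 0 := fun i => ⟨(hx i).1.ne_zero, (hx i).2.1.ne_zero⟩
  have key : ∀ i j : Fin r, ∃ (G : Gd (bas x) i j) (w : ℝ),
      G.Dg ((4 * C₁ * (8 * (dl A).natDegree + 9) + 2 * (dl A).natDegree + 2) *
        (D'.natDegree + m + 1) ^ (4 * C₁ * (8 * (dl A).natDegree + 9) +
          2 * (dl A).natDegree + 2)) ∧ (w = 1 ∨ w = -1) ∧
      ∀ (P : F[X]), P ∈ CellD (dl A) D' m τ → ∀ ρ ∈ Rt m P (bas x),
        js (MvPolynomial.eval ρ G.el) P ≠ 0 → ∀ u : ZMod 2, Frv χ c A (D' * P) (x i) (x j) u →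
        sg u = w * js (MvPolynomial.eval ρ G.el) P := by
    intro i j
    obtain ⟨c₀, X, Z, W, g1, g2, g3, g4, g5, g6, g7, g8, g9, g10⟩ := hC₁ (x i 0) (x i 1) (x j 0)
      (x j 1) (hx0 i).1 (hx0 i).2 (hx0 j).1 (hx0 j).2 (hns i).1 (hns i).2.1 (hns i).2.2
      (hhp i j)
    obtain ⟨g, w, k1, k2, k3, k4⟩ := cmp_sign χ hA hE hC hD hs hm (hx i) (hx j)
      (⟨g1, g2, g3, g4, g5, g6, g7, g8⟩ : GdX (x i) (x j) c₀ X Z W)
      (fun P h => ⟨hF i P h, hF j P h⟩)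
    have hB : (x i 0).natDegree + (x i 1).natDegree + (x j 0).natDegree + (x j 1).natDegree ≤
        8 * (D'.natDegree + (dl A).natDegree) := by
      have b1 := hxd i 0
      have b2 := hxd i 1
      have b3 := hxd j 0
      have b4 := hxd j 1
      rw [hdeg] at b1 b2 b3 b4
      omega
    have hB' : C₁ * ((x i 0).natDegree + (x i 1).natDegree + (x j 0).natDegree +
        (x j 1).natDegree + 1) ≤ C₁ * (8 * (D'.natDegree + (dl A).natDegree) + 1) :=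
      Nat.mul_le_mul_left _ (by omega)
    have q1 := g9.trans hB'
    have q2 := fun l => (g10 l).1.trans hB'
    have q3 := fun l => (g10 l).2.1.trans hB'
    refine ⟨⟨g, c₀, X, Z, W, k1, g1, g3, g4, ?_, ?_, ?_⟩, w, ⟨?_, fun l => ⟨?_, ?_⟩⟩, k3,
      fun P hP ρ hρ hj u hu => ?_⟩
    · rw [bas_0, bas_1]
      exact g6
    · rw [bas_0, bas_1]
      exact g7
    · rw [bas_0, bas_1]
      exact g8
    · refine bnd rfl (Or.inl (k2.trans ?_))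
      rw [Fin.sum_univ_three]
      have := q2 0
      have := q2 1
      have := q2 2
      omega
    · exact bnd rfl (Or.inl ((q2 l).trans (by omega)))
    · exact bnd rfl (Or.inl ((q3 l).trans (by omega)))
    · rw [el_eval] at hj ⊢
      refine k4 P hP ![ρ (ix i 0), ρ (ix i 1)] (fun e => ?_) hj u hu
      fin_cases e
      · have := hρ.2 (ix i 0)
        rwa [bas_0] at this
      · have := hρ.2 (ix i 1)
        rwa [bas_1] at this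
  choose G w h1 h2 h3 using key
  refine ⟨fun P hP => ⟨(hcell P hP).1, (hcell P hP).2.1⟩, bas x, fun p _ => G p.1 p.2,
    fun p => w p.1 p.2, hind, fun i => ?_, fun p _ => h1 p.1 p.2, fun p => h2 p.1 p.2,
    fun P hP i => ?_, fun P hP hne e he => ?_⟩
  · refine bnd rfl (Or.inr ?_)
    have := hxd (finProdFinEquiv.symm i).1 (finProdFinEquiv.symm i).2.castSucc
    rwa [hdeg] at this
  · exact (hcell P hP).2.2.2.2.1 (finProdFinEquiv.symm i).1 (finProdFinEquiv.symm i).2.castSucc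
  · have hmP := cell_mem hP
    have hDP : D' * P ≠ 0 := (hD.mul hmP.1).ne_zero
    have hEP := hE _ (hD.mul hmP.1) (cell_sqf hA hs hm hP)
    obtain ⟨S, hS, hS'⟩ := exists_bad hA hDP
    have hsl : ∀ i, IsSln 2 1 c A (D' * P) (up3 (x i)) := fun i => (hF i P hP).sel
    choose a ha using fun i => (hEP S hS _ (hsl i)).1
    obtain ⟨ρ, hρ⟩ := rt_ex (m := m) (P := P) hP.1 (a := bas x) fun i =>
      (hcell P hP).2.2.2.2.1 (finProdFinEquiv.symm i).1 (finProdFinEquiv.symm i).2.castSucc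
    refine s4_card χ hq hc hA hDP hS hEP hsl ha ?_ fun p hp => ?_
    · exact (hcell P hP).2.2.2.2.2
    · refine sg_inj ?_
      rw [he p hp ρ hρ]
      exact (h3 p.1 p.2 P hP ρ hρ (hne p hp ρ hρ) _ ⟨S, a p.1, ⟨hS, hS'⟩, ha p.1, rfl⟩).symm

end Pool.Agent.H74.FS
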