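import Pool.Agent.H74.FS.ASC

set_option autoImplicit false

/-!
# [H74 FS ASD] The four-Selmer law from lifts, alternation and comparison

`hyp`: the hypothesis `Hyp` of the frame `H3/FS`; `law4`: the law, by `H3.FS.fin`.
-/

namespace Pool.Agent.H74.FS

open Polynomial WithZero Filter
open Pool.Agent.H94.PL (LChar lm XX DK AK dl)
open Pool.Agent.H94.PM (LU vl IsVln IsSln)
open Pool.Agent.H40.FS (Oc Ow GF eD GLf Lifts LC fr Pt)
open Pool.Agent.H94.PC (pf mem_pf Pr js sg Sq)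
open Pool.Agent.H94.PN (SomeDtv Dtv SelC GenA)
open Pool.Agent.H3.FS (alt CellD HCell Hyp)

variable {F : Type} [Field F] [DecidableEq (RatFunc F)] [DecidableEq (Oc F)]
  [∀ w : Pl F, DecidableEq (Ow F w)] [Finite F] (χ : LChar F 2) {c : F} {A : Fin 3 → F[X]}

theorem hyp (hq : 2 ∣ Nat.card F - 1) (hc : c ≠ 0) (hA : ∀ i k, i ≠ k → A i ≠ A k)
    (hE : ∀ D : F[X], D.Monic → Squarefree D → ExA χ c A D) (hC : Cmp χ c A)
    (T : F[X] → Prop) :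
    Hyp (dl A) T (fun D => Nat.card (SelC 2 1 c A D)) (fun D => Nat.card (S4C c A D))
      (fun D P => H94.FS.Idp 1 c A D P) := by
  intro r
  obtain ⟨C, h⟩ := hcell χ hq hc hA hE hC r
  exact ⟨C, fun D' m τ hD hs _ hm P₀ hP₀ _ hR hI => h D' m τ hD hs hm P₀ hP₀ hR hI⟩

theorem law4 (h2 : (2 : F) ≠ 0) (hA : ∀ i k, i ≠ k → A i ≠ A k) (hG : GenA 2 A)
    (hd : ∃ v, Dtv A v) (hc : c ≠ 0)
    (hE : ∀ D : F[X], D.Monic → Squarefree D → ExA χ c A D) (hC : Cmp χ c A) (r s : ℕ) :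
    Tendsto (fun n : ℕ => ({D | D ∈ Sq F n ∧ SomeDtv A D ∧
      Nat.card (SelC 2 1 c A D) = 2 ^ (2 + r) ∧ Nat.card (S4C c A D) = 2 ^ (2 + s)}.ncard : ℝ) /
      {D | D ∈ Sq F n ∧ SomeDtv A D}.ncard) atTop
      (nhds ((∏' i : ℕ, (1 + 1 / (2 : ℝ) ^ i))⁻¹ *
        (∏ i ∈ Finset.range r, (2 / ((2 : ℝ) ^ (i + 1) - 1))) * alt r s)) :=
  H3.FS.fin F h2 A hA hG hd c hc (fun D => Nat.card (S4C c A D))
    (hyp χ (H3.FS.fin_q h2) hc hA hE hC _) r s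

end Pool.Agent.H74.FS
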