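import Pool.Agent.H74.FS.KER

set_option autoImplicit false

/-!
# [H74 FS CLA] The classes of the points of order two; Selmer tuples form a group

`tr c A D none = 1`, `tr c A D (some j)` = the class of the point `(A_j, 0)`: component `k ≠ j`: `c D (A_j - A_k)`, component `j`: `(A_j - A_(j+1)) (A_j - A_(j+2))` (indices in `Fin 3`).
* `tr_ne`: `DK_ne`, `AK` injective.  `tr_prod`: the product is `(c D)² (A_j - A_(j+1))² (A_j - A_(j+2))²` (cases of `j`; `Fin.prod_univ_three` and `fin_cases j`).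
* `sln_one`, `sln_mul`, `sln_sq`: `sln_iff`, `Vw_mul`, `Vw_sq`, `H94.PM.isVln_one`.
* `sln_tr`: by `sln_iff` it is enough that `Vw` holds over every completion `M`: `tr none`: `isVln_one`.  `some j`: `H94.PM.isVln_tv` with `s i = if i = j then 0 else 1` (`∑ s = 2`), `ℓ = 2`, `α = 1`, `m = 3`: the tuple `tv (-D) A s k`:
  `k = j`: `∏ i ≠ j, (A_j - A_i)`, the component of `tr`; `k ≠ j`: `(-D) * (A_k - A_j)⁻¹` (`i = j`: exponent `s j - s k = -1`; the third index: exponent `0`), and `(-D) (A_k - A_j)⁻¹ = D (A_j - A_k) * ((A_j - A_k)⁻¹)²`; `Vw_sq` (or `isVln_congr`).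
  Here `D` stands for the image of `DK c D`.
-/

namespace Pool.Agent.H74.FS

open Polynomial
open Pool.Agent.H94.PL (LChar lm XX DK AK dl)
open Pool.Agent.H94.PM (LU vl IsVln IsSln)

variable {F : Type} [Field F]

/-- the classes of the points of order two -/
noncomputable def tr (c : F) (A : Fin 3 → F[X]) (D : F[X]) : Option (Fin 3) → Fin 3 → RatFunc F
  | none, _ => 1
  | some j, k => if k = j then (AK A j - AK A (j + 1)) * (AK A j - AK A (j + 2))
      else DK c D * (AK A j - AK A k)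

variable {c : F} {A : Fin 3 → F[X]} {D : F[X]}

private theorem cla_DK (hc : c ≠ 0) (hD : D ≠ 0) : DK c D ≠ 0 :=
  RatFunc.algebraMap_ne_zero (mul_ne_zero (C_ne_zero.2 hc) hD)

private theorem ak_ne (hA : ∀ i k, i ≠ k → A i ≠ A k) {i k : Fin 3} (h : i ≠ k) :
    AK A i - AK A k ≠ 0 := by
  rw [AK, AK, sub_ne_zero]
  intro h1
  exact hA i k h (RatFunc.algebraMap_injective F h1)

private theorem f3 (j : Fin 3) : j ≠ j + 1 ∧ j ≠ j + 2 := by
  revert j
  decide

theorem tr_ne (hc : c ≠ 0) (hA : ∀ i k, i ≠ k → A i ≠ A k) (hD : D ≠ 0) (t : Option (Fin 3))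
    (k : Fin 3) : tr c A D t k ≠ 0 := by
  cases t with
  | none => exact one_ne_zero
  | some j =>
    show (if k = j then (AK A j - AK A (j + 1)) * (AK A j - AK A (j + 2))
      else DK c D * (AK A j - AK A k)) ≠ 0
    split_ifs with h
    · exact mul_ne_zero (ak_ne hA (f3 j).1) (ak_ne hA (f3 j).2)
    · exact mul_ne_zero (cla_DK hc hD) (ak_ne hA (Ne.symm h))

private theorem prod3 {M : Type} [CommMonoid M] (f : Fin 3 → M) (j : Fin 3) :
    ∏ k, f k = f j * f (j + 1) * f (j + 2) := by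
  rw [Fin.prod_univ_three]
  fin_cases j
  · rfl
  · show f 0 * f 1 * f 2 = f 1 * f 2 * f 0
    rw [mul_comm (f 1 * f 2), mul_assoc]
  · show f 0 * f 1 * f 2 = f 2 * f 0 * f 1
    rw [mul_comm (f 0 * f 1), mul_assoc]

private theorem prod_erase {M : Type} [CommMonoid M] (f : Fin 3 → M) (j : Fin 3) :
    ∏ k ∈ Finset.univ.erase j, f k = f (j + 1) * f (j + 2) := by
  have h : Finset.univ.erase j = {j + 1, j + 2} := by
    revert j
    decide
  have h2 : j + 1 ≠ j + 2 := by
    revert j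
    decide
  rw [h, Finset.prod_pair h2]

private theorem tr_self (j : Fin 3) :
    tr c A D (some j) j = (AK A j - AK A (j + 1)) * (AK A j - AK A (j + 2)) := if_pos rfl

private theorem tr_other {j k : Fin 3} (h : k ≠ j) :
    tr c A D (some j) k = DK c D * (AK A j - AK A k) := if_neg h

theorem tr_prod (t : Option (Fin 3)) : ∃ y : RatFunc F, ∏ k, tr c A D t k = y ^ 2 := by
  cases t with
  | none => exact ⟨1, by simp [tr]⟩
  | some j =>
    refine ⟨DK c D * (AK A j - AK A (j + 1)) * (AK A j - AK A (j + 2)), ?_⟩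
    rw [prod3 _ j, tr_self, tr_other (f3 j).1.symm, tr_other (f3 j).2.symm]
    ring

variable [DecidableEq (RatFunc F)]

theorem sln_one {m : ℕ} {A : Fin m → F[X]} : IsSln 2 1 c A D (fun _ => 1) := by
  refine sln_iff.2 ⟨fun _ => one_ne_zero, ⟨1, by simp⟩, fun w => ?_⟩
  have h := H94.PM.isVln_one (ℓ := 2) (α := 1) (iw w (DK c D)) (fun k => iw w (AK A k))
  unfold Vw
  simp only [map_one]
  exact h

theorem sln_mul {m : ℕ} {A : Fin m → F[X]} {δ δ' : Fin m → RatFunc F} (h : IsSln 2 1 c A D δ)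
    (h' : IsSln 2 1 c A D δ') : IsSln 2 1 c A D (fun k => δ k * δ' k) := by
  obtain ⟨h1, ⟨y, hy⟩, h3⟩ := sln_iff.1 h
  obtain ⟨h1', ⟨y', hy'⟩, h3'⟩ := sln_iff.1 h'
  refine sln_iff.2 ⟨fun k => mul_ne_zero (h1 k) (h1' k),
    ⟨y * y', by rw [Finset.prod_mul_distrib, hy, hy', mul_pow]⟩, fun w => ?_⟩
  simp only [map_mul]
  exact Vw_mul (h3 w) (h3' w)

theorem sln_sq {m : ℕ} {A : Fin m → F[X]} {δ γ : Fin m → RatFunc F} (h : IsSln 2 1 c A D δ)
    (hγ : ∀ k, γ k ≠ 0) : IsSln 2 1 c A D (fun k => δ k * γ k ^ 2) := by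
  obtain ⟨h1, ⟨y, hy⟩, h3⟩ := sln_iff.1 h
  refine sln_iff.2 ⟨fun k => mul_ne_zero (h1 k) (pow_ne_zero 2 (hγ k)),
    ⟨y * ∏ k, γ k, by rw [Finset.prod_mul_distrib, hy, Finset.prod_pow, mul_pow]⟩, fun w => ?_⟩
  simp only [map_mul, map_pow]
  exact Vw_sq (h3 w) fun k => iw_ne (hγ k)

theorem sln_tr (hc : c ≠ 0) (hA : ∀ i k, i ≠ k → A i ≠ A k) (hD : D ≠ 0) (t : Option (Fin 3)) :
    IsSln 2 1 c A D (tr c A D t) := by
  cases t with
  | none => exact sln_one
  | some j =>
    refine sln_iff.2 ⟨tr_ne hc hA hD _, tr_prod _, fun w => ?_⟩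
    have hinj : ∀ i k : Fin 3, i ≠ k → iw w (AK A i) ≠ iw w (AK A k) := by
      intro i k hik h
      rw [← sub_eq_zero, ← map_sub] at h
      exact iw_ne (ak_ne hA hik) h
    have hD' : iw w (DK c D) ≠ 0 := iw_ne (cla_DK hc hD)
    have h := H94.PM.isVln_T (ℓ := 2) (α := 1) (m := 3) Nat.prime_two (by norm_num) (by norm_num)
      hD' hinj j
    have h2 := H94.PM.isVln_congr h (γ := fun k => if k = j then (iw w (DK c D))⁻¹ else
      iw w (DK c D) * (iw w (AK A j) - iw w (AK A k))) (fun k => by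
        show (if k = j then (iw w (DK c D))⁻¹ else
          iw w (DK c D) * (iw w (AK A j) - iw w (AK A k))) ≠ 0
        split_ifs with hk
        · exact inv_ne_zero hD'
        · exact mul_ne_zero hD' (sub_ne_zero.2 (hinj j k (Ne.symm hk))))
    unfold Vw
    refine (congrArg (IsVln 2 1 (iw w (DK c D)) fun k => iw w (AK A k)) (funext fun k => ?_)).mp h2
    by_cases hk : k = j
    · subst hk
      simp only [if_true]
      rw [tr_self, prod_erase, map_mul, map_sub, map_sub]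
      field_simp
      ring
    · simp only [if_neg hk]
      have h3 : iw w (AK A j) - iw w (AK A k) ≠ 0 := sub_ne_zero.2 (hinj j k (Ne.symm hk))
      have h4 : iw w (AK A k) - iw w (AK A j) ≠ 0 := sub_ne_zero.2 (hinj k j hk)
      rw [tr_other hk, map_mul, map_sub]
      field_simp
      ring

end Pool.Agent.H74.FS
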