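import Pool.Agent.H74.FS.CLC
import Pool.Agent.H94.FS.IN2

set_option autoImplicit false

/-!
# [H74 FS CLD] The `P`-free Selmer tuples are the same for all primes of a cell

`Fr c A D P δ`: `δ` is a Selmer tuple with even exponents at `P`.
* `fr_cell`.  `D = D' P`, `D₁ = D' P₁`, `δ` with `Fr c A D P`.  Choose `S` by `exists_bad` for `D` and `S₁` for `D₁`.  By `sln_iff` for `D₁` it is enough to show `Vw c A D₁ w` for all `w`:
  - `none`: `cell_inf`, `Vw_cD`.  `some v`, `v ∣ D' * dl A`: `cell_fin`, `Vw_cD`.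
  - `some P` (if `P ≠ P₁`): `P ∤ D₁ * dl A` (`cell_ndvd`, different primes): `Vw_good`: `ev = ex 2 P = 0` (`ev_some`).
  - `some P₁`: (if `P₁ ≠ P`) `P₁ ∤ D * dl A`, so `ev = 0` at `P₁` by `Vw_good` for `D`.  At `P` the components are squares (`vw_sq_P` for `D`; `P ∣ D`, `P² ∤ D` as `P ∤ D'`), for all `Q ∤ D' dl A` `ex 2 Q (δ k) = 0` (`Q = P` by hypothesis, otherwise `Vw_good` for `D`), so by
    `cell_un` the components are squares at `P₁`, and `vw_sq_P` (←) for `D₁`.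
  - the other `some Q`: `Vw_good` for `D` and for `D₁`.
  The exponents at `P₁`: shown.  (`P = P₁`: nothing to prove.)
* `fr_sq`: `P`-free tuples are squares at `P` (`vw_sq_P`).  `fr_even`: `ex 2 Q = 0` for all primes `Q ∤ D' dl A`.
* `idp_cell`: `Idp` is a statement about the tuples with `Fr c A (D' P) P` (unfold; `ex 2 P (δ k) = 0` for both), and `fr_cell` in the other direction (`P₁` to `P`).
-/

namespace Pool.Agent.H74.FS

open Polynomial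
open Pool.Agent.H94.PL (LChar lm XX DK AK dl)
open Pool.Agent.H94.PM (LU vl IsVln IsSln)
open Pool.Agent.H94.PC (pf mem_pf Pr js)
open Pool.Agent.H3.FS (CellD)

variable {F : Type} [Field F] [DecidableEq (RatFunc F)]

/-- Selmer tuples with even exponents at `P` -/
def Fr (c : F) (A : Fin 3 → F[X]) (D P : F[X]) (δ : Fin 3 → RatFunc F) : Prop :=
  IsSln 2 1 c A D δ ∧ ∀ k, H94.PL.ex 2 P (δ k) = 0

variable [Finite F] (χ : LChar F 2) {c : F} {A : Fin 3 → F[X]} {D' : F[X]} {m : ℕ}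
  {τ : F[X] → ℝ} {P P₁ : F[X]}

omit [DecidableEq (RatFunc F)] in
private theorem cld_nd (hm : ∀ v ∈ pf (D' * dl A), v.natDegree < m) (h0 : D' * dl A ≠ 0)
    (h : P ∈ CellD (dl A) D' m τ) : ¬ P ∣ D' ∧ ¬ P ∣ dl A ∧ P ∣ D' * P ∧ ¬ P ^ 2 ∣ D' * P := by
  have h1 := cell_ndvd hm h0 h
  refine ⟨fun h2 => h1 (h2.mul_right _), fun h2 => h1 (h2.mul_left _), dvd_mul_left _ _, ?_⟩
  intro h2
  rw [pow_two] at h2
  exact h1 (((mul_dvd_mul_iff_right (cell_mem h).2.ne_zero).1 h2).mul_right _)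

omit [DecidableEq (RatFunc F)] [Finite F] in
private theorem cld_dl (hA : ∀ i k, i ≠ k → A i ≠ A k) : dl A ≠ 0 := by
  unfold dl
  refine Finset.prod_ne_zero_iff.2 fun p hp => sub_ne_zero.2 (hA p.1 p.2 ?_)
  exact ((Finset.mem_filter.1 hp).2).ne

omit [Finite F] in
private theorem cld_prod (w : Pl F) {δ : Fin 3 → RatFunc F}
    (h : ∃ y : RatFunc F, ∏ k, δ k = y ^ 2) : ∃ y : Kw F w, ∏ k, iw w (δ k) = y ^ 2 := by
  obtain ⟨y, hy⟩ := h
  exact ⟨iw w y, by rw [← map_prod, hy, map_pow]⟩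

theorem fr_sq (hq : 2 ∣ Nat.card F - 1) (hc : c ≠ 0) (hA : ∀ i k, i ≠ k → A i ≠ A k)
    (hD : D' ≠ 0) (hm : ∀ v ∈ pf (D' * dl A), v.natDegree < m) (h : P ∈ CellD (dl A) D' m τ)
    {δ : Fin 3 → RatFunc F} (hf : Fr c A (D' * P) P δ) (k : Fin 3) :
    IsSquare (iw (some ⟨P, cell_mem h⟩ : Pl F) (δ k)) := by
  obtain ⟨h1, h2, h3, h4⟩ := cld_nd hm (mul_ne_zero hD (cld_dl hA)) h
  obtain ⟨hn, hp, hw⟩ := sln_iff.1 hf.1
  refine (vw_sq_P hq hc hA (cell_mem h) h3 h4 h2 (fun k => iw_ne (hn k)) fun k => ?_).1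
    (hw (some ⟨P, cell_mem h⟩)) k
  exact (ev_some (cell_mem h).1 (cell_mem h).2 (hn k)).trans (hf.2 k)

theorem fr_even (hq : 2 ∣ Nat.card F - 1) (hc : c ≠ 0) (hA : ∀ i k, i ≠ k → A i ≠ A k)
    (hD : D' ≠ 0) (h : P ∈ CellD (dl A) D' m τ)
    {δ : Fin 3 → RatFunc F} (hf : Fr c A (D' * P) P δ) {Q : F[X]} (hQ : Q.Monic)
    (hi : Irreducible Q) (hQD : ¬ Q ∣ D' * dl A) (k : Fin 3) : H94.PL.ex 2 Q (δ k) = 0 := by
  obtain ⟨hn, hp, hw⟩ := sln_iff.1 hf.1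
  by_cases hQP : Q = P
  · rw [hQP]
    exact hf.2 k
  have hP := cell_mem h
  have h1 : ¬ Q ∣ D' * P := by
    intro h2
    rcases hi.prime.dvd_or_dvd h2 with h3 | h3
    · exact hQD (h3.mul_right _)
    · apply hQP
      have h4 := (hi.associated_of_dvd hP.2 h3)
      exact eq_of_monic_of_associated hQ hP.1 h4
  have h2 := (Vw_good hq (by norm_num) hc hA (mul_ne_zero hD hP.2.ne_zero) ⟨hQ, hi⟩ h1
    (fun h3 => hQD (h3.mul_left _)) (fun k => iw_ne (hn k)) (cld_prod _ hp)).1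
    (hw (some ⟨Q, hQ, hi⟩)) k
  rw [← ev_some hQ hi (hn k)]
  exact h2

include χ in
theorem fr_cell (hq : 2 ∣ Nat.card F - 1) (hc : c ≠ 0) (hA : ∀ i k, i ≠ k → A i ≠ A k)
    (hD : D' ≠ 0) (hm : ∀ v ∈ pf (D' * dl A), v.natDegree < m) (h : P ∈ CellD (dl A) D' m τ)
    (h₁ : P₁ ∈ CellD (dl A) D' m τ) {δ : Fin 3 → RatFunc F} (hf : Fr c A (D' * P) P δ) :
    Fr c A (D' * P₁) P₁ δ := by
  have _ := χ
  have h0 : D' * dl A ≠ 0 := mul_ne_zero hD (cld_dl hA)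
  obtain ⟨hn, hp, hw⟩ := sln_iff.1 hf.1
  have hP₁ := cell_mem h₁
  have hev : ∀ {Q : F[X]}, Q.Monic → Irreducible Q → ¬ Q ∣ D' * dl A → ∀ k,
      H94.PL.ex 2 Q (δ k) = 0 := fun hQ hi hd k => fr_even hq hc hA hD h hf hQ hi hd k
  have hnd₁ : ¬ P₁ ∣ D' * dl A := cell_ndvd hm h0 h₁
  obtain ⟨g1, g2, g3, g4⟩ := cld_nd hm h0 h₁
  refine ⟨sln_iff.2 ⟨hn, hp, fun w => ?_⟩, fun k => hev hP₁.1 hP₁.2 hnd₁ k⟩
  rcases w with _ | ⟨Q, hQ⟩
  · obtain ⟨y, hy, hyx⟩ := cell_inf (c := c) hq hc h0 h h₁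
    exact Vw_cD hy hyx (hw none)
  · by_cases hQd : Q ∣ D' * dl A
    · obtain ⟨y, hy, hyx⟩ := cell_fin (c := c) hq hc hm h0 h h₁ hQ hQd
      exact Vw_cD hy hyx (hw _)
    · by_cases hQP : Q = P₁
      · subst hQP
        refine (vw_sq_P hq hc hA hQ g3 g4 g2 (fun k => iw_ne (hn k)) fun k => ?_).2 fun k => ?_
        · exact (ev_some hQ.1 hQ.2 (hn k)).trans (hev hQ.1 hQ.2 hnd₁ k)
        · exact cell_un hq hm h0 h h₁ (hn k) (fun R hR hRi hRd => hev hR hRi hRd k)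
            (fr_sq hq hc hA hD hm h hf k)
      · have h1 : ¬ Q ∣ D' * P₁ := by
          intro h2
          rcases hQ.2.prime.dvd_or_dvd h2 with h3 | h3
          · exact hQd (h3.mul_right _)
          · exact hQP (eq_of_monic_of_associated hQ.1 hP₁.1 (hQ.2.associated_of_dvd hP₁.2 h3))
        refine (Vw_good hq (by norm_num) hc hA (mul_ne_zero hD hP₁.2.ne_zero) hQ h1
          (fun h3 => hQd (h3.mul_left _)) (fun k => iw_ne (hn k)) (cld_prod _ hp)).2 fun k => ?_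
        exact (ev_some hQ.1 hQ.2 (hn k)).trans (hev hQ.1 hQ.2 hQd k)

include χ in
theorem idp_cell (hq : 2 ∣ Nat.card F - 1) (hc : c ≠ 0) (hA : ∀ i k, i ≠ k → A i ≠ A k)
    (hD : D' ≠ 0) (hm : ∀ v ∈ pf (D' * dl A), v.natDegree < m) (h : P ∈ CellD (dl A) D' m τ)
    (h₁ : P₁ ∈ CellD (dl A) D' m τ) (hI : H94.FS.Idp 1 c A (D' * P) P) :
    H94.FS.Idp 1 c A (D' * P₁) P₁ := by
  intro δ δ' hδ hδ' he hs
  have h2 := fr_cell χ hq hc hA hD hm h₁ h ⟨hδ, fun k => (he k).1⟩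
  have h3 := fr_cell χ hq hc hA hD hm h₁ h ⟨hδ', fun k => (he k).2⟩
  exact hI δ δ' h2.1 h3.1 (fun k => ⟨h2.2 k, h3.2 k⟩) hs

end Pool.Agent.H74.FS
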