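import Pool.Agent.H74.FS.CMV

set_option autoImplicit false

/-!
# [H74 FS CMA] The local symbols of the comparison outside the prime factors of `c`

`p ^ 2 - N q ^ 2 = a m ^ 2`, `Z ^ 2 - a X ^ 2 = b W ^ 2`, `s = p X - m Z`.
* `sy_sq`: `N = n ^ 2`, `k = p + q n`: `2 k X s = (k X - m Z) ^ 2 - b (m W) ^ 2`, so `(k, b) = (2 X s, b)`.
* `sy_un`: `N` a nonsquare unit, `a`, `b` units, the solution primitive, `m` of even valuation: `(2 X s, b) = ev s`.  If `b` is not a square then `v X = max (v Z) (v W) = 1`; if `b = β ^ 2` then `(s - β m W) ^ 2 - N (q X) ^ 2 = - 2 m s (Z + β W)`, and `Z + β W` or `Z - β W` is a unit, their product is `a X ^ 2`, so `ev s = 0`.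
-/

namespace Pool.Agent.H74.FS

open Polynomial WithZero
open Pool.Agent.H94.PL (LChar)
open Pool.Agent.H94.PM (LU vl)

variable {F : Type} [Field F] [DecidableEq (RatFunc F)] {w : Pl F} [Finite F] (χ : LChar F 2)
  {N n p q a m b X Z W : Kw F w}

theorem sy_sq (hq : 2 ∣ Nat.card F - 1) (hn : n ^ 2 = N) (h1 : p ^ 2 - N * q ^ 2 = a * m ^ 2)
    (h2 : Z ^ 2 - a * X ^ 2 = b * W ^ 2) (hb : b ≠ 0) (hX : X ≠ 0) (hs : p * X - m * Z ≠ 0)
    (hk : p + q * n ≠ 0) :
    (Uw χ w).hs (p + q * n) b = (Uw χ w).hs (2 * X * (p * X - m * Z)) b := by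
  have h2' := two_ne_w hq w
  have hs' : 2 * X * (p * X - m * Z) ≠ 0 := mul_ne_zero (mul_ne_zero h2' hX) hs
  have h3 : (Uw χ w).hs ((p + q * n) * (2 * X * (p * X - m * Z))) b = 0 := by
    refine (hs_norm χ hq (mul_ne_zero hk hs') hb).2
      ⟨1, m * W, (p + q * n) * X - m * Z, fun h => one_ne_zero h.1, ?_⟩
    subst hn
    linear_combination (-X ^ 2) * h1 + m ^ 2 * h2
  rw [hs_mul χ hk hs' hb] at h3
  have h5 : ∀ u v : ZMod 2, u + v = 0 → u = v := by decide
  exact h5 _ _ h3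

theorem sy_un (hq : 2 ∣ Nat.card F - 1) (hN : vw w N = 1) (hNs : ¬ IsSquare N)
    (h1 : p ^ 2 - N * q ^ 2 = a * m ^ 2) (h2 : Z ^ 2 - a * X ^ 2 = b * W ^ 2)
    (ha : vw w a = 1) (hb : vw w b = 1) (hX : vw w X ≤ 1) (hZ : vw w Z ≤ 1) (hW : vw w W ≤ 1)
    (hpr : ¬ (vw w X < 1 ∧ vw w Z < 1 ∧ vw w W < 1)) (hm : m ≠ 0) (hm' : ev w m = 0)
    (hX0 : X ≠ 0) (hs : p * X - m * Z ≠ 0) :
    (Uw χ w).hs (2 * X * (p * X - m * Z)) b = ev w (p * X - m * Z) := by
  have h2' := two_ne_w hq w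
  have ha0 : a ≠ 0 := (vw w).ne_zero_iff.1 (by rw [ha]; exact one_ne_zero)
  have hb0 : b ≠ 0 := (vw w).ne_zero_iff.1 (by rw [hb]; exact one_ne_zero)
  have hv2 : vw w (2 : Kw F w) = 1 := by
    have := val_two_w hq w
    rwa [Nat.cast_ofNat] at this
  have heq : (Uw χ w).hs (2 * X * (p * X - m * Z)) b =
      (ev w X + ev w (p * X - m * Z)) * (Uw χ w).un b := by
    rw [hs_val, ev_unit hb, ev_mul (mul_ne_zero h2' hX0) hs, ev_mul h2' hX0, ev_unit hv2]
    ring
  rw [heq]
  by_cases hbs : IsSquare b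
  · obtain ⟨β, hβ⟩ := hbs
    have hβ0 : β ≠ 0 := by
      rintro rfl
      exact hb0 (by rw [hβ, mul_zero])
    have hβv : vw w β = 1 := by
      rw [hβ, map_mul, ← sq] at hb
      exact (pow_eq_one_iff_of_nonneg zero_le two_ne_zero).1 hb
    have hunb : (Uw χ w).un b = 0 := by
      rw [hβ, ← sq]
      exact un_sq χ hβ0
    rw [hunb, mul_zero]
    have e1 : (Z + β * W) * (Z - β * W) = a * X ^ 2 := by
      rw [hβ] at h2
      linear_combination h2
    have e0 : a * X ^ 2 ≠ 0 := mul_ne_zero ha0 (pow_ne_zero 2 hX0)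
    have hne1 : Z + β * W ≠ 0 := fun h => e0 (by rw [← e1, h, zero_mul])
    have hne2 : Z - β * W ≠ 0 := fun h => e0 (by rw [← e1, h, mul_zero])
    have e2 : (p * X - m * Z - β * m * W) ^ 2 - N * (q * X) ^ 2 =
        (-2 * m) * ((p * X - m * Z) * (Z + β * W)) := by
      rw [hβ] at h2
      linear_combination X ^ 2 * h1 - m ^ 2 * h2
    have e3 : ev w ((-2 * m) * ((p * X - m * Z) * (Z + β * W))) = 0 := by
      rw [← e2]
      exact ev_vsq (nrm_val hq hN hNs _ _)
    have e4 : ev w (Z + β * W) = 0 := by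
      have g1 : vw w (Z + β * W) ≤ 1 := ((vw w).map_add _ _).trans
        (max_le hZ (by rw [map_mul, hβv, one_mul]; exact hW))
      have g2 : vw w (Z - β * W) ≤ 1 := ((vw w).map_sub _ _).trans
        (max_le hZ (by rw [map_mul, hβv, one_mul]; exact hW))
      rcases g1.lt_or_eq with g3 | g3
      · rcases g2.lt_or_eq with g4 | g4
        · exfalso
          have g5 : vw w (2 * Z) < 1 := by
            rw [show 2 * Z = (Z + β * W) + (Z - β * W) by ring]
            exact ((vw w).map_add _ _).trans_lt (max_lt g3 g4)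
          have g6 : vw w (2 * (β * W)) < 1 := by
            rw [show 2 * (β * W) = (Z + β * W) - (Z - β * W) by ring]
            exact ((vw w).map_sub _ _).trans_lt (max_lt g3 g4)
          rw [map_mul, hv2, one_mul] at g5
          rw [map_mul, hv2, one_mul, map_mul, hβv, one_mul] at g6
          refine hpr ⟨?_, g5, g6⟩
          have g7 : vw w (a * X ^ 2) < 1 := by
            rw [← e1, map_mul]
            exact mul_lt_one_of_nonneg_of_lt_one_left zero_le g3 g4.le
          rw [map_mul, ha, one_mul, map_pow] at g7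
          exact (pow_lt_one_iff_of_nonneg zero_le two_ne_zero).1 g7
        · have g5 := ev_unit g4
          have g6 := congrArg (ev w) e1
          rw [ev_mul hne1 hne2, g5, add_zero, ev_mul ha0 (pow_ne_zero 2 hX0), ev_unit ha, ev_sq,
            add_zero] at g6
          exact g6
      · exact ev_unit g3
    rw [ev_mul (mul_ne_zero (neg_ne_zero.2 h2') hm) (mul_ne_zero hs hne1),
      ev_mul (neg_ne_zero.2 h2') hm, ev_neg, ev_unit hv2, hm', ev_mul hs hne1, e4] at e3
    simpa using e3.symm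
  · have hunb : (Uw χ w).un b = 1 := un_ns χ hq hb hbs
    have e1 : vw w X ^ 2 = max (vw w Z) (vw w W) ^ 2 := by
      rw [← nrm_val hq hb hbs, show Z ^ 2 - b * W ^ 2 = a * X ^ 2 by linear_combination h2,
        map_mul, ha, one_mul, map_pow]
    have e2 : vw w X = max (vw w Z) (vw w W) :=
      (pow_left_inj₀ zero_le zero_le two_ne_zero).1 e1
    have e3 : vw w X = 1 := by
      rcases hX.lt_or_eq with h | h
      · exact absurd ⟨h, lt_of_le_of_lt (le_max_left _ _) (e2 ▸ h),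
          lt_of_le_of_lt (le_max_right _ _) (e2 ▸ h)⟩ hpr
      · exact h
    rw [hunb, mul_one, ev_unit e3, zero_add]

end Pool.Agent.H74.FS
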