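import Pool.Agent.H74.FS.CMA

set_option autoImplicit false

/-!
# [H74 FS CMC] The local symbols of the comparison at the prime factors of `c`

`N` a nonsquare unit, `p ^ 2 - N q ^ 2 = a m ^ 2`, `Z ^ 2 - a X ^ 2 = b W ^ 2` primitive, `b` of valuation exactly one, `a = α ^ 2` a unit, `Z = α X` modulo the prime, `s = p X - m Z`.
* `sy_rm`: `(2 X s, b) = ev s + un (2 (p - m α))`, `s = (p - m α) X - m (Z - α X)`; the first term has even, the second odd valuation.
-/

namespace Pool.Agent.H74.FS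

open Polynomial WithZero
open Pool.Agent.H94.PL (LChar)
open Pool.Agent.H94.PM (LU vl)

variable {F : Type} [Field F] [DecidableEq (RatFunc F)] {w : Pl F} [Finite F] (χ : LChar F 2)
  {N n p q a m b X Z W α : Kw F w}

omit [Finite F] in
theorem rm_unit (ha : vw w a = 1) (hb : vw w b = exp (-1 : ℤ))
    (h2 : Z ^ 2 - a * X ^ 2 = b * W ^ 2) (hX : vw w X ≤ 1) (hZ : vw w Z ≤ 1) (hW : vw w W ≤ 1)
    (hpr : ¬ (vw w X < 1 ∧ vw w Z < 1 ∧ vw w W < 1)) (hα : vw w α = 1)
    (hr : vw w (Z - α * X) < 1) : vw w X = 1 := by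
  rcases hX.lt_or_eq with h | h
  · exfalso
    have h3 : vw w Z < 1 := by
      rw [show Z = (Z - α * X) + α * X by ring]
      refine ((vw w).map_add _ _).trans_lt (max_lt hr ?_)
      rw [map_mul, hα, one_mul]
      exact h
    have h4 : ∀ x : ℤᵐ⁰, x < 1 → x ≤ exp (-1 : ℤ) := by
      intro x hx
      by_cases hx0 : x = 0
      · rw [hx0]
        exact zero_le
      · rw [← exp_log hx0] at hx ⊢
        rw [← exp_zero] at hx
        have := exp_lt_exp.1 hx
        exact exp_le_exp.2 (by omega)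
    have h5 : vw w (b * W ^ 2) ≤ exp (-2 : ℤ) := by
      rw [← h2]
      refine ((vw w).map_sub _ _).trans (max_le ?_ ?_)
      · rw [map_pow]
        calc vw w Z ^ 2 ≤ exp (-1 : ℤ) ^ 2 := pow_le_pow_left₀ zero_le (h4 _ h3) 2
          _ = exp (-2 : ℤ) := by rw [← exp_nsmul]; norm_num
      · rw [map_mul, ha, one_mul, map_pow]
        calc vw w X ^ 2 ≤ exp (-1 : ℤ) ^ 2 := pow_le_pow_left₀ zero_le (h4 _ h) 2
          _ = exp (-2 : ℤ) := by rw [← exp_nsmul]; norm_num
    refine hpr ⟨h, h3, ?_⟩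
    rcases hW.lt_or_eq with h6 | h6
    · exact h6
    · exfalso
      rw [map_mul, map_pow, h6, one_pow, mul_one, hb] at h5
      have := exp_le_exp.1 h5
      omega
  · exact h

theorem sy_rm (hq : 2 ∣ Nat.card F - 1) (hN : vw w N = 1) (hNs : ¬ IsSquare N)
    (h1 : p ^ 2 - N * q ^ 2 = a * m ^ 2) (h2 : Z ^ 2 - a * X ^ 2 = b * W ^ 2)
    (hα : α ^ 2 = a) (ha : vw w a = 1) (hb : vw w b = exp (-1 : ℤ)) (hX : vw w X ≤ 1)
    (hZ : vw w Z ≤ 1) (hW : vw w W ≤ 1) (hpr : ¬ (vw w X < 1 ∧ vw w Z < 1 ∧ vw w W < 1))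
    (hr : vw w (Z - α * X) < 1) (hm : m ≠ 0) (hm' : ev w m = 0) (hq0 : q ≠ 0)
    (hs : p * X - m * Z ≠ 0) :
    (Uw χ w).hs (2 * X * (p * X - m * Z)) b =
      ev w (p * X - m * Z) + (Uw χ w).un (2 * (p - m * α)) := by
  have h2' := two_ne_w hq w
  have hN0 : N ≠ 0 := (vw w).ne_zero_iff.1 (by rw [hN]; exact one_ne_zero)
  have ha0 : a ≠ 0 := (vw w).ne_zero_iff.1 (by rw [ha]; exact one_ne_zero)
  have hb0 : b ≠ 0 := (vw w).ne_zero_iff.1 (by rw [hb]; exact exp_ne_zero)
  have hα0 : α ≠ 0 := by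
    rintro rfl
    exact ha0 (by rw [← hα]; ring)
  have hαv : vw w α = 1 := by
    rw [← hα, map_pow] at ha
    exact (pow_eq_one_iff_of_nonneg zero_le two_ne_zero).1 ha
  have hv2 : vw w (2 : Kw F w) = 1 := by
    have := val_two_w hq w
    rwa [Nat.cast_ofNat] at this
  have hXv : vw w X = 1 := rm_unit ha hb h2 hX hZ hW hpr hαv hr
  have hX0 : X ≠ 0 := (vw w).ne_zero_iff.1 (by rw [hXv]; exact one_ne_zero)
  have hevb : ev w b = 1 := by
    unfold ev vl
    rw [hb, log_exp, neg_neg, Int.cast_one]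
  -- the value of the symbol
  have hval : (Uw χ w).hs (2 * X * (p * X - m * Z)) b = (Uw χ w).un (2 * X * (p * X - m * Z)) +
      ev w (p * X - m * Z) * ((Uw χ w).un b + (Uw χ w).un (-1)) := by
    rw [hs_val, hevb, ev_mul (mul_ne_zero h2' hX0) hs, ev_mul h2' hX0, ev_unit hv2,
      ev_unit hXv]
    ring
  -- `p - m α`
  have e1 : (p - m * α) * (p + m * α) = N * q ^ 2 := by
    rw [← hα] at h1
    linear_combination h1
  have e0 : N * q ^ 2 ≠ 0 := mul_ne_zero hN0 (pow_ne_zero 2 hq0)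
  have hne1 : p - m * α ≠ 0 := fun h => e0 (by rw [← e1, h, zero_mul])
  have hne2 : p + m * α ≠ 0 := fun h => e0 (by rw [← e1, h, mul_zero])
  have hmv : vw w m = max (vw w p) (vw w q) := by
    have h := nrm_val hq hN hNs p q
    rw [h1, map_mul, ha, one_mul, map_pow] at h
    exact (pow_left_inj₀ zero_le zero_le two_ne_zero).1 h
  have hpm : vw w (p - m * α) ≤ vw w m := by
    refine ((vw w).map_sub _ _).trans (max_le ?_ ?_)
    · rw [hmv]
      exact le_max_left _ _
    · rw [map_mul, hαv, mul_one]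
  have hm2 : vw w (2 * (m * α)) = vw w m := by rw [map_mul, hv2, one_mul, map_mul, hαv, mul_one]
  have hev : ev w (p - m * α) = 0 := by
    rcases hpm.lt_or_eq with h | h
    · have h3 : ev w (p + m * α) = 0 := by
        rw [show p + m * α = 2 * (m * α) + (p - m * α) by ring, ev_add (by rw [hm2]; exact h),
          ev_veq hm2, hm']
      have h4 := congrArg (ev w) e1
      rw [ev_mul hne1 hne2, h3, add_zero, ev_mul hN0 (pow_ne_zero 2 hq0), ev_unit hN, ev_sq,
        add_zero] at h4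
      exact h4
    · rw [ev_veq h, hm']
  rw [hval]
  have hs' : p * X - m * Z = (p - m * α) * X + -(m * (Z - α * X)) := by ring
  have hA0 : (p - m * α) * X ≠ 0 := mul_ne_zero hne1 hX0
  -- `Z - α X`
  have e2 : (Z - α * X) * (Z + α * X) = b * W ^ 2 := by
    rw [← hα] at h2
    linear_combination h2
  have hZp : vw w (-(2 * (α * X))) = 1 := by
    rw [Valuation.map_neg, map_mul, hv2, one_mul, map_mul, hαv, hXv, one_mul]
  have hZp' : Z + α * X = 2 * (α * X) + (Z - α * X) := by ring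
  have hZ2 : vw w (Z - α * X) < vw w (2 * (α * X)) := by
    rw [Valuation.map_neg] at hZp
    rw [hZp]
    exact hr
  have hne3 : Z + α * X ≠ 0 := by
    rw [hZp']
    exact add_ne hZ2
  have hev2 : Z - α * X ≠ 0 → W ≠ 0 ∧ ev w (Z - α * X) = 1 ∧ (Uw χ w).un (Z - α * X) =
      (Uw χ w).un b + ((Uw χ w).un 2 + ((Uw χ w).un α + (Uw χ w).un X)) := by
    intro hr0
    have hW0 : W ≠ 0 := by
      rintro rfl
      exact mul_ne_zero hr0 hne3 (by rw [e2]; ring)
    have h3 : ev w (Z + α * X) = 0 := by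
      rw [hZp', ev_add hZ2, ← ev_neg]
      exact ev_unit hZp
    have h4 : (Uw χ w).un (Z + α * X) =
        (Uw χ w).un 2 + ((Uw χ w).un α + (Uw χ w).un X) := by
      rw [hZp', un_add χ (mul_ne_zero h2' (mul_ne_zero hα0 hX0)) hZ2,
        un_mul χ h2' (mul_ne_zero hα0 hX0), un_mul χ hα0 hX0]
    refine ⟨hW0, ?_, ?_⟩
    · have h5 := congrArg (ev w) e2
      rw [ev_mul hr0 hne3, h3, add_zero, ev_mul hb0 (pow_ne_zero 2 hW0), ev_sq, add_zero,
        hevb] at h5
      exact h5
    · have h5 := congrArg (Uw χ w).un e2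
      rw [un_mul χ hr0 hne3, h4, un_mul χ hb0 (pow_ne_zero 2 hW0), un_sq χ hW0, add_zero] at h5
      have h6 : ∀ u v z : ZMod 2, u + v = z → u = z + v := by decide
      exact h6 _ _ _ h5
  rcases lt_trichotomy (vw w (m * (Z - α * X))) (vw w ((p - m * α) * X)) with h | h | h
  · -- the first term dominates
    have h3 : vw w (-(m * (Z - α * X))) < vw w ((p - m * α) * X) := by
      rw [Valuation.map_neg]
      exact h
    have h4 : ev w (p * X - m * Z) = 0 := by
      rw [hs', ev_add h3, ev_mul hne1 hX0, hev, ev_unit hXv, add_zero]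
    have h5 : (Uw χ w).un (p * X - m * Z) = (Uw χ w).un (p - m * α) + (Uw χ w).un X := by
      rw [hs', un_add χ hA0 h3, un_mul χ hne1 hX0]
    rw [h4, zero_mul, add_zero, zero_add, un_mul χ (mul_ne_zero h2' hX0) hs, un_mul χ h2' hX0,
      h5, un_mul χ h2' hne1]
    linear_combination z2_add ((Uw χ w).un X)
  · -- equal valuations are impossible
    exfalso
    have hr0 : Z - α * X ≠ 0 := by
      intro h3
      rw [h3, mul_zero, map_zero] at h
      exact (vw w).ne_zero_iff.2 hA0 h.symm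
    have h3 := ev_veq h
    rw [ev_mul hm hr0, ev_mul hne1 hX0, hm', hev, ev_unit hXv, (hev2 hr0).2.1] at h3
    exact absurd h3 (by decide)
  · -- the second term dominates
    have hr0 : Z - α * X ≠ 0 := by
      intro h3
      rw [h3, mul_zero, map_zero] at h
      exact absurd h (not_lt.2 zero_le)
    obtain ⟨-, h3, h4⟩ := hev2 hr0
    have hB0 : m * (Z - α * X) ≠ 0 := mul_ne_zero hm hr0
    have h5 : vw w ((p - m * α) * X) < vw w (-(m * (Z - α * X))) := by
      rw [Valuation.map_neg]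
      exact h
    have hs2 : p * X - m * Z = -(m * (Z - α * X)) + (p - m * α) * X := by ring
    have h6 : ev w (p * X - m * Z) = 1 := by
      rw [hs2, ev_add h5, ev_neg, ev_mul hm hr0, hm', h3, zero_add]
    have h7 : (Uw χ w).un (p * X - m * Z) = (Uw χ w).un (-1) + ((Uw χ w).un m +
        ((Uw χ w).un b + ((Uw χ w).un 2 + ((Uw χ w).un α + (Uw χ w).un X)))) := by
      rw [hs2, un_add χ (neg_ne_zero.2 hB0) h5, un_neg' χ hB0, un_mul χ hm hr0, h4]
    -- `p - m α`
    have h8 : vw w (p - m * α) < vw w (2 * (m * α)) := by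
      rw [hm2]
      have h9 : vw w ((p - m * α) * X) = vw w (p - m * α) := by rw [map_mul, hXv, mul_one]
      rw [h9, map_mul] at h
      calc vw w (p - m * α) < vw w m * vw w (Z - α * X) := h
        _ ≤ vw w m * 1 := by gcongr
        _ = vw w m := mul_one _
    have h10 : (Uw χ w).un (p + m * α) =
        (Uw χ w).un 2 + ((Uw χ w).un m + (Uw χ w).un α) := by
      rw [show p + m * α = 2 * (m * α) + (p - m * α) by ring,
        un_add χ (mul_ne_zero h2' (mul_ne_zero hm hα0)) h8,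
        un_mul χ h2' (mul_ne_zero hm hα0), un_mul χ hm hα0]
    have h11 : (Uw χ w).un (p - m * α) =
        1 + ((Uw χ w).un 2 + ((Uw χ w).un m + (Uw χ w).un α)) := by
      have h12 := congrArg (Uw χ w).un e1
      rw [un_mul χ hne1 hne2, h10, un_mul χ hN0 (pow_ne_zero 2 hq0), un_sq χ hq0, add_zero,
        un_ns χ hq hN hNs] at h12
      have h6 : ∀ u v z : ZMod 2, u + v = z → u = z + v := by decide
      exact h6 _ _ _ h12
    rw [h6, un_mul χ (mul_ne_zero h2' hX0) hs, un_mul χ h2' hX0, h7, un_mul χ h2' hne1, h11]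
    have h13 : ∀ u2 uX u1 um ub uα : ZMod 2, u2 + uX + (u1 + (um + (ub + (u2 + (uα + uX))))) +
        1 * (ub + u1) = 1 + (u2 + (1 + (u2 + (um + uα)))) := by decide
    exact h13 _ _ _ _ _ _

end Pool.Agent.H74.FS
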