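import Pool.Agent.H74.FS.CMT

set_option autoImplicit false

/-!
# [H74 FS CMD] The symbols of the comparison at the large prime

`N` of odd valuation, `a_l` units, `α_i ^ 2 = a_i` (`i = 0, 1`).
* `rp_root`: `v (N q ^ 2) < v m ^ 2` (parity) and `v (p + m α') < v m` for one root `α'` of `a`.
* `rp_one`: then `s = p X - m Z = (p + m α') X - m (Z + α' X)` has `ev s = ev m`, `un s = un (-1) + un m + un (Z + α' X)`.
* `sum_rp`: the sum of the four symbols.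
-/

namespace Pool.Agent.H74.FS

open Polynomial WithZero
open Pool.Agent.H94.PL (LChar)
open Pool.Agent.H94.PM (LU vl)

variable {F : Type} [Field F] [DecidableEq (RatFunc F)] {w : Pl F} [Finite F]

theorem rp_root (hq : 2 ∣ Nat.card F - 1) {N p q a m α : Kw F w} (hN0 : N ≠ 0)
    (hN : ev w N = 1) (h1 : p ^ 2 - N * q ^ 2 = a * m ^ 2) (ha : vw w a = 1) (hα : α ^ 2 = a)
    (hm : m ≠ 0) : vw w (N * q ^ 2) < vw w m ^ 2 ∧
      ∃ α' : Kw F w, (α' = α ∨ α' = -α) ∧ vw w (p + m * α') < vw w m := by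
  have hv2 : vw w (2 : Kw F w) = 1 := by
    have := val_two_w hq w
    rwa [Nat.cast_ofNat] at this
  have hαv : vw w α = 1 := by
    rw [← hα, map_pow] at ha
    exact (pow_eq_one_iff_of_nonneg zero_le two_ne_zero).1 ha
  have hmv : vw w m ≠ 0 := (vw w).ne_zero_iff.2 hm
  have ham : vw w (a * m ^ 2) = vw w m ^ 2 := by rw [map_mul, ha, one_mul, map_pow]
  have h2 : vw w (N * q ^ 2) < vw w m ^ 2 := by
    by_contra h
    have hq0 : q ≠ 0 := by
      rintro rfl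
      refine h ?_
      rw [show N * (0 : Kw F w) ^ 2 = 0 by ring, map_zero]
      exact zero_lt_iff.2 (pow_ne_zero 2 hmv)
    have hodd : ev w (N * q ^ 2) = 1 := by
      rw [ev_mul hN0 (pow_ne_zero 2 hq0), ev_sq, hN, add_zero]
    have h3 : vw w (a * m ^ 2) < vw w (N * q ^ 2) := by
      refine lt_of_le_of_ne (by rw [ham]; exact not_lt.1 h) fun h4 => ?_
      have h5 := ev_veq h4
      rw [hodd, ev_vsq ham] at h5
      exact absurd h5 (by decide)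
    have h4 : ev w (p ^ 2) = 1 := by
      rw [show p ^ 2 = N * q ^ 2 + a * m ^ 2 by linear_combination h1, ev_add h3, hodd]
    rw [ev_sq] at h4
    exact absurd h4 (by decide)
  refine ⟨h2, ?_⟩
  have e1 : (p + m * α) * (p + m * -α) = N * q ^ 2 := by
    rw [← hα] at h1
    linear_combination h1
  by_cases h3 : vw w (p + m * α) < vw w m
  · exact ⟨α, Or.inl rfl, h3⟩
  · refine ⟨-α, Or.inr rfl, ?_⟩
    by_contra h4
    refine absurd h2 (not_lt.2 ?_)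
    rw [← e1, map_mul, sq]
    exact mul_le_mul' (not_lt.1 h3) (not_lt.1 h4)

variable (χ : LChar F 2)

theorem rp_one (hq : 2 ∣ Nat.card F - 1) {p m X Z α : Kw F w} (hm : m ≠ 0)
    (h1 : vw w (p + m * α) < vw w m) (h2 : vw w (Z + α * X) = 1) (hX : vw w X ≤ 1) :
    p * X - m * Z ≠ 0 ∧ ev w (p * X - m * Z) = ev w m ∧ (Uw χ w).un (p * X - m * Z) =
      (Uw χ w).un (-1) + (Uw χ w).un m + (Uw χ w).un (Z + α * X) := by
  have _ := hq
  have h0 : Z + α * X ≠ 0 := (vw w).ne_zero_iff.1 (by rw [h2]; exact one_ne_zero)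
  have h3 : p * X - m * Z = -(m * (Z + α * X)) + (p + m * α) * X := by ring
  have h4 : vw w ((p + m * α) * X) < vw w (-(m * (Z + α * X))) := by
    rw [Valuation.map_neg, map_mul, map_mul, h2, mul_one]
    calc vw w (p + m * α) * vw w X ≤ vw w (p + m * α) * 1 := by gcongr
      _ = vw w (p + m * α) := mul_one _
      _ < vw w m := h1
  rw [h3]
  refine ⟨add_ne h4, ?_, ?_⟩
  · rw [ev_add h4, ev_neg, ev_mul hm h0, ev_unit h2, add_zero]
  · rw [un_add χ (neg_ne_zero.2 (mul_ne_zero hm h0)) h4, un_neg' χ (mul_ne_zero hm h0),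
      un_mul χ hm h0, add_assoc]

theorem sum_rp (hq : 2 ∣ Nat.card F - 1) {N G : Kw F w} {p q m : Fin 2 → Kw F w}
    {a b X Z W : Fin 3 → Kw F w} {α : Fin 2 → Kw F w} {κ : ZMod 2} (hN0 : N ≠ 0)
    (hN : ev w N = 1) (hG : vw w G = 1)
    (h1 : ∀ i : Fin 2, p i ^ 2 - N * q i ^ 2 = a i.castSucc * m i ^ 2) (ha2 : a 2 = a 0 * a 1)
    (h2 : ∀ l, Z l ^ 2 - a l * X l ^ 2 = b l * W l ^ 2) (ha : ∀ l, vw w (a l) = 1)
    (hα : ∀ i : Fin 2, α i ^ 2 = a i.castSucc) (hb : ∀ l, vw w (b l) = 1)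
    (hb' : ∀ l, (Uw χ w).un (b l) = κ) (hX : ∀ l, vw w (X l) = 1) (hW0 : ∀ l, W l ≠ 0)
    (hm : ∀ i, m i ≠ 0) (hU : ∀ l, ∀ e : Kw F w, e ^ 2 = a l → vw w (Z l + e * X l) = 1) :
    ∃ β : Fin 2 → Kw F w, (∀ i, β i = α i ∨ β i = -α i) ∧
      (∀ l, x3p N p q l * X l - x3m m l * Z l ≠ 0) ∧
      ∑ l, (Uw χ w).hs (2 * X l * (x3p N p q l * X l - x3m m l * Z l)) (b l) +
        (Uw χ w).hs N (G * ∏ l, (x3p N p q l * X l - x3m m l * Z l)) =
      (Uw χ w).un (-1) + (Uw χ w).un G + κ + ((Uw χ w).un (Z 0 + β 0 * X 0) +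
        (Uw χ w).un (Z 1 + β 1 * X 1) + (Uw χ w).un (Z 2 + β 0 * β 1 * X 2)) := by
  have h2' := two_ne_w hq w
  have hv2 : vw w (2 : Kw F w) = 1 := by
    have := val_two_w hq w
    rwa [Nat.cast_ofNat] at this
  have hG0 : G ≠ 0 := (vw w).ne_zero_iff.1 (by rw [hG]; exact one_ne_zero)
  have hX0 : ∀ l, X l ≠ 0 := fun l => (vw w).ne_zero_iff.1 (by rw [hX]; exact one_ne_zero)
  have hb0 : ∀ l, b l ≠ 0 := fun l => (vw w).ne_zero_iff.1 (by rw [hb]; exact one_ne_zero)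
  choose hlt β hβ hβ2 using fun i : Fin 2 =>
    rp_root hq hN0 hN (h1 i) (ha i.castSucc) (hα i) (hm i)
  have hβs : ∀ i : Fin 2, β i ^ 2 = a i.castSucc := fun i => by
    rcases hβ i with h | h <;> rw [h, ← hα i]
    ring
  have hβv : ∀ i : Fin 2, vw w (β i) = 1 := fun i => by
    have := ha i.castSucc
    rw [← hβs i, map_pow] at this
    exact (pow_eq_one_iff_of_nonneg zero_le two_ne_zero).1 this
  have hb2s : (-(β 0 * β 1)) ^ 2 = a 2 := by
    have k0 : β 0 ^ 2 = a 0 := hβs 0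
    have k1 : β 1 ^ 2 = a 1 := hβs 1
    rw [ha2]
    linear_combination β 1 ^ 2 * k0 + a 0 * k1
  have hmv : ∀ i, 0 < vw w (m i) := fun i => zero_lt_iff.2 ((vw w).ne_zero_iff.2 (hm i))
  have h3 : vw w (x3p N p q 2 + x3m m 2 * -(β 0 * β 1)) < vw w (x3m m 2) := by
    have k2 : x3p N p q 2 + x3m m 2 * -(β 0 * β 1) = (p 0 + m 0 * β 0) * p 1 +
        (-(m 0 * β 0) * (p 1 + m 1 * β 1) + N * (q 0 * q 1)) := by
      show p 0 * p 1 + N * (q 0 * q 1) + m 0 * m 1 * -(β 0 * β 1) = _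
      ring
    have k3 : vw w (x3m m 2) = vw w (m 0) * vw w (m 1) := map_mul _ _ _
    have k4 : vw w (p 1) ≤ vw w (m 1) := by
      rw [show p 1 = (p 1 + m 1 * β 1) - m 1 * β 1 by ring]
      refine ((vw w).map_sub _ _).trans (max_le (hβ2 1).le ?_)
      rw [map_mul, hβv, mul_one]
    rw [k2, k3]
    refine ((vw w).map_add _ _).trans_lt (max_lt ?_
      (((vw w).map_add _ _).trans_lt (max_lt ?_ ?_)))
    · rw [map_mul]
      calc vw w (p 0 + m 0 * β 0) * vw w (p 1) ≤ vw w (p 0 + m 0 * β 0) * vw w (m 1) := by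
            gcongr
        _ < vw w (m 0) * vw w (m 1) := mul_lt_mul_of_pos_right (hβ2 0) (hmv 1)
    · rw [map_mul, Valuation.map_neg, map_mul, hβv, mul_one]
      exact mul_lt_mul_of_pos_left (hβ2 1) (hmv 0)
    · by_contra h
      have k5 := hlt 0
      have k6 := hlt 1
      have k7 : vw w (N * q 0 ^ 2) * vw w (N * q 1 ^ 2) < vw w (m 0) ^ 2 * vw w (m 1) ^ 2 :=
        mul_lt_mul'' k5 k6 zero_le zero_le
      have k8 : (vw w (m 0) * vw w (m 1)) ^ 2 ≤ vw w (N * (q 0 * q 1)) ^ 2 :=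
        pow_le_pow_left₀ zero_le (not_lt.1 h) 2
      rw [← map_mul, ← mul_pow] at k7
      rw [← map_pow, show (N * (q 0 * q 1)) ^ 2 = N * q 0 ^ 2 * (N * q 1 ^ 2) by ring] at k8
      exact absurd k7 (not_lt.2 k8)
  have hm3 : ∀ l, x3m m l ≠ 0 := by
    intro l
    fin_cases l
    · exact hm 0
    · exact hm 1
    · exact mul_ne_zero (hm 0) (hm 1)
  obtain ⟨n0, v0, u0⟩ := rp_one χ hq (hm3 0) (hβ2 0) (hU 0 (β 0) (hβs 0)) (hX 0).le
  obtain ⟨n1, v1, u1⟩ := rp_one χ hq (hm3 1) (hβ2 1) (hU 1 (β 1) (hβs 1)) (hX 1).le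
  obtain ⟨n2, v2, u2⟩ := rp_one χ hq (hm3 2) h3 (hU 2 _ hb2s) (hX 2).le
  have hne : ∀ l, x3p N p q l * X l - x3m m l * Z l ≠ 0 := by
    intro l
    fin_cases l
    · exact n0
    · exact n1
    · exact n2
  refine ⟨β, hβ, hne, ?_⟩
  -- the first three symbols
  have g1 : ∀ l, (Uw χ w).hs (2 * X l * (x3p N p q l * X l - x3m m l * Z l)) (b l) =
      ev w (x3p N p q l * X l - x3m m l * Z l) * κ := fun l => by
    rw [hs_val, ev_unit (hb l), hb' l, ev_mul (mul_ne_zero h2' (hX0 l)) (hne l),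
      ev_mul h2' (hX0 l), ev_unit hv2, ev_unit (hX l)]
    ring
  have g2 : ev w (x3m m 2) = ev w (m 0) + ev w (m 1) := ev_mul (hm 0) (hm 1)
  have g3 : (Uw χ w).un (x3m m 2) = (Uw χ w).un (m 0) + (Uw χ w).un (m 1) :=
    un_mul χ (hm 0) (hm 1)
  have n0' : x3p N p q 0 * X 0 - x3m m 0 * Z 0 ≠ 0 := n0
  have n1' : x3p N p q 1 * X 1 - x3m m 1 * Z 1 ≠ 0 := n1
  have v0' : ev w (x3p N p q 0 * X 0 - x3m m 0 * Z 0) = ev w (m 0) := v0
  have v1' : ev w (x3p N p q 1 * X 1 - x3m m 1 * Z 1) = ev w (m 1) := v1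
  have u0' : (Uw χ w).un (x3p N p q 0 * X 0 - x3m m 0 * Z 0) = (Uw χ w).un (-1) +
    (Uw χ w).un (m 0) + (Uw χ w).un (Z 0 + β 0 * X 0) := u0
  have u1' : (Uw χ w).un (x3p N p q 1 * X 1 - x3m m 1 * Z 1) = (Uw χ w).un (-1) +
    (Uw χ w).un (m 1) + (Uw χ w).un (Z 1 + β 1 * X 1) := u1
  -- the fourth
  have g4 : ev w (G * ∏ l, (x3p N p q l * X l - x3m m l * Z l)) = 0 := by
    rw [ev_mul hG0 (Finset.prod_ne_zero_iff.2 fun l _ => hne l), ev_unit hG, zero_add,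
      Fin.prod_univ_three, ev_mul (mul_ne_zero n0' n1') n2, ev_mul n0' n1', v0', v1', v2, g2]
    exact z2_add _
  have g5 : (Uw χ w).un (G * ∏ l, (x3p N p q l * X l - x3m m l * Z l)) = (Uw χ w).un G +
      ((Uw χ w).un (x3p N p q 0 * X 0 - x3m m 0 * Z 0) +
        (Uw χ w).un (x3p N p q 1 * X 1 - x3m m 1 * Z 1) +
        (Uw χ w).un (x3p N p q 2 * X 2 - x3m m 2 * Z 2)) := by
    rw [un_mul χ hG0 (Finset.prod_ne_zero_iff.2 fun l _ => hne l),
      Fin.prod_univ_three, un_mul χ (mul_ne_zero n0' n1') n2, un_mul χ n0' n1']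
  have g6 : (Z 2 + -(β 0 * β 1) * X 2) * (Z 2 + β 0 * β 1 * X 2) = b 2 * W 2 ^ 2 := by
    rw [← h2 2]
    linear_combination (-X 2 ^ 2) * hb2s
  have g7 : b 2 * W 2 ^ 2 ≠ 0 := mul_ne_zero (hb0 2) (pow_ne_zero 2 (hW0 2))
  have g8 : (Uw χ w).un (Z 2 + -(β 0 * β 1) * X 2) + (Uw χ w).un (Z 2 + β 0 * β 1 * X 2) =
      κ := by
    rw [← un_mul χ (fun h => g7 (by rw [← g6, h, zero_mul]))
      (fun h => g7 (by rw [← g6, h, mul_zero])), g6, un_mul χ (hb0 2) (pow_ne_zero 2 (hW0 2)),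
      un_sq χ (hW0 2), hb' 2, add_zero]
  rw [Finset.sum_congr rfl fun l _ => g1 l, Fin.sum_univ_three, v0', v1', v2, g2, hs_val, g4,
    g5, u0', u1', u2, g3, hN]
  have g9 : ∀ m0 m1 k n u G' u0 u1 z0 z1 z2 z2' : ZMod 2, z2 + z2' = k →
      m0 * k + m1 * k + (m0 + m1) * k + (n * 0 + 1 * (G' + (u + u0 + z0 + (u + u1 + z1) +
        (u + (u0 + u1) + z2))) + u * (1 * 0)) = u + G' + k + (z0 + z1 + z2') := by
    intro m0 m1 k n u G' u0 u1 z0 z1 z2 z2' h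
    have h' : ∀ u v z : ZMod 2, u + v = z → v = z + u := by decide
    rw [h' _ _ _ h]
    have h2 : (2 : ZMod 2) = 0 := rfl
    linear_combination (m0 * k + m1 * k + u + u0 + u1 - k) * h2
  exact g9 _ _ _ _ _ _ _ _ _ _ _ _ g8

end Pool.Agent.H74.FS
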