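import Pool.Agent.H74.FS.CMC

set_option autoImplicit false

/-!
# [H74 FS CMT] The three symbols of the comparison at a prime factor of `c`

`x3p`, `x3q`, `x3m`: the components of `k_0`, `k_1`, `k_0 k_1` and of their norms.
* `rm_root`: `a` is a square `α ^ 2` and `Z = α X` modulo the prime for one choice of `α`: otherwise `Z ^ 2 - a X ^ 2` is a value of the norm form of an unramified extension, of even valuation.
* `sum_rm`: `sy_rm` for `l = 0, 1, 2`; `2 A B (p_2 + m_2 α_0 α_1) = (A B + N q_0 q_1) ^ 2` with `A = p_0 - m_0 α_0`, `B = p_1 - m_1 α_1`, and `(p_2 - m_2 α_0 α_1) (p_2 + m_2 α_0 α_1) = N q_2 ^ 2`.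
-/

namespace Pool.Agent.H74.FS

open Polynomial WithZero
open Pool.Agent.H94.PL (LChar)
open Pool.Agent.H94.PM (LU vl)

section
variable {K : Type} [CommRing K] (N : K) (p q m : Fin 2 → K)

/-- the rational parts of `k_0`, `k_1`, `k_0 k_1` -/
def x3p : Fin 3 → K := ![p 0, p 1, p 0 * p 1 + N * (q 0 * q 1)]

/-- the coefficients of the root -/
def x3q : Fin 3 → K := ![q 0, q 1, p 0 * q 1 + q 0 * p 1]

/-- the factors of the norms -/
def x3m : Fin 3 → K := ![m 0, m 1, m 0 * m 1]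

theorem x3_eq {a : Fin 3 → K} (h : ∀ i : Fin 2, p i ^ 2 - N * q i ^ 2 = a i.castSucc * m i ^ 2)
    (ha : a 2 = a 0 * a 1) (l : Fin 3) :
    x3p N p q l ^ 2 - N * x3q p q l ^ 2 = a l * x3m m l ^ 2 := by
  have h0 : p 0 ^ 2 - N * q 0 ^ 2 = a 0 * m 0 ^ 2 := h 0
  have h1 : p 1 ^ 2 - N * q 1 ^ 2 = a 1 * m 1 ^ 2 := h 1
  fin_cases l
  · exact h0
  · exact h1
  · show (p 0 * p 1 + N * (q 0 * q 1)) ^ 2 - N * (p 0 * q 1 + q 0 * p 1) ^ 2 =
      a 2 * (m 0 * m 1) ^ 2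
    rw [ha]
    linear_combination (p 1 ^ 2 - N * q 1 ^ 2) * h0 + a 0 * m 0 ^ 2 * h1

end

variable {F : Type} [Field F] [DecidableEq (RatFunc F)] {w : Pl F} [Finite F]

theorem rm_root (hq : 2 ∣ Nat.card F - 1) {a b X Z W : Kw F w} (ha : vw w a = 1)
    (hb : vw w b = exp (-1 : ℤ)) (h2 : Z ^ 2 - a * X ^ 2 = b * W ^ 2) (hW : vw w W ≤ 1)
    (hW0 : W ≠ 0) : ∃ α : Kw F w, α ^ 2 = a ∧ vw w (Z - α * X) < 1 := by
  have hb0 : b ≠ 0 := (vw w).ne_zero_iff.1 (by rw [hb]; exact exp_ne_zero)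
  have hevb : ev w b = 1 := by
    unfold ev vl
    rw [hb, log_exp, neg_neg, Int.cast_one]
  have h3 : IsSquare a := by
    by_contra h
    have h4 := ev_vsq (nrm_val hq ha h Z X)
    rw [h2, ev_mul hb0 (pow_ne_zero 2 hW0), ev_sq, hevb, add_zero] at h4
    exact absurd h4 (by decide)
  obtain ⟨α, hα⟩ := h3
  have h5 : vw w ((Z - α * X) * (Z + α * X)) < 1 := by
    rw [show (Z - α * X) * (Z + α * X) = b * W ^ 2 by rw [← h2, hα]; ring, map_mul, map_pow, hb]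
    calc exp (-1 : ℤ) * vw w W ^ 2 ≤ exp (-1 : ℤ) * 1 :=
          mul_le_mul_right (pow_le_one₀ zero_le hW) _
      _ < 1 := by
        rw [mul_one, ← exp_zero, exp_lt_exp]
        norm_num
  by_cases h6 : vw w (Z - α * X) < 1
  · exact ⟨α, by rw [hα, sq], h6⟩
  · refine ⟨-α, by rw [hα]; ring, ?_⟩
    rw [show Z - -α * X = Z + α * X by ring]
    by_contra h7
    refine absurd h5 (not_lt.2 ?_)
    rw [map_mul]
    exact one_le_mul (not_lt.1 h6) (not_lt.1 h7)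

variable (χ : LChar F 2)

theorem sum_rm (hq : 2 ∣ Nat.card F - 1) {N : Kw F w} {p q m : Fin 2 → Kw F w}
    {a b X Z W : Fin 3 → Kw F w} (hN : vw w N = 1) (hNs : ¬ IsSquare N)
    (h1 : ∀ i : Fin 2, p i ^ 2 - N * q i ^ 2 = a i.castSucc * m i ^ 2) (ha2 : a 2 = a 0 * a 1)
    (h2 : ∀ l, Z l ^ 2 - a l * X l ^ 2 = b l * W l ^ 2) (ha : ∀ l, vw w (a l) = 1)
    (hb : ∀ l, vw w (b l) = exp (-1 : ℤ)) (hX : ∀ l, vw w (X l) ≤ 1)
    (hZ : ∀ l, vw w (Z l) ≤ 1) (hW : ∀ l, vw w (W l) ≤ 1) (hW0 : ∀ l, W l ≠ 0)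
    (hpr : ∀ l, ¬ (vw w (X l) < 1 ∧ vw w (Z l) < 1 ∧ vw w (W l) < 1)) (hm : ∀ i, m i ≠ 0)
    (hm' : ∀ i, ev w (m i) = 0) (hq0 : ∀ l, x3q p q l ≠ 0)
    (hs : ∀ l, x3p N p q l * X l - x3m m l * Z l ≠ 0) :
    ∑ l, (Uw χ w).hs (2 * X l * (x3p N p q l * X l - x3m m l * Z l)) (b l) =
      ∑ l, ev w (x3p N p q l * X l - x3m m l * Z l) +
        (if vw w (Z 0 * Z 1 * Z 2 - a 0 * a 1 * (X 0 * X 1 * X 2)) < 1 then 1 else 0) := by
  have h2' := two_ne_w hq w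
  have hv2 : vw w (2 : Kw F w) = 1 := by
    have := val_two_w hq w
    rwa [Nat.cast_ofNat] at this
  have hN0 : N ≠ 0 := (vw w).ne_zero_iff.1 (by rw [hN]; exact one_ne_zero)
  have hm3 : ∀ l, x3m m l ≠ 0 ∧ ev w (x3m m l) = 0 := by
    intro l
    fin_cases l
    · exact ⟨hm 0, hm' 0⟩
    · exact ⟨hm 1, hm' 1⟩
    · exact ⟨mul_ne_zero (hm 0) (hm 1), by
        show ev w (m 0 * m 1) = 0
        rw [ev_mul (hm 0) (hm 1), hm', hm', add_zero]⟩
  choose α hα hr using fun l => rm_root hq (ha l) (hb l) (h2 l) (hW l) (hW0 l)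
  have h3 : ∀ l, (Uw χ w).hs (2 * X l * (x3p N p q l * X l - x3m m l * Z l)) (b l) =
      ev w (x3p N p q l * X l - x3m m l * Z l) +
        (Uw χ w).un (2 * (x3p N p q l - x3m m l * α l)) := fun l =>
    sy_rm χ hq hN hNs (x3_eq N p q m h1 ha2 l) (h2 l) (hα l) (ha l) (hb l) (hX l) (hZ l) (hW l)
      (hpr l) (hr l) (hm3 l).1 (hm3 l).2 (hq0 l) (hs l)
  rw [Finset.sum_congr rfl fun l _ => h3 l, Finset.sum_add_distrib]
  congr 1
  have hα1 : ∀ l, vw w (α l) = 1 := fun l => by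
    have := ha l
    rw [← hα l, map_pow] at this
    exact (pow_eq_one_iff_of_nonneg zero_le two_ne_zero).1 this
  have hX1 : ∀ l, vw w (X l) = 1 := fun l =>
    rm_unit (ha l) (hb l) (h2 l) (hX l) (hZ l) (hW l) (hpr l) (hα1 l) (hr l)
  -- `p_l - m_l α_l` is not zero
  have e1 : ∀ l, (x3p N p q l - x3m m l * α l) * (x3p N p q l + x3m m l * α l) =
      N * x3q p q l ^ 2 := fun l => by
    have := x3_eq N p q m h1 ha2 l
    rw [← hα l] at this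
    linear_combination this
  have e0 : ∀ l, N * x3q p q l ^ 2 ≠ 0 := fun l => mul_ne_zero hN0 (pow_ne_zero 2 (hq0 l))
  have hne1 : ∀ l, x3p N p q l - x3m m l * α l ≠ 0 := fun l h => e0 l (by rw [← e1, h, zero_mul])
  have hne2 : ∀ l, x3p N p q l + x3m m l * α l ≠ 0 := fun l h => e0 l (by rw [← e1, h, mul_zero])
  have e2 : ∀ l, (Uw χ w).un (x3p N p q l - x3m m l * α l) +
      (Uw χ w).un (x3p N p q l + x3m m l * α l) = 1 := fun l => by
    rw [← un_mul χ (hne1 l) (hne2 l), e1, un_mul χ hN0 (pow_ne_zero 2 (hq0 l)),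
      un_sq χ (hq0 l), un_ns χ hq hN hNs, add_zero]
  -- the identity
  have e3 : α 2 = α 0 * α 1 ∨ α 2 = -(α 0 * α 1) := by
    refine sq_eq_sq_iff_eq_or_eq_neg.1 ?_
    rw [hα 2, ha2, ← hα 0, ← hα 1]
    ring
  have e4 : (2 * (x3p N p q 0 - x3m m 0 * α 0)) * (2 * (x3p N p q 1 - x3m m 1 * α 1)) *
      (2 * (x3p N p q 2 + x3m m 2 * (α 0 * α 1))) =
      (2 * ((x3p N p q 0 - x3m m 0 * α 0) * (x3p N p q 1 - x3m m 1 * α 1) +
        N * (x3q p q 0 * x3q p q 1))) ^ 2 := by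
    have g0 := e1 0
    have g1 := e1 1
    have p2 : x3p N p q 2 = x3p N p q 0 * x3p N p q 1 + N * (x3q p q 0 * x3q p q 1) := rfl
    have m2 : x3m m 2 = x3m m 0 * x3m m 1 := rfl
    rw [p2, m2]
    generalize x3p N p q 0 = P0 at *
    generalize x3p N p q 1 = P1 at *
    generalize x3q p q 0 = Q0 at *
    generalize x3q p q 1 = Q1 at *
    generalize x3m m 0 = M0 at *
    generalize x3m m 1 = M1 at *
    linear_combination 4 * ((P0 - M0 * α 0) * (P0 + M0 * α 0)) * g1 + 4 * (N * Q1 ^ 2) * g0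
  have hne : ∀ l, 2 * (x3p N p q l - x3m m l * α l) ≠ 0 := fun l => mul_ne_zero h2' (hne1 l)
  -- the condition
  have hY1 : ∀ l, vw w (α l * X l) = 1 := fun l => by rw [map_mul, hα1, hX1, one_mul]
  have e5 : vw w (Z 0 * Z 1 * Z 2 - α 0 * X 0 * (α 1 * X 1) * (α 2 * X 2)) < 1 := by
    rw [show Z 0 * Z 1 * Z 2 - α 0 * X 0 * (α 1 * X 1) * (α 2 * X 2) =
      (Z 0 - α 0 * X 0) * (Z 1 * Z 2) + ((Z 1 - α 1 * X 1) * (α 0 * X 0 * Z 2) +
        (Z 2 - α 2 * X 2) * (α 0 * X 0 * (α 1 * X 1))) by ring]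
    have k1 : ∀ x y : Kw F w, vw w x < 1 → vw w y ≤ 1 → vw w (x * y) < 1 := fun x y hx hy => by
      rw [map_mul]
      exact mul_lt_one_of_nonneg_of_lt_one_left zero_le hx hy
    have k2 : ∀ x y : Kw F w, vw w x ≤ 1 → vw w y ≤ 1 → vw w (x * y) ≤ 1 := fun x y hx hy => by
      rw [map_mul]
      exact mul_le_one₀ hx zero_le hy
    refine ((vw w).map_add _ _).trans_lt (max_lt (k1 _ _ (hr 0) (k2 _ _ (hZ 1) (hZ 2))) ?_)
    exact ((vw w).map_add _ _).trans_lt (max_lt (k1 _ _ (hr 1) (k2 _ _ (hY1 0).le (hZ 2)))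
      (k1 _ _ (hr 2) (k2 _ _ (hY1 0).le (hY1 1).le)))
  have e6 : a 0 * a 1 * (X 0 * X 1 * X 2) = α 0 * X 0 * (α 1 * X 1) * (α 0 * α 1 * X 2) := by
    rw [← hα 0, ← hα 1]
    ring
  rw [Fin.sum_univ_three]
  rcases e3 with h | h
  · rw [← h] at e4
    have h5 : (Uw χ w).un (2 * (x3p N p q 0 - x3m m 0 * α 0)) +
        (Uw χ w).un (2 * (x3p N p q 1 - x3m m 1 * α 1)) +
        (Uw χ w).un (2 * (x3p N p q 2 + x3m m 2 * α 2)) = 0 := by
      have hR : 2 * (x3p N p q 2 + x3m m 2 * α 2) ≠ 0 := mul_ne_zero h2' (hne2 2)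
      rw [← un_mul χ (hne 0) (hne 1), ← un_mul χ (mul_ne_zero (hne 0) (hne 1)) hR, e4]
      refine un_sq χ fun h0 => ?_
      rw [h0] at e4
      exact mul_ne_zero (mul_ne_zero (hne 0) (hne 1)) hR (by rw [e4]; ring)
    have h6 : (Uw χ w).un (2 * (x3p N p q 2 - x3m m 2 * α 2)) +
        (Uw χ w).un (2 * (x3p N p q 2 + x3m m 2 * α 2)) = 1 := by
      rw [un_mul χ h2' (hne1 2), un_mul χ h2' (hne2 2)]
      linear_combination e2 2 + z2_add ((Uw χ w).un 2)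
    rw [if_pos]
    · have h7 : ∀ u v z z' : ZMod 2, u + v + z' = 0 → z + z' = 1 → u + v + z = 1 := by decide
      exact h7 _ _ _ _ h5 h6
    · rw [e6, ← h]
      exact e5
  · have hR : x3p N p q 2 + x3m m 2 * (α 0 * α 1) = x3p N p q 2 - x3m m 2 * α 2 := by
      rw [h]
      ring
    rw [hR] at e4
    have h5 : (Uw χ w).un (2 * (x3p N p q 0 - x3m m 0 * α 0)) +
        (Uw χ w).un (2 * (x3p N p q 1 - x3m m 1 * α 1)) +
        (Uw χ w).un (2 * (x3p N p q 2 - x3m m 2 * α 2)) = 0 := by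
      rw [← un_mul χ (hne 0) (hne 1), ← un_mul χ (mul_ne_zero (hne 0) (hne 1)) (hne 2), e4]
      refine un_sq χ fun h0 => ?_
      rw [h0] at e4
      exact mul_ne_zero (mul_ne_zero (hne 0) (hne 1)) (hne 2) (by rw [e4]; ring)
    rw [if_neg, h5]
    rw [e6, not_lt]
    have e7 : vw w (2 * (α 0 * X 0 * (α 1 * X 1) * (α 2 * X 2))) = 1 := by
      simp only [map_mul, hv2, hα1, hX1, one_mul]
    rw [show Z 0 * Z 1 * Z 2 - α 0 * X 0 * (α 1 * X 1) * (α 0 * α 1 * X 2) =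
      2 * (α 0 * X 0 * (α 1 * X 1) * (α 2 * X 2)) +
      (Z 0 * Z 1 * Z 2 - α 0 * X 0 * (α 1 * X 1) * (α 2 * X 2)) by rw [h]; ring,
      (vw w).map_add_eq_of_lt_left (by rw [e7]; exact e5), e7]

end Pool.Agent.H74.FS
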