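import Pool.Agent.H74.FS.SYM

set_option autoImplicit false

/-!
# [H74 FS CMV] Valuations, unit logarithms and symbols of sums
-/

namespace Pool.Agent.H74.FS

open Polynomial WithZero
open Pool.Agent.H94.PL (LChar)
open Pool.Agent.H94.PM (LU vl)

variable {F : Type} [Field F] [DecidableEq (RatFunc F)] {w : Pl F}

theorem ev_veq {x y : Kw F w} (h : vw w x = vw w y) : ev w x = ev w y := by
  unfold ev vl
  rw [h]

theorem ev_unit {x : Kw F w} (h : vw w x = 1) : ev w x = 0 := by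
  unfold ev vl
  rw [h, log_one, neg_zero, Int.cast_zero]

theorem ev_vsq {x : Kw F w} {r : ℤᵐ⁰} (h : vw w x = r ^ 2) : ev w x = 0 := by
  have h2 : ((2 : ℕ) : ZMod 2) = 0 := rfl
  unfold ev vl
  rw [h, log_pow, nsmul_eq_mul]
  push_cast
  rw [show (2 : ZMod 2) = 0 from rfl, zero_mul, neg_zero]

theorem ev_neg (x : Kw F w) : ev w (-x) = ev w x := by
  unfold ev
  rw [H94.PM.vl_neg]

theorem near_add {x y : Kw F w} (hx : x ≠ 0) (h : vw w y < vw w x) :
    vw w ((x + y) / x - 1) < 1 := by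
  have h1 : (x + y) / x - 1 = y / x := by
    field_simp
    ring
  rw [h1, map_div₀]
  exact (div_lt_one₀ (zero_lt_iff.2 ((vw w).ne_zero_iff.2 hx))).2 h

theorem add_ne {x y : Kw F w} (h : vw w y < vw w x) : x + y ≠ 0 := by
  intro h1
  rw [eq_neg_of_add_eq_zero_left h1, Valuation.map_neg] at h
  exact lt_irrefl _ h

theorem ev_add {x y : Kw F w} (h : vw w y < vw w x) : ev w (x + y) = ev w x :=
  ev_veq ((vw w).map_add_eq_of_lt_left h)

theorem un_add [Finite F] (χ : LChar F 2) {x y : Kw F w} (hx : x ≠ 0) (h : vw w y < vw w x) :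
    (Uw χ w).un (x + y) = (Uw χ w).un x :=
  (Uw χ w).un_congr hx (near_add hx h)

variable [Finite F] (χ : LChar F 2)

theorem z2_add (u : ZMod 2) : u + u = 0 := by
  revert u
  decide

theorem un_neg' {x : Kw F w} (hx : x ≠ 0) :
    (Uw χ w).un (-x) = (Uw χ w).un (-1) + (Uw χ w).un x := (Uw χ w).un_neg hx

theorem un_mul {x y : Kw F w} (hx : x ≠ 0) (hy : y ≠ 0) :
    (Uw χ w).un (x * y) = (Uw χ w).un x + (Uw χ w).un y := (Uw χ w).mul x y hx hy

theorem hs_val (x y : Kw F w) : (Uw χ w).hs x y = (Uw χ w).un x * ev w y +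
    ev w x * (Uw χ w).un y + (Uw χ w).un (-1) * (ev w x * ev w y) := by
  have h : ∀ u : ZMod 2, -u = u := by decide
  show (Uw χ w).un x * ev w y - ev w x * (Uw χ w).un y + _ = _
  rw [sub_eq_add_neg, h]
  rfl

theorem un_ns (hq : 2 ∣ Nat.card F - 1) {N : Kw F w} (hN : vw w N = 1) (hs : ¬ IsSquare N) :
    (Uw χ w).un N = 1 := by
  have h0 : N ≠ 0 := by
    rintro rfl
    rw [map_zero] at hN
    exact zero_ne_one hN
  rw [sq_iff χ hq h0] at hs
  have h1 : ∀ u : ZMod 2, u ≠ 0 → u = 1 := by decide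
  exact h1 _ fun h => hs ⟨ev_unit hN, h⟩

/-- the values of the norm form of the unramified quadratic extension -/
theorem nrm_val (hq : 2 ∣ Nat.card F - 1) {N : Kw F w} (hN : vw w N = 1) (hs : ¬ IsSquare N)
    (p q : Kw F w) : vw w (p ^ 2 - N * q ^ 2) = max (vw w p) (vw w q) ^ 2 := by
  have h1 : vw w (p ^ 2) = vw w p ^ 2 := map_pow _ _ _
  have h2 : vw w (N * q ^ 2) = vw w q ^ 2 := by rw [map_mul, map_pow, hN, one_mul]
  rcases lt_trichotomy (vw w p) (vw w q) with h | h | h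
  · have h3 : vw w p ^ 2 < vw w q ^ 2 := pow_lt_pow_left₀ h zero_le two_ne_zero
    rw [max_eq_right h.le, ← h2]
    exact (vw w).map_sub_eq_of_lt_right (by rw [h1, h2]; exact h3)
  · rw [h, max_self, ← h2]
    by_cases hq0 : q = 0
    · have hp0 : p = 0 := by
        rw [hq0, map_zero] at h
        exact (vw w).zero_iff.1 h
      rw [hq0, hp0]
      simp
    have hN0 : N ≠ 0 := by
      rintro rfl
      rw [map_zero] at hN
      exact zero_ne_one hN
    have hne : N * q ^ 2 ≠ 0 := mul_ne_zero hN0 (pow_ne_zero 2 hq0)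
    refine le_antisymm ?_ (not_lt.1 fun h4 => ?_)
    · refine ((vw w).map_sub _ _).trans (le_of_eq ?_)
      rw [h1, h2, h, max_self]
    · have h5 : vw w (p ^ 2 / (N * q ^ 2) - 1) < 1 := by
        rw [div_sub_one hne, map_div₀]
        exact (div_lt_one₀ (zero_lt_iff.2 ((vw w).ne_zero_iff.2 hne))).2 h4
      obtain ⟨y, hy, hyx⟩ := sq_near hq h5
      refine hs ⟨p / (q * y), ?_⟩
      rw [div_eq_iff hne] at hyx
      field_simp
      rw [hyx]
      ring
  · have h3 : vw w q ^ 2 < vw w p ^ 2 := pow_lt_pow_left₀ h zero_le two_ne_zero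
    rw [max_eq_left h.le, ← h1]
    exact (vw w).map_sub_eq_of_lt_left (by rw [h1, h2]; exact h3)

end Pool.Agent.H74.FS
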