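import Pool.Agent.H74.FS.GWL
import Pool.Agent.H94.PL.Ech

set_option autoImplicit false

/-!
# [H74 FS GWM] The local images are maximal isotropic; good primes

* `Vw_iso`: `H94.PM.gam_ee`, `H94.PM.gam_iso`.
* `Gw_max`: `b = ee m 2 (un (-1))` is nondegenerate (`ee_nondeg`), `G = Gw`, `card G = card (XX m 2)` (`card_Gw`), `card G * card (orthogonal b G) = card (XX × XX)` (as in `PN.LMAX`, proof of `gam_max`), `G ≤ orthogonal b G`
  (`gam_iso`), so they are equal.  `orthogonal b G = {x | ∀ n ∈ G, b n x = 0}`; `b` is symmetric (`ee_apply`, `BB_symm`, `ZMod 2`).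
* `Vw_max`: `g' ∈ Gw` gives by `lgs_surj`, `Vw_iff` a `δ'` with `Vw δ'`, `lgs δ' = g'`; `gam_ee`; then `Gw_max`, `Vw_iff`.
* `Vw_good`: `w = some P`: `H94.PN.gam_good` needs `D` monic, here only `D ≠ 0`: (→) `H94.PM.lv_good` (as in the proof of `gam_good`; the differences are units: `H94.PL.sd_diff`; `vl (iw (DK c D)) = 0` as `P ∤ D`);
  (←) copy the proof of `gam_good` (it uses only `D ≠ 0`): `Gw = {g | g.1 = 0}` by counting (`card_Gw`), then `Vw_iff`, `lgs_fst`.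
-/

namespace Pool.Agent.H74.FS

open Polynomial WithZero IsDedekindDomain
open Pool.Agent.H94.PL (LChar lm XX DK AK dl)
open Pool.Agent.H94.PM (LU vl IsVln IsSln Gam lgs ee)

variable {F : Type} [Field F] [DecidableEq (RatFunc F)] [Finite F] (χ : LChar F 2) {m : ℕ} {c : F}
  {A : Fin m → F[X]} {D : F[X]}

omit [DecidableEq (RatFunc F)] [Finite F] in
private theorem gwm_al (hm : Nat.Coprime m 2) : 2 ∣ 1 * m + 1 := by
  have h1 : Odd m := Nat.coprime_two_right.1 hm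
  obtain ⟨k, hk⟩ := h1
  exact ⟨k + 1, by omega⟩

/-- the images are isotropic -/
theorem Vw_iso (hm : Nat.Coprime m 2) (hc : c ≠ 0) (hD : D ≠ 0) {w : Pl F}
    {δ δ' : Fin m → Kw F w} (h : Vw c A D w δ) (h' : Vw c A D w δ') :
    ∑ k, (Uw χ w).hs (δ k) (δ' k) = 0 := by
  rw [← H94.PM.gam_ee (Uw χ w) (Vw_ne hc hD h) (Vw_prod hm h) (Vw_ne hc hD h') (Vw_prod hm h')]
  exact H94.PM.gam_iso (Uw χ w) (gwm_al hm) (iw_ne (H94.PL.DK_ne hc hD)) _ _
    (H94.PM.lgs_mem_Gam (Uw χ w) h) _ (H94.PM.lgs_mem_Gam (Uw χ w) h')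

private theorem ee_symm {m : ℕ} (e : ZMod 2) (g g' : XX m 2 × XX m 2) :
    ee m 2 e g g' = ee m 2 e g' g := by
  rw [H94.PM.ee_apply, H94.PM.ee_apply, H94.PL.BB_symm g.2 g'.1, H94.PL.BB_symm g.1 g'.2,
    H94.PL.BB_symm g.1 g'.1, CharTwo.sub_eq_add, CharTwo.sub_eq_add,
    add_comm (H94.PL.BB m 2 g'.1 g.2)]

theorem Gw_max (hq : 2 ∣ Nat.card F - 1) (hm : Nat.Coprime m 2) (hc : c ≠ 0)
    (hA : ∀ i k, i ≠ k → A i ≠ A k) (hD : D ≠ 0) {w : Pl F} {g : XX m 2 × XX m 2}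
    (h : ∀ g' ∈ Gw χ c A D w, ee m 2 ((Uw χ w).un (-1)) g g' = 0) : g ∈ Gw χ c A D w := by
  have hl : Fact (Nat.Prime 2) := ⟨Nat.prime_two⟩
  have hiso := H94.PM.gam_iso (Uw χ w) (gwm_al hm) (iw_ne (w := w) (H94.PL.DK_ne hc hD))
    (fun k => iw w (AK A k))
  have hcard := card_Gw χ hq hm hc hA hD w
  have hfin : Module.Finite (ZMod 2) (XX m 2 × XX m 2) := Module.Finite.of_finite
  set b := ee m 2 ((Uw χ w).un (-1)) with hb
  have hk : LinearMap.ker b = ⊥ := by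
    rw [LinearMap.ker_eq_bot']
    intro x hx
    refine H94.PM.ee_nondeg hm ((Uw χ w).un (-1)) x fun y => ?_
    rw [← hb, hx, LinearMap.zero_apply]
  have h1 := LinearMap.BilinForm.finrank_add_finrank_orthogonal' (B := b) (Gw χ c A D w)
  rw [hk, inf_bot_eq, finrank_bot, add_zero] at h1
  have hle : Gw χ c A D w ≤ LinearMap.BilinForm.orthogonal b (Gw χ c A D w) := by
    intro x hx
    rw [LinearMap.BilinForm.mem_orthogonal_iff]
    intro y hy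
    exact hiso y hy x hx
  have h2 : Module.finrank (ZMod 2) (XX m 2 × XX m 2) =
      2 * Module.finrank (ZMod 2) (XX m 2) := by
    rw [Module.finrank_prod]
    ring
  have h3 : Module.finrank (ZMod 2) (Gw χ c A D w) = Module.finrank (ZMod 2) (XX m 2) := by
    rw [Module.natCard_eq_pow_finrank (K := ZMod 2), Module.natCard_eq_pow_finrank (K := ZMod 2)
      (V := XX m 2), Nat.card_zmod] at hcard
    exact Nat.pow_right_injective (le_refl 2) hcard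
  have h4 : Gw χ c A D w = LinearMap.BilinForm.orthogonal b (Gw χ c A D w) :=
    Submodule.eq_of_le_of_finrank_le hle (by omega)
  rw [h4, LinearMap.BilinForm.mem_orthogonal_iff]
  intro g' hg'
  show b g' g = 0
  rw [hb, ee_symm]
  exact h g' hg'

/-- and maximal isotropic -/
theorem Vw_max (hq : 2 ∣ Nat.card F - 1) (hm : Nat.Coprime m 2) (hc : c ≠ 0)
    (hA : ∀ i k, i ≠ k → A i ≠ A k) (hD : D ≠ 0) {w : Pl F} {δ : Fin m → Kw F w}
    (h0 : ∀ k, δ k ≠ 0) (hy : ∃ y : Kw F w, ∏ k, δ k = y ^ 2)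
    (h : ∀ δ' : Fin m → Kw F w, Vw c A D w δ' → ∑ k, (Uw χ w).hs (δ k) (δ' k) = 0) :
    Vw c A D w δ := by
  rw [Vw_iff χ hq hm hc hD h0 hy]
  refine Gw_max χ hq hm hc hA hD fun g' hg' => ?_
  obtain ⟨δ', h1, h2, h3⟩ := lgs_surj χ hq w g'
  rw [← h3] at hg' ⊢
  rw [H94.PM.gam_ee (Uw χ w) h0 hy h1 h2]
  exact h δ' ((Vw_iff χ hq hm hc hD h1 h2).2 hg')

/-- the condition at the good primes -/
theorem Vw_good (hq : 2 ∣ Nat.card F - 1) (hm : Nat.Coprime m 2) (hc : c ≠ 0)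
    (hA : ∀ i k, i ≠ k → A i ≠ A k) (hD : D ≠ 0) {P : F[X]} (hP : P.Monic ∧ Irreducible P)
    (h1 : ¬ P ∣ D) (h2 : ¬ P ∣ dl A) {δ : Fin m → Kw F (some ⟨P, hP⟩)} (h0 : ∀ k, δ k ≠ 0)
    (hy : ∃ y : Kw F (some ⟨P, hP⟩), ∏ k, δ k = y ^ 2) :
    Vw c A D (some ⟨P, hP⟩) δ ↔ ∀ k, ev (some ⟨P, hP⟩) (δ k) = 0 := by
  have hl : Fact (Nat.Prime 2) := ⟨Nat.prime_two⟩
  obtain ⟨χ⟩ := H94.PL.exists_LChar F Nat.prime_two hq
  have hfst : ∀ δ : Fin m → Kw F (some ⟨P, hP⟩), Vw c A D (some ⟨P, hP⟩) δ →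
      ∀ k, ev (some ⟨P, hP⟩) (δ k) = 0 := by
    intro δ hδ k
    have hv0 : ((2 : ℕ) : ℤ) ∣ vl (H94.PL.wP P hP.2) (H94.PL.toP P hP.2 (DK c D)) := by
      rw [H94.PM.vl_DK_good hc hP.2 h1]
      exact dvd_zero _
    refine (ZMod.intCast_zmod_eq_zero_iff_dvd _ _).2 ?_
    exact H94.PM.lv_good (A := fun k => H94.PL.toP P hP.2 (AK A k)) (H94.PL.wP_self P hP.2)
      Nat.prime_two hm (gwm_al hm) (iw_ne (w := some ⟨P, hP⟩) (H94.PL.DK_ne hc hD)) hv0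
      (fun i k hik => H94.PL.sd_diff hP.2 h2 hik) hδ k
  refine ⟨hfst δ, fun hg => ?_⟩
  rw [Vw_iff χ hq hm hc hD h0 hy]
  have hfst' : ∀ g ∈ Gw χ c A D (some ⟨P, hP⟩), g.1 = 0 := by
    intro g hg'
    obtain ⟨δ', h3, h4, h5⟩ := lgs_surj χ hq (some ⟨P, hP⟩) g
    rw [← h5] at hg' ⊢
    apply Subtype.ext
    funext k
    rw [H94.PM.lgs_fst _ h3 h4]
    exact hfst δ' ((Vw_iff χ hq hm hc hD h3 h4).2 hg') k
  have hcard := card_Gw χ hq hm hc hA hD (some ⟨P, hP⟩)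
  have : Finite (XX m 2) := inferInstance
  have hinj : Function.Injective (fun x : Gw χ c A D (some ⟨P, hP⟩) => x.1.2) := by
    intro x y hxy
    apply Subtype.ext
    exact Prod.ext ((hfst' x.1 x.2).trans (hfst' y.1 y.2).symm) hxy
  obtain ⟨x, hx⟩ := (hinj.bijective_of_nat_card_le hcard.ge).2
    (lgs (Uw χ (some ⟨P, hP⟩)) δ).2
  have h6 : (lgs (Uw χ (some ⟨P, hP⟩)) δ).1 = 0 := by
    apply Subtype.ext
    funext k
    rw [H94.PM.lgs_fst _ h0 hy]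
    exact hg k
  have h7 : lgs (Uw χ (some ⟨P, hP⟩)) δ = x.1 :=
    Prod.ext (h6.trans (hfst' x.1 x.2).symm) hx.symm
  rw [h7]
  exact x.2

end Pool.Agent.H74.FS
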