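import Pool.Agent.H74.FS.REC
import Pool.Agent.H74.FS.GWM

set_option autoImplicit false

/-!
# [H74 FS GLO] The global classes which are even outside `S`

`Es S η`: `η ∈ (K^*)^m`, the product is a square, all valuations are even at the places outside `S`.
* `es_one`, `es_mul`: immediate (`ev_mul`, `iw_ne`).
* `glo_hs`: for `η, η'` with `Es S`: `∑ w ∈ S, ∑ k, hw χ w (η k) (η' k) = 0` (`Finset.sum_comm`, `hw_sum` for each `k`).
* `glo`.  `L` = the set of the families `g` with a `η` as in the statement; it is closed under addition: `lgs (η η') = lgs η + lgs η'` (componentwise by `lgs_fst`, `lgs_snd`, `vl_mul`, `U.mul`), `0`: `η = 1`; scalars are `0`, `1`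
  (`ZMod 2`: `c • x` by cases, or `Submodule` from `AddSubgroup` via `AddSubgroup.toZModSubmodule`).
  Isotropic: `H94.PM.gam_ee` turns `ee` into `∑ k, hs`, then `glo_hs`.
  Number of elements: let `c₀ : F`, `c₀ ≠ 0`, `χ.lg c₀ = 1` (`χ.surj`), `T` the finset of the `P` with `some P ∈ S`.  For `z : S → XX m 2` put `η k = algebraMap (C c₀ ^ (z none).1 k).val * ∏ P ∈ T, P ^ ((z P).1 k).val)`.
  The product over `k` is a square: the exponents `∑ k, ((z P).1 k).val` are even (their class in `ZMod 2` is `0`, `XX_sum`).  `η` is even outside `S` (`ev_poly_zero`: `P` monic irreducible, not in `T`).  At `w = some P`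
  the first component of `lgs` is `z P` (`ev_self`, `ev_poly_zero`), at `w = none` the second component is `z none` (`un_none`: the leading coefficient is `c₀ ^ ..`).  So the map `z ↦ g` is injective
  from `S → XX m 2` to `L`, `card (XX m 2) ^ card S ≤ card L`, and `card (S → XX × XX) = (card (XX m 2) ^ card S) ^ 2`.
-/

namespace Pool.Agent.H74.FS

open Polynomial WithZero IsDedekindDomain
open Pool.Agent.H94.PL (LChar lm XX DK AK dl)
open Pool.Agent.H94.PM (LU vl IsVln IsSln Gam lgs ee)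

variable {F : Type} [Field F] [DecidableEq (RatFunc F)]

/-- product a square and even outside `S` -/
structure Es {m : ℕ} (S : Finset (Pl F)) (η : Fin m → RatFunc F) : Prop where
  ne : ∀ k, η k ≠ 0
  prod : ∃ y : RatFunc F, ∏ k, η k = y ^ 2
  even : ∀ w, w ∉ S → ∀ k, ev w (iw w (η k)) = 0

variable [Finite F] (χ : LChar F 2) {m : ℕ} {c : F} {A : Fin m → F[X]} {D : F[X]}

omit [Finite F] in
private theorem ev_one (w : Pl F) : ev w (1 : Kw F w) = 0 := by
  unfold ev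
  rw [H94.PM.vl_one, Int.cast_zero]

omit [Finite F] in
private theorem ev_pow (w : Pl F) (x : Kw F w) (n : ℕ) : ev w (x ^ n) = n * ev w x := by
  unfold ev
  rw [H94.PM.vl_pow]
  push_cast
  rfl

omit [Finite F] in
theorem es_one (S : Finset (Pl F)) : Es S (fun _ : Fin m => (1 : RatFunc F)) where
  ne := fun _ => one_ne_zero
  prod := ⟨1, by simp⟩
  even := fun w _ _ => by rw [map_one, ev_one]

omit [Finite F] in
theorem es_mul {S : Finset (Pl F)} {η η' : Fin m → RatFunc F} (h : Es S η) (h' : Es S η') :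
    Es S (fun k => η k * η' k) where
  ne := fun k => mul_ne_zero (h.ne k) (h'.ne k)
  prod := by
    obtain ⟨y, hy⟩ := h.prod
    obtain ⟨y', hy'⟩ := h'.prod
    exact ⟨y * y', by rw [Finset.prod_mul_distrib, hy, hy', mul_pow]⟩
  even := fun w hw k => by
    rw [map_mul, ev_mul (iw_ne (h.ne k)) (iw_ne (h'.ne k)), h.even w hw k, h'.even w hw k,
      add_zero]

theorem glo_hs {S : Finset (Pl F)} {η η' : Fin m → RatFunc F} (h : Es S η) (h' : Es S η') :
    ∑ w ∈ S, ∑ k, hw χ w (η k) (η' k) = 0 := by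
  rw [Finset.sum_comm]
  refine Finset.sum_eq_zero fun k _ => ?_
  exact hw_sum χ S (h.ne k) (h'.ne k) fun w hw => ⟨h.even w hw k, h'.even w hw k⟩

omit [Finite F] in
private theorem es_iw_prod {S : Finset (Pl F)} {η : Fin m → RatFunc F} (h : Es S η) (w : Pl F) :
    ∃ y : Kw F w, ∏ k, iw w (η k) = y ^ 2 := by
  obtain ⟨y, hy⟩ := h.prod
  exact ⟨iw w y, by rw [← map_prod, hy, map_pow]⟩

private theorem lgs_one (w : Pl F) : lgs (Uw χ w) (fun _ : Fin m => (1 : Kw F w)) = 0 := by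
  have h : ∃ y : Kw F w, ∏ _k : Fin m, (1 : Kw F w) = y ^ 2 := ⟨1, by simp⟩
  refine Prod.ext (Subtype.ext (funext fun k => ?_)) (Subtype.ext (funext fun k => ?_))
  · rw [H94.PM.lgs_fst _ (fun _ => one_ne_zero) h, H94.PM.vl_one, Int.cast_zero]
    rfl
  · rw [H94.PM.lgs_snd _ (fun _ => one_ne_zero) h, H94.PM.LU.un_one]
    rfl

private theorem lgs_mul' {w : Pl F} {δ δ' : Fin m → Kw F w} (h0 : ∀ k, δ k ≠ 0)
    (h : ∃ y : Kw F w, ∏ k, δ k = y ^ 2) (h0' : ∀ k, δ' k ≠ 0)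
    (h' : ∃ y : Kw F w, ∏ k, δ' k = y ^ 2) :
    lgs (Uw χ w) (fun k => δ k * δ' k) = lgs (Uw χ w) δ + lgs (Uw χ w) δ' := by
  have h1 : ∀ k, δ k * δ' k ≠ 0 := fun k => mul_ne_zero (h0 k) (h0' k)
  have h2 : ∃ y : Kw F w, ∏ k, (δ k * δ' k) = y ^ 2 := by
    obtain ⟨y, hy⟩ := h
    obtain ⟨y', hy'⟩ := h'
    exact ⟨y * y', by rw [Finset.prod_mul_distrib, hy, hy', mul_pow]⟩
  refine Prod.ext (Subtype.ext (funext fun k => ?_)) (Subtype.ext (funext fun k => ?_))
  · rw [H94.PM.lgs_fst _ h1 h2]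
    change _ = (lgs (Uw χ w) δ).1.1 k + (lgs (Uw χ w) δ').1.1 k
    rw [H94.PM.lgs_fst _ h0 h, H94.PM.lgs_fst _ h0' h', H94.PM.vl_mul (h0 k) (h0' k)]
    push_cast
    rfl
  · rw [H94.PM.lgs_snd _ h1 h2]
    change _ = (lgs (Uw χ w) δ).2.1 k + (lgs (Uw χ w) δ').2.1 k
    rw [H94.PM.lgs_snd _ h0 h, H94.PM.lgs_snd _ h0' h', (Uw χ w).mul _ _ (h0 k) (h0' k)]

/-- the polynomials -/
private noncomputable def gp (S : Finset (Pl F)) (c₀ : F) (z : Pl F → XX m 2) (k : Fin m) : F[X] :=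
  C c₀ ^ ((z none).1 k).val * ∏ P ∈ S.eraseNone, P.1 ^ ((z (some P)).1 k).val

omit [DecidableEq (RatFunc F)] [Finite F] in
private theorem gp_ne {S : Finset (Pl F)} {c₀ : F} (hc : c₀ ≠ 0) (z : Pl F → XX m 2) (k : Fin m) :
    gp S c₀ z k ≠ 0 :=
  mul_ne_zero (pow_ne_zero _ (C_ne_zero.2 hc))
    (Finset.prod_ne_zero_iff.2 fun P _ => pow_ne_zero _ P.2.1.ne_zero)

omit [DecidableEq (RatFunc F)] [Finite F] in
private theorem ndvd_gp {S : Finset (Pl F)} {c₀ : F} (hc : c₀ ≠ 0) (z : Pl F → XX m 2) (k : Fin m)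
    {P : F[X]} (hP : P.Monic ∧ Irreducible P) (hS : (some ⟨P, hP⟩ : Pl F) ∉ S) :
    ¬ P ∣ gp S c₀ z k := by
  intro h
  have hpr := hP.2.prime
  rcases hpr.dvd_or_dvd h with h1 | h1
  · have h2 := hpr.dvd_of_dvd_pow h1
    exact hP.2.not_isUnit (isUnit_of_dvd_unit h2 (isUnit_C.2 (isUnit_iff_ne_zero.2 hc)))
  · obtain ⟨Q, hQ, h2⟩ := hpr.exists_mem_finset_dvd h1
    have h3 := hpr.dvd_of_dvd_pow h2
    have h4 : P = Q.1 := eq_of_monic_of_associated hP.1 Q.2.1 (hP.2.associated_of_dvd Q.2.2 h3)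
    apply hS
    rw [Finset.mem_eraseNone] at hQ
    have h5 : (⟨P, hP⟩ : {P : F[X] // P.Monic ∧ Irreducible P}) = Q := Subtype.ext h4
    rw [h5]
    exact hQ

omit [DecidableEq (RatFunc F)] [Finite F] in
private theorem even_sum (x : XX m 2) : Even (∑ k, (x.1 k).val) := by
  rw [even_iff_two_dvd, ← ZMod.natCast_eq_zero_iff]
  push_cast
  simp only [ZMod.natCast_val, ZMod.cast_id', id_eq]
  exact H94.PL.XX_sum x

omit [DecidableEq (RatFunc F)] [Finite F] in
private theorem gp_prod (S : Finset (Pl F)) (c₀ : F) (z : Pl F → XX m 2) :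
    ∃ y : F[X], ∏ k, gp S c₀ z k = y ^ 2 := by
  have h : IsSquare (∏ k, gp S c₀ z k) := by
    unfold gp
    rw [Finset.prod_mul_distrib, Finset.prod_comm]
    refine IsSquare.mul ?_ ?_
    · rw [Finset.prod_pow_eq_pow_sum]
      exact (even_sum (z none)).isSquare_pow _
    · refine Finset.isSquare_prod _ fun P _ => ?_
      rw [Finset.prod_pow_eq_pow_sum]
      exact (even_sum (z (some P))).isSquare_pow _
  obtain ⟨y, hy⟩ := h
  exact ⟨y, by rw [hy, sq]⟩

omit [DecidableEq (RatFunc F)] [Finite F] in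
private theorem gp_lead (S : Finset (Pl F)) (c₀ : F) (z : Pl F → XX m 2) (k : Fin m) :
    (gp S c₀ z k).leadingCoeff = c₀ ^ ((z none).1 k).val := by
  unfold gp
  have h : (∏ P ∈ S.eraseNone, P.1 ^ ((z (some P)).1 k).val : F[X]).Monic :=
    monic_prod_of_monic _ _ fun P _ => P.2.1.pow _
  rw [leadingCoeff_mul, h.leadingCoeff, mul_one, ← C_pow, leadingCoeff_C]

/-- the classes -/
private noncomputable def et (S : Finset (Pl F)) (c₀ : F) (z : Pl F → XX m 2) (k : Fin m) :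
    RatFunc F :=
  algebraMap F[X] (RatFunc F) (gp S c₀ z k)

omit [Finite F] in
private theorem et_es {S : Finset (Pl F)} (hS : (none : Pl F) ∈ S) {c₀ : F} (hc : c₀ ≠ 0)
    (z : Pl F → XX m 2) : Es S (et S c₀ z) where
  ne := fun k => RatFunc.algebraMap_ne_zero (gp_ne hc z k)
  prod := by
    obtain ⟨y, hy⟩ := gp_prod S c₀ z
    exact ⟨algebraMap F[X] (RatFunc F) y, by
      unfold et
      rw [← map_prod, hy, map_pow]⟩
  even := by
    rintro (_ | ⟨P, hP⟩) hw k
    · exact absurd hS hw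
    · exact ev_poly_zero hP.1 hP.2 (ndvd_gp hc z k hP hw)

omit [Finite F] in
private theorem ev_et {S : Finset (Pl F)} {c₀ : F} (hc : c₀ ≠ 0) (z : Pl F → XX m 2) (k : Fin m)
    {P : F[X]} (hP : P.Monic ∧ Irreducible P) (hS : (some ⟨P, hP⟩ : Pl F) ∈ S) :
    ev (some ⟨P, hP⟩ : Pl F) (iw _ (et S c₀ z k)) = (z (some ⟨P, hP⟩)).1 k := by
  classical
  have h1 : iw (some ⟨P, hP⟩ : Pl F) (et S c₀ z k) =
      iw (some ⟨P, hP⟩ : Pl F) (algebraMap F[X] (RatFunc F) (C c₀)) ^ ((z none).1 k).val *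
        ∏ Q ∈ S.eraseNone, iw (some ⟨P, hP⟩ : Pl F) (algebraMap F[X] (RatFunc F) Q.1) ^
          ((z (some Q)).1 k).val := by
    unfold et gp
    simp only [map_mul, map_pow, map_prod]
  have h2 : ¬ P ∣ C c₀ := fun h =>
    hP.2.not_isUnit (isUnit_of_dvd_unit h (isUnit_C.2 (isUnit_iff_ne_zero.2 hc)))
  have h3 : ∀ Q : {P : F[X] // P.Monic ∧ Irreducible P},
      iw (some ⟨P, hP⟩ : Pl F) (algebraMap F[X] (RatFunc F) Q.1) ≠ 0 := fun Q =>
    iw_ne (RatFunc.algebraMap_ne_zero Q.2.1.ne_zero)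
  rw [h1, ev_mul (pow_ne_zero _ (iw_ne (RatFunc.algebraMap_ne_zero (C_ne_zero.2 hc))))
    (Finset.prod_ne_zero_iff.2 fun Q _ => pow_ne_zero _ (h3 Q)), ev_pow,
    ev_poly_zero hP.1 hP.2 h2, mul_zero, zero_add,
    ev_prod _ _ fun Q _ => pow_ne_zero _ (h3 Q),
    Finset.sum_eq_single (⟨P, hP⟩ : {P : F[X] // P.Monic ∧ Irreducible P})]
  · rw [ev_pow, ev_self hP.1 hP.2, mul_one]
    simp only [ZMod.natCast_val, ZMod.cast_id', id_eq]
  · intro Q _ hQ
    have h4 : ¬ P ∣ Q.1 := fun h => hQ (Subtype.ext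
      (eq_of_monic_of_associated hP.1 Q.2.1 (hP.2.associated_of_dvd Q.2.2 h)).symm)
    rw [ev_pow, ev_poly_zero hP.1 hP.2 h4, mul_zero]
  · intro h
    exact absurd (Finset.mem_eraseNone.2 hS) h

private theorem un_et {S : Finset (Pl F)} {c₀ : F} (hc : c₀ ≠ 0) (hl : χ.lg c₀ = 1)
    (z : Pl F → XX m 2) (k : Fin m) :
    (Uw χ (none : Pl F)).un (iw _ (et S c₀ z k)) = (z none).1 k := by
  unfold et
  rw [un_none χ (gp_ne hc z k), gp_lead, H94.PL.lg_pow χ hc, hl, mul_one]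
  simp only [ZMod.natCast_val, ZMod.cast_id', id_eq]

theorem glo (hq : 2 ∣ Nat.card F - 1) (hm : Nat.Coprime m 2) (S : Finset (Pl F))
    (hS : (none : Pl F) ∈ S) :
    ∃ L : Submodule (ZMod 2) (S → XX m 2 × XX m 2),
      (∀ g, g ∈ L ↔ ∃ η : Fin m → RatFunc F, Es S η ∧
        ∀ w : S, lgs (Uw χ w.1) (fun k => iw w.1 (η k)) = g w) ∧
      (∀ g ∈ L, ∀ g' ∈ L, ∑ w : S, ee m 2 ((Uw χ w.1).un (-1)) (g w) (g' w) = 0) ∧
      Nat.card (S → XX m 2 × XX m 2) ≤ Nat.card L ^ 2 := by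
  classical
  let L : AddSubmonoid (S → XX m 2 × XX m 2) :=
    { carrier := {g | ∃ η : Fin m → RatFunc F, Es S η ∧
        ∀ w : S, lgs (Uw χ w.1) (fun k => iw w.1 (η k)) = g w}
      zero_mem' := by
        refine ⟨_, es_one S, fun w => ?_⟩
        simp only [map_one]
        rw [lgs_one]
        rfl
      add_mem' := by
        rintro g g' ⟨η, h, hg⟩ ⟨η', h', hg'⟩
        refine ⟨_, es_mul h h', fun w => ?_⟩
        simp only [map_mul]
        rw [lgs_mul' χ (fun k => iw_ne (h.ne k)) (es_iw_prod h w.1) (fun k => iw_ne (h'.ne k))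
          (es_iw_prod h' w.1), hg, hg']
        rfl }
  let L' : Submodule (ZMod 2) (S → XX m 2 × XX m 2) :=
    { L with
      smul_mem' := by
        intro c g hg
        have hc : c = 0 ∨ c = 1 := by
          revert c
          decide
        rcases hc with rfl | rfl
        · rw [zero_smul]
          exact L.zero_mem
        · rw [one_smul]
          exact hg }
  have hL : ∀ g, g ∈ L' ↔ ∃ η : Fin m → RatFunc F, Es S η ∧
        ∀ w : S, lgs (Uw χ w.1) (fun k => iw w.1 (η k)) = g w := fun g => Iff.rfl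
  refine ⟨L', hL, ?_, ?_⟩
  · intro g hg g' hg'
    obtain ⟨η, h, h1⟩ := (hL g).1 hg
    obtain ⟨η', h', h1'⟩ := (hL g').1 hg'
    rw [← glo_hs χ h h', ← Finset.sum_coe_sort S]
    refine Finset.sum_congr rfl fun w _ => ?_
    rw [← h1 w, ← h1' w, H94.PM.gam_ee (Uw χ w.1) (fun k => iw_ne (h.ne k)) (es_iw_prod h w.1)
      (fun k => iw_ne (h'.ne k)) (es_iw_prod h' w.1)]
    rfl
  · obtain ⟨c₀, hc, hl⟩ := χ.surj
    let ex : (S → XX m 2) → Pl F → XX m 2 := fun z w => if h : w ∈ S then z ⟨w, h⟩ else 0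
    have hex : ∀ (z : S → XX m 2) (w : S), ex z w.1 = z w := by
      intro z w
      simp only [ex, dif_pos w.2]
    let f : (S → XX m 2) → L' := fun z =>
      ⟨fun w => lgs (Uw χ w.1) (fun k => iw w.1 (et S c₀ (ex z) k)),
        (hL _).2 ⟨et S c₀ (ex z), et_es hS hc (ex z), fun w => rfl⟩⟩
    have hf : Function.Injective f := by
      intro z z' hz
      have h1 : ∀ w : S, lgs (Uw χ w.1) (fun k => iw w.1 (et S c₀ (ex z) k)) =
          lgs (Uw χ w.1) (fun k => iw w.1 (et S c₀ (ex z') k)) := fun w =>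
        congrFun (congrArg Subtype.val hz) w
      funext ⟨w, hw⟩
      have h2 := h1 ⟨w, hw⟩
      have e1 := et_es hS hc (ex z)
      have e2 := et_es hS hc (ex z')
      refine Subtype.ext (funext fun k => ?_)
      rw [← hex z ⟨w, hw⟩, ← hex z' ⟨w, hw⟩]
      rcases w with _ | ⟨P, hP⟩
      · have h3 := congrFun (congrArg Subtype.val (congrArg Prod.snd h2)) k
        rw [H94.PM.lgs_snd _ (fun k => iw_ne (e1.ne k)) (es_iw_prod e1 _),
          H94.PM.lgs_snd _ (fun k => iw_ne (e2.ne k)) (es_iw_prod e2 _)] at h3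
        rw [un_et χ hc hl, un_et χ hc hl] at h3
        exact h3
      · have h3 := congrFun (congrArg Subtype.val (congrArg Prod.fst h2)) k
        rw [H94.PM.lgs_fst _ (fun k => iw_ne (e1.ne k)) (es_iw_prod e1 _),
          H94.PM.lgs_fst _ (fun k => iw_ne (e2.ne k)) (es_iw_prod e2 _)] at h3
        have h4 := ev_et hc (ex z) k hP hw
        have h5 := ev_et hc (ex z') k hP hw
        rw [← h4, ← h5]
        exact h3
    have h1 : Nat.card (S → XX m 2) ≤ Nat.card L' := Nat.card_le_card_of_injective f hf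
    have h2 : Nat.card (S → XX m 2 × XX m 2) = Nat.card (S → XX m 2) ^ 2 := by
      rw [Nat.card_congr (Equiv.arrowProdEquivProdArrow S (fun _ => XX m 2) (fun _ => XX m 2)),
        Nat.card_prod, sq]
    rw [h2]
    exact Nat.pow_le_pow_left h1 2

end Pool.Agent.H74.FS
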