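import Pool.Agent.H74.FS.SYM

set_option autoImplicit false

/-!
# [H74 FS GWL] The local conditions

`Vw c A D w δ`: `δ` is a value of the descent map over `Kw F w`.  `α = 1`, `2 ∣ 1 * m + 1` as `m` is odd (`Nat.Coprime m 2`).
* `card_Gw`: cases of `w`: `H94.PN.gam_max_P`, `H94.PN.gam_max_I`; `iw w (DK c D) ≠ 0` (`H94.PL.DK_ne`, `iw_ne`), the `iw w (AK A k)` are different (injectivity of `iw w` and of `algebraMap`).
* `Vw_iff`: `H94.PM.lgs_mem_Gam`, `H94.PN.isVln_of_mem` (complete, uniformizer `unif_w`, `val_two_w`).  `Vw_ne`: `H94.PM.isVln_ne`.  `Vw_prod`: `H94.PM.prod_of_isVln`.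
* `lgs_surj`: for each `k` choose with `exists_cls` an element `δ k` with `ev = g.1 k`, `un = g.2 k`; the product has `ev = 0` and `un = 0` (`XX_sum`, `ev_prod`, `LU.un_prod`), so it is a square (`sq_of`); `lgs_fst`,
  `lgs_snd`.
* `Vw_mul`, `Vw_sq`: `H94.PM.isVln_mul`, `isVln_congr`.  `Vw_cD`: `H94.PM.isVln_scale`.
* `sln_iff`: `IsSln` has the fields `ne, prod, fin, inf`; `fin` at `v : HeightOneSpectrum F[X]`; every `v` is `LT.place P hP` with `P` monic irreducible (`exists_place` in `H94.PN.SRJ2`, private: copy it).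
-/

namespace Pool.Agent.H74.FS

open Polynomial WithZero IsDedekindDomain
open Pool.Agent.H94.PL (LChar lm XX DK AK dl)
open Pool.Agent.H94.PM (LU vl IsVln IsSln Gam lgs)

variable {F : Type} [Field F] [DecidableEq (RatFunc F)]

/-- the values of the descent map over the completion -/
def Vw {m : ℕ} (c : F) (A : Fin m → F[X]) (D : F[X]) (w : Pl F) (δ : Fin m → Kw F w) : Prop :=
  IsVln 2 1 (iw w (DK c D)) (fun k => iw w (AK A k)) δ

variable [Finite F] (χ : LChar F 2) {m : ℕ} {c : F} {A : Fin m → F[X]} {D : F[X]}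

omit [DecidableEq (RatFunc F)] [Finite F] in
private theorem gwl_al (hm : Nat.Coprime m 2) : 2 ∣ 1 * m + 1 := by
  have h1 : Odd m := Nat.coprime_two_right.1 hm
  obtain ⟨k, hk⟩ := h1
  exact ⟨k + 1, by omega⟩

omit [Finite F] in
private theorem gwl_A (hA : ∀ i k, i ≠ k → A i ≠ A k) (w : Pl F) :
    ∀ i k, i ≠ k → (fun k => iw w (AK A k)) i ≠ (fun k => iw w (AK A k)) k :=
  fun i k hik he => hA i k hik (RatFunc.algebraMap_injective F ((iw w).injective he))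

theorem card_Gw (hq : 2 ∣ Nat.card F - 1) (hm : Nat.Coprime m 2) (hc : c ≠ 0)
    (hA : ∀ i k, i ≠ k → A i ≠ A k) (hD : D ≠ 0) (w : Pl F) :
    Nat.card (Gw χ c A D w) = Nat.card (XX m 2) := by
  have hD0 : iw w (DK c D) ≠ 0 := iw_ne (H94.PL.DK_ne hc hD)
  have hAA := gwl_A hA w
  rcases w with _ | ⟨P, hP⟩
  · exact H94.PN.gam_max_I χ hq hm (gwl_al hm) hD0 hAA
  · exact H94.PN.gam_max_P χ hq hm (gwl_al hm) hP.1 hP.2 hD0 hAA

theorem Vw_ne (hc : c ≠ 0) (hD : D ≠ 0) {w : Pl F} {δ : Fin m → Kw F w} (h : Vw c A D w δ)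
    (k : Fin m) : δ k ≠ 0 :=
  H94.PM.isVln_ne (iw_ne (H94.PL.DK_ne hc hD)) h k

theorem Vw_prod (hm : Nat.Coprime m 2) {w : Pl F} {δ : Fin m → Kw F w} (h : Vw c A D w δ) :
    ∃ y : Kw F w, ∏ k, δ k = y ^ 2 :=
  H94.PM.prod_of_isVln Nat.prime_two (gwl_al hm) h

theorem Vw_iff (hq : 2 ∣ Nat.card F - 1) (hm : Nat.Coprime m 2) (hc : c ≠ 0) (hD : D ≠ 0)
    {w : Pl F} {δ : Fin m → Kw F w} (h0 : ∀ k, δ k ≠ 0) (hy : ∃ y : Kw F w, ∏ k, δ k = y ^ 2) :
    Vw c A D w δ ↔ lgs (Uw χ w) δ ∈ Gw χ c A D w := by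
  obtain ⟨ϖ, hϖ⟩ := unif_w (F := F) w
  refine ⟨fun h => H94.PM.lgs_mem_Gam (Uw χ w) h, fun h => ?_⟩
  exact H94.PN.isVln_of_mem hϖ (val_two_w hq w) (Uw χ w) (gwl_al hm)
    (iw_ne (H94.PL.DK_ne hc hD)) h0 hy h

theorem lgs_surj (hq : 2 ∣ Nat.card F - 1) (w : Pl F) (g : XX m 2 × XX m 2) :
    ∃ δ : Fin m → Kw F w, (∀ k, δ k ≠ 0) ∧ (∃ y : Kw F w, ∏ k, δ k = y ^ 2) ∧
      lgs (Uw χ w) δ = g := by
  choose G hG0 hG1 hG2 using fun k => exists_cls χ w (g.1.1 k) (g.2.1 k)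
  have h0 : ∀ k, (fun k => iw w (algebraMap F[X] (RatFunc F) (G k))) k ≠ 0 := fun k =>
    iw_ne fun h => hG0 k ((map_eq_zero_iff _ (RatFunc.algebraMap_injective F)).1 h)
  have hy : ∃ y : Kw F w, ∏ k, (fun k => iw w (algebraMap F[X] (RatFunc F) (G k))) k = y ^ 2 := by
    obtain ⟨y, _, hy⟩ := sq_of χ hq (w := w)
      (x := ∏ k, (fun k => iw w (algebraMap F[X] (RatFunc F) (G k))) k)
      (Finset.prod_ne_zero_iff.2 fun k _ => h0 k)
      (by
        rw [ev_prod _ _ (fun k _ => h0 k), Finset.sum_congr rfl fun k _ => hG1 k]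
        exact H94.PL.XX_sum g.1)
      (by
        rw [LU.un_prod _ _ _ (fun k _ => h0 k), Finset.sum_congr rfl fun k _ => hG2 k]
        exact H94.PL.XX_sum g.2)
    exact ⟨y, hy⟩
  refine ⟨_, h0, hy, ?_⟩
  refine Prod.ext (Subtype.ext (funext fun k => ?_)) (Subtype.ext (funext fun k => ?_))
  · rw [H94.PM.lgs_fst (Uw χ w) h0 hy k]
    exact hG1 k
  · rw [H94.PM.lgs_snd (Uw χ w) h0 hy k]
    exact hG2 k

omit [Finite F] in
theorem Vw_mul {w : Pl F} {δ δ' : Fin m → Kw F w} (h : Vw c A D w δ) (h' : Vw c A D w δ') :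
    Vw c A D w (fun k => δ k * δ' k) :=
  H94.PM.isVln_mul h h'

omit [Finite F] in
theorem Vw_sq {w : Pl F} {δ γ : Fin m → Kw F w} (h : Vw c A D w δ) (hγ : ∀ k, γ k ≠ 0) :
    Vw c A D w (fun k => δ k * γ k ^ 2) :=
  H94.PM.isVln_congr h hγ

omit [Finite F] in
/-- the condition depends only on the square class of the twist -/
theorem Vw_cD {c' : F} {D' : F[X]} {w : Pl F} {y : Kw F w} (hy : y ≠ 0)
    (h : iw w (DK c' D') = iw w (DK c D) * y ^ 2) {δ : Fin m → Kw F w} (h' : Vw c A D w δ) :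
    Vw c' A D' w δ := by
  unfold Vw
  rw [h]
  exact H94.PM.isVln_scale hy h'

omit [DecidableEq (RatFunc F)] [Finite F] in
private theorem gwl_place (v : HeightOneSpectrum F[X]) :
    ∃ (P : F[X]) (_ : P.Monic) (hP : Irreducible P), v = H94.LT.place P hP := by
  obtain ⟨g, hg⟩ := (IsPrincipalIdealRing.principal v.asIdeal).principal
  have hg' : v.asIdeal = Ideal.span {g} := hg
  have hg0 : g ≠ 0 := by
    rintro rfl
    apply v.ne_bot
    rw [hg', Ideal.span_singleton_eq_bot]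
  have hpr : Prime g := by
    have h1 := v.isPrime
    rw [hg'] at h1
    exact (Ideal.span_singleton_prime hg0).1 h1
  have hu : IsUnit (C g.leadingCoeff⁻¹) :=
    isUnit_C.2 (isUnit_iff_ne_zero.2 (inv_ne_zero (leadingCoeff_ne_zero.2 hg0)))
  have hass : Associated g (g * C g.leadingCoeff⁻¹) := (associated_mul_unit_left _ _ hu).symm
  refine ⟨g * C g.leadingCoeff⁻¹, monic_mul_leadingCoeff_inv hg0,
    hass.irreducible hpr.irreducible, ?_⟩
  apply HeightOneSpectrum.ext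
  show v.asIdeal = Ideal.span {g * C g.leadingCoeff⁻¹}
  rw [hg']
  exact Ideal.span_singleton_eq_span_singleton.2 hass

omit [Finite F] in
theorem sln_iff {δ : Fin m → RatFunc F} : IsSln 2 1 c A D δ ↔ (∀ k, δ k ≠ 0) ∧
    (∃ y : RatFunc F, ∏ k, δ k = y ^ 2) ∧ ∀ w : Pl F, Vw c A D w (fun k => iw w (δ k)) := by
  constructor
  · intro h
    refine ⟨h.ne, h.prod, ?_⟩
    rintro (_ | ⟨P, hP⟩)
    · exact h.inf
    · exact h.fin (H94.LT.place P hP.2)
  · rintro ⟨h1, h2, h3⟩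
    refine ⟨h1, h2, ?_, h3 none⟩
    intro v
    obtain ⟨P, hP, hi, rfl⟩ := gwl_place v
    exact h3 (some ⟨P, hP, hi⟩)

end Pool.Agent.H74.FS
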