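import Pool.Agent.H94.PC.Facs

set_option autoImplicit false

/-!
# [H74 FS HEA] The dimension of a lattice of triples of polynomials

`M ≠ 0`, for every prime `P ∣ M` a linear form with coefficients `l P`; `Lam M l d` is the `F`-space of the triples `x` with `x i` of degree `< d i` and `P ∣ ∑ i, l P i * x i` for all `P ∈ pf M`.  Its dimension is at
least `∑ d i - deg M`.
Proof.  `E = {x | ∀ i, x i ∈ degreeLT F (d i)}` is isomorphic to `∀ i, degreeLT F (d i)`, of dimension `∑ d i` (`degreeLTEquiv`, `Module.finrank_pi_fintype`).  The linear map `φ : E → ∀ P : pf M, AdjoinRoot P.1`,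
`x ↦ mk (∑ i, l P i * x i)` has the kernel `Lam` (`AdjoinRoot.mk_eq_zero`), and `finrank (AdjoinRoot P) = deg P` (`AdjoinRoot.powerBasis`, `PowerBasis.finrank`, `P` monic), so the dimension of the range is at most
`∑ P ∈ pf M, deg P ≤ deg M`: the product of the elements of `pf M` divides `M` (pairwise coprime: different monic irreducibles; `Finset.prod_dvd_of_coprime`; or a lemma of `H94.PC.Facs`).  `LinearMap.finrank_range_add_finrank_ker`.
-/

namespace Pool.Agent.H74.FS

open Polynomial
open Pool.Agent.H94.PC (pf mem_pf mem_pf')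

variable {F : Type} [Field F] [Finite F]

/-- triples of bounded degree with a linear condition at each prime of `M` -/
def Lam (M : F[X]) (l : F[X] → Fin 3 → F[X]) (d : Fin 3 → ℕ) : Submodule F (Fin 3 → F[X]) where
  carrier := {x | (∀ i, x i ∈ degreeLT F (d i)) ∧ ∀ P ∈ pf M, P ∣ ∑ i, l P i * x i}
  add_mem' := by
    rintro x y ⟨h1, h2⟩ ⟨h3, h4⟩
    refine ⟨fun i => (degreeLT F (d i)).add_mem (h1 i) (h3 i), fun P hP => ?_⟩
    have e : ∑ i, l P i * (x + y) i = (∑ i, l P i * x i) + ∑ i, l P i * y i := by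
      rw [← Finset.sum_add_distrib]
      exact Finset.sum_congr rfl fun i _ => by rw [Pi.add_apply, mul_add]
    rw [e]
    exact dvd_add (h2 P hP) (h4 P hP)
  zero_mem' := ⟨fun i => (degreeLT F (d i)).zero_mem, fun P _ => by simp⟩
  smul_mem' := by
    rintro c x ⟨h1, h2⟩
    refine ⟨fun i => (degreeLT F (d i)).smul_mem c (h1 i), fun P hP => ?_⟩
    have e : ∑ i, l P i * (c • x) i = C c * ∑ i, l P i * x i := by
      rw [Finset.mul_sum]
      exact Finset.sum_congr rfl fun i _ => by rw [Pi.smul_apply, smul_eq_C_mul]; ring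
    rw [e]
    exact Dvd.dvd.mul_left (h2 P hP) _

theorem mem_lam {M : F[X]} {l : F[X] → Fin 3 → F[X]} {d : Fin 3 → ℕ} {x : Fin 3 → F[X]} :
    x ∈ Lam M l d ↔ (∀ i, x i ∈ degreeLT F (d i)) ∧ ∀ P ∈ pf M, P ∣ ∑ i, l P i * x i := Iff.rfl

private theorem dlt_fin (n : ℕ) : Module.Finite F (degreeLT F n) :=
  Module.Finite.equiv (degreeLTEquiv F n).symm

private theorem dlt_rank (n : ℕ) : Module.finrank F (degreeLT F n) = n := by
  rw [(degreeLTEquiv F n).finrank_eq, Module.finrank_fin_fun]

/-- the embedding in the product -/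
private def lamE (M : F[X]) (l : F[X] → Fin 3 → F[X]) (d : Fin 3 → ℕ) :
    Lam M l d →ₗ[F] (∀ i, degreeLT F (d i)) where
  toFun x i := ⟨x.1 i, x.2.1 i⟩
  map_add' _ _ := rfl
  map_smul' _ _ := rfl

theorem lam_finite (M : F[X]) (l : F[X] → Fin 3 → F[X]) (d : Fin 3 → ℕ) :
    Module.Finite F (Lam M l d) := by
  haveI : ∀ i, Module.Finite F (degreeLT F (d i)) := fun i => dlt_fin (d i)
  refine Module.Finite.of_injective (lamE M l d) ?_
  intro x y h
  refine Subtype.ext (funext fun i => ?_)
  exact congrArg Subtype.val (congrFun h i)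

/-- the linear conditions -/
private noncomputable def lamC (M : F[X]) (l : F[X] → Fin 3 → F[X]) (d : Fin 3 → ℕ) :
    (∀ i, degreeLT F (d i)) →ₗ[F] (∀ P : pf M, AdjoinRoot P.1) where
  toFun x P := AdjoinRoot.mk P.1 (∑ i, l P.1 i * (x i).1)
  map_add' x y := by
    funext P
    show AdjoinRoot.mk P.1 (∑ i, l P.1 i * ((x i).1 + (y i).1)) =
      AdjoinRoot.mk P.1 (∑ i, l P.1 i * (x i).1) + AdjoinRoot.mk P.1 (∑ i, l P.1 i * (y i).1)
    rw [← map_add, ← Finset.sum_add_distrib]
    congr 1
    exact Finset.sum_congr rfl fun i _ => by rw [mul_add]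
  map_smul' c x := by
    funext P
    show AdjoinRoot.mk P.1 (∑ i, l P.1 i * (c • (x i).1)) =
      c • AdjoinRoot.mk P.1 (∑ i, l P.1 i * (x i).1)
    rw [AdjoinRoot.smul_mk, Finset.smul_sum]
    congr 1
    exact Finset.sum_congr rfl fun i _ => by rw [mul_smul_comm]

private theorem sum_pf_le {M : F[X]} (hM : M ≠ 0) : ∑ P : pf M, P.1.natDegree ≤ M.natDegree := by
  have h1 : ∏ P ∈ pf M, P ∣ M := by
    refine Finset.prod_dvd_of_coprime ?_ fun P hP => (mem_pf' hP).2.2
    intro P hP Q hQ hne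
    have hP' := mem_pf' (Finset.mem_coe.1 hP)
    have hQ' := mem_pf' (Finset.mem_coe.1 hQ)
    exact Pool.Agent.H94.PC.isCoprime_irr hP'.1 hP'.2.1 hQ'.1 hQ'.2.1 hne
  have h2 := natDegree_le_of_dvd h1 hM
  rw [natDegree_prod_of_monic _ _ (fun P hP => (mem_pf' hP).1)] at h2
  rw [Finset.sum_coe_sort (pf M) (fun P => P.natDegree)]
  exact h2

theorem lam_dim {M : F[X]} (hM : M ≠ 0) (l : F[X] → Fin 3 → F[X]) (d : Fin 3 → ℕ) :
    ∑ i, d i ≤ M.natDegree + Module.finrank F (Lam M l d) := by
  haveI : ∀ i, Module.Finite F (degreeLT F (d i)) := fun i => dlt_fin (d i)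
  haveI : Module.Finite F (Lam M l d) := lam_finite M l d
  haveI : ∀ P : pf M, Module.Finite F (AdjoinRoot P.1) := fun P =>
    (AdjoinRoot.powerBasis' (mem_pf' P.2).1).finite
  have h1 := LinearMap.finrank_range_add_finrank_ker (lamC M l d)
  have h2 : Module.finrank F (∀ i, degreeLT F (d i)) = ∑ i, d i := by
    rw [Module.finrank_pi_fintype]
    exact Finset.sum_congr rfl fun i _ => dlt_rank (d i)
  have h3 : Module.finrank F (∀ P : pf M, AdjoinRoot P.1) ≤ M.natDegree := by
    rw [Module.finrank_pi_fintype]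
    refine le_trans (le_of_eq ?_) (sum_pf_le hM)
    refine Finset.sum_congr rfl fun P _ => ?_
    rw [(AdjoinRoot.powerBasis' (mem_pf' P.2).1).finrank]
    rfl
  have h4 : Module.finrank F (LinearMap.range (lamC M l d)) ≤ M.natDegree :=
    (Submodule.finrank_le _).trans h3
  let g : LinearMap.ker (lamC M l d) →ₗ[F] Lam M l d :=
    { toFun := fun x => ⟨fun i => (x.1 i).1, fun i => (x.1 i).2, fun P hP => by
        have h := x.2
        rw [LinearMap.mem_ker] at h
        have h' := congrFun h ⟨P, hP⟩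
        exact AdjoinRoot.mk_eq_zero.1 h'⟩
      map_add' := fun _ _ => rfl
      map_smul' := fun _ _ => rfl }
  have h5 : Module.finrank F (LinearMap.ker (lamC M l d)) ≤ Module.finrank F (Lam M l d) := by
    refine LinearMap.finrank_le_finrank_of_injective (f := g) ?_
    intro x y h
    refine Subtype.ext (funext fun i => Subtype.ext ?_)
    have h' := congrArg Subtype.val h
    exact congrFun h' i
  rw [← h2, ← h1]
  omega

end Pool.Agent.H74.FS
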