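import Pool.Agent.H74.FS.HEA

set_option autoImplicit false

/-!
# [H74 FS HEB] Zeros of ternary diagonal forms over `F[t]` (Legendre, by counting)

`a 0, a 1, a 2` with squarefree product, and `- a j a k` is a square modulo every prime dividing `a i`.  Then `∑ a i x i ^ 2 = 0` has a nonzero solution of degree at most `N = deg (∏ a i)`.
Proof.  `M = ∏ i, a i` (`≠ 0`, squarefree), `A i = deg (a i)`, `N = A 0 + A 1 + A 2`.  Every `P ∈ pf M` divides exactly one `a i`; let `j = i + 1`, `k = i + 2` (in `Fin 3`) and `u` with `P ∣ u ^ 2 + a j * a k`; the linear form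
`l P` is `a j x j - u x k` (coefficients: `a j` at `j`, `-u` at `k`, `0` at `i`).
(1) If `x` satisfies the linear conditions then `M ∣ Q(x) = ∑ i, a i * x i ^ 2`: modulo `P`: `a j (a j x j² + a k x k²) = (a j x j)² + a j a k x k² ≡ u² x k² - u² x k² = 0`, `P ∤ a j`, `P ∣ a i`.  So all `P ∈ pf M` divide `Q(x)`, and
`M` is squarefree: a constant times the product of the `P ∈ pf M` (`H94.PC.Facs`: `prod_pf` for monic squarefree polynomials; use the monic multiple `C M.leadingCoeff⁻¹ * M`).
(2) If `deg Q(x) < N` then `Q(x) = 0`.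
(3) Suppose some `N - A i` is odd.  `d i = (N - A i + 1) / 2`: for `x i` of degree `< d i`: `deg (a i x i²) ≤ A i + 2 (d i - 1) ≤ N - 1`, so `Q(x) = 0` for `x ∈ Lam M l d`; `∑ d i ≥ N + 1`, so by `lam_dim` the dimension of `Lam` is at least
`1`: there is `x ≠ 0` in it.
(4) Suppose all `N - A i` are even, `d i = (N - A i) / 2 + 1`.  `dim Lam ≥ 3`.  `τ : Lam → (Fin 3 → F)`, `τ x i = (x i).coeff ((N - A i) / 2)`.  `deg Q(x) ≤ N`, and its coefficient at `N` is `∑ i, lc (a i) * (τ x i)²`.  If `τ` is not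
injective there is `x ≠ 0` with `τ x = 0`, and `Q(x) = 0` by (2).  Otherwise `τ` is bijective (dimensions); by `quad_zero` there is `t ≠ 0` with `∑ lc (a i) t i² = 0`, `t = τ x`, `x ≠ 0`, `Q(x) = 0` by (2).
The degrees: `deg (x i) < d i ≤ N / 2 + 1`, so `≤ N` (`N = 0`: `d i = 1`, degree `0`).
`quad_zero`: `FiniteField.exists_root_sum_quadratic` for `C c₀ * X ^ 2 + C c₂` and `C c₁ * X ^ 2` (`#F` odd), `t = (a, b, 1)`.
-/

namespace Pool.Agent.H74.FS

open Polynomial
open Pool.Agent.H94.PC (pf mem_pf mem_pf')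

variable {F : Type} [Field F] [Finite F]

theorem quad_zero (hq : 2 ∣ Nat.card F - 1) {c : Fin 3 → F} (hc : ∀ i, c i ≠ 0) :
    ∃ t : Fin 3 → F, t ≠ 0 ∧ ∑ i, c i * t i ^ 2 = 0 := by
  haveI : Fintype F := Fintype.ofFinite F
  have hcard : Fintype.card F % 2 = 1 := by
    have h1 : 1 < Nat.card F := Finite.one_lt_card
    rw [← Nat.card_eq_fintype_card]
    omega
  have hf : degree (C (c 0) * X ^ 2 + C (c 2)) = 2 := by
    rw [degree_add_C]
    · exact degree_C_mul_X_pow 2 (hc 0)
    · rw [degree_C_mul_X_pow 2 (hc 0)]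
      norm_num
  have hg : degree (C (c 1) * X ^ 2) = 2 := degree_C_mul_X_pow 2 (hc 1)
  obtain ⟨x, y, h⟩ := FiniteField.exists_root_sum_quadratic hf hg hcard
  refine ⟨![x, y, 1], ?_, ?_⟩
  · intro h0
    have := congrFun h0 2
    simp at this
  · simp only [eval_add, eval_mul, eval_C, eval_pow, eval_X] at h
    simp [Fin.sum_univ_three]
    linear_combination h

private theorem sum3 {R : Type} [CommRing R] (f : Fin 3 → R) (i : Fin 3) :
    ∑ k, f k = f i + f (i + 1) + f (i + 2) := by
  rw [Fin.sum_univ_three]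
  fin_cases i
  · rfl
  · show f 0 + f 1 + f 2 = f 1 + f 2 + f 0
    ring
  · show f 0 + f 1 + f 2 = f 2 + f 0 + f 1
    ring

private theorem prod3 {R : Type} [CommRing R] (f : Fin 3 → R) (i : Fin 3) :
    ∏ k, f k = f i * f (i + 1) * f (i + 2) := by
  rw [Fin.prod_univ_three]
  fin_cases i
  · rfl
  · show f 0 * f 1 * f 2 = f 1 * f 2 * f 0
    ring
  · show f 0 * f 1 * f 2 = f 2 * f 0 * f 1
    ring

private theorem ne12 (i : Fin 3) : i + 1 ≠ i + 2 := by
  fin_cases i <;> decide

private theorem ne01 (i : Fin 3) : i ≠ i + 1 := by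
  fin_cases i <;> decide

private theorem ne02 (i : Fin 3) : i ≠ i + 2 := by
  fin_cases i <;> decide

private theorem nd_of_mem {n : ℕ} {x : F[X]} (h : x ∈ degreeLT F n) :
    x = 0 ∨ x.natDegree < n := by
  rw [mem_degreeLT] at h
  by_cases hx : x = 0
  · exact Or.inl hx
  · right
    rw [degree_eq_natDegree hx] at h
    exact_mod_cast h

/-- the linear form -/
private noncomputable def lf (a : Fin 3 → F[X]) (i : Fin 3) (u : F[X]) (k : Fin 3) : F[X] :=
  if k = i + 1 then a (i + 1) else if k = i + 2 then -u else 0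

private theorem lf_sum (a : Fin 3 → F[X]) (i : Fin 3) (u : F[X]) (x : Fin 3 → F[X]) :
    ∑ k, lf a i u k * x k = a (i + 1) * x (i + 1) - u * x (i + 2) := by
  rw [sum3 _ i]
  unfold lf
  rw [if_neg (ne01 i), if_neg (ne02 i), if_pos rfl, if_neg (ne12 i).symm, if_pos rfl]
  ring

private theorem not_dvd {a : Fin 3 → F[X]} (hs : Squarefree (∏ i, a i)) {P : F[X]}
    (hP : Irreducible P) {i : Fin 3} (h : P ∣ a i) : ¬ P ∣ a (i + 1) := by
  intro h'
  have h1 : P * P ∣ ∏ i, a i := by
    rw [prod3 a i]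
    exact (mul_dvd_mul h h').mul_right _
  exact hP.not_isUnit (hs P h1)

private theorem dvd_Q {a : Fin 3 → F[X]} (hs : Squarefree (∏ i, a i)) {P : F[X]}
    (hP : Irreducible P) {i : Fin 3} (h : P ∣ a i) {u : F[X]}
    (hu : P ∣ u ^ 2 + a (i + 1) * a (i + 2)) {x : Fin 3 → F[X]}
    (hx : P ∣ a (i + 1) * x (i + 1) - u * x (i + 2)) : P ∣ ∑ k, a k * x k ^ 2 := by
  have h1 : P ∣ a (i + 1) * ∑ k, a k * x k ^ 2 := by
    rw [sum3 _ i]
    have e : a (i + 1) * (a i * x i ^ 2 + a (i + 1) * x (i + 1) ^ 2 + a (i + 2) * x (i + 2) ^ 2) =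
        a i * (a (i + 1) * x i ^ 2) +
        (a (i + 1) * x (i + 1) - u * x (i + 2)) * (a (i + 1) * x (i + 1) + u * x (i + 2)) +
        (u ^ 2 + a (i + 1) * a (i + 2)) * x (i + 2) ^ 2 := by ring
    rw [e]
    exact dvd_add (dvd_add (h.mul_right _) (hx.mul_right _)) (hu.mul_right _)
  exact (hP.prime.dvd_or_dvd h1).resolve_left (not_dvd hs hP h)

private theorem sqf_dvd {M Q : F[X]} (hs : Squarefree M) (h : ∀ P ∈ pf M, P ∣ Q) : M ∣ Q := by
  have hM : M ≠ 0 := hs.ne_zero
  set M' : F[X] := M * C M.leadingCoeff⁻¹ with hM'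
  have hlc : M.leadingCoeff ≠ 0 := leadingCoeff_ne_zero.2 hM
  have hu : IsUnit (C M.leadingCoeff⁻¹ : F[X]) := isUnit_C.2 (inv_ne_zero hlc).isUnit
  have hmon : M'.Monic := monic_mul_leadingCoeff_inv hM
  have hass : Associated M M' := ⟨hu.unit, rfl⟩
  have hs' : Squarefree M' := hass.squarefree_iff.1 hs
  refine hass.dvd.trans ?_
  rw [← Pool.Agent.H94.PC.prod_pf hmon hs']
  refine Finset.prod_dvd_of_coprime ?_ ?_
  · intro P hP R hR hne
    have hP' := mem_pf' (Finset.mem_coe.1 hP)
    have hR' := mem_pf' (Finset.mem_coe.1 hR)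
    exact Pool.Agent.H94.PC.isCoprime_irr hP'.1 hP'.2.1 hR'.1 hR'.2.1 hne
  · intro P hP
    obtain ⟨h1, h2, h3⟩ := mem_pf' hP
    exact h P ((mem_pf hM).2 ⟨h1, h2, h3.trans hass.symm.dvd⟩)

private theorem ex_ne {V : Type} [AddCommGroup V] [Module F V] {W : Submodule F V}
    (h : 0 < Module.finrank F W) : ∃ x ∈ W, x ≠ 0 := by
  by_contra hno
  push Not at hno
  have h1 : W = ⊥ := by
    rw [Submodule.eq_bot_iff]
    exact hno
  rw [h1, finrank_bot] at h
  exact lt_irrefl _ h

/-- the space of solutions of the linear conditions contains a zero of the form -/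
private theorem heb_key (hq : 2 ∣ Nat.card F - 1) (a : Fin 3 → F[X]) (ha : ∀ i, a i ≠ 0)
    {N : ℕ} (hN : ∑ i, (a i).natDegree = N) {M : F[X]} (hM : M ≠ 0) (hMN : M.natDegree = N)
    (l : F[X] → Fin 3 → F[X])
    (hQ : ∀ x : Fin 3 → F[X], (∀ P ∈ pf M, P ∣ ∑ k, l P k * x k) → M ∣ ∑ k, a k * x k ^ 2) :
    ∃ x : Fin 3 → F[X], x ≠ 0 ∧ ∑ k, a k * x k ^ 2 = 0 ∧ ∀ i, (x i).natDegree ≤ N := by
  rw [Fin.sum_univ_three] at hN
  have hA : ∀ i, (a i).natDegree ≤ N := by
    intro i
    fin_cases i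
    · show (a 0).natDegree ≤ N
      omega
    · show (a 1).natDegree ≤ N
      omega
    · show (a 2).natDegree ≤ N
      omega
  have hzero : ∀ x : Fin 3 → F[X], (∀ P ∈ pf M, P ∣ ∑ k, l P k * x k) →
      (∑ k, a k * x k ^ 2).degree < (N : WithBot ℕ) → ∑ k, a k * x k ^ 2 = 0 := by
    intro x hx hd
    refine eq_zero_of_dvd_of_degree_lt (hQ x hx) ?_
    rw [degree_eq_natDegree hM, hMN]
    exact hd
  by_cases hodd : ∃ i, (N - (a i).natDegree) % 2 = 1
  · -- an odd difference
    set d : Fin 3 → ℕ := fun i => (N - (a i).natDegree + 1) / 2 with hd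
    have h1 := lam_dim hM l d
    have h2 : N + 1 ≤ ∑ i, d i := by
      rw [Fin.sum_univ_three, hd]
      simp only
      have h0 := hA 0
      have h1 := hA 1
      have h2 := hA 2
      obtain ⟨i, hi⟩ := hodd
      have h3 : (N - (a 0).natDegree) % 2 = 1 ∨ (N - (a 1).natDegree) % 2 = 1 ∨
          (N - (a 2).natDegree) % 2 = 1 := by
        fin_cases i
        · exact Or.inl hi
        · exact Or.inr (Or.inl hi)
        · exact Or.inr (Or.inr hi)
      omega
    obtain ⟨x, hx, hx0⟩ := ex_ne (F := F) (W := Lam M l d) (by omega)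
    rw [mem_lam] at hx
    have hnd : ∀ i, x i = 0 ∨ (x i).natDegree < d i := fun i => nd_of_mem (hx.1 i)
    refine ⟨x, hx0, hzero x hx.2 ?_, fun i => ?_⟩
    · rw [← mem_degreeLT]
      refine Submodule.sum_mem _ fun i _ => ?_
      rw [mem_degreeLT]
      rcases hnd i with h | h
      · rw [h, zero_pow two_ne_zero, mul_zero, degree_zero]
        exact WithBot.bot_lt_coe N
      · by_cases hxi : x i = 0
        · rw [hxi, zero_pow two_ne_zero, mul_zero, degree_zero]
          exact WithBot.bot_lt_coe N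
        rw [degree_mul, degree_pow, degree_eq_natDegree (ha i), degree_eq_natDegree hxi]
        have h3 : (a i).natDegree + 2 * (x i).natDegree < N := by
          have := hA i
          rw [hd] at h
          simp only at h
          omega
        have h4 : (((a i).natDegree + 2 * (x i).natDegree : ℕ) : WithBot ℕ) < (N : WithBot ℕ) := by
          exact_mod_cast h3
        refine lt_of_eq_of_lt ?_ h4
        push_cast
        rw [two_nsmul, two_mul]
    · rcases hnd i with h | h
      · rw [h, natDegree_zero]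
        exact Nat.zero_le _
      · have := hA i
        rw [hd] at h
        simp only at h
        omega
  · push Not at hodd
    set e : Fin 3 → ℕ := fun i => (N - (a i).natDegree) / 2 with he
    set d : Fin 3 → ℕ := fun i => e i + 1 with hd
    have hAe : ∀ i, (a i).natDegree + 2 * e i = N := by
      intro i
      have h1 := hA i
      have h2 := hodd i
      rw [he]
      simp only
      omega
    have h1 := lam_dim hM l d
    have h2 : N + 3 ≤ ∑ i, d i := by
      rw [Fin.sum_univ_three, hd]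
      simp only
      have h0 := hAe 0
      have h1 := hAe 1
      have h2 := hAe 2
      omega
    haveI := lam_finite M l d
    let τ : Lam M l d →ₗ[F] (Fin 3 → F) :=
      { toFun := fun x i => (x.1 i).coeff (e i)
        map_add' := fun x y => funext fun i => coeff_add _ _ _
        map_smul' := fun c x => funext fun i => coeff_smul _ _ _ }
    obtain ⟨x, hx0, hxτ⟩ : ∃ x : Lam M l d, x ≠ 0 ∧
        ∑ i, (a i).leadingCoeff * (τ x i) ^ 2 = 0 := by
      by_cases hinj : Function.Injective τ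
      · have h3 := LinearMap.finrank_le_finrank_of_injective hinj
        rw [Module.finrank_fin_fun] at h3
        have h4 : Module.finrank F (Lam M l d) = Module.finrank F (Fin 3 → F) := by
          rw [Module.finrank_fin_fun]
          omega
        have hsurj := (LinearMap.injective_iff_surjective_of_finrank_eq_finrank h4).1 hinj
        obtain ⟨t, ht0, ht⟩ := quad_zero hq (c := fun i => (a i).leadingCoeff)
          (fun i => leadingCoeff_ne_zero.2 (ha i))
        obtain ⟨x, hx⟩ := hsurj t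
        refine ⟨x, ?_, ?_⟩
        · rintro rfl
          rw [map_zero] at hx
          exact ht0 hx.symm
        · rw [hx]
          exact ht
      · rw [← LinearMap.ker_eq_bot] at hinj
        obtain ⟨x, hx, hx0⟩ := (Submodule.ne_bot_iff _).1 hinj
        rw [LinearMap.mem_ker] at hx
        refine ⟨x, hx0, ?_⟩
        rw [hx]
        simp
    have hx := mem_lam.1 x.2
    have hnd : ∀ i, (x.1 i).natDegree ≤ e i := by
      intro i
      rcases nd_of_mem (hx.1 i) with h | h
      · rw [h, natDegree_zero]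
        exact Nat.zero_le _
      · exact Nat.le_of_lt_succ h
    refine ⟨x.1, fun h => hx0 (Subtype.ext h), hzero x.1 hx.2 ?_, fun i => ?_⟩
    · have h3 : (∑ k, a k * x.1 k ^ 2).natDegree ≤ N := by
        refine natDegree_sum_le_of_forall_le _ _ fun i _ => ?_
        refine natDegree_mul_le.trans ?_
        have h4 := natDegree_pow_le (p := x.1 i) (n := 2)
        have h5 := hnd i
        have h6 := hAe i
        omega
      have h4 : (∑ k, a k * x.1 k ^ 2).coeff N = 0 := by
        rw [finsetSum_coeff, ← hxτ]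
        refine Finset.sum_congr rfl fun i _ => ?_
        show (a i * x.1 i ^ 2).coeff N = (a i).leadingCoeff * ((x.1 i).coeff (e i)) ^ 2
        have h5 := coeff_mul_add_eq_of_natDegree_le (f := a i) (g := x.1 i ^ 2) le_rfl
          ((natDegree_pow_le (p := x.1 i) (n := 2)).trans (Nat.mul_le_mul_left 2 (hnd i)))
        rw [hAe i] at h5
        rw [h5, coeff_pow_of_natDegree_le (hnd i)]
        rfl
      by_contra hno
      rw [not_lt] at hno
      have h5 : (∑ k, a k * x.1 k ^ 2).degree = (N : WithBot ℕ) := by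
        refine le_antisymm ?_ hno
        exact degree_le_of_natDegree_le h3
      have h6 : (∑ k, a k * x.1 k ^ 2).natDegree = N := natDegree_eq_of_degree_eq_some h5
      have h7 : (∑ k, a k * x.1 k ^ 2).leadingCoeff = 0 := by
        rw [leadingCoeff, h6, h4]
      rw [leadingCoeff_eq_zero] at h7
      rw [h7, degree_zero] at h5
      exact absurd h5 (WithBot.bot_ne_coe)
    · have h3 := hnd i
      have h4 := hAe i
      omega

theorem heb (hq : 2 ∣ Nat.card F - 1) (a : Fin 3 → F[X]) (hs : Squarefree (∏ i, a i))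
    (hloc : ∀ i : Fin 3, ∀ P : F[X], P.Monic → Irreducible P → P ∣ a i →
      ∃ u : F[X], P ∣ u ^ 2 + a (i + 1) * a (i + 2)) :
    ∃ x : Fin 3 → F[X], x ≠ 0 ∧ ∑ i, a i * x i ^ 2 = 0 ∧
      ∀ i, (x i).natDegree ≤ (∏ i, a i).natDegree := by
  classical
  have hM : (∏ i, a i) ≠ 0 := hs.ne_zero
  have ha : ∀ i, a i ≠ 0 := fun i => (Finset.prod_ne_zero_iff.1 hM) i (Finset.mem_univ i)
  have hdeg : (∏ i, a i).natDegree = ∑ i, (a i).natDegree := natDegree_prod _ _ fun i _ => ha i
  have hex : ∀ P : F[X], ∃ iu : Fin 3 × F[X], P ∈ pf (∏ i, a i) →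
      P ∣ a iu.1 ∧ P ∣ iu.2 ^ 2 + a (iu.1 + 1) * a (iu.1 + 2) := by
    intro P
    by_cases hP : P ∈ pf (∏ i, a i)
    · obtain ⟨h1, h2, h3⟩ := mem_pf' hP
      obtain ⟨i, _, hi⟩ := (h2.prime.dvd_finsetProd_iff _).1 h3
      obtain ⟨u, hu⟩ := hloc i P h1 h2 hi
      exact ⟨(i, u), fun _ => ⟨hi, hu⟩⟩
    · exact ⟨(0, 0), fun h => absurd h hP⟩
  choose iu hiu using hex
  refine heb_key hq a ha hdeg.symm hM rfl (fun P => lf a (iu P).1 (iu P).2) ?_
  intro x hx
  refine sqf_dvd hs fun P hP => ?_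
  have h1 := hx P hP
  rw [lf_sum] at h1
  exact dvd_Q hs (mem_pf' hP).2.1 (hiu P hP).1 (hiu P hP).2 h1

end Pool.Agent.H74.FS
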