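import Mathlib

set_option autoImplicit false

/-!
# [H74 FS LAG] Orthogonality to the intersection of two maximal isotropic subspaces

`b` symmetric and nondegenerate on the finite `ZMod 2`-space `V`, `L`, `W` isotropic, `card V ≤ (card L)²`, `card V ≤ (card W)²`.  Then `(L ∩ W)^⊥ = L + W`.
Proof.  `Uᵒ = {x | ∀ y ∈ U, b x y = 0}` has `dim Uᵒ = dim V - dim U` (`LinearMap.BilinForm.finrank_add_finrank_orthogonal'`, `toBilin`..., as in `H94.PM.iso_card_le`; `V` is finite so finite dimensional).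
`L ≤ Lᵒ` and `2 dim L ≥ dim V` give `L = Lᵒ`, and `W = Wᵒ`.  `L + W ≤ (L ∩ W)ᵒ`: an element of `L` is orthogonal to `L ⊇ L ∩ W`, etc.  Dimensions: `dim (L + W) = dim L + dim W - dim (L ∩ W) =
dim V - dim (L ∩ W) = dim (L ∩ W)ᵒ` (`Submodule.finrank_sup_add_finrank_inf_eq`).  So they are equal.
-/

namespace Pool.Agent.H74.FS

private theorem half_dim {V : Type} [AddCommGroup V] [Module (ZMod 2) V] [Finite V]
    (L : Submodule (ZMod 2) V) (hL2 : Nat.card V ≤ Nat.card L ^ 2) :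
    Module.finrank (ZMod 2) V ≤ 2 * Module.finrank (ZMod 2) L := by
  have hfin : Module.Finite (ZMod 2) V := Module.Finite.of_finite
  rw [Module.natCard_eq_pow_finrank (K := ZMod 2), Module.natCard_eq_pow_finrank (K := ZMod 2)
    (V := L), Nat.card_zmod, ← pow_mul] at hL2
  have h := (Nat.pow_le_pow_iff_right (by norm_num : 1 < 2)).1 hL2
  omega

theorem lag {V : Type} [AddCommGroup V] [Module (ZMod 2) V] [Finite V]
    (b : V →ₗ[ZMod 2] V →ₗ[ZMod 2] ZMod 2) (hs : ∀ x y, b x y = b y x)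
    (hb : ∀ x, (∀ y, b x y = 0) → x = 0) (L W : Submodule (ZMod 2) V)
    (hL : ∀ x ∈ L, ∀ y ∈ L, b x y = 0) (hL2 : Nat.card V ≤ Nat.card L ^ 2)
    (hW : ∀ x ∈ W, ∀ y ∈ W, b x y = 0) (hW2 : Nat.card V ≤ Nat.card W ^ 2) {g : V}
    (hg : ∀ x, x ∈ L → x ∈ W → b g x = 0) : ∃ x ∈ L, ∃ y ∈ W, g = x + y := by
  have hfin : Module.Finite (ZMod 2) V := Module.Finite.of_finite
  have hk : LinearMap.ker b = ⊥ := by
    rw [LinearMap.ker_eq_bot']
    intro x hx
    refine hb x fun y => ?_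
    rw [hx, LinearMap.zero_apply]
  have h := LinearMap.BilinForm.finrank_add_finrank_orthogonal' (B := b) (L ⊓ W)
  rw [hk, inf_bot_eq, finrank_bot, add_zero] at h
  have hle : L ⊔ W ≤ LinearMap.BilinForm.orthogonal b (L ⊓ W) := by
    refine sup_le ?_ ?_
    · intro x hx
      rw [LinearMap.BilinForm.mem_orthogonal_iff]
      intro y hy
      exact hL y hy.1 x hx
    · intro x hx
      rw [LinearMap.BilinForm.mem_orthogonal_iff]
      intro y hy
      exact hW y hy.2 x hx
  have h1 := half_dim L hL2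
  have h2 := half_dim W hW2
  have h3 := Submodule.finrank_sup_add_finrank_inf_eq L W
  have heq : L ⊔ W = LinearMap.BilinForm.orthogonal b (L ⊓ W) := by
    refine Submodule.eq_of_le_of_finrank_le hle ?_
    omega
  have hgm : g ∈ LinearMap.BilinForm.orthogonal b (L ⊓ W) := by
    rw [LinearMap.BilinForm.mem_orthogonal_iff]
    intro y hy
    show b y g = 0
    rw [hs]
    exact hg y hy.1 hy.2
  rw [← heq] at hgm
  obtain ⟨x, hx, y, hy, hxy⟩ := Submodule.mem_sup.1 hgm
  exact ⟨x, hx, y, hy, hxy.symm⟩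

end Pool.Agent.H74.FS
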