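import Pool.Agent.H74.FS.GLO
import Pool.Agent.H74.FS.LAG

set_option autoImplicit false

/-!
# [H74 FS KER] Local classes orthogonal to the Selmer group

`Bad c A D S`: `S` contains infinity and all primes dividing `D * dl A`.
* `sln_even`: `sln_iff`, `Vw_good` at the `w = some P ∉ S`.  So a Selmer tuple has `Es S`.
* `es_sln`: `glo_hs` with `sln_even`.
* `sln_of`: if `Es S δ` and `Vw` at all `w ∈ S` then `δ` is a Selmer tuple: `sln_iff`, at `w ∉ S` `Vw_good` (`(iw w (δ k))`: the product is a square, all valuations even).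
* `ker_lift`.  `V = S → XX m 2 × XX m 2`, `b g g' = ∑ w, ee m 2 (un (-1)) (g w) (g' w)`, a bilinear form (`LinearMap.mk₂` or a sum of `LinearMap.compl₁₂` with projections), symmetric (`ee_apply`, `BB_symm`, signs in
  `ZMod 2`), nondegenerate (`ee_nondeg` in each coordinate: test with families supported at one place).  `L` from `glo`, `W = Submodule.pi univ (fun w => Gw χ c A D w)`: isotropic (`gam_iso` through `Vw_iso` or directly
  `H94.PM.gam_iso`), `card W = card (XX m 2) ^ card S` (`card_Gw`), so `card V = (card W)²`.  Put `g₀ w = lgs (Uw χ w) (g w)`.  If `x ∈ L ∩ W`, `x = lgs η`, then `η` is a Selmer tuple (`sln_of`, `Vw_iff`), so by `h` and `gam_ee`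
  `b g₀ x = ∑ w ∈ S, ∑ k, hs (g w k) (iw w (η k)) = 0`.  By `lag` `g₀ = x + y`, `x = lgs η ∈ L`, `y ∈ W`; `lgs (g w k * iw w (η k)) = g₀ w + x w = y w` (`ZMod 2`: `x + x = 0`), so by `Vw_iff` the claim.
-/

namespace Pool.Agent.H74.FS

open Polynomial WithZero IsDedekindDomain
open Pool.Agent.H94.PL (LChar lm XX DK AK dl)
open Pool.Agent.H94.PM (LU vl IsVln IsSln Gam lgs ee)

variable {F : Type} [Field F] [DecidableEq (RatFunc F)]

/-- `S` contains infinity and the primes dividing `D * dl A` -/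
structure Bad {m : ℕ} (A : Fin m → F[X]) (D : F[X]) (S : Finset (Pl F)) : Prop where
  inf : (none : Pl F) ∈ S
  fin : ∀ (P : F[X]) (hP : P.Monic ∧ Irreducible P), P ∣ D * dl A → some ⟨P, hP⟩ ∈ S

variable [Finite F] (χ : LChar F 2) {m : ℕ} {c : F} {A : Fin m → F[X]} {D : F[X]}
  {S : Finset (Pl F)}

omit [Finite F] in
private theorem ker_prod (w : Pl F) {δ : Fin m → RatFunc F}
    (h : ∃ y : RatFunc F, ∏ k, δ k = y ^ 2) : ∃ y : Kw F w, ∏ k, iw w (δ k) = y ^ 2 := by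
  obtain ⟨y, hy⟩ := h
  exact ⟨iw w y, by rw [← map_prod, hy, map_pow]⟩

private theorem ker_lgs {M : Type} [Field M] {v : Valuation M ℤᵐ⁰} (U : LU v 2)
    {δ δ' : Fin m → M} (h1 : ∀ k, δ k ≠ 0) (h2 : ∃ y : M, ∏ k, δ k = y ^ 2)
    (h1' : ∀ k, δ' k ≠ 0) (h2' : ∃ y : M, ∏ k, δ' k = y ^ 2) :
    lgs U (fun k => δ k * δ' k) = lgs U δ + lgs U δ' := by
  have h3 : ∃ y : M, ∏ k, (δ k * δ' k) = y ^ 2 := by
    obtain ⟨y1, hy1⟩ := h2
    obtain ⟨y2, hy2⟩ := h2'
    exact ⟨y1 * y2, by rw [Finset.prod_mul_distrib, hy1, hy2, mul_pow]⟩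
  have h4 : ∀ k, δ k * δ' k ≠ 0 := fun k => mul_ne_zero (h1 k) (h1' k)
  refine Prod.ext (Subtype.ext (funext fun k => ?_)) (Subtype.ext (funext fun k => ?_))
  · rw [H94.PM.lgs_fst U h4 h3]
    show _ = (lgs U δ).1.1 k + (lgs U δ').1.1 k
    rw [H94.PM.lgs_fst U h1 h2, H94.PM.lgs_fst U h1' h2', H94.PM.vl_mul (h1 k) (h1' k)]
    push_cast
    rfl
  · rw [H94.PM.lgs_snd U h4 h3]
    show _ = (lgs U δ).2.1 k + (lgs U δ').2.1 k
    rw [H94.PM.lgs_snd U h1 h2, H94.PM.lgs_snd U h1' h2', U.mul _ _ (h1 k) (h1' k)]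

omit [Finite F] in
/-- there is such a set -/
theorem exists_bad (hA : ∀ i k, i ≠ k → A i ≠ A k) (hD : D ≠ 0) :
    ∃ S : Finset (Pl F), Bad A D S ∧ ∀ (P : F[X]) (hP : P.Monic ∧ Irreducible P),
      some ⟨P, hP⟩ ∈ S → P ∣ D * dl A := by
  classical
  have hdl : dl A ≠ 0 := by
    unfold dl
    refine Finset.prod_ne_zero_iff.2 fun p hp => sub_ne_zero.2 (hA p.1 p.2 ?_)
    have h1 := (Finset.mem_filter.1 hp).2
    exact h1.ne
  have h0 : D * dl A ≠ 0 := mul_ne_zero hD hdl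
  obtain ⟨T, hT1, hT2⟩ : ∃ T : Finset F[X], (∀ Q ∈ T, (Q.Monic ∧ Irreducible Q) ∧ Q ∣ D * dl A) ∧
      ∀ Q : F[X], Q.Monic ∧ Irreducible Q → Q ∣ D * dl A → Q ∈ T := by
    refine ⟨(UniqueFactorizationMonoid.normalizedFactors (D * dl A)).toFinset, ?_, ?_⟩
    · intro Q hQ
      rw [Multiset.mem_toFinset] at hQ
      have hi := UniqueFactorizationMonoid.irreducible_of_normalized_factor Q hQ
      have hn := UniqueFactorizationMonoid.normalize_normalized_factor Q hQ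
      refine ⟨⟨?_, hi⟩, UniqueFactorizationMonoid.dvd_of_mem_normalizedFactors hQ⟩
      rw [← hn]
      exact monic_normalize hi.ne_zero
    · intro Q hQ hd
      rw [Multiset.mem_toFinset]
      obtain ⟨R, hR, hQR⟩ :=
        UniqueFactorizationMonoid.exists_mem_normalizedFactors_of_dvd h0 hQ.2 hd
      have h1 : Q = R := Associated.eq_of_normalized hQR hQ.1.normalize_eq_self
        (UniqueFactorizationMonoid.normalize_normalized_factor R hR)
      rw [h1]
      exact hR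
  refine ⟨insert none (T.attach.image fun P => some ⟨P.1, (hT1 P.1 P.2).1⟩), ⟨?_, ?_⟩, ?_⟩
  · exact Finset.mem_insert_self _ _
  · intro P hP hd
    exact Finset.mem_insert_of_mem (Finset.mem_image.2 ⟨⟨P, hT2 P hP hd⟩, Finset.mem_attach _ _,
      rfl⟩)
  · intro P hP hmem
    rw [Finset.mem_insert] at hmem
    rcases hmem with h | h
    · exact absurd h (by simp)
    · rw [Finset.mem_image] at h
      obtain ⟨Q, -, hQ⟩ := h
      have h2 : Q.1 = P := congrArg Subtype.val (Option.some.inj hQ)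
      rw [← h2]
      exact (hT1 Q.1 Q.2).2

theorem sln_even (hq : 2 ∣ Nat.card F - 1) (hm : Nat.Coprime m 2) (hc : c ≠ 0)
    (hA : ∀ i k, i ≠ k → A i ≠ A k) (hD : D ≠ 0) (hS : Bad A D S) {δ : Fin m → RatFunc F}
    (h : IsSln 2 1 c A D δ) : Es S δ := by
  obtain ⟨h1, h2, h3⟩ := sln_iff.1 h
  refine ⟨h1, h2, ?_⟩
  rintro (_ | ⟨P, hP⟩) hw k
  · exact absurd hS.inf hw
  · have h4 : ¬ P ∣ D * dl A := fun hd => hw (hS.fin P hP hd)
    exact (Vw_good hq hm hc hA hD hP (fun hd => h4 (Dvd.dvd.mul_right hd _))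
      (fun hd => h4 (Dvd.dvd.mul_left hd _)) (fun k => iw_ne (h1 k))
      (ker_prod _ h2)).1 (h3 _) k

theorem sln_of (hq : 2 ∣ Nat.card F - 1) (hm : Nat.Coprime m 2) (hc : c ≠ 0)
    (hA : ∀ i k, i ≠ k → A i ≠ A k) (hD : D ≠ 0) (hS : Bad A D S) {δ : Fin m → RatFunc F}
    (h : Es S δ) (h' : ∀ w ∈ S, Vw c A D w (fun k => iw w (δ k))) : IsSln 2 1 c A D δ := by
  refine sln_iff.2 ⟨h.ne, h.prod, fun w => ?_⟩
  by_cases hw : w ∈ S
  · exact h' w hw
  · obtain _ | ⟨P, hP⟩ := w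
    · exact absurd hS.inf hw
    · have h4 : ¬ P ∣ D * dl A := fun hd => hw (hS.fin P hP hd)
      exact (Vw_good hq hm hc hA hD hP (fun hd => h4 (Dvd.dvd.mul_right hd _))
        (fun hd => h4 (Dvd.dvd.mul_left hd _)) (fun k => iw_ne (h.ne k))
        (ker_prod _ h.prod)).2 (h.even _ hw)

/-- a global class even outside `S` is orthogonal to the Selmer group -/
theorem es_sln (hq : 2 ∣ Nat.card F - 1) (hm : Nat.Coprime m 2) (hc : c ≠ 0)
    (hA : ∀ i k, i ≠ k → A i ≠ A k) (hD : D ≠ 0) (hS : Bad A D S) {η δ : Fin m → RatFunc F}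
    (h : Es S η) (h' : IsSln 2 1 c A D δ) : ∑ w ∈ S, ∑ k, hw χ w (η k) (δ k) = 0 := by
  exact glo_hs χ h (sln_even hq hm hc hA hD hS h')

/-- local classes orthogonal to the Selmer group come from a global class and local values -/
theorem ker_lift (hq : 2 ∣ Nat.card F - 1) (hm : Nat.Coprime m 2) (hc : c ≠ 0)
    (hA : ∀ i k, i ≠ k → A i ≠ A k) (hD : D ≠ 0) (hS : Bad A D S)
    (g : ∀ w : Pl F, Fin m → Kw F w) (hg : ∀ w ∈ S, ∀ k, g w k ≠ 0)
    (hg2 : ∀ w ∈ S, ∃ y : Kw F w, ∏ k, g w k = y ^ 2)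
    (h : ∀ δ : Fin m → RatFunc F, IsSln 2 1 c A D δ →
      ∑ w ∈ S, ∑ k, (Uw χ w).hs (g w k) (iw w (δ k)) = 0) :
    ∃ η : Fin m → RatFunc F, Es S η ∧ ∀ w ∈ S, Vw c A D w (fun k => g w k * iw w (η k)) := by
  classical
  have hα : 2 ∣ 1 * m + 1 := by
    have h1 : m % 2 = 1 := by
      rcases Nat.mod_two_eq_zero_or_one m with h0 | h0
      · exfalso
        have h2 : 2 ∣ m := Nat.dvd_of_mod_eq_zero h0
        have h3 : 2 ∣ Nat.gcd m 2 := Nat.dvd_gcd h2 dvd_rfl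
        rw [hm] at h3
        omega
      · exact h0
    omega
  obtain ⟨L, hL1, hL2, hL3⟩ := glo χ (m := m) hq hm S hS.inf
  have hbs : ∀ (e : ZMod 2) (u v : XX m 2 × XX m 2), ee m 2 e u v = ee m 2 e v u := by
    intro e u v
    rw [H94.PM.ee_apply, H94.PM.ee_apply, H94.PL.BB_symm v.2 u.1, H94.PL.BB_symm v.1 u.2,
      H94.PL.BB_symm v.1 u.1]
    generalize H94.PL.BB m 2 u.2 v.1 = a
    generalize H94.PL.BB m 2 u.1 v.2 = b
    generalize H94.PL.BB m 2 u.1 v.1 = c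
    have h1 : ∀ a b : ZMod 2, a - b = b - a := by decide
    rw [h1]
  let b : (S → XX m 2 × XX m 2) →ₗ[ZMod 2] (S → XX m 2 × XX m 2) →ₗ[ZMod 2] ZMod 2 :=
    LinearMap.mk₂ (ZMod 2) (fun x y => ∑ w : S, ee m 2 ((Uw χ w.1).un (-1)) (x w) (y w))
      (fun x x' y => by
        simp only [Pi.add_apply, map_add, LinearMap.add_apply, Finset.sum_add_distrib])
      (fun c x y => by
        simp only [Pi.smul_apply, map_smul, LinearMap.smul_apply, smul_eq_mul, Finset.mul_sum])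
      (fun x y y' => by
        simp only [Pi.add_apply, map_add, Finset.sum_add_distrib])
      (fun c x y => by
        simp only [Pi.smul_apply, map_smul, smul_eq_mul, Finset.mul_sum])
  have hb : ∀ x y, b x y = ∑ w : S, ee m 2 ((Uw χ w.1).un (-1)) (x w) (y w) := fun _ _ => rfl
  obtain ⟨W, hW⟩ : ∃ W : Submodule (ZMod 2) (S → XX m 2 × XX m 2),
      ∀ x, x ∈ W ↔ ∀ w : S, x w ∈ Gw χ c A D w.1 := by
    refine ⟨Submodule.pi Set.univ (fun w : S => Gw χ c A D w.1), fun x => ?_⟩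
    rw [Submodule.mem_pi]
    exact ⟨fun h w => h w (Set.mem_univ w), fun h w _ => h w⟩
  have hcW : Nat.card W = Nat.card (XX m 2) ^ Fintype.card S := by
    have e : W ≃ ((w : S) → Gw χ c A D w.1) :=
      { toFun := fun x w => ⟨x.1 w, (hW _).1 x.2 w⟩
        invFun := fun y => ⟨fun w => (y w).1, (hW _).2 fun w => (y w).2⟩
        left_inv := fun x => rfl
        right_inv := fun y => rfl }
    rw [Nat.card_congr e, Nat.card_pi]
    rw [Finset.prod_congr rfl fun w _ => card_Gw χ hq hm hc hA hD w.1]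
    rw [Finset.prod_const, Finset.card_univ]
  have hcV : Nat.card (S → XX m 2 × XX m 2) ≤ Nat.card W ^ 2 := by
    rw [hcW, Nat.card_fun, Nat.card_prod, Nat.card_eq_fintype_card (α := S), ← pow_mul, ← pow_two,
      ← pow_mul, mul_comm]
  have hg' : ∀ w : S, (∀ k, g w.1 k ≠ 0) ∧ ∃ y : Kw F w.1, ∏ k, g w.1 k = y ^ 2 :=
    fun w => ⟨hg w.1 w.2, hg2 w.1 w.2⟩
  obtain ⟨x, hx, y, hy, hxy⟩ := lag b
    (fun x y => by
      rw [hb, hb]
      exact Finset.sum_congr rfl fun w _ => hbs _ _ _)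
    (fun x hx => by
      funext w
      refine H94.PM.ee_nondeg hm ((Uw χ w.1).un (-1)) (x w) fun g' => ?_
      have h1 := hx (Pi.single w g')
      rw [hb, Finset.sum_eq_single w] at h1
      · rwa [Pi.single_eq_same] at h1
      · intro w' _ hne
        rw [Pi.single_eq_of_ne hne, map_zero]
      · intro hne
        exact absurd (Finset.mem_univ w) hne)
    L W (fun x hx y hy => by rw [hb]; exact hL2 x hx y hy) hL3
    (fun x hx y hy => by
      rw [hb]
      refine Finset.sum_eq_zero fun w _ => ?_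
      exact H94.PM.gam_iso (Uw χ w.1) hα (iw_ne (H94.PL.DK_ne hc hD)) _ _ ((hW x).1 hx w) _
        ((hW y).1 hy w)) hcV (g := fun w => lgs (Uw χ w.1) (g w.1)) (by
      intro x hxL hxW
      obtain ⟨η, hη, hηx⟩ := (hL1 x).1 hxL
      have hsl : IsSln 2 1 c A D η := by
        refine sln_of hq hm hc hA hD hS hη fun w hw => ?_
        refine (Vw_iff χ hq hm hc hD (fun k => iw_ne (hη.ne k)) (ker_prod _ hη.prod)).2 ?_
        have h1 := hηx ⟨w, hw⟩
        have h2 := (hW x).1 hxW ⟨w, hw⟩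
        rw [← h1] at h2
        exact h2
      have h1 := h η hsl
      rw [hb, ← h1, ← Finset.sum_coe_sort S (fun w => ∑ k, (Uw χ w).hs (g w k) (iw w (η k)))]
      refine Finset.sum_congr rfl fun w _ => ?_
      rw [← hηx w]
      exact H94.PM.gam_ee (Uw χ w.1) (hg' w).1 (hg' w).2 (fun k => iw_ne (hη.ne k))
        (ker_prod _ hη.prod))
  obtain ⟨η, hη, hηx⟩ := (hL1 x).1 hx
  refine ⟨η, hη, fun w hw => ?_⟩
  have hpr := ker_prod w hη.prod
  have hne : ∀ k, iw w (η k) ≠ 0 := fun k => iw_ne (hη.ne k)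
  refine (Vw_iff χ hq hm hc hD (fun k => mul_ne_zero (hg w hw k) (hne k)) ?_).2 ?_
  · obtain ⟨y1, hy1⟩ := hg2 w hw
    obtain ⟨y2, hy2⟩ := hpr
    exact ⟨y1 * y2, by rw [Finset.prod_mul_distrib, hy1, hy2, mul_pow]⟩
  · rw [ker_lgs (Uw χ w) (hg w hw) (hg2 w hw) hne hpr]
    have h1 := congrFun hxy ⟨w, hw⟩
    have h2 := hηx ⟨w, hw⟩
    have h3 := (hW y).1 hy ⟨w, hw⟩
    have h4 : lgs (Uw χ w) (g w) = x ⟨w, hw⟩ + y ⟨w, hw⟩ := h1
    have h5 : lgs (Uw χ w) (fun k => iw w (η k)) = x ⟨w, hw⟩ := h2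
    rw [h4, h5]
    have h6 : ∀ u v : XX m 2 × XX m 2, u + v + u = v := by
      intro u v
      have h7 : u + u = 0 := by
        have h8 : (2 : ZMod 2) • u = u + u := two_smul _ _
        rw [← h8]
        have h9 : (2 : ZMod 2) = 0 := by decide
        rw [h9, zero_smul]
      rw [add_comm u v, add_assoc, h7, add_zero]
    rw [h6]
    exact h3

end Pool.Agent.H74.FS
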