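import Pool.Agent.H74.FS.PRA
import Pool.Agent.H94.PC.JsA

set_option autoImplicit false

/-!
# [H74 FS PRM] Primes with prescribed symbols

Proof.  `N = ∑ v ∈ T, deg v ≥ card T`, `q = card F ≥ 3`, `K` from `rh` (`K ≥ 1` without restriction).  Suppose that there is no such `P` in `Pr F m`.  `m > deg v` for `v ∈ T`, so `P ∤ v`, `js v P = ± 1` for `P ∈ Pr F m` (`js_cases'`), and
for every `P` some factor of `∏ v ∈ T, (1 + s v * js v P)` vanishes (`js v P ≠ s v` gives `js v P = - s v`, `s v * s v = 1`).  So `0 = ∑ P ∈ Pr F m, ∏ v ∈ T, (1 + s v * js v P) = ∑ I ⊆ T, (∏ v ∈ I, s v) ∑ P, js (∏ v ∈ I, v) P`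
(`Finset.prod_one_add`/`Finset.prod_add`, `js_prod_left`, `Finset.sum_comm`); the term of `I = ∅` is `#(Pr F m)` (`js 1 P = 1`), the others are at most `K N √(q ^ m)` (`rh`: `∏ v ∈ I, v` is squarefree of degree between `1` and `N`).
So `#(Pr F m) ≤ 2 ^ N K N √(q ^ m)`, and `prn`: `q ^ m ≤ 2 m 2 ^ N K N √(q ^ m)`, `√(q ^ m) ≤ 2 m 2 ^ N K N`.  (`N = 0`: `T = ∅` and `Pr F m` is not empty by `prn`, so there is such a `P`.)
Choose `C ≥ 10` such that `(K + 1) m ≤ (1.3) ^ m` for all `m ≥ C` (exponential growth).  For `m ≥ C (N + 1)`: `√(3 ^ m) ≥ (1.7) ^ m ≥ (1.3) ^ m * (1.3) ^ m`, `(1.3) ^ m ≥ (1.3 ^ 10) ^ (N + 1) ≥ 4 ^ (N + 1) > 2 * 2 ^ N * N`,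
a contradiction.
-/

namespace Pool.Agent.H74.FS

open Polynomial
open Pool.Agent.H94.PC (Pr js)

/-- the choice of the constant -/
private theorem prm_const (K : ℝ) (hK : 0 ≤ K) : ∃ C : ℕ, 1 ≤ C ∧ ∀ m N : ℕ, C * (N + 1) ≤ m →
    2 * (m : ℝ) * (2 : ℝ) ^ N * K * N < √((3 : ℝ) ^ m) := by
  have h1 : Filter.Tendsto (fun m : ℕ => (m : ℝ) ^ 1 / (1.2 : ℝ) ^ m) Filter.atTop (nhds 0) :=
    tendsto_pow_const_div_const_pow_of_one_lt 1 (by norm_num)
  have h2 : ∀ᶠ m : ℕ in Filter.atTop, (m : ℝ) ^ 1 / (1.2 : ℝ) ^ m < 1 / (2 * (K + 1)) :=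
    h1.eventually (gt_mem_nhds (by positivity))
  obtain ⟨M, hM⟩ := Filter.eventually_atTop.1 h2
  refine ⟨max 8 M, by omega, fun m N hm => ?_⟩
  have hm1 : M ≤ m := by
    have := le_max_right 8 M
    nlinarith
  have hm8 : 8 * (N + 1) ≤ m := by
    have := le_max_left 8 M
    nlinarith
  have h3 := hM m hm1
  rw [pow_one, div_lt_div_iff₀ (by positivity) (by positivity), one_mul] at h3
  have h4 : ((2 : ℝ) ^ N * N) ≤ (1.2 : ℝ) ^ m := by
    have h5 : (N : ℝ) ≤ 2 ^ N := by exact_mod_cast (Nat.lt_two_pow_self (n := N)).le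
    calc ((2 : ℝ) ^ N * N) ≤ 2 ^ N * 2 ^ N := by gcongr
      _ = 4 ^ N := by rw [← mul_pow]; norm_num
      _ ≤ 4 ^ (N + 1) := pow_le_pow_right₀ (by norm_num) (by omega)
      _ ≤ ((1.2 : ℝ) ^ 8) ^ (N + 1) := pow_le_pow_left₀ (by norm_num) (by norm_num) _
      _ = (1.2 : ℝ) ^ (8 * (N + 1)) := by rw [← pow_mul]
      _ ≤ (1.2 : ℝ) ^ m := pow_le_pow_right₀ (by norm_num) hm8
  have h6 : ((1.2 : ℝ) ^ m * (1.2 : ℝ) ^ m) ≤ √((3 : ℝ) ^ m) := by
    apply Real.le_sqrt_of_sq_le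
    rw [← mul_pow, ← pow_mul, mul_comm m 2, pow_mul]
    exact pow_le_pow_left₀ (by norm_num) (by norm_num) _
  refine lt_of_lt_of_le ?_ h6
  have h7 : 2 * (m : ℝ) * (2 : ℝ) ^ N * K * N = (m * (2 * K)) * (2 ^ N * N) := by ring
  rw [h7]
  have h8 : (m : ℝ) * (2 * K) < (1.2 : ℝ) ^ m := by
    refine lt_of_le_of_lt ?_ h3
    have : (0 : ℝ) ≤ m := Nat.cast_nonneg m
    nlinarith
  calc (m : ℝ) * (2 * K) * (2 ^ N * N) ≤ (m : ℝ) * (2 * K) * (1.2 : ℝ) ^ m := by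
        have : (0 : ℝ) ≤ m := Nat.cast_nonneg m
        gcongr
    _ < (1.2 : ℝ) ^ m * (1.2 : ℝ) ^ m := by
        have : (0 : ℝ) < (1.2 : ℝ) ^ m := by positivity
        gcongr

theorem prm (F : Type) [Field F] [Finite F] (h2 : (2 : F) ≠ 0) : ∃ C : ℕ,
    ∀ (T : Finset F[X]) (s : F[X] → ℝ) (m : ℕ), (∀ v ∈ T, v.Monic ∧ Irreducible v) →
      (∀ v, s v = 1 ∨ s v = -1) → C * (∑ v ∈ T, v.natDegree + 1) ≤ m →
      ∃ P ∈ Pr F m, ∀ v ∈ T, js v P = s v := by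
  classical
  obtain ⟨K, hK, hrh⟩ := rh F h2
  obtain ⟨C, hC1, hC⟩ := prm_const K hK
  refine ⟨C, fun T s m hT hs hm => ?_⟩
  by_contra hcon
  push Not at hcon
  obtain ⟨N, hN⟩ : ∃ N, N = ∑ v ∈ T, v.natDegree := ⟨_, rfl⟩
  rw [← hN] at hm
  have h3 : 3 ≤ Nat.card F := by
    have h4 : 1 < Nat.card F := Finite.one_lt_card
    have h5 : Nat.card F ≠ 2 := by
      intro h5
      have _ : Fintype F := Fintype.ofFinite F
      have h6 := FiniteField.cast_card_eq_zero F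
      rw [← Nat.card_eq_fintype_card, h5] at h6
      exact h2 (by exact_mod_cast h6)
    omega
  have hmN : N < m := by nlinarith
  have hdeg : ∀ v ∈ T, 1 ≤ v.natDegree := fun v hv => (hT v hv).2.natDegree_pos
  have hdegN : ∀ I ⊆ T, ∑ v ∈ I, v.natDegree ≤ N := fun I hI => by
    rw [hN]
    exact Finset.sum_le_sum_of_subset hI
  have hcard : T.card ≤ N := by
    rw [hN, Finset.card_eq_sum_ones]
    exact Finset.sum_le_sum hdeg
  have hjs : ∀ P ∈ Pr F m, ∀ v ∈ T, js v P = 1 ∨ js v P = -1 := by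
    intro P hP v hv
    obtain ⟨hP1, hP2, hP3⟩ := Pool.Agent.H94.PC.mem_Pr.1 hP
    refine Pool.Agent.H94.PC.js_cases' hP1 (Pool.Agent.H94.PC.isCoprime_irr (hT v hv).1 (hT v hv).2
      hP1 hP3 ?_)
    rintro rfl
    have := hdegN {v} (Finset.singleton_subset_iff.2 hv)
    rw [Finset.sum_singleton] at this
    omega
  have hzero : ∀ P ∈ Pr F m, ∏ v ∈ T, (1 + s v * js v P) = 0 := by
    intro P hP
    obtain ⟨v, hv, hne⟩ := hcon P hP
    refine Finset.prod_eq_zero hv ?_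
    rcases hjs P hP v hv with h4 | h4 <;> rcases hs v with h5 | h5 <;> rw [h4, h5] at hne ⊢ <;>
      first
      | exact absurd rfl hne
      | norm_num
  have hsum : ∑ I ∈ T.powerset, (∏ v ∈ I, s v) * ∑ P ∈ Pr F m, js (∏ v ∈ I, v) P = 0 := by
    rw [← Finset.sum_congr rfl fun I _ => (Finset.mul_sum (Pr F m) _ _).symm]
    rw [Finset.sum_comm]
    refine Finset.sum_eq_zero fun P hP => ?_
    rw [← hzero P hP, Finset.prod_one_add]
    refine Finset.sum_congr rfl fun I _ => ?_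
    rw [Finset.prod_mul_distrib, Pool.Agent.H94.PC.js_prod_left _ _
      (Pool.Agent.H94.PC.mem_Pr.1 hP).1]
  obtain ⟨Q, hQ⟩ : ∃ Q : ℝ, Q = √((Nat.card F : ℝ) ^ m) := ⟨_, rfl⟩
  have hQ0 : 0 ≤ Q := by
    rw [hQ]
    exact Real.sqrt_nonneg _
  have hbd : ∀ I ∈ T.powerset.erase ∅,
      |(∏ v ∈ I, s v) * ∑ P ∈ Pr F m, js (∏ v ∈ I, v) P| ≤ K * N * Q := by
    intro I hI
    rw [Finset.mem_erase, Finset.mem_powerset] at hI
    obtain ⟨hI1, hI2⟩ := hI
    rw [abs_mul, Finset.abs_prod]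
    have h4 : ∏ v ∈ I, |s v| = 1 := Finset.prod_eq_one fun v _ => by
      rcases hs v with h | h <;> rw [h] <;> norm_num
    rw [h4, one_mul]
    have hI3 : ∀ v ∈ I, v.Monic ∧ Irreducible v := fun v hv => hT v (hI2 hv)
    have h5 : (∏ v ∈ I, v).natDegree = ∑ v ∈ I, v.natDegree :=
      natDegree_prod_of_monic _ _ fun v hv => (hI3 v hv).1
    have h6 : 1 ≤ (∏ v ∈ I, v).natDegree := by
      rw [h5]
      obtain ⟨v, hv⟩ := Finset.nonempty_iff_ne_empty.2 hI1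
      exact (hdeg v (hI2 hv)).trans (Finset.single_le_sum (f := fun v : F[X] => v.natDegree)
        (fun _ _ => Nat.zero_le _) hv)
    have h7 : (∏ v ∈ I, v).natDegree ≤ N := by
      rw [h5]
      exact hdegN I hI2
    have h8 := hrh m (∏ v ∈ I, v) (by omega) (Pool.Agent.H94.PC.squarefree_prod_irr I hI3) h6
    rw [← hQ] at h8
    refine h8.trans ?_
    have h9 : ((∏ v ∈ I, v).natDegree : ℝ) ≤ N := by exact_mod_cast h7
    gcongr
  have hempty : (∅ : Finset F[X]) ∈ T.powerset := Finset.empty_mem_powerset T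
  rw [← Finset.add_sum_erase _ _ hempty, Finset.prod_empty, one_mul, Finset.prod_empty] at hsum
  have h10 : ∑ P ∈ Pr F m, js (1 : F[X]) P = (Pr F m).card := by
    rw [Finset.sum_congr rfl fun P hP => Pool.Agent.H94.PC.js_one_left
      (Pool.Agent.H94.PC.mem_Pr.1 hP).1, Finset.sum_const, nsmul_eq_mul, mul_one]
  rw [h10] at hsum
  have h11 : ((Pr F m).card : ℝ) ≤ 2 ^ N * (K * N * Q) := by
    have h12 : ((Pr F m).card : ℝ) = -∑ I ∈ T.powerset.erase ∅,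
      (∏ v ∈ I, s v) * ∑ P ∈ Pr F m, js (∏ v ∈ I, v) P := by linarith
    rw [h12]
    refine (neg_le_abs _).trans ((Finset.abs_sum_le_sum_abs _ _).trans ?_)
    refine (Finset.sum_le_card_nsmul _ _ _ hbd).trans ?_
    rw [nsmul_eq_mul]
    have h13 : ((T.powerset.erase ∅).card : ℝ) ≤ 2 ^ N := by
      have h14 : (T.powerset.erase ∅).card ≤ 2 ^ N := by
        refine (Finset.card_le_card (Finset.erase_subset _ _)).trans ?_
        rw [Finset.card_powerset]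
        exact Nat.pow_le_pow_right (by norm_num) hcard
      exact_mod_cast h14
    have h15 : 0 ≤ K * N * Q := by positivity
    gcongr
  have h12 : ((Nat.card F : ℝ) ^ m) ≤ 2 * m * (Pr F m).card := by
    exact_mod_cast prn h3 (m := m) (by omega)
  have h13 : Q * Q = (Nat.card F : ℝ) ^ m := by
    rw [hQ]
    exact Real.mul_self_sqrt (by positivity)
  have h14 : √((3 : ℝ) ^ m) ≤ Q := by
    rw [hQ]
    apply Real.sqrt_le_sqrt
    have : (3 : ℝ) ≤ Nat.card F := by exact_mod_cast h3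
    gcongr
  have h15 := hC m N hm
  have hQ1 : 0 < Q := lt_of_lt_of_le (by positivity) h14
  have h16 : Q * Q ≤ (2 * (m : ℝ) * (2 : ℝ) ^ N * K * N) * Q := by
    rw [h13]
    refine h12.trans ?_
    have h17 : 2 * (m : ℝ) * (Pr F m).card ≤ 2 * m * (2 ^ N * (K * N * Q)) := by gcongr
    linarith
  have h18 := le_of_mul_le_mul_right h16 hQ1
  linarith

end Pool.Agent.H74.FS
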