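import Pool.Agent.H94.PN.SRJ2

set_option autoImplicit false

/-!
# [H74 FS Pl] The places of `F(t)` as one family

`Pl F = Option {P // P.Monic ∧ Irreducible P}`: `none` is infinity.  `Kw F w` is the completion, a complete field with valuation `Valued.v` and a map `iw w` from `RatFunc F`
(for `some P` it is `H94.PL.toP`, the `algebraMap` to the `adicCompletion` at `LT.place P`, for `none` the `algebraMap` to `RatFunc.CompletionAtInfty F`, everything by `rfl`).
`Uw χ w` is the unit logarithm, `(Uw χ w).hs` the Hilbert symbol with values in `ZMod 2`, `hw χ w` the symbol of two elements of `F(t)`.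
`ev w x` is the valuation modulo `2`.
-/

namespace Pool.Agent.H74.FS

open Polynomial WithZero IsDedekindDomain
open Pool.Agent.H94 (LT.place)
open Pool.Agent.H94.PL (toP wP LChar lm XX IsMum DK AK dl)
open Pool.Agent.H94.PM (LU vl UP UI wI toI IsVln IsSln Gam lgs)

/-- the places of `F(t)` -/
abbrev Pl (F : Type) [Field F] : Type := Option {P : F[X] // P.Monic ∧ Irreducible P}

variable {F : Type} [Field F] [DecidableEq (RatFunc F)]

/-- the completion at `w` -/
def Kw (F : Type) [Field F] [DecidableEq (RatFunc F)] : Pl F → Type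
  | none => RatFunc.CompletionAtInfty F
  | some P => (LT.place P.1 P.2.2).adicCompletion (RatFunc F)

noncomputable instance (w : Pl F) : Field (Kw F w) :=
  match w with
  | none => inferInstanceAs (Field (RatFunc.CompletionAtInfty F))
  | some P => inferInstanceAs (Field ((LT.place P.1 P.2.2).adicCompletion (RatFunc F)))

noncomputable instance (w : Pl F) : Valued (Kw F w) ℤᵐ⁰ :=
  match w with
  | none => inferInstanceAs (Valued (RatFunc.CompletionAtInfty F) ℤᵐ⁰)
  | some P => inferInstanceAs (Valued ((LT.place P.1 P.2.2).adicCompletion (RatFunc F)) ℤᵐ⁰)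

noncomputable instance (w : Pl F) : Algebra (RatFunc F) (Kw F w) :=
  match w with
  | none => inferInstanceAs (Algebra (RatFunc F) (RatFunc.CompletionAtInfty F))
  | some P => inferInstanceAs (Algebra (RatFunc F)
      ((LT.place P.1 P.2.2).adicCompletion (RatFunc F)))

instance (w : Pl F) : CompleteSpace (Kw F w) :=
  match w with
  | none => Pool.Agent.H94.PL.complete_inf F
  | some P => inferInstanceAs (CompleteSpace
      ((LT.place P.1 P.2.2).adicCompletion (RatFunc F)))

/-- the map to the completion -/
noncomputable def iw (w : Pl F) : RatFunc F →+* Kw F w := algebraMap (RatFunc F) (Kw F w)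

/-- the valuation of the completion -/
noncomputable abbrev vw (w : Pl F) : Valuation (Kw F w) ℤᵐ⁰ := Valued.v

theorem iw_none (x : RatFunc F) :
    iw (none : Pl F) x = algebraMap (RatFunc F) (RatFunc.CompletionAtInfty F) x := rfl

theorem iw_some {P : F[X]} (hP : P.Monic) (hi : Irreducible P) (x : RatFunc F) :
    iw (some ⟨P, hP, hi⟩ : Pl F) x = toP P hi x := rfl

theorem iw_ne {w : Pl F} {x : RatFunc F} (hx : x ≠ 0) : iw w x ≠ 0 := (map_ne_zero (iw w)).2 hx

/-- the valuation modulo `2` -/
noncomputable def ev (w : Pl F) (x : Kw F w) : ZMod 2 := (vl (vw w) x : ZMod 2)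

variable [Finite F] (χ : LChar F 2)

/-- the unit logarithm at `w` -/
noncomputable def Uw (w : Pl F) : LU (vw w) 2 :=
  match w with
  | none => UI χ
  | some P => UP χ P.2.1 P.2.2

/-- the symbol at `w` of two elements of `F(t)` -/
noncomputable def hw (w : Pl F) (x y : RatFunc F) : ZMod 2 := (Uw χ w).hs (iw w x) (iw w y)

/-- the group of the values of the descent map over the completion -/
noncomputable def Gw {m : ℕ} (c : F) (A : Fin m → F[X]) (D : F[X]) (w : Pl F) :
    Submodule (ZMod 2) (XX m 2 × XX m 2) :=
  Gam (Uw χ w) 1 (iw w (DK c D)) (fun k => iw w (AK A k))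

end Pool.Agent.H74.FS
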