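import Pool.Agent.H74.FS.PlB

set_option autoImplicit false

/-!
# [H74 FS SYM] The symbol of a completion

`U = Uw χ w`, `hs x y = un x * ev y - ev x * un y + un (-1) * (ev x * ev y)` in `ZMod 2` (`LU.hs`, `ev w x` is the cast of `vl`), for nonzero `x`, `y`.
* `hs_comm`: the formula is symmetric as `- = +` in `ZMod 2` (`CharTwo` or `decide`-type case analysis on the elements of `ZMod 2`; `ring` after `sub_eq_add`: `CharTwo.sub_eq_add`).
* `hs_sq`: `un (y ^ 2) = 0`, `ev (y ^ 2) = 0`.  `hs_mul`, `hs_mul'`: `hs_mul_left`, `hs_mul_right`.  `hs_even`: both valuations are even.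
* `hs_nd`: take `y` with `ev y = 1`, `un y = 0` and `y` with `ev y = 0`, `un y = 1` (`exists_cls`): `un x + un (-1) * ev x = 0` and `ev x = 0`; then `sq_iff`.
* `hs_exists`: `x`, `x'`, `x x'` not squares; a linear map `(ZMod 2)^2 → (ZMod 2)^2`, `(ev y, un y) ↦ (hs x y, hs x' y)`, which is injective: if `hs x y = 0 = hs x' y` then `y` is a square or
  `x`, `x'` are both in the subgroup `{z | hs z y = 0}` of index two of the group of square classes, which has two elements (order four), so `x`, `x'` or `x x'` is a square.  It is easiest to write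
  the classes as pairs in `ZMod 2 × ZMod 2` and to prove the statement about `ZMod 2` by `decide`: for all `e, (a, u), (a', u')` with `(a, u) ≠ 0`, `(a', u') ≠ 0`,
  `(a, u) ≠ (a', u')` and all `s, s'` there is `(b, v)` with `u b + a v + e a b = s`, `u' b + a' v + e a' b = s'`.  Then `exists_cls`.
* `hs_norm`.  (→) by the classes of `a`, `b` (`decide` for the pairs `(ev, un)`, `e = un (-1)`): `un a ev b + ev a un b + e ev a ev b = 0` implies that one of the following holds: `a` is a square, `b` is a square,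
  `- a b` is a square (`ev a + ev b = 0`, `e + un a + un b = 0`), or `ev a = ev b = 0`, `un a = un b = 1 = e`.  `a = s²`: `(x, y, z) = (1, 0, s)`.  `b = s²`: `(0, 1, s)`.  `- a b = s²`, `s ≠ 0`: `(s, a, 0)`:
  `a s² + b a² = a (s² + a b) = 0`.  Last case: `- a = s²`, `- b = t²`, `s, t ≠ 0` (`sq_iff`), and there are `n, k : ℕ` with `(n : F)² + (k : F)² = -1` (`CharP.sq_add_sq F (ringChar F) (-1)`, `F` is finite so
  the characteristic is not `0`), so `n² + k² = -1` in `Kw F w` (apply the ring homomorphism `F → Kw F w`), and `(x, y, z) = (n / s, k / t, 1)`: `a x² + b y² = - n² - k² = 1`.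
  (←) `x = 0`: `y ≠ 0` (otherwise `z = 0`), `b = (z / y)²`: `hs a b = 0`.  `y = 0` the same.  `x, y ≠ 0`, `z = 0`: `b = - a (x / y)²` and `hs a (-a) = 0` (`Sy.neg_right` for `U.sy`).
  `z ≠ 0`: `a' = a (x / z)²`, `b' = b (y / z)² = 1 - a'`, `a' ≠ 0, 1`: `hs_st`, and `hs a b = hs a' b'` (`LU.hs_pow`).
-/

namespace Pool.Agent.H74.FS

open Polynomial WithZero IsDedekindDomain
open Pool.Agent.H94.PL (LChar lm XX DK AK dl)
open Pool.Agent.H94.PM (LU vl IsVln IsSln Gam lgs)

variable {F : Type} [Field F] [DecidableEq (RatFunc F)] [Finite F] (χ : LChar F 2) {w : Pl F}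

private theorem hs_eq (x y : Kw F w) : (Uw χ w).hs x y =
    (Uw χ w).un x * ev w y - ev w x * (Uw χ w).un y +
      (Uw χ w).un (-1) * (ev w x * ev w y) := rfl

private theorem zz_comm : ∀ u v a b e : ZMod 2,
    u * b - a * v + e * (a * b) = v * a - b * u + e * (b * a) := by
  decide

private theorem zz_neg : ∀ u a e : ZMod 2, u * a - a * (e + u) + e * (a * a) = 0 := by
  decide

private theorem zz_two : ∀ a u a' u' : ZMod 2, ¬ (a = 0 ∧ u = 0) → ¬ (a' = 0 ∧ u' = 0) →
    ¬ (a + a' = 0 ∧ u + u' = 0) → u * a' - u' * a = 1 := by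
  decide

private theorem zz_ex (e a u a' u' : ZMod 2) (h1 : ¬ (a = 0 ∧ u = 0))
    (h2 : ¬ (a' = 0 ∧ u' = 0)) (h3 : ¬ (a + a' = 0 ∧ u + u' = 0)) (s s' : ZMod 2) :
    ∃ b v : ZMod 2, u * b - a * v + e * (a * b) = s ∧ u' * b - a' * v + e * (a' * b) = s' := by
  have hD := zz_two a u a' u' h1 h2 h3
  refine ⟨s * a' - s' * a, s * (u' + e * a') - s' * (u + e * a), ?_, ?_⟩
  · linear_combination s * hD
  · linear_combination s' * hD

private theorem zz_norm : ∀ ua ub ea eb e : ZMod 2, ua * eb - ea * ub + e * (ea * eb) = 0 →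
    (ea = 0 ∧ ua = 0) ∨ (eb = 0 ∧ ub = 0) ∨ (ea + eb = 0 ∧ e + (ua + ub) = 0) ∨
      ((ea = 0 ∧ e + ua = 0) ∧ (eb = 0 ∧ e + ub = 0)) := by
  decide

theorem hs_comm (x y : Kw F w) : (Uw χ w).hs x y = (Uw χ w).hs y x := by
  rw [hs_eq, hs_eq]
  exact zz_comm _ _ _ _ _

theorem hs_mul {x y z : Kw F w} (hx : x ≠ 0) (hy : y ≠ 0) (hz : z ≠ 0) :
    (Uw χ w).hs (x * y) z = (Uw χ w).hs x z + (Uw χ w).hs y z :=
  (Uw χ w).hs_mul_left x y z hx hy hz

theorem hs_mul' {x y z : Kw F w} (hx : x ≠ 0) (hy : y ≠ 0) (hz : z ≠ 0) :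
    (Uw χ w).hs x (y * z) = (Uw χ w).hs x y + (Uw χ w).hs x z :=
  (Uw χ w).hs_mul_right x y z hx hy hz

theorem hs_sq {x y : Kw F w} (hx : x ≠ 0) (hy : y ≠ 0) : (Uw χ w).hs x (y ^ 2) = 0 := by
  rw [hs_eq, ev_sq, un_sq χ hy]
  simp

theorem hs_even {x y : Kw F w} (hx : ev w x = 0) (hy : ev w y = 0) : (Uw χ w).hs x y = 0 := by
  rw [hs_eq, hx, hy]
  simp

/-- the symbol is nondegenerate -/
theorem hs_nd (hq : 2 ∣ Nat.card F - 1) {x : Kw F w} (hx : x ≠ 0)
    (h : ∀ y : Kw F w, y ≠ 0 → (Uw χ w).hs x y = 0) : ∃ z : Kw F w, z ≠ 0 ∧ x = z ^ 2 := by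
  obtain ⟨g, hg, h1, h2⟩ := exists_cls χ w 1 0
  obtain ⟨g', hg', h1', h2'⟩ := exists_cls χ w 0 1
  have hne : ∀ {f : F[X]}, f ≠ 0 → iw w (algebraMap F[X] (RatFunc F) f) ≠ 0 := fun hf =>
    iw_ne ((map_ne_zero_iff _ (IsFractionRing.injective F[X] (RatFunc F))).2 hf)
  have e1 := h _ (hne hg)
  have e2 := h _ (hne hg')
  rw [hs_eq, h1, h2] at e1
  rw [hs_eq, h1', h2'] at e2
  have e3 : ev w x = 0 := by
    rw [mul_zero, mul_zero, mul_zero, mul_one, add_zero, zero_sub, neg_eq_zero] at e2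
    exact e2
  rw [e3, mul_zero, zero_mul, mul_zero, mul_one, add_zero, sub_zero] at e1
  exact sq_of χ hq hx e3 e1

/-- prescribed symbols with two independent elements -/
theorem hs_exists (hq : 2 ∣ Nat.card F - 1) {x x' : Kw F w} (hx : x ≠ 0) (hx' : x' ≠ 0)
    (h1 : ¬ IsSquare x) (h2 : ¬ IsSquare x') (h3 : ¬ IsSquare (x * x')) (s s' : ZMod 2) :
    ∃ g : F[X], g ≠ 0 ∧ (Uw χ w).hs x (iw w (algebraMap F[X] (RatFunc F) g)) = s ∧
      (Uw χ w).hs x' (iw w (algebraMap F[X] (RatFunc F) g)) = s' := by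
  rw [sq_iff χ hq hx] at h1
  rw [sq_iff χ hq hx'] at h2
  rw [sq_iff χ hq (mul_ne_zero hx hx'), ev_mul hx hx', (Uw χ w).mul x x' hx hx'] at h3
  obtain ⟨b, v, hb, hv⟩ := zz_ex ((Uw χ w).un (-1)) _ _ _ _ h1 h2 h3 s s'
  obtain ⟨g, hg, h4, h5⟩ := exists_cls χ w b v
  refine ⟨g, hg, ?_, ?_⟩
  · rw [hs_eq, h4, h5]
    exact hb
  · rw [hs_eq, h4, h5]
    exact hv

/-- the symbol and the equation `z² = a x² + b y²` -/
theorem hs_norm (hq : 2 ∣ Nat.card F - 1) {a b : Kw F w} (ha : a ≠ 0) (hb : b ≠ 0) :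
    (Uw χ w).hs a b = 0 ↔
      ∃ x y z : Kw F w, ¬ (x = 0 ∧ y = 0 ∧ z = 0) ∧ z ^ 2 = a * x ^ 2 + b * y ^ 2 := by
  have hevn : ∀ x : Kw F w, ev w (-x) = ev w x := by
    intro x
    unfold ev
    rw [H94.PM.vl_neg]
  have hunn : ∀ {x : Kw F w}, x ≠ 0 → (Uw χ w).un (-x) = (Uw χ w).un (-1) + (Uw χ w).un x :=
    fun hx => (Uw χ w).un_neg hx
  constructor
  · intro h
    rw [hs_eq] at h
    rcases zz_norm _ _ _ _ _ h with h1 | h1 | h1 | ⟨h1, h2⟩
    · obtain ⟨s, hs⟩ := (sq_iff χ hq ha).2 h1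
      refine ⟨1, 0, s, fun h2 => one_ne_zero h2.1, ?_⟩
      rw [hs]
      ring
    · obtain ⟨s, hs⟩ := (sq_iff χ hq hb).2 h1
      refine ⟨0, 1, s, fun h2 => one_ne_zero h2.2.1, ?_⟩
      rw [hs]
      ring
    · have h2 : IsSquare (-(a * b)) := by
        rw [sq_iff χ hq (neg_ne_zero.2 (mul_ne_zero ha hb)), hevn, hunn (mul_ne_zero ha hb),
          ev_mul ha hb, (Uw χ w).mul a b ha hb]
        exact h1
      obtain ⟨s, hs⟩ := h2
      refine ⟨s, a, 0, fun h3 => ha h3.2.1, ?_⟩
      linear_combination a * hs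
    · have h3 : IsSquare (-a) := by
        rw [sq_iff χ hq (neg_ne_zero.2 ha), hevn, hunn ha]
        exact h1
      have h4 : IsSquare (-b) := by
        rw [sq_iff χ hq (neg_ne_zero.2 hb), hevn, hunn hb]
        exact h2
      obtain ⟨s, hs⟩ := h3
      obtain ⟨t, ht⟩ := h4
      have hs0 : s ≠ 0 := by
        rintro rfl
        rw [mul_zero, neg_eq_zero] at hs
        exact ha hs
      have ht0 : t ≠ 0 := by
        rintro rfl
        rw [mul_zero, neg_eq_zero] at ht
        exact hb ht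
      have hchar : NeZero (ringChar F) := ⟨CharP.ringChar_ne_zero_of_finite F⟩
      obtain ⟨n, k, hnk⟩ := CharP.sq_add_sq F (ringChar F) (-1)
      have h5 := congrArg ((iw w).comp (algebraMap F (RatFunc F))) hnk
      rw [map_add, map_pow, map_pow, map_natCast, map_natCast, map_intCast] at h5
      push_cast at h5
      refine ⟨n / s, k / t, 1, fun h6 => one_ne_zero h6.2.2, ?_⟩
      have ha' : a = -(s * s) := by rw [← hs, neg_neg]
      have hb' : b = -(t * t) := by rw [← ht, neg_neg]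
      rw [ha', hb']
      field_simp
      linear_combination h5
  · rintro ⟨x, y, z, h0, h⟩
    by_cases hx : x = 0
    · subst hx
      have hy : y ≠ 0 := by
        rintro rfl
        apply h0
        refine ⟨rfl, rfl, ?_⟩
        have h1 : z ^ 2 = 0 := by
          rw [h]
          ring
        exact pow_eq_zero_iff (two_ne_zero) |>.1 h1
      have hz : z ≠ 0 := by
        rintro rfl
        have h1 : b * y ^ 2 = 0 := by linear_combination -h
        rcases mul_eq_zero.1 h1 with h2 | h2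
        · exact hb h2
        · exact hy (pow_eq_zero_iff (two_ne_zero) |>.1 h2)
      have h1 : b = (z / y) ^ 2 := by
        field_simp
        linear_combination -h
      rw [h1]
      exact hs_sq χ ha (div_ne_zero hz hy)
    · by_cases hy : y = 0
      · subst hy
        have hz : z ≠ 0 := by
          rintro rfl
          have h1 : a * x ^ 2 = 0 := by linear_combination -h
          rcases mul_eq_zero.1 h1 with h2 | h2
          · exact ha h2
          · exact hx (pow_eq_zero_iff (two_ne_zero) |>.1 h2)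
        have h1 : a = (z / x) ^ 2 := by
          field_simp
          linear_combination -h
        rw [h1, hs_comm]
        exact hs_sq χ hb (div_ne_zero hz hx)
      · by_cases hz : z = 0
        · subst hz
          have h1 : b = -a * (x / y) ^ 2 := by
            field_simp
            linear_combination -h
          rw [h1, hs_mul' χ ha (neg_ne_zero.2 ha) (pow_ne_zero 2 (div_ne_zero hx hy)),
            hs_sq χ ha (div_ne_zero hx hy), add_zero, hs_eq, hevn, hunn ha]
          exact zz_neg _ _ _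
        · have h1 : b * (y / z) ^ 2 = 1 - a * (x / z) ^ 2 := by
            field_simp
            linear_combination -h
          have h2 : a * (x / z) ^ 2 ≠ 0 := mul_ne_zero ha (pow_ne_zero 2 (div_ne_zero hx hz))
          have h3 : b * (y / z) ^ 2 ≠ 0 := mul_ne_zero hb (pow_ne_zero 2 (div_ne_zero hy hz))
          have h4 : a * (x / z) ^ 2 ≠ 1 := by
            intro h5
            rw [h5, sub_self] at h1
            exact h3 h1
          have h5 := (Uw χ w).hs_st _ h2 h4
          rw [← h1, (Uw χ w).hs_pow ha (div_ne_zero hx hz) hb (div_ne_zero hy hz)] at h5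
          exact h5

end Pool.Agent.H74.FS
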